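import Pool.Agent.P.MP_797ab1_gt.Local

/-! TASK B2: the fundamental class of a compact oriented quotient of `E n` (Hatcher 3.27). -/

open Set Topology Function

namespace Pool.Agent.URC

section General

variable {X : Type*} [TopologicalSpace X] {n : ℕ}

/-- the three properties of Hatcher 3.27 for the complement `S` of a closed set -/
structure GoodSet (n : ℕ) (om : ∀ x : X, HH ({x}ᶜ : Set X) n) (S : Set X) : Prop where
  van : ∀ k, n < k → ∀ α : HH S k, α = 0
  inj : ∀ α : HH S n, (∀ x (hx : S ⊆ {x}ᶜ), HH.res hx α = 0) → α = 0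
  ex : ∃ α : HH S n, ∀ x (hx : S ⊆ {x}ᶜ), HH.res hx α = om x

variable {om : ∀ x : X, HH ({x}ᶜ : Set X) n}

theorem good_of_forall {S : Set X} (h : ∀ x, x ∈ S) : GoodSet n om S :=
  ⟨fun _ _ => HH.eq_zero_of_forall h, fun α _ => HH.eq_zero_of_forall h α,
    0, fun x hx => absurd rfl (hx (h x))⟩

theorem GoodSet.inter {S T : Set X} (hS : IsOpen S) (hT : IsOpen T) (h1 : GoodSet n om S)
    (h2 : GoodSet n om T) (h3 : GoodSet n om (S ∪ T)) : GoodSet n om (S ∩ T) := by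
  refine ⟨fun k hk α => mv_inj hS hT subset_rfl inter_subset_left inter_subset_right
    (h3.van _ (by omega)) α (h1.van k hk _) (h2.van k hk _),
    fun α h => mv_inj hS hT subset_rfl inter_subset_left inter_subset_right
    (h3.van _ (by omega)) α (h1.inj _ fun x hx => ?_) (h2.inj _ fun x hx => ?_), ?_⟩
  · rw [HH.res_res]; exact h x _
  · rw [HH.res_res]; exact h x _
  · obtain ⟨α, hα⟩ := h1.ex
    obtain ⟨β, hβ⟩ := h2.ex
    obtain ⟨γ, e1, e2⟩ := mv_glue hS hT α β (sub_eq_zero.1 (h3.inj _ fun x hx => by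
      rw [map_sub, HH.res_res, HH.res_res, hα, hβ, sub_self]))
    refine ⟨γ, fun x hx => ?_⟩
    by_cases h : x ∈ S
    · have hT' : T ⊆ {x}ᶜ := fun y hy e => hx (a := x) ⟨h, e ▸ hy⟩ rfl
      rw [← hβ x hT', ← e2, HH.res_res]
    · have hS' : S ⊆ {x}ᶜ := fun y hy e => h (e ▸ hy)
      rw [← hα x hS', ← e1, HH.res_res]

theorem good_biUnion (C : Set X → Prop) (hcl : ∀ A, C A → IsClosed A)
    (hP : ∀ A, C A → GoodSet n om Aᶜ) (hi : ∀ A B, C A → C B → C (A ∩ B)) {ι : Type*} (s : Finset ι)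
    (f : ι → Set X) (hf : ∀ i ∈ s, C (f i)) : GoodSet n om (⋃ i ∈ s, f i)ᶜ := by
  classical
  induction s using Finset.induction_on generalizing f with
  | empty => exact good_of_forall (by simp)
  | insert a s ha ih =>
    have h1 := hf a (Finset.mem_insert_self _ _)
    have h2 : ∀ i ∈ s, C (f i) := fun i hi => hf i (Finset.mem_insert_of_mem hi)
    rw [Finset.set_biUnion_insert, compl_union]
    refine GoodSet.inter (hcl _ h1).isOpen_compl
      (isClosed_biUnion_finset fun i hi => hcl _ (h2 i hi)).isOpen_compl (hP _ h1) (ih f h2) ?_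
    rw [← compl_inter, inter_iUnion₂]
    exact ih _ fun i h => hi _ _ h1 (h2 i h)

end General

variable {n : ℕ}

theorem good_convex {A : Set (E n)} (hA : IsCompact A) (hc : Convex ℝ A) :
    GoodSet n (fun x : E n => oc {x}) Aᶜ := by
  rcases A.eq_empty_or_nonempty with rfl | ⟨x, hx⟩
  · exact good_of_forall (by simp)
  have hx' : Aᶜ ⊆ {x}ᶜ := compl_subset_compl.2 (singleton_subset_iff.2 hx)
  have hb := fun k => (injective_iff_map_eq_zero _).1
    (res_bij (k := k) hA.isBounded (hc.starConvex hx) hx').1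
  exact ⟨fun k hk α => hb k α (vanish_pt x hk _), fun α h => hb n α (h x hx'),
    oc A, fun y hy => res_oc hA.isBounded hy⟩

theorem exists_balls {A : Set (E n)} (hA : IsCompact A) {k : ℕ} (α : HH Aᶜ k) :
    ∃ (s : Finset (E n)) (r : E n → ℝ) (h : (⋃ x ∈ s, Metric.closedBall x (r x))ᶜ ⊆ Aᶜ)
      (β : HH (⋃ x ∈ s, Metric.closedBall x (r x))ᶜ k),
      (∀ x ∈ s, x ∈ A ∧ 0 < r x) ∧ HH.res h β = α := by
  obtain ⟨c, hc, rfl⟩ := HH.exists_mk α
  have h1 : ∀ x : E n, ∃ r : ℝ, 0 < r ∧ (x ∈ A → Metric.closedBall x r ⊆ (car (bd c))ᶜ) :=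
    fun x => by
      by_cases hx : x ∈ A
      · obtain ⟨r, hr, h⟩ := Metric.nhds_basis_closedBall.mem_iff.1
          ((isCompact_car (bd c)).isClosed.isOpen_compl.mem_nhds
            fun h => mem_ChIn_iff_car.1 hc h hx)
        exact ⟨r, hr, fun _ => h⟩
      · exact ⟨1, one_pos, fun h => absurd h hx⟩
  choose r hr h1 using h1
  obtain ⟨s, hs, h2⟩ := hA.elim_nhds_subcover (fun x => Metric.closedBall x (r x))
    fun x _ => Metric.closedBall_mem_nhds x (hr x)
  refine ⟨s, r, compl_subset_compl.2 h2, HH.mk c (mem_ChIn_iff_car.2 fun y hy h => ?_),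
    fun x hx => ⟨hs x hx, hr x⟩, HH.res_mk _ _ _⟩
  obtain ⟨x, hx, h⟩ := mem_iUnion₂.1 h
  exact h1 x (hs x hx) h hy

theorem good_compact {A : Set (E n)} (hA : IsCompact A) :
    GoodSet n (fun x : E n => oc {x}) Aᶜ := by
  have key : ∀ (s : Finset (E n)) (r : E n → ℝ),
      GoodSet n (fun x : E n => oc {x}) (⋃ x ∈ s, Metric.closedBall x (r x))ᶜ := fun s r =>
    good_biUnion (fun A => IsCompact A ∧ Convex ℝ A) (fun _ h => h.1.isClosed)
      (fun _ h => good_convex h.1 h.2) (fun _ _ h h' => ⟨h.1.inter h'.1, h.2.inter h'.2⟩) s _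
      fun x _ => ⟨isCompact_closedBall _ _, convex_closedBall _ _⟩
  refine ⟨fun k hk α => ?_, fun α h => ?_, oc A, fun y hy => res_oc hA.isBounded hy⟩
  · obtain ⟨s, r, h, β, -, rfl⟩ := exists_balls hA α
    rw [(key s r).van k hk β, map_zero]
  · obtain ⟨s, r, h1, β, h2, rfl⟩ := exists_balls hA α
    rw [(key s r).inj β fun y hy => ?_, map_zero]
    obtain ⟨x, hx, h3⟩ : ∃ x ∈ s, y ∈ Metric.closedBall x (r x) := by
      by_contra h4
      exact hy (a := y) (by simpa using h4) rfl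
    have k1 : (⋃ x ∈ s, Metric.closedBall x (r x))ᶜ ⊆ (Metric.closedBall x (r x))ᶜ :=
      compl_subset_compl.2 (subset_iUnion₂ (s := fun x (_ : x ∈ s) => Metric.closedBall x (r x))
        x hx)
    have k2 : x ∈ Metric.closedBall x (r x) := Metric.mem_closedBall_self (h2 x hx).2.le
    have k3 : (Metric.closedBall x (r x))ᶜ ⊆ {x}ᶜ :=
      compl_subset_compl.2 (singleton_subset_iff.2 k2)
    have k4 := (injective_iff_map_eq_zero _).1 (res_bij (k := n) Metric.isBounded_closedBall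
      ((convex_closedBall x (r x)).starConvex k2) k3).1 (HH.res k1 β) (by
        have := h x (compl_subset_compl.2 (singleton_subset_iff.2 (h2 x hx).1))
        rw [HH.res_res] at this ⊢
        exact this)
    rw [← HH.res_res k1 (compl_subset_compl.2 (singleton_subset_iff.2 h3)), k4, map_zero]

section Transfer

variable {M : Type*} [TopologicalSpace M] [T2Space M]

theorem bij_pt (j : C(E n, M)) (hj : IsOpenEmbedding j) {z : E n} {x : M} (e : j z = x) {k : ℕ}
    (h : MapsTo j {z}ᶜ {x}ᶜ) : Bijective (HH.map j h : HH {z}ᶜ k → HH {x}ᶜ k) :=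
  excision j hj (A := {z}ᶜ) (T := {x}ᶜ) isOpen_compl_singleton (fun y => by
    by_cases hy : y = x
    · exact Or.inl ⟨z, e.trans hy.symm⟩
    · exact Or.inr hy) (fun w hw h => hw ((congrArg j h).trans e)) h

theorem good_image {om : ∀ x : M, HH ({x}ᶜ : Set M) n} (j : C(E n, M)) (hj : IsOpenEmbedding j)
    (s : ℤ) (hom : ∀ z, om (j z) = s • HH.map j (mapsTo_pt hj.injective z) (oc {z}))
    {K : Set (E n)} (hK : IsCompact K) : GoodSet n om (j '' K)ᶜ := by
  have h : MapsTo j Kᶜ (j '' K)ᶜ := fun x hx h => hx (hj.injective.mem_set_image.1 h)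
  have hb := fun k => excision (k := k) j hj (A := Kᶜ) (hK.image j.continuous).isClosed.isOpen_compl
    (fun y => by
      by_cases hy : y ∈ j '' K
      · exact Or.inl (image_subset_range _ _ hy)
      · exact Or.inr hy) (fun x hx hx' => hx ⟨x, hx', rfl⟩) h
  have hG := good_compact hK
  refine ⟨fun k hk α => ?_, fun α h0 => ?_, s • HH.map j h (oc K), fun x hx => ?_⟩
  · obtain ⟨β, rfl⟩ := (hb k).2 α
    rw [hG.van k hk β, map_zero]
  · obtain ⟨β, rfl⟩ := (hb n).2 α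
    rw [hG.inj β fun z hz => ?_, map_zero]
    have hz' : z ∈ K := by
      by_contra h1
      exact hz h1 rfl
    refine (injective_iff_map_eq_zero _).1 (bij_pt j hj rfl (mapsTo_pt hj.injective z)).1 _ ?_
    have := h0 (j z) (compl_subset_compl.2 (singleton_subset_iff.2 ⟨z, hz', rfl⟩))
    rw [HH.res_map] at this
    rw [HH.map_res, this]
  · obtain ⟨z, hz, rfl⟩ : x ∈ j '' K := by
      by_contra h1
      exact hx h1 rfl
    rw [hom, map_zsmul, HH.res_map,
      ← res_oc hK.isBounded (compl_subset_compl.2 (singleton_subset_iff.2 hz)), HH.map_res]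

omit [T2Space M] in
theorem loc_comp (p : C(E n, M)) {β ψ : C(E n, E n)} (hβ : IsOpenEmbedding β)
    (hψ : IsOpenEmbedding ψ) {z : E n} {x : M} (h : MapsTo (p.comp (β.comp ψ)) {z}ᶜ {x}ᶜ)
    (h' : MapsTo (p.comp β) {ψ z}ᶜ {x}ᶜ) :
    (sgn (β.comp ψ) : ℤ) • HH.map (p.comp (β.comp ψ)) h (oc {z}) =
      (sgn β : ℤ) • HH.map (p.comp β) h' (oc {ψ z}) := by
  have e : HH.map (p.comp (β.comp ψ)) h (oc {z}) =
      HH.map (p.comp β) h' (HH.map ψ (mapsTo_pt hψ.injective z) (oc {z})) := by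
    rw [HH.map_map]; rfl
  rw [e, sgn_spec hψ, map_zsmul, sgn_comp hβ hψ, smul_smul, ← Units.val_mul, mul_assoc,
    Int.units_mul_self, mul_one]

omit [T2Space M] in
theorem loc_same (p : C(E n, M)) {β β' : C(E n, E n)} (hβ : IsOpenEmbedding β)
    (hβ' : IsOpenEmbedding β') {z z' : E n} (e : β z = β' z') {x : M}
    (h : MapsTo (p.comp β) {z}ᶜ {x}ᶜ) (h' : MapsTo (p.comp β') {z'}ᶜ {x}ᶜ) :
    (sgn β : ℤ) • HH.map (p.comp β) h (oc {z}) =
      (sgn β' : ℤ) • HH.map (p.comp β') h' (oc {z'}) := by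
  obtain ⟨β₀, h0, e0, h1⟩ := exists_emb (β z) (U := range β ∩ range β')
    ((hβ.isOpen_range.inter hβ'.isOpen_range).mem_nhds ⟨⟨z, rfl⟩, z', e.symm⟩)
  have key : ∀ {γ : C(E n, E n)} (_ : IsOpenEmbedding γ) {w : E n} (_ : γ w = β₀ 0)
      (_ : ∀ y, β₀ y ∈ range γ) (k : MapsTo (p.comp γ) {w}ᶜ {x}ᶜ),
      ∃ k0 : MapsTo (p.comp β₀) {0}ᶜ {x}ᶜ, (sgn β₀ : ℤ) • HH.map (p.comp β₀) k0 (oc {0}) =
        (sgn γ : ℤ) • HH.map (p.comp γ) k (oc {w}) := by
    intro γ hγ w hw hr k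
    choose τ hτ using hr
    have hc : γ ∘ τ = β₀ := funext hτ
    let ψ : C(E n, E n) := ⟨τ, hγ.isInducing.continuous_iff.2 (hc ▸ β₀.continuous)⟩
    have hψ : IsOpenEmbedding ψ := IsOpenEmbedding.of_comp τ hγ (hc ▸ h0)
    obtain rfl : w = ψ 0 := hγ.injective (hw.trans (hτ 0).symm)
    have e2 : β₀ = γ.comp ψ := ContinuousMap.ext fun y => (hτ y).symm
    rw [e2]
    exact ⟨k.comp (mapsTo_pt hψ.injective 0), loc_comp p hγ hψ _ k⟩
  obtain ⟨k1, e1⟩ := key hβ e0.symm (fun y => (h1 y).1) h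
  obtain ⟨k2, e2⟩ := key hβ' (e.symm.trans e0.symm) (fun y => (h1 y).2) h'
  rw [← e1, ← e2]

end Transfer

theorem fund {n : ℕ} (hn : 0 < n) {M : Type*} [TopologicalSpace M] [T2Space M] [CompactSpace M]
    (p : C(E n, M)) (hs : Surjective p) (ho : IsOpenMap p) (hl : ∀ x, ∃ U ∈ 𝓝 x, InjOn p U)
    (hd : ∀ x y, p x = p y → ∃ ψ : C(E n, E n), IsOpenEmbedding ψ ∧ sgn ψ = 1 ∧ ψ x = y ∧
      ∀ z, p (ψ z) = p z) :
    ∃ (c : Ch M (n + 1)) (hc : bd c ∈ ChIn (∅ : Set M) n), IsFund n c ∧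
      ∀ (β : C(E n, E n)), IsOpenEmbedding β → ∀ (hi : Injective (p.comp β)) (z : E n),
        HH.res (empty_subset _) (HH.mk c hc) =
          (sgn β : ℤ) • HH.map (p.comp β) (mapsTo_pt hi z) (oc {z}) := by
  have hch : ∀ x : M, ∃ β : C(E n, E n), IsOpenEmbedding β ∧ Injective (p.comp β) ∧
      p.comp β 0 = x := fun x => by
    obtain ⟨y, rfl⟩ := hs x
    obtain ⟨U, hU, hi⟩ := hl y
    obtain ⟨β, h1, h2, h3⟩ := exists_emb y hU
    exact ⟨β, h1, fun a b e => h1.injective (hi (h3 a) (h3 b) e), congrArg p h2⟩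
  choose B hB hBi hB0 using hch
  have hoe : ∀ β : C(E n, E n), IsOpenEmbedding β → Injective (p.comp β) →
      IsOpenEmbedding (p.comp β) := fun β h hi =>
    .of_continuous_injective_isOpenMap (p.comp β).continuous hi (ho.comp h.isOpenMap)
  have hm : ∀ x : M, MapsTo (p.comp (B x)) {0}ᶜ {x}ᶜ := fun x y hy e =>
    hy (hBi x (e.trans (hB0 x).symm))
  let om : ∀ x : M, HH ({x}ᶜ : Set M) n := fun x =>
    (sgn (B x) : ℤ) • HH.map (p.comp (B x)) (hm x) (oc {0})
  have hom : ∀ (β : C(E n, E n)), IsOpenEmbedding β → ∀ (hi : Injective (p.comp β)) (z : E n),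
      om (p.comp β z) = (sgn β : ℤ) • HH.map (p.comp β) (mapsTo_pt hi z) (oc {z}) := by
    intro β hβ hi z
    obtain ⟨ψ, h1, h2, h3, h4⟩ := hd (β z) (B (p.comp β z) 0) (hB0 _).symm
    have e : p.comp (ψ.comp β) = p.comp β := ContinuousMap.ext fun y => h4 _
    have k : MapsTo (p.comp (ψ.comp β)) {z}ᶜ {p.comp β z}ᶜ := e ▸ mapsTo_pt hi z
    have := loc_same p (β := ψ.comp β) (h1.comp hβ) (hB _) h3 k (hm _)
    rw [sgn_comp h1 hβ, h2, one_mul, HH.map_congr e k (mapsTo_pt hi z)] at this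
    exact this.symm
  obtain ⟨s, -, h2⟩ := isCompact_univ.elim_nhds_subcover
    (fun x => p.comp (B x) '' Metric.closedBall 0 1) fun x _ => by
      have := (hoe _ (hB x) (hBi x)).image_mem_nhds.2 (Metric.closedBall_mem_nhds 0 one_pos)
      rwa [hB0] at this
  have hG := good_biUnion (om := om)
    (fun A => ∃ x K, IsCompact K ∧ A = p.comp (B x) '' K)
    (by
      rintro _ ⟨x, K, hK, rfl⟩
      exact (hK.image (p.comp (B x)).continuous).isClosed)
    (by
      rintro _ ⟨x, K, hK, rfl⟩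
      exact good_image _ (hoe _ (hB x) (hBi x)) _ (hom _ (hB x) (hBi x)) hK)
    (by
      rintro _ _ ⟨x, K, hK, rfl⟩ ⟨x', K', hK', rfl⟩
      exact ⟨x, _, hK.inter_right ((hK'.image (p.comp (B x')).continuous).isClosed.preimage
        (p.comp (B x)).continuous), (image_inter_preimage _ _ _).symm⟩)
    s _ fun x _ => ⟨x, _, isCompact_closedBall 0 1, rfl⟩
  rw [univ_subset_iff.1 h2, compl_univ] at hG
  obtain ⟨α, hα⟩ := hG.ex
  obtain ⟨c, hc, rfl⟩ := HH.exists_mk α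
  refine ⟨c, hc, ⟨?_, fun x => ?_⟩, fun β hβ hi z => (hα _ _).trans (hom β hβ hi z)⟩
  · obtain ⟨m, rfl⟩ : ∃ m, n = m + 1 := ⟨n - 1, by omega⟩
    exact mem_ChIn_empty.1 hc
  · have hg : Gen (om x) :=
      ((gen_oc_pt 0).map _ (bij_pt _ (hoe _ (hB x) (hBi x)) (hB0 x) (hm x))).units_smul _
    rw [← hα x (empty_subset _), HH.res_mk] at hg
    refine ⟨fun c' hc' => ?_, fun m h => hg.1 ?_⟩
    · obtain ⟨m, h⟩ := hg.2 (HH.mk c' hc')
      exact ⟨m, HH.mk_eq_mk.1 (h.symm.trans (HH.mk_zsmul _ _))⟩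
    · simp only [zero_smul]
      exact (HH.mk_zsmul _ _).trans (HH.mk_eq_zero.2 h)

end Pool.Agent.URC
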