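import Pool.Agent.P.MP_797ab1_gt.Final

/-! Walls, congruence subgroups and rigidity for an abstract arithmetic lattice. -/

open Set

namespace Pool.Agent.URC.AG

open ArAux

noncomputable section

variable {n : ℕ}

/-- Abstract arithmetic data: `P K r` means that the other conjugates of `r` are at most `K`. -/
structure AD (L : AddSubgroup (V n)) (P : ℝ → ℝ → Prop) : Prop where
  mono : ∀ {K K' r : ℝ}, P K r → K ≤ K' → P K' r
  ex : ∀ u ∈ L, ∃ K, P K (lor u u)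
  cs : ∀ {K : ℝ}, ∀ u ∈ L, ∀ v ∈ L, P K (lor u u) → P K (lor v v) → P K (lor u v)
  sub : ∀ {K : ℝ}, ∀ u ∈ L, ∀ v ∈ L, P K (lor u u) → P K (lor v v) →
    P (4 * K) (lor (u - v) (u - v))
  rig : ∀ {K r r' : ℝ} {m : ℕ}, ∀ u ∈ L, ∀ c ∈ L, 2 * K < m → P K r → P K r' → |r' - r| < m →
    r' = r + m * lor u c → r' = r
  fin : ∀ R : ℝ, {r | |r| ≤ R ∧ P R r}.Finite
  fg : L.FG

/-- the stabiliser of the lattice -/
def St (L : AddSubgroup (V n)) : Subgroup (Isom n) where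
  carrier := {g | ∀ v : V n, g • v ∈ L ↔ v ∈ L}
  mul_mem' := fun {a b} ha hb v => by rw [mul_smul, ha, hb]
  one_mem' := fun v => by rw [one_smul]
  inv_mem' := fun {a} ha v => by rw [← ha, smul_inv_smul]

variable {L : AddSubgroup (V n)} {P : ℝ → ℝ → Prop}

lemma St.act {g : Isom n} (hg : g ∈ St L) {u : V n} (hu : u ∈ L) : g • u ∈ L := (hg u).2 hu

lemma exists_small {v : V n} (h : lor v v = 0) {ε : ℝ} (hε : 0 < ε) :
    ∃ x : Hyp n, |lor x.1 v| ≤ ε := by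
  wlog h0 : 0 ≤ v 0 generalizing v
  · obtain ⟨x, hx⟩ := this (v := -v) (by simpa using h) (by simpa using (not_le.1 h0).le)
    exact ⟨x, by simpa using hx⟩
  set τ : ℝ := v 0 / ε ^ 2 with hτ
  have hτ0 : 0 ≤ τ := by positivity
  have hS : 0 < 1 + 2 * τ * v 0 := by positivity
  have hs := Real.sqrt_pos.2 hS
  have hs2 := Real.sq_sqrt hS.le
  obtain ⟨x, hx⟩ := exists_norm (e0 : Hyp n) (y := (e0 : Hyp n).1 + τ • v) hs (by
    rw [hs2]
    simp only [lor_add_left, lor_add_right, lor_smul_left, lor_smul_right, lor_self, h,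
      lor_comm v (e0 : Hyp n).1, lor_e0 v]
    ring) (by
    simp only [lor_add_right, lor_smul_right, lor_self, lor_e0 v]
    nlinarith [mul_nonneg hτ0 h0])
  refine ⟨x, ?_⟩
  rw [hx, lor_smul_left, lor_add_left, lor_smul_left, h, lor_e0, mul_zero, add_zero, abs_mul,
    abs_neg, abs_of_nonneg h0, abs_of_pos (inv_pos.2 hs), inv_mul_le_iff₀ hs]
  refine (abs_le_of_sq_le_sq' ?_ (by positivity)).2
  rw [mul_pow, hs2]
  have : τ * ε ^ 2 = v 0 := by rw [hτ]; field_simp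
  nlinarith [sq_nonneg (v 0), sq_nonneg ε]

lemma abs_lor_iso (x y : Hyp n) {w : V n} (h : lor w w = 0) :
    |lor y.1 w| ≤ 2 * dd x y * |lor x.1 w| := by
  have h1 := maj_cs x y.1 w
  rw [h, lor_self, lor_eq_neg_dd, zero_add] at h1
  have h2 := dd_pos x y
  have h3 : |lor y.1 w + -dd x y * lor x.1 w| ≤ dd x y * |lor x.1 w| := by
    refine abs_le_of_sq_le_sq' ?_ (by positivity) |> abs_le.2
    rw [mul_pow, sq_abs]
    nlinarith [sq_nonneg (lor x.1 w)]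
  have h4 : |lor y.1 w| ≤ |lor y.1 w + -dd x y * lor x.1 w| + |dd x y * lor x.1 w| := by
    refine le_trans (le_of_eq ?_) (abs_add_le _ _)
    congr 1
    ring
  rw [abs_mul, abs_of_pos h2] at h4
  linarith

/-- a cocompact stabiliser forces the lattice to be anisotropic -/
lemma AD.aniso (hA : AD L P) (hC : Cocpt (St L)) {c : ℝ} (hc : 0 < c)
    (h0 : c • (e0 : Hyp n).1 ∈ L) {v : V n} (hv : v ∈ L) (h : lor v v = 0) : v = 0 := by
  obtain ⟨R, hR⟩ := hC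
  obtain ⟨K1, k1⟩ := hA.ex v hv
  obtain ⟨K2, k2⟩ := hA.ex _ h0
  set K := max (max K1 K2) 1 with hK
  have hK1 : 1 ≤ K := le_max_right _ _
  have k1' := hA.mono k1 (K' := K) ((le_max_left _ _).trans (le_max_left _ _))
  have k2' := hA.mono k2 (K' := K) ((le_max_right _ _).trans (le_max_left _ _))
  obtain ⟨δ, hδ, hδ1, hδ'⟩ : ∃ δ : ℝ, 0 < δ ∧ δ ≤ 1 ∧ ∀ r, |r| ≤ K → P K r → |r| < δ → r = 0 := by
    have hf := ((hA.fin K).subset (t := {r | (|r| ≤ K ∧ P K r) ∧ r ≠ 0}) fun r hr => hr.1)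
    rcases {r | (|r| ≤ K ∧ P K r) ∧ r ≠ 0}.eq_empty_or_nonempty with e | e
    · refine ⟨1, one_pos, le_rfl, fun r h1 h2 _ => ?_⟩
      by_contra h3
      exact (e ▸ (⟨⟨h1, h2⟩, h3⟩ : r ∈ {r | (|r| ≤ K ∧ P K r) ∧ r ≠ 0}) : r ∈ (∅ : Set ℝ))
    · obtain ⟨r0, h1, h2⟩ := exists_min_image _ (fun r : ℝ => |r|) hf e
      refine ⟨min |r0| 1, lt_min (abs_pos.2 h1.2) one_pos, min_le_right _ _, fun r a b d => ?_⟩
      by_contra h3
      exact absurd ((min_le_left _ _).trans (h2 r ⟨⟨a, b⟩, h3⟩)) (not_le.2 d)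
  have hR1 : 1 ≤ R := by
    obtain ⟨γ, -, h⟩ := hR e0
    exact (one_le_dd _ _).trans h
  obtain ⟨x, hx⟩ := exists_small h (ε := δ / (4 * R * c)) (by positivity)
  obtain ⟨γ, hγ, h1⟩ := hR x
  have hw : lor (γ • v) (γ • v) = 0 := by rw [lor_smul_smul, h]
  have h2 := abs_lor_iso (γ • x) e0 hw
  rw [smul_val, lor_smul_smul, dd_comm] at h2
  have h3 : |lor (c • (e0 : Hyp n).1) (γ • v)| < δ := by
    rw [lor_smul_left, abs_mul, abs_of_pos hc]
    have h4 : |lor (e0 : Hyp n).1 (γ • v)| ≤ 2 * R * (δ / (4 * R * c)) := by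
      refine h2.trans ?_
      have := dd_pos (e0 : Hyp n) (γ • x)
      gcongr
    have h5 : c * (2 * R * (δ / (4 * R * c))) = δ / 2 := by field_simp; ring
    have h6 : c * |lor (e0 : Hyp n).1 (γ • v)| ≤ δ / 2 := by rw [← h5]; gcongr
    linarith
  have h4 := hδ' _ (by linarith) (hA.cs _ h0 _ (St.act hγ hv) k2' (by rwa [lor_smul_smul])) h3
  rw [lor_smul_left, mul_eq_zero] at h4
  have h5 := perp_eq_zero e0 (h4.resolve_left hc.ne') hw.le
  rwa [smul_eq_zero_iff_eq] at h5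

/-- the principal congruence subgroup -/
def Cg (L : AddSubgroup (V n)) (m : ℕ) : Subgroup (Isom n) where
  carrier := {g | g ∈ St L ∧ ∀ u ∈ L, ∃ c ∈ L, g • u = u + (m : ℝ) • c}
  mul_mem' := by
    rintro a b ⟨ha, ha'⟩ ⟨hb, hb'⟩
    refine ⟨mul_mem ha hb, fun u hu => ?_⟩
    obtain ⟨c, h1, hc⟩ := hb' u hu
    obtain ⟨c', h2, hc'⟩ := ha' u hu
    refine ⟨c' + a • c, add_mem h2 (St.act ha h1), ?_⟩
    rw [mul_smul, hc, smul_add, hc', isom_smul_comm, smul_add, add_assoc]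
  one_mem' := ⟨one_mem _, fun u _ => ⟨0, zero_mem _, by simp⟩⟩
  inv_mem' := by
    rintro a ⟨ha, ha'⟩
    refine ⟨inv_mem ha, fun u hu => ?_⟩
    obtain ⟨c, h1, hc⟩ := ha' _ (St.act (inv_mem ha) hu)
    refine ⟨-c, neg_mem h1, ?_⟩
    rw [smul_inv_smul] at hc
    rw [smul_neg, ← sub_eq_add_neg, eq_sub_iff_add_eq, ← hc]

lemma Cg_conj {m : ℕ} {g γ : Isom n} (hg : g ∈ St L) (hγ : γ ∈ Cg L m) :
    g * γ * g⁻¹ ∈ Cg L m := by
  refine ⟨mul_mem (mul_mem hg hγ.1) (inv_mem hg), fun u hu => ?_⟩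
  obtain ⟨c, h1, hc⟩ := hγ.2 _ (St.act (inv_mem hg) hu)
  refine ⟨g • c, St.act hg h1, ?_⟩
  rw [mul_smul, mul_smul, hc, smul_add, smul_inv_smul, isom_smul_comm]

lemma Cg_index (hL : L.FG) {m : ℕ} (hm : m ≠ 0) : (Cg L m).relIndex (St L) ≠ 0 := by
  have : AddGroup.FG L := (AddGroup.fg_iff_addSubgroup_fg L).2 hL
  have := AddSubgroup.finiteIndex_range_nsmulAddMonoidHom_of_fg L hm
  obtain ⟨T, hT⟩ := hL
  have hT' : ∀ τ : T, τ.1 ∈ L := fun τ => hT ▸ AddSubgroup.subset_closure τ.2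
  refine index_ne_zero_of_map _ (fun (g : St L) (τ : T) =>
    (QuotientAddGroup.mk (⟨g.1 • τ.1, St.act g.2 (hT' τ)⟩ : L) :
      L ⧸ (nsmulAddMonoidHom (α := L) m).range)) fun a b hab => ?_
  have h1 : ∀ u ∈ L, ∃ c ∈ L, b.1 • u = a.1 • u + (m : ℝ) • c := by
    intro u hu
    rw [← hT] at hu
    induction hu using AddSubgroup.closure_induction with
    | mem x hx =>
      obtain ⟨c, hc⟩ := QuotientAddGroup.eq.1 (congrFun hab ⟨x, hx⟩)
      refine ⟨c.1, c.2, ?_⟩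
      have := congrArg Subtype.val hc
      simp only [nsmulAddMonoidHom_apply, AddSubgroup.coe_nsmul, AddSubgroup.coe_add,
        AddSubgroup.coe_neg] at this
      rw [Nat.cast_smul_eq_nsmul, this]
      abel
    | zero => exact ⟨0, zero_mem _, by simp⟩
    | add x y _ _ hx hy =>
      obtain ⟨c, h1, h2⟩ := hx
      obtain ⟨c', k1, k2⟩ := hy
      refine ⟨c + c', add_mem h1 k1, ?_⟩
      rw [smul_add, smul_add, smul_add, h2, k2]
      abel
    | neg x _ hx =>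
      obtain ⟨c, h1, h2⟩ := hx
      refine ⟨-c, neg_mem h1, ?_⟩
      rw [smul_neg, smul_neg, smul_neg, h2]
      abel
  refine Subgroup.mem_subgroupOf.2 ⟨(a⁻¹ * b).2, fun u hu => ?_⟩
  obtain ⟨c, h2, h3⟩ := h1 u hu
  refine ⟨a.1⁻¹ • c, St.act (inv_mem a.2) h2, ?_⟩
  change (a.1⁻¹ * b.1) • u = _
  rw [mul_smul, h3, smul_add, inv_smul_smul, isom_smul_comm]

lemma Cg_rigid (hA : AD L P) {m : ℕ} {γ : Isom n} (hγ : γ ∈ Cg L m) {K : ℝ} (hK : 2 * K < m)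
    {u v : V n} (hu : u ∈ L) (hv : v ∈ L) (h1 : |lor u v| ≤ K) (h2 : |lor u (γ • v)| ≤ K)
    (pu : P K (lor u u)) (pv : P K (lor v v)) : lor u (γ • v) = lor u v := by
  obtain ⟨c, k1, hc⟩ := hγ.2 v hv
  refine hA.rig u hu c k1 hK (hA.cs u hu v hv pu pv)
    (hA.cs u hu _ (St.act hγ.1 hv) pu (by rwa [lor_smul_smul]))
    ((abs_sub _ _).trans_lt (by linarith)) ?_
  rw [hc, lor_add_right, lor_smul_right]

lemma Cg_fix (hA : AD L P) (ha : ∀ v ∈ L, lor v v = 0 → v = 0) {m : ℕ} {γ : Isom n}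
    (hγ : γ ∈ Cg L m) {K : ℝ} (hK : 2 * K < m) {u : V n} (hu : u ∈ L) (h1 : |lor u u| ≤ K)
    (h2 : |lor u (γ • u)| ≤ K) (pu : P K (lor u u)) : γ • u = u := by
  have h := Cg_rigid hA hγ hK hu hu h1 h2 pu pu
  refine sub_eq_zero.1 (ha _ (sub_mem (St.act hγ.1 hu) hu) ?_)
  simp only [lor_sub_left, lor_sub_right, lor_smul_smul, lor_comm (γ • u) u, h]
  ring

/-- the walls: normalised short spacelike lattice vectors -/
def Wl (L : AddSubgroup (V n)) (P : ℝ → ℝ → Prop) (R : ℝ) : Set (V n) :=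
  nm '' {u | u ∈ L ∧ 0 < lor u u ∧ lor u u ≤ R ∧ P R (lor u u)}

/-- a frame of lattice vectors along the coordinate axes -/
structure Fr (L : AddSubgroup (V n)) (P : ℝ → ℝ → Prop) (c : Fin (n + 1) → ℝ) (M : ℝ) : Prop where
  pos : ∀ j, 0 < c j
  le : ∀ j, c j ^ 2 ≤ M
  mem0 : c 0 • (e0 : Hyp n).1 ∈ L
  mem : ∀ k : Fin n, c k.succ • ev k ∈ L
  p0 : P M (-(c 0 ^ 2))
  p : ∀ k : Fin n, P M (c k.succ ^ 2)

variable {c : Fin (n + 1) → ℝ} {M : ℝ}

lemma lor_c0 (a : ℝ) : lor (a • (e0 : Hyp n).1) (a • (e0 : Hyp n).1) = -(a ^ 2) := by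
  rw [lor_smul_left, lor_smul_right, lor_self]; ring

lemma lor_ck (a : ℝ) (k : Fin n) : lor (a • ev k) (a • ev k) = a ^ 2 := by
  rw [lor_smul_left, lor_smul_right, lor_ev_ev, if_pos rfl]; ring

lemma Fr.nonneg (hF : Fr L P c M) : 0 ≤ M := (sq_nonneg _).trans (hF.le 0)

lemma finite_L (hA : AD L P) (hF : Fr L P c M) (R : ℝ) :
    {u | u ∈ L ∧ P R (lor u u) ∧ ∀ j, |u j| ≤ R}.Finite := by
  set K := |R| + M + (1 + M) * |R| with hK
  have hM := hF.nonneg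
  have h0 : 0 ≤ (1 + M) * |R| := by positivity
  have h1 : R ≤ K := by linarith [le_abs_self R]
  have h2 : M ≤ K := by linarith [abs_nonneg R]
  have hb : ∀ j (y : ℝ), |y| ≤ R → |c j * y| ≤ K := fun j y hy => by
    have := abs_le_of_sq (hF.le j)
    rw [abs_mul]
    have : |c j| * |y| ≤ (1 + M) * |R| := by
      have := hy.trans (le_abs_self R)
      gcongr
    linarith [abs_nonneg R]
  refine Finite.of_finite_image (f := fun u j => c j * u j)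
    ((Finite.pi' fun _ : Fin (n + 1) => (hA.fin K).union ((hA.fin K).image Neg.neg)).subset ?_)
    fun u _ v _ e => funext fun j => mul_left_cancel₀ (hF.pos j).ne' (congrFun e j)
  rintro _ ⟨u, ⟨hu, pu, bu⟩, rfl⟩ j
  refine Fin.cases ?_ (fun k => ?_) j
  · refine Or.inr ⟨-(c 0 * u 0), ⟨by rw [abs_neg]; exact hb 0 _ (bu 0), ?_⟩, neg_neg _⟩
    have := hA.cs _ hF.mem0 u hu (by rw [lor_c0]; exact hA.mono hF.p0 h2) (hA.mono pu h1)
    rwa [lor_smul_left, lor_e0, mul_neg] at this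
  · refine Or.inl ⟨hb _ _ (bu _), ?_⟩
    have := hA.cs _ (hF.mem k) u hu (by rw [lor_ck]; exact hA.mono (hF.p k) h2) (hA.mono pu h1)
    rwa [lor_smul_left, lor_ev] at this

lemma walls_Wl (hA : AD L P) (hF : Fr L P c M) (R : ℝ) : Walls (Wl L P R) := by
  refine ⟨?_, ?_, fun T => ?_⟩
  · rintro _ ⟨u, hu, rfl⟩
    exact lor_nm hu.2.1
  · rintro _ ⟨u, hu, rfl⟩
    refine ⟨-u, ⟨neg_mem hu.1, by simpa using hu.2⟩, ?_⟩
    simp [nm]
  · refine ((finite_L hA hF (1 + (R + R * T ^ 2))).image nm).subset ?_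
    rintro _ ⟨⟨u, hu, rfl⟩, hT⟩
    have hR : 0 ≤ R := hu.2.1.le.trans hu.2.2.1
    have h1 : 0 ≤ R * T ^ 2 := by positivity
    refine ⟨u, ⟨hu.1, hA.mono hu.2.2.2 (by linarith), fun j => abs_le_of_sq ?_⟩, rfl⟩
    have h0 : u 0 ^ 2 ≤ R * T ^ 2 := by
      rw [lor_e0, abs_neg] at hT
      have e := congrFun (eq_smul_nm hu.2.1) 0
      rw [e, Pi.smul_apply, smul_eq_mul, mul_pow, Real.sq_sqrt hu.2.1.le, ← sq_abs]
      have := hu.2.2.1
      gcongr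
    refine Fin.cases ?_ (fun k => ?_) j
    · linarith
    · linarith [sq_le_lor u k, hu.2.2.1]

lemma invt_Wl (R : ℝ) : Invt (St L) (Wl L P R) := by
  rintro g hg _ ⟨u, hu, rfl⟩
  exact ⟨g • u, ⟨St.act hg hu.1, by simpa only [lor_smul_smul] using hu.2⟩, (nm_smul g u).symm⟩

lemma ev_mem (hA : AD L P) (hF : Fr L P c M) {R : ℝ} (hR : M ≤ R) (k : Fin n) :
    ev k ∈ Wl L P R := by
  have h := hF.pos k.succ
  refine ⟨c k.succ • ev k, ⟨hF.mem k, ?_, ?_, ?_⟩, ?_⟩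
  · rw [lor_ck]; positivity
  · rw [lor_ck]; exact (hF.le _).trans hR
  · rw [lor_ck]; exact hA.mono (hF.p k) hR
  · rw [nm, lor_ck, Real.sqrt_sq h.le, smul_smul, inv_mul_cancel₀ h.ne', one_smul]

lemma bis_mem (hA : AD L P) (hF : Fr L P c M) {R₀ : ℝ} {γ γ' : Isom n} (hγ : γ ∈ St L)
    (hγ' : γ' ∈ St L) (hne : γ • (e0 : Hyp n) ≠ γ' • e0)
    (hd : dd (γ • (e0 : Hyp n)) (γ' • e0) ≤ R₀) :
    ∃ t : ℝ, 0 < t ∧
      t • ((γ • (e0 : Hyp n)).1 - (γ' • (e0 : Hyp n)).1) ∈ Wl L P (4 * M + 2 * M * |R₀|) := by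
  have ha := St.act hγ hF.mem0
  have ha' := St.act hγ' hF.mem0
  have hc := hF.pos 0
  have hM := hF.nonneg
  obtain ⟨a, hae⟩ : ∃ a, a = γ • c 0 • (e0 : Hyp n).1 := ⟨_, rfl⟩
  obtain ⟨a', hae'⟩ : ∃ a, a = γ' • c 0 • (e0 : Hyp n).1 := ⟨_, rfl⟩
  rw [← hae] at ha
  rw [← hae'] at ha'
  have e : a - a' = c 0 • ((γ • (e0 : Hyp n)).1 - (γ' • (e0 : Hyp n)).1) := by
    rw [hae, hae', isom_smul_comm, isom_smul_comm, smul_sub, smul_val, smul_val]
  have h1 : 1 < dd (γ • (e0 : Hyp n)) (γ' • e0) := not_le.1 fun h => hne (eq_of_dd_le_one h)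
  have e2 : lor (a - a') (a - a') = c 0 ^ 2 * (2 * dd (γ • (e0 : Hyp n)) (γ' • e0) - 2) := by
    rw [e]
    simp only [lor_smul_left, lor_smul_right, lor_sub_left, lor_sub_right, lor_self,
      lor_eq_neg_dd, dd_comm (γ' • (e0 : Hyp n)) (γ • e0)]
    ring
  have hpos : 0 < lor (a - a') (a - a') := by
    rw [e2]
    exact mul_pos (by positivity) (by linarith)
  have h2 : 0 ≤ 2 * M * |R₀| := by positivity
  refine ⟨(√(lor (a - a') (a - a')))⁻¹ * c 0, mul_pos (inv_pos.2 (Real.sqrt_pos.2 hpos)) hc,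
    a - a', ⟨sub_mem ha ha', hpos, ?_, hA.mono (hA.sub (K := M) _ ha _ ha' ?_ ?_) (by linarith)⟩,
    ?_⟩
  · rw [e2]
    have h3 := hF.le 0
    have h4 := hd.trans (le_abs_self R₀)
    clear e2 e hae hae' hpos hne hd
    generalize dd (γ • (e0 : Hyp n)) (γ' • e0) = D at h1 h4 ⊢
    have h5 : c 0 ^ 2 * (2 * D - 2) ≤ M * (2 * |R₀|) :=
      mul_le_mul h3 (by linarith) (by linarith) hM
    linarith
  · rw [hae, lor_smul_smul, lor_c0]; exact hF.p0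
  · rw [hae', lor_smul_smul, lor_c0]; exact hF.p0
  · rw [mul_smul, ← e, nm]

lemma rigid_Cg (hA : AD L P) (ha : ∀ v ∈ L, lor v v = 0 → v = 0) {R B K : ℝ} {m : ℕ}
    (hK : 2 * K < m) (h1 : R * B ≤ K) (h2 : R ≤ K) : Rigid (Cg L m) (Wl L P R) B := by
  constructor
  · rintro γ hγ _ ⟨u, hu, rfl⟩ _ ⟨v, hv, rfl⟩ b1 b2
    simp only [nm_smul] at b2 ⊢
    have c1 := abs_lor_le hu.2.1 hu.2.2.1 hv.2.1 hv.2.2.1 b1
    have c2 := abs_lor_le hu.2.1 hu.2.2.1 (z := γ • v) (by rw [lor_smul_smul]; exact hv.2.1)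
      (by rw [lor_smul_smul]; exact hv.2.2.1) b2
    have := Cg_rigid hA hγ hK hu.1 hv.1 (c1.trans h1) (c2.trans h1) (hA.mono hu.2.2.2 h2)
      (hA.mono hv.2.2.2 h2)
    simp only [nm, lor_smul_left, lor_smul_right, lor_smul_smul, this]
  · rintro γ hγ _ ⟨u, hu, rfl⟩ b2
    simp only [nm_smul] at b2 ⊢
    have c2 := abs_lor_le hu.2.1 hu.2.2.1 (z := γ • u) (by rw [lor_smul_smul]; exact hu.2.1)
      (by rw [lor_smul_smul]; exact hu.2.2.1) b2
    rw [Cg_fix hA ha hγ hK hu.1 (by rw [abs_of_pos hu.2.1]; exact hu.2.2.1.trans h2)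
      (c2.trans h1) (hA.mono hu.2.2.2 h2)]

lemma eq_one_of_dd (hA : AD L P) (ha : ∀ v ∈ L, lor v v = 0 → v = 0) (hF : Fr L P c M)
    {D K : ℝ} {m : ℕ} (hK : 2 * K < m) (hD : M * D ≤ K) {γ : Isom n}
    (hγ : γ ∈ Cg L m) (h : dd e0 (γ • (e0 : Hyp n)) ≤ D) : γ = 1 := by
  have d1 := one_le_dd e0 (γ • (e0 : Hyp n))
  have hM := hF.nonneg
  have hMK : M ≤ K := by nlinarith
  have h0 : γ • (e0 : Hyp n).1 = (e0 : Hyp n).1 := by
    have := Cg_fix hA ha hγ hK hF.mem0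
      (by rw [lor_c0, abs_neg, abs_of_nonneg (sq_nonneg _)]; exact (hF.le 0).trans hMK)
      (by
        rw [isom_smul_comm, lor_smul_left, lor_smul_right, ← smul_val, lor_eq_neg_dd, ← mul_assoc,
          ← sq, abs_mul, abs_neg, abs_of_nonneg (sq_nonneg _), abs_of_pos (dd_pos _ _)]
        exact (mul_le_mul (hF.le 0) h (by linarith) hM).trans hD)
      (by rw [lor_c0]; exact hA.mono hF.p0 hMK)
    rw [isom_smul_comm] at this
    exact smul_right_injective _ (hF.pos 0).ne' this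
  have hk : ∀ k : Fin n, γ • ev k = ev k := by
    intro k
    have h1 : lor (ev k) (ev k) = 1 := by rw [lor_ev_ev, if_pos rfl]
    have h2 : lor (e0 : Hyp n).1 (ev k) = 0 := by
      rw [lor_e0]
      simp [ev, (Fin.succ_ne_zero k).symm]
    have h3 : lor (e0 : Hyp n).1 (γ • ev k) = 0 := by rw [← h0, lor_smul_smul, h2]
    have h4 := abs_lor_lor_le e0 h1 (w := γ • ev k) (by rw [lor_smul_smul, h1]) (a := 0) (b := 0)
      (by rw [h2, abs_zero]) (by rw [h3, abs_zero])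
    have := Cg_fix hA ha hγ hK (hF.mem k)
      (by rw [lor_ck, abs_of_nonneg (sq_nonneg _)]; exact (hF.le _).trans hMK)
      (by
        rw [isom_smul_comm, lor_smul_left, lor_smul_right, ← mul_assoc, ← sq, abs_mul,
          abs_of_nonneg (sq_nonneg _)]
        refine (mul_le_mul (hF.le _) h4 (abs_nonneg _) hM).trans ?_
        linarith)
      (by rw [lor_ck]; exact hA.mono (hF.p k) hMK)
    rw [isom_smul_comm] at this
    exact smul_right_injective _ (hF.pos _).ne' this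
  refine Subtype.ext (LinearEquiv.toLinearMap_injective ((Pi.basisFun ℝ _).ext fun i => ?_))
  rw [Pi.basisFun_apply]
  exact Fin.cases h0 hk i

lemma displ_Cg (hA : AD L P) (ha : ∀ v ∈ L, lor v v = 0 → v = 0) (hF : Fr L P c M)
    {R B K : ℝ} {m : ℕ} (hR : ∀ x : Hyp n, ∃ γ ∈ St L, dd e0 (γ • x) ≤ R)
    (hK : 2 * K < m) (h : M * (4 * R ^ 2 * |B|) ≤ K) : Displ (Cg L m) B := by
  intro γ hγ x hx
  obtain ⟨g, hg, hgx⟩ := hR x
  have key : g * γ * g⁻¹ = 1 := by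
    refine eq_one_of_dd hA ha hF hK h (Cg_conj hg hγ) ?_
    set γ' := g * γ * g⁻¹ with hγ'
    have a1 := dd_tri e0 (g • x) (γ' • (e0 : Hyp n))
    have a2 := dd_tri (g • x) (γ' • g • x) (γ' • (e0 : Hyp n))
    have a3 : dd (g • x) (γ' • g • x) ≤ |B| := by
      rw [hγ', mul_smul, mul_smul, inv_smul_smul, dd_smul_smul]
      exact hx.trans (le_abs_self B)
    rw [dd_smul_smul, dd_comm (g • x) e0] at a2
    have p1 := dd_pos e0 (g • x)
    have p2 := dd_pos (g • x) (γ' • g • x)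
    have p3 := dd_pos (g • x) (γ' • (e0 : Hyp n))
    have p4 : 0 < R := p1.trans_le hgx
    have a4 : dd (g • x) (γ' • (e0 : Hyp n)) ≤ 2 * |B| * R := a2.trans (by gcongr)
    calc dd e0 (γ' • (e0 : Hyp n)) ≤ 2 * R * (2 * |B| * R) := a1.trans (by gcongr)
      _ = 4 * R ^ 2 * |B| := by ring
  have : γ = g⁻¹ * (g * γ * g⁻¹) * g := by group
  rw [this, key, mul_one, inv_mul_cancel]

lemma exists_fr (hA : AD L P) (h0 : ∃ a : ℝ, 0 < a ∧ a • (e0 : Hyp n).1 ∈ L)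
    (hk : ∀ k : Fin n, ∃ a : ℝ, 0 < a ∧ a • ev k ∈ L) : ∃ c M, Fr L P c M := by
  obtain ⟨a0, p0, m0⟩ := h0
  choose a p m using hk
  obtain ⟨K0, k0⟩ := hA.ex _ m0
  choose K k using fun j => hA.ex _ (m j)
  rw [lor_c0] at k0
  simp only [lor_ck] at k
  obtain ⟨M, hM⟩ := (finite_range fun j : Fin n => max (a j ^ 2) (K j)).bddAbove
  refine ⟨Fin.cons a0 a, max M (max (a0 ^ 2) K0), fun j => Fin.cases p0 p j, fun j => ?_, m0, m,
    hA.mono k0 ((le_max_right _ _).trans (le_max_right _ _)), fun j =>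
      hA.mono (k j) (((le_max_right _ _).trans (hM ⟨j, rfl⟩)).trans (le_max_left _ _))⟩
  refine Fin.cases ?_ (fun j => ?_) j
  · exact (le_max_left _ _).trans (le_max_right _ _)
  · exact ((le_max_left _ _).trans (hM ⟨j, rfl⟩)).trans (le_max_left _ _)

/-- every cocompact group preserving the lattice has a finite-index subgroup acting specially -/
theorem exists_good (hA : AD L P) (h0 : ∃ a : ℝ, 0 < a ∧ a • (e0 : Hyp n).1 ∈ L)
    (hk : ∀ k : Fin n, ∃ a : ℝ, 0 < a ∧ a • ev k ∈ L) {G : Subgroup (Isom n)} (hG : G ≤ St L)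
    (hC : Cocpt G) (B₀ : ℝ) : ∃ Γ ≤ G, ∃ (W : Set (V n)) (κ B : ℝ),
      Good Γ W κ B ∧ B₀ ≤ B ∧ ∀ k, ev k ∈ W := by
  obtain ⟨R, hR⟩ := hC
  have hR' : ∀ x : Hyp n, ∃ γ ∈ St L, dd e0 (γ • x) ≤ R := fun x =>
    let ⟨γ, h1, h2⟩ := hR x; ⟨γ, hG h1, h2⟩
  have hR1 : 1 ≤ R := by
    obtain ⟨γ, -, h⟩ := hR e0
    exact (one_le_dd _ _).trans h
  obtain ⟨c, M, hF⟩ := exists_fr hA h0 hk
  have ha : ∀ v ∈ L, lor v v = 0 → v = 0 := fun v hv h =>
    hA.aniso ⟨R, hR'⟩ (hF.pos 0) hF.mem0 hv h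
  have hM := hF.nonneg
  set R₀ := 4 * R ^ 2 * (1 + (3 * R) ^ 2) with hR₀
  set B := max B₀ (1000 * (3 * R) ^ 2) with hB
  set S := 4 * M + 2 * M * |R₀| with hS
  have hS0 : 0 ≤ 2 * M * |R₀| := by positivity
  set K := S * |B| + S + M * (4 * R ^ 2 * |B|) with hK
  obtain ⟨m, hm⟩ := exists_nat_gt (2 * K)
  have p0 : 0 ≤ S := by linarith
  have p1 : 0 ≤ S * |B| := by positivity
  have p2 : 0 ≤ M * (4 * R ^ 2 * |B|) := by positivity
  have p3 : S * B ≤ S * |B| := by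
    have := le_abs_self B
    gcongr
  have hm0 : m ≠ 0 := by
    rintro rfl
    simp only [Nat.cast_zero] at hm
    have : 0 ≤ K := by linarith
    linarith
  have hi : (Cg L m ⊓ G).relIndex G ≠ 0 := by
    rw [Subgroup.inf_relIndex_right]
    exact mt (Subgroup.relIndex_eq_zero_of_le_right hG) (Cg_index hA.fg hm0)
  have hr := rigid_Cg hA ha (R := S) (B := B) hm (by linarith) (by linarith)
  have hd := displ_Cg hA ha hF (B := B) hR' hm (by linarith)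
  exact ⟨Cg L m ⊓ G, inf_le_right, Wl L P S, (3 * R) ^ 2, B,
    ⟨walls_Wl hA hF _, fun γ hγ => invt_Wl _ γ hγ.1.1, Cocpt.mono ⟨R, hR⟩ hi,
      KeyAux.sep_of hR1 hR' fun γ hγ γ' hγ' h1 h2 => bis_mem hA hF hγ hγ' h1 h2, by nlinarith,
      ⟨fun γ hγ => hr.1 γ hγ.1, fun γ hγ => hr.2 γ hγ.1⟩, fun γ hγ => hd γ hγ.1,
      le_max_right _ _⟩, le_max_left _ _, ev_mem hA hF (by linarith)⟩

end

end Pool.Agent.URC.AG
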