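import Pool.Agent.P.MP_797ab1_gt.Stmt

/-! Definitions used in the statement: arithmetic groups of simplest type. -/

namespace Pool.Agent.URC.AG

open NumberField

noncomputable section

variable {n : ℕ}

/-- The integral points: all vectors `∑ ι(x j) b j` with `x j` algebraic integers of `K`. -/
def Lat {K : Type} [Field K] (ι : K →+* ℝ) (b : Fin (n + 1) → V n) : Set (V n) :=
  {v | ∃ x : Fin (n + 1) → 𝓞 K, v = ∑ j, ι (x j) • b j}

/-- The bijection `g` of hyperbolic space is induced by a matrix that maps `L` into `L`. -/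
def Pres (L : Set (V n)) (g : Equiv.Perm (Hyp n)) : Prop :=
  ∃ A : Matrix (Fin (n + 1)) (Fin (n + 1)) ℝ,
    (∀ x : Hyp n, (g x).1 = A.mulVec x.1) ∧ Set.MapsTo A.mulVec L L

/-- `Γ` is arithmetic of simplest type: there are a totally real number field `K`, a real
embedding `ι` and a quadratic form `q` with coefficients in the ring of integers of `K`, which
is the Lorentz form at `ι` (written in some basis `b`) and is definite at every other real
embedding, such that a finite-index subgroup of `Γ` preserves the integral points. -/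
def IsSimplest (Γ : Subgroup (Equiv.Perm (Hyp n))) : Prop :=
  ∃ (K : Type) (_ : Field K) (_ : NumberField K) (_ : IsTotallyReal K) (ι : K →+* ℝ)
    (q : Matrix (Fin (n + 1)) (Fin (n + 1)) (𝓞 K)) (b : Module.Basis (Fin (n + 1)) ℝ (V n)),
    (∀ i j, lor (b i) (b j) = ι (q i j)) ∧
    (∀ σ : K →+* ℝ, σ ≠ ι →
      (q.map fun a => σ a).PosDef ∨ (-q.map fun a => σ a).PosDef) ∧
    ∃ Γ₁ ≤ Γ, Γ₁.relIndex Γ ≠ 0 ∧ ∀ g ∈ Γ₁, Pres (Lat ι b) g

end

end Pool.Agent.URC.AG
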