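import Pool.Agent.P.MP_797ab1_gt.AGArith

/-! Universal realisation for every quotient covered by a special cocompact group. -/

open Set Function

namespace Pool.Agent.URC.AG

universe u

variable {n : ℕ}

theorem urc_of_good (hn : 0 < n) {M : Type} [TopologicalSpace M] [T2Space M] [ConnectedSpace M]
    {π : Hyp n → M} (hπ : IsLocalHomeomorph π) {Γ : Subgroup (Isom n)}
    (hinv : ∀ g ∈ Γ, ∀ x, π (g • x) = π x) {W : Set (V n)} {κ B : ℝ} (hG : Good Γ W κ B)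
    (hB : 4 * (n : ℝ) + 100 ≤ B) (he : ∀ k, ev k ∈ W) : IsURC.{u} n M := by
  have hF := hG.fam he hB
  set F : Fin n → Set (V n) := fun k => {v : V n | ∃ γ ∈ Γ, γ • ev k = v}
  have hI : ∀ k, Invt Γ (F k) := by
    rintro k γ hγ _ ⟨γ', hγ', rfl⟩
    exact ⟨γ * γ', mul_mem hγ hγ', mul_smul _ _ _⟩
  obtain ⟨Γ₁, l1, i1, ho, P, ε, hP, hε, hsg⟩ := exists_eps hF hI
  have hI1 : ∀ k, Invt Γ₁ (F k) := fun k γ h => hI k γ (l1 h)
  obtain ⟨Γ₂, l2, i2, ℓ, hℓ, hγ, hfl⟩ := label hn (hG.mono l1 i1) hF hI1 ε hε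
  have hG2 := (hG.mono l1 i1).mono l2 i2
  have hfr : Frame F ev := ⟨fun k => ⟨1, one_mem _, one_smul _ _⟩, on_ev.2⟩
  obtain ⟨π₀, hπ₀, -⟩ := hfl _ hfr
  refine isURC_of hn fun X _ _ z hz => ?_
  obtain ⟨Γ', hle, hidx, h⟩ := urc hn hF (fun k γ h => hI1 k γ (l2 h)) hG2.displ hF.le_B hG2.cocpt
    (fun γ h => ho γ (l2 h)) hℓ hγ P hP (by
      intro w o π k1 k2 k3
      obtain ⟨p, h1, h2, h3⟩ := hsg w o k1 k3
      obtain ⟨π', h4, h5⟩ := hfl p h1
      have : Flg ℓ p π := fun k => by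
        rw [← k2 k]
        rcases h2 k with e | e
        · rw [e]
        · rw [e, hℓ.neg]
      rw [h3, ← h5, flg_unique this h4])
    ⟨fun k => Or.inl (hfr.1 k), hfr.2⟩ hπ₀ z hz
  have hD' := (hG2.mono hle hidx).displ
  let p : Quo Γ' → M := Quotient.lift π fun x y h => by
    obtain ⟨γ, h1, rfl⟩ := (pr_eq_iff (Γ := Γ')).1 (Quotient.sound h)
    exact (hinv γ (l1 (l2 (hle h1))) x).symm
  have h1 : IsLocalHomeomorphOn p (pr Γ' '' univ) :=
    IsLocalHomeomorphOn.of_comp_right (g := p) (f := pr Γ') hπ.isLocalHomeomorphOn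
      (CvAux.isLocalHomeomorph_pr hD' hF.le_B).isLocalHomeomorphOn
  rw [image_univ_of_surjective pr_surjective, ← isLocalHomeomorph_iff_isLocalHomeomorphOn_univ]
    at h1
  exact ⟨Quo Γ', inferInstance, p, connectedSpace_quo, compactSpace_quo (hG2.cocpt.mono hidx),
    t2Space_quo hD' hF.le_B, h1, h⟩

lemma linear_ext {f g : V n →ₗ[ℝ] V n} (h : ∀ x : Hyp n, f x.1 = g x.1) : f = g := by
  refine (Pi.basisFun ℝ _).ext fun i => ?_
  rw [Pi.basisFun_apply]
  refine Fin.cases (h e0) (fun k => ?_) i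
  have h2 : lor (e0 : Hyp n).1 (ev k) = 0 := by
    rw [lor_e0]
    simp [ev, (Fin.succ_ne_zero k).symm]
  have hs := Real.mul_self_sqrt (show (0 : ℝ) ≤ 2 by norm_num)
  have hx : IsH (√2 • (e0 : Hyp n).1 + ev k) := isH_of e0 (by
    simp only [lor_add_left, lor_add_right, lor_smul_left, lor_smul_right, lor_self, h2,
      lor_comm (ev k) (e0 : Hyp n).1, lor_ev_ev, if_true]
    linarith) (by
    simp only [lor_add_right, lor_smul_right, lor_self, h2]
    have := Real.sqrt_pos.2 (show (0 : ℝ) < 2 by norm_num)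
    linarith)
  have := h ⟨_, hx⟩
  simp only [map_add, map_smul, h e0, add_right_inj] at this
  exact this

/-- the isometry attached to a matrix -/
lemma exists_isom {A : Matrix (Fin (n + 1)) (Fin (n + 1)) ℝ} (h1 : A.det = 1)
    (h2 : ∀ x y, lor (A.mulVec x) (A.mulVec y) = lor x y) (h3 : 0 < A.mulVec (e0 : Hyp n).1 0) :
    ∃ γ : Isom n, ∀ v : V n, γ • v = A.mulVec v := by
  have hx : IsH (A.mulVec (e0 : Hyp n).1) := ⟨by rw [h2, lor_self], h3⟩
  have hu : IsUnit (LinearMap.toMatrix (Pi.basisFun ℝ _) (Pi.basisFun ℝ _)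
      (Matrix.toLin' A)).det := by
    rw [LinearMap.det_toMatrix, LinearMap.det_toLin', h1]
    exact isUnit_one
  refine ⟨⟨LinearEquiv.ofIsUnitDet hu, Units.ext ?_, h2, fun x => ⟨fun k => ?_, fun k => ?_⟩⟩,
    fun v => rfl⟩
  · rw [LinearEquiv.coe_det, LinearEquiv.coe_ofIsUnitDet, LinearMap.det_toLin', h1]
    rfl
  · refine isH_of e0 (by rw [← h2]; exact k.1) ?_
    rw [← h2]
    exact neg_pos.1 (dd_pos ⟨_, hx⟩ ⟨_, k⟩)
  · refine isH_of ⟨_, hx⟩ ((h2 x x).trans k.1) ?_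
    change lor (A.mulVec _) (A.mulVec _) < 0
    rw [h2]
    exact neg_pos.1 (dd_pos e0 ⟨_, k⟩)

/-- the action of the isometry group as a homomorphism to the permutations -/
noncomputable abbrev φ (n : ℕ) : Isom n →* Equiv.Perm (Hyp n) :=
  MulAction.toPermHom (Isom n) (Hyp n)

lemma exists_φ {g : Equiv.Perm (Hyp n)} (h : IsIsom g) : ∃ γ : Isom n, φ n γ = g := by
  obtain ⟨A, h1, h2, h3⟩ := h
  obtain ⟨γ, hγ⟩ := exists_isom h1 h2 (by rw [← h3]; exact (g e0).2.2)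
  exact ⟨γ, Equiv.ext fun x => Subtype.ext ((hγ _).trans (h3 x).symm)⟩

lemma cocpt_of {Γ : Subgroup (Equiv.Perm (Hyp n))} (h : ∀ g ∈ Γ, IsIsom g)
    [ContinuousConstSMul Γ (Hyp n)] [CompactSpace (MulAction.orbitRel.Quotient Γ (Hyp n))] :
    Cocpt (Γ.comap (φ n)) := by
  let π : Hyp n → MulAction.orbitRel.Quotient Γ (Hyp n) := Quotient.mk _
  have hπ : IsOpenMap π := isOpenMap_quotient_mk'_mul
  obtain ⟨R, hR⟩ := isCompact_univ.elim_directed_cover (fun R : ℝ => π '' {x | dd e0 x < R})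
    (fun R => hπ _ (isOpen_lt (by fun_prop) continuous_const))
    (fun y _ => by
      obtain ⟨x, rfl⟩ := Quotient.exists_rep y
      exact mem_iUnion.2 ⟨dd e0 x + 1, x, lt_add_one (dd e0 x), rfl⟩)
    (Monotone.directed_le fun R R' hR => image_mono fun x hx => lt_of_lt_of_le hx hR)
  refine ⟨R, fun x => ?_⟩
  obtain ⟨y, h1, h2⟩ := hR (mem_univ (π x))
  obtain ⟨g, rfl⟩ := MulAction.orbitRel_apply.1 (Quotient.exact h2)
  obtain ⟨γ, hγ⟩ := exists_φ (h g.1 g.2)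
  refine ⟨γ, by rw [Subgroup.mem_comap, hγ]; exact g.2, ?_⟩
  have : γ • x = g • x := by
    change φ n γ x = g.1 x
    rw [hγ]
  rw [this]
  exact le_of_lt h1

theorem urc_of_AD (hn : 0 < n) {L : AddSubgroup (V n)} {P : ℝ → ℝ → Prop} (hA : AD L P)
    (h : Isom n) (h0 : ∃ a : ℝ, 0 < a ∧ a • h • (e0 : Hyp n).1 ∈ L)
    (hk : ∀ k : Fin n, ∃ a : ℝ, 0 < a ∧ a • h • ev k ∈ L)
    {Γ Γ₁ : Subgroup (Equiv.Perm (Hyp n))} (h1 : ∀ g ∈ Γ, IsIsom g)
    (h2 : ∀ g ∈ Γ, ∀ x : Hyp n, g x = x → g = 1) [ProperlyDiscontinuousSMul Γ (Hyp n)]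
    [CompactSpace (MulAction.orbitRel.Quotient Γ (Hyp n))] (hle : Γ₁ ≤ Γ)
    (hi : Γ₁.relIndex Γ ≠ 0) (hL : ∀ γ : Isom n, φ n γ ∈ Γ₁ → ∀ v ∈ L, γ • v ∈ L) :
    IsURC.{u} n (MulAction.orbitRel.Quotient Γ (Hyp n)) := by
  have : ContinuousConstSMul Γ (Hyp n) := ⟨fun g => by
    obtain ⟨γ, hγ⟩ := exists_φ (h1 g.1 g.2)
    have : (fun x : Hyp n => g • x) = fun x => γ • x := funext fun x => by
      change g.1 x = φ n γ x
      rw [hγ]
    rw [this]
    exact continuous_const_smul γ⟩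
  have : IsCancelSMul Γ (Hyp n) :=
    isCancelSMul_iff_eq_one_of_smul_eq.2 fun g x e => Subtype.ext (h2 g.1 g.2 x e)
  have : T2Space (MulAction.orbitRel.Quotient Γ (Hyp n)) :=
    t2Space_of_properlyDiscontinuousSMul_of_t2Space
  let π : Hyp n → MulAction.orbitRel.Quotient Γ (Hyp n) := Quotient.mk _
  have hπ : IsLocalHomeomorph π :=
    isQuotientCoveringMap_quotientMk_of_properlyDiscontinuousSMul.isCoveringMap.isLocalHomeomorph
  have : ConnectedSpace (Hyp n) :=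
    (chi ev).symm.surjective.connectedSpace (chi ev).symm.continuous
  have : ConnectedSpace (MulAction.orbitRel.Quotient Γ (Hyp n)) :=
    Quotient.mk_surjective.connectedSpace hπ.continuous
  obtain ⟨R, hR⟩ := (cocpt_of h1).mono (Subgroup.relIndex_comap_ne_zero (φ n) hi)
  let e : V n →+ V n := DistribSMul.toAddMonoidHom (V n) h
  let e' : V n →+ V n := DistribSMul.toAddMonoidHom (V n) h⁻¹
  have hm : ∀ {v : V n}, v ∈ L.comap e ↔ h • v ∈ L := Iff.rfl
  have hA' : AD (L.comap e) P :=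
    { mono := hA.mono
      ex := fun u hu => by simpa only [lor_smul_smul] using hA.ex _ (hm.1 hu)
      cs := fun u hu v hv => by
        simpa only [lor_smul_smul] using hA.cs _ (hm.1 hu) _ (hm.1 hv)
      sub := fun u hu v hv => by
        simpa only [← smul_sub, lor_smul_smul] using hA.sub _ (hm.1 hu) _ (hm.1 hv)
      rig := fun u hu c hc => by
        simpa only [lor_smul_smul] using hA.rig _ (hm.1 hu) _ (hm.1 hc)
      fin := hA.fin
      fg := by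
        have : L.comap e = L.map e' := by
          ext v
          exact ⟨fun k => ⟨h • v, k, inv_smul_smul h v⟩, by
            rintro ⟨w, k, rfl⟩
            exact hm.2 ((smul_inv_smul h w).symm ▸ k)⟩
        obtain ⟨T, hT⟩ := hA.fg
        classical
        exact ⟨T.image e', by rw [this, ← hT, AddMonoidHom.map_closure, Finset.coe_image]⟩ }
  let G : Subgroup (Isom n) := (Γ₁.comap (φ n)).comap (MulAut.conj h).toMonoidHom
  have hG : ∀ {g : Isom n}, g ∈ G ↔ φ n (h * g * h⁻¹) ∈ Γ₁ := Iff.rfl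
  have hGL : ∀ g ∈ G, ∀ v ∈ L.comap e, g • v ∈ L.comap e := fun g hg v hv => by
    have := hL _ (hG.1 hg) _ (hm.1 hv)
    rwa [mul_smul, mul_smul, inv_smul_smul] at this
  obtain ⟨Γ₀, l0, W, κ, B, k1, k2, k3⟩ := exists_good hA'
    (by obtain ⟨a, p, m⟩ := h0; exact ⟨a, p, hm.2 (by rwa [isom_smul_comm])⟩)
    (fun k => by obtain ⟨a, p, m⟩ := hk k; exact ⟨a, p, hm.2 (by rwa [isom_smul_comm])⟩)
    (G := G) (fun g hg v => ⟨fun k => by simpa using hGL _ (inv_mem hg) _ k, hGL g hg v⟩)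
    ⟨2 * dd e0 (h⁻¹ • e0) * R, fun x => by
      obtain ⟨γ, a1, a2⟩ := hR (h • x)
      refine ⟨h⁻¹ * γ * h, hG.2 (by simpa [mul_assoc] using a1), ?_⟩
      refine (dd_tri _ (h⁻¹ • e0) _).trans ?_
      rw [mul_smul, mul_smul, dd_smul_smul]
      have := dd_pos (e0 : Hyp n) (h⁻¹ • e0)
      gcongr⟩ (4 * (n : ℝ) + 100)
  refine urc_of_good hn (π := fun x => π (h • x))
    (hπ.comp (Homeomorph.smul h).isLocalHomeomorph) (fun g hg x => ?_) k1 k2 k3
  refine Quotient.sound (MulAction.orbitRel_apply.2 ⟨⟨_, hle (hG.1 (l0 hg))⟩, ?_⟩)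
  change (h * g * h⁻¹) • h • x = h • g • x
  rw [mul_smul, mul_smul, inv_smul_smul]

end Pool.Agent.URC.AG
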