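import Pool.Agent.P.MP_797ab1_gt.AGMain
import Pool.Agent.P.MP_797ab1_gt.AGDefs

/-! From a quadratic form over a totally real number field to the abstract data. -/

open Set NumberField Matrix

namespace Pool.Agent.URC.AG

universe u

noncomputable section

variable {n : ℕ}

lemma exists_isom' {f : V n →ₗ[ℝ] V n} (h1 : LinearMap.det f = 1)
    (h2 : ∀ x y, lor (f x) (f y) = lor x y) (h3 : 0 < f (e0 : Hyp n).1 0) :
    ∃ γ : Isom n, ∀ v : V n, γ • v = f v := by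
  simpa only [LinearMap.toMatrix'_mulVec] using exists_isom (A := LinearMap.toMatrix' f)
    (by rw [LinearMap.det_toMatrix', h1]) (by simpa only [LinearMap.toMatrix'_mulVec] using h2)
    (by rwa [LinearMap.toMatrix'_mulVec])

lemma frame0 (hn : 0 < n) {u : Fin (n + 1) → V n} (ho : ∀ i j, i ≠ j → lor (u i) (u j) = 0)
    (h0 : lor (u 0) (u 0) = -1) (h1 : 0 < u 0 0) (hk : ∀ k : Fin n, lor (u k.succ) (u k.succ) = 1) :
    ∃ h : Isom n, h • (e0 : Hyp n).1 = u 0 ∧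
      ∀ k, h • ev k = u k.succ ∨ h • ev k = -u k.succ := by
  let f : V n →ₗ[ℝ] V n := (Pi.basisFun ℝ _).constr ℝ u
  have hf : ∀ j, f (Pi.single j 1) = u j := fun j => by
    rw [← Pi.basisFun_apply]; exact (Pi.basisFun ℝ _).constr_basis ℝ u j
  have hx : ∀ x : V n, f x = ∑ j, x j • u j := fun x => by
    simp [f, Module.Basis.constr_apply_fintype]
  have h2 : ∀ x y, lor (f x) (f y) = lor x y := fun x y => by
    have : ∀ i, lor (u i) (∑ j, y j • u j) = y i * lor (u i) (u i) := fun i => by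
      rw [lor_sum_right, Finset.sum_eq_single i (fun j _ hj => by
        rw [lor_smul_right, ho i j hj.symm, mul_zero]) (by simp), lor_smul_right]
    rw [hx, hx, lor_sum_left]
    simp only [lor_smul_left, this]
    rw [Fin.sum_univ_succ]
    simp only [h0, hk, mul_one]
    rw [lor]
    ring
  rcases sq_eq_one_iff.1 (Cc.det_sq h2) with hd | hd
  · obtain ⟨h, hh⟩ := exists_isom' hd h2 (by rw [show f (e0 : Hyp n).1 = u 0 from hf 0]; exact h1)
    exact ⟨h, (hh _).trans (hf 0), fun k => Or.inl ((hh _).trans (hf _))⟩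
  · have e1 : Cc.fl (Fin.succ ⟨0, hn⟩) (e0 : Hyp n).1 = (e0 : Hyp n).1 := by
      funext j
      rw [Cc.fl_apply]
      split_ifs with e
      · simp [e, e0]
      · rfl
    obtain ⟨h, hh⟩ := exists_isom' (f := f ∘ₗ (Cc.fl (Fin.succ ⟨0, hn⟩)).toLinearMap) (by
      change LinearMap.det (f ∘ₗ Cc.sc _ (-1)) = 1
      rw [LinearMap.det_comp, Cc.det_sc, hd]; norm_num)
      (fun x y => (h2 _ _).trans (Cc.lor_fl _ x y)) (by
        change 0 < f (Cc.fl _ _) 0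
        rw [e1, show f (e0 : Hyp n).1 = u 0 from hf 0]; exact h1)
    refine ⟨h, ?_, fun k => ?_⟩
    · rw [hh]
      change f (Cc.fl _ _) = _
      rw [e1]; exact hf 0
    · rw [hh]
      change f (Cc.fl _ _) = _ ∨ f (Cc.fl _ _) = _
      by_cases e : k = ⟨0, hn⟩
      · right
        rw [← hf, ← map_neg]
        congr 1
        funext j
        rw [Cc.fl_apply]
        split_ifs with e'
        · rfl
        · rw [e, ev, Pi.neg_apply, Pi.single_eq_of_ne e', neg_zero]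
      · left
        rw [← hf]
        congr 1
        funext j
        rw [Cc.fl_apply]
        split_ifs with e'
        · rw [e', ev, Pi.single_eq_of_ne ((Fin.succ_injective _).ne (Ne.symm e)), neg_zero]
        · rfl

lemma frame (hn : 0 < n) {L : AddSubgroup (V n)} {w : Fin (n + 1) → V n} (hw : ∀ i, w i ∈ L)
    (ho : ∀ i j, i ≠ j → lor (w i) (w j) = 0) (h0 : ∀ i, w i ≠ 0)
    (hs : ∀ y : V n, ∃ c : Fin (n + 1) → ℝ, y = ∑ i, c i • w i) :
    ∃ h : Isom n, (∃ a : ℝ, 0 < a ∧ a • h • (e0 : Hyp n).1 ∈ L) ∧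
      ∀ k, ∃ a : ℝ, 0 < a ∧ a • h • ev k ∈ L := by
  have hsum : ∀ (c : Fin (n + 1) → ℝ) i, lor (∑ j, c j • w j) (w i) = c i * lor (w i) (w i) :=
    fun c i => by
      rw [lor_sum_left, Finset.sum_eq_single i (fun j _ hj => by
        rw [lor_smul_left, ho j i hj, mul_zero]) (by simp), lor_smul_left]
  have hne : ∀ i, lor (w i) (w i) ≠ 0 := fun i e => h0 i (eq_zero_of_lor fun x => by
    obtain ⟨c, rfl⟩ := hs x
    rw [hsum, e, mul_zero])
  obtain ⟨i0, hi0⟩ : ∃ i, lor (w i) (w i) < 0 := by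
    by_contra hc
    push Not at hc
    obtain ⟨c, e⟩ := hs (e0 : Hyp n).1
    have h1 := lor_self (e0 : Hyp n)
    rw [e, lor_sum_right] at h1
    simp only [lor_smul_right, hsum] at h1
    have : 0 ≤ ∑ i, c i * (c i * lor (w i) (w i)) := Finset.sum_nonneg fun i _ => by
      rw [← mul_assoc]; exact mul_nonneg (mul_self_nonneg _) (hc i)
    linarith
  clear hsum h0 hs
  wlog e : i0 = 0 generalizing w i0
  · exact this (w := w ∘ Equiv.swap 0 i0) (fun i => hw _)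
      (fun i j h => ho _ _ ((Equiv.swap 0 i0).injective.ne h)) (fun i => hne _) 0
      (by simpa using hi0) rfl
  subst e
  wlog hp : 0 < w 0 0 generalizing w
  · refine this (w := -w) (fun i => neg_mem (hw i)) (fun i j h => by simpa using ho i j h)
      (fun i => by simpa using hne i) (by simpa using hi0) ?_
    have : w 0 0 ≠ 0 := fun e => by
      have := perp_nonneg e0 (y := w 0) (by rw [lor_e0, e, neg_zero])
      linarith
    simpa using lt_of_le_of_ne (not_lt.1 hp) this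
  have hs := Real.sqrt_pos.2 (neg_pos.2 hi0)
  have hs2 := Real.mul_self_sqrt (neg_pos.2 hi0).le
  have hx : IsH ((√(-lor (w 0) (w 0)))⁻¹ • w 0) := ⟨by
    rw [lor_smul_left, lor_smul_right]
    field_simp
    rw [sq, hs2]
    ring, mul_pos (inv_pos.2 hs) hp⟩
  have hk : ∀ k : Fin n, 0 < lor (w k.succ) (w k.succ) := fun k =>
    lt_of_le_of_ne (perp_nonneg ⟨_, hx⟩ (by
      rw [lor_smul_left, ho _ _ (Fin.succ_ne_zero k).symm, mul_zero])) (hne _).symm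
  let s : Fin (n + 1) → ℝ := Fin.cons √(-lor (w 0) (w 0)) fun k => √(lor (w k.succ) (w k.succ))
  obtain ⟨h, h1, h2⟩ := frame0 hn (u := fun i => (s i)⁻¹ • w i)
    (fun i j e => by rw [lor_smul_left, lor_smul_right, ho i j e, mul_zero, mul_zero]) hx.1 hx.2
    fun k => ArAux.lor_nm (hk k)
  refine ⟨h, ⟨s 0, hs, by rw [h1, smul_inv_smul₀ (show s 0 ≠ 0 from hs.ne')]; exact hw 0⟩, fun k => ?_⟩
  have p : 0 < s k.succ := Real.sqrt_pos.2 (hk k)
  refine ⟨s k.succ, p, ?_⟩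
  rcases h2 k with e | e
  · rw [e, smul_inv_smul₀ p.ne']; exact hw _
  · rw [e, smul_neg, smul_inv_smul₀ p.ne']; exact neg_mem (hw _)

variable {K : Type} [Field K] {ι : K →+* ℝ} {q : Matrix (Fin (n + 1)) (Fin (n + 1)) (𝓞 K)}

/-- the embedding of the rational points -/
def em (ι : K →+* ℝ) (b : Fin (n + 1) → V n) : (Fin (n + 1) → K) →+ V n where
  toFun x := ∑ j, ι (x j) • b j
  map_zero' := by simp
  map_add' x y := by simp [add_smul, Finset.sum_add_distrib]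

lemma em_apply (b : Fin (n + 1) → V n) (x : Fin (n + 1) → K) :
    em ι b x = ∑ j, ι (x j) • b j := rfl

lemma em_smul (b : Fin (n + 1) → V n) (c : K) (x : Fin (n + 1) → K) :
    em ι b (c • x) = ι c • em ι b x := by
  simp [em_apply, Finset.smul_sum, mul_smul]

/-- the embedding of the integral points -/
def emO (ι : K →+* ℝ) (b : Fin (n + 1) → V n) : (Fin (n + 1) → 𝓞 K) →+ V n :=
  (em ι b).comp ((algebraMap (𝓞 K) K).toAddMonoidHom.compLeft _)

lemma emO_apply (b : Fin (n + 1) → V n) (x : Fin (n + 1) → 𝓞 K) :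
    emO ι b x = ∑ j, ι (x j) • b j := rfl

lemma lor_em {b : Fin (n + 1) → V n} (hb : ∀ i j, lor (b i) (b j) = ι (q i j))
    (x y : Fin (n + 1) → K) :
    lor (em ι b x) (em ι b y) = ι (x ⬝ᵥ (q.map fun a => (a : K)) *ᵥ y) := by
  simp only [em_apply, lor_sum_left, lor_sum_right, lor_smul_left, lor_smul_right, hb,
    dotProduct, mulVec, map_sum, map_mul, map_apply, Finset.mul_sum]
  rw [Finset.sum_comm]
  exact Finset.sum_congr rfl fun i _ => Finset.sum_congr rfl fun j _ => by ring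

lemma map_qf (σ : K →+* ℝ) (x y : Fin (n + 1) → 𝓞 K) :
    σ (x ⬝ᵥ q *ᵥ y : 𝓞 K) = (fun j => σ (x j)) ⬝ᵥ (q.map fun a => σ a) *ᵥ fun j => σ (y j) := by
  simp [dotProduct, mulVec, map_sum]

lemma lor_emO {b : Fin (n + 1) → V n} (hb : ∀ i j, lor (b i) (b j) = ι (q i j))
    (x y : Fin (n + 1) → 𝓞 K) : lor (emO ι b x) (emO ι b y) = ι (x ⬝ᵥ q *ᵥ y : 𝓞 K) := by
  refine (lor_em hb _ _).trans ?_
  simp [dotProduct, mulVec, map_sum]

/-- the other conjugates of `r` are at most `C` -/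
def PP (ι : K →+* ℝ) (C r : ℝ) : Prop :=
  ∃ a : 𝓞 K, ι a = r ∧ ∀ σ : K →+* ℝ, σ ≠ ι → |σ a| ≤ C

lemma PP_iff {C : ℝ} {a : 𝓞 K} : PP ι C (ι a) ↔ ∀ σ : K →+* ℝ, σ ≠ ι → |σ a| ≤ C :=
  ⟨fun ⟨_, h1, h2⟩ => RingOfIntegers.ext (ι.injective h1) ▸ h2, fun h => ⟨a, rfl, h⟩⟩

lemma norm_le [IsTotallyReal K] {a : K} {C : ℝ} (h : ∀ σ : K →+* ℝ, |σ a| ≤ C) (ψ : K →+* ℂ) :
    ‖ψ a‖ ≤ C := by
  rw [← (IsTotallyReal.complexEmbedding_isReal ψ).coe_embedding_apply, Complex.norm_real]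
  exact h _

variable [NumberField K]

theorem ad_of [IsTotallyReal K] {b : Fin (n + 1) → V n}
    (hb : ∀ i j, lor (b i) (b j) = ι (q i j))
    (hq : ∀ σ : K →+* ℝ, σ ≠ ι → (q.map fun a => σ a).PosDef ∨ (-q.map fun a => σ a).PosDef) :
    AD (emO ι b).range (PP ι) := by
  have hsymm : ∀ x y : Fin (n + 1) → 𝓞 K, y ⬝ᵥ q *ᵥ x = x ⬝ᵥ q *ᵥ y := fun x y =>
    RingOfIntegers.ext (ι.injective (by rw [← lor_emO hb, ← lor_emO hb, lor_comm]))
  have hsub : ∀ (σ : K →+* ℝ) (x y : Fin (n + 1) → 𝓞 K), σ ((x - y) ⬝ᵥ q *ᵥ (x - y) : 𝓞 K) =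
      σ (x ⬝ᵥ q *ᵥ x : 𝓞 K) + σ (y ⬝ᵥ q *ᵥ y : 𝓞 K) - 2 * σ (x ⬝ᵥ q *ᵥ y : 𝓞 K) := fun σ x y => by
    simp only [mulVec_sub, sub_dotProduct, dotProduct_sub, hsymm x y, map_sub]
    ring
  have hadd : ∀ (σ : K →+* ℝ) (x y : Fin (n + 1) → 𝓞 K), σ ((x + y) ⬝ᵥ q *ᵥ (x + y) : 𝓞 K) =
      σ (x ⬝ᵥ q *ᵥ x : 𝓞 K) + σ (y ⬝ᵥ q *ᵥ y : 𝓞 K) + 2 * σ (x ⬝ᵥ q *ᵥ y : 𝓞 K) := fun σ x y => by
    simp only [mulVec_add, add_dotProduct, dotProduct_add, hsymm x y, map_add]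
    ring
  have hcs : ∀ σ : K →+* ℝ, σ ≠ ι → ∀ (x y : Fin (n + 1) → 𝓞 K) (C : ℝ),
      |σ (x ⬝ᵥ q *ᵥ x : 𝓞 K)| ≤ C → |σ (y ⬝ᵥ q *ᵥ y : 𝓞 K)| ≤ C → |σ (x ⬝ᵥ q *ᵥ y : 𝓞 K)| ≤ C := by
    intro σ hσ x y C h1 h2
    have a1 := hsub σ x y
    have a2 := hadd σ x y
    rw [abs_le] at h1 h2 ⊢
    rcases hq σ hσ with h | h
    · have k : ∀ z : Fin (n + 1) → 𝓞 K, 0 ≤ σ (z ⬝ᵥ q *ᵥ z : 𝓞 K) := fun z => by
        rw [map_qf]
        simpa using h.posSemidef.dotProduct_mulVec_nonneg fun j => σ (z j)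
      constructor <;> linarith [k (x - y), k (x + y)]
    · have k : ∀ z : Fin (n + 1) → 𝓞 K, σ (z ⬝ᵥ q *ᵥ z : 𝓞 K) ≤ 0 := fun z => by
        rw [map_qf]
        simpa [neg_mulVec] using h.posSemidef.dotProduct_mulVec_nonneg fun j => σ (z j)
      constructor <;> linarith [k (x - y), k (x + y)]
  refine ⟨fun ⟨a, h1, h2⟩ h => ⟨a, h1, fun σ hσ => (h2 σ hσ).trans h⟩, ?_, ?_, ?_, ?_, ?_, ?_⟩
  · rintro _ ⟨x, rfl⟩
    obtain ⟨C, hC⟩ := (finite_range fun σ : K →+* ℝ => |σ (x ⬝ᵥ q *ᵥ x : 𝓞 K)|).bddAbove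
    exact ⟨C, by rw [lor_emO hb, PP_iff]; exact fun σ _ => hC ⟨σ, rfl⟩⟩
  · rintro C _ ⟨x, rfl⟩ _ ⟨y, rfl⟩
    simp only [lor_emO hb, PP_iff]
    exact fun h1 h2 σ hσ => hcs σ hσ x y C (h1 σ hσ) (h2 σ hσ)
  · rintro C _ ⟨x, rfl⟩ _ ⟨y, rfl⟩
    simp only [← map_sub, lor_emO hb, PP_iff]
    intro h1 h2 σ hσ
    have a1 := abs_le.1 (hcs σ hσ x y C (h1 σ hσ) (h2 σ hσ))
    have a2 := abs_le.1 (h1 σ hσ)
    have a3 := abs_le.1 (h2 σ hσ)
    rw [hsub, abs_le]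
    constructor <;> linarith [a1.1, a1.2, a2.1, a2.2, a3.1, a3.2]
  · rintro C _ _ m _ ⟨x, rfl⟩ _ ⟨y, rfl⟩ hm ⟨a, rfl, h1⟩ ⟨a', rfl, h2⟩ h3 h4
    rw [lor_emO hb] at h4
    generalize x ⬝ᵥ q *ᵥ y = z at h4
    have e : (a' : K) - a = m * z := ι.injective (by rw [map_sub, map_mul, map_natCast, h4]; ring)
    have hm0 : (0 : ℝ) < m := (abs_nonneg _).trans_lt h3
    have hz : ∀ σ : K →+* ℝ, |σ z| < 1 := fun σ => by
      have : |σ a' - σ a| < m := by
        by_cases hσ : σ = ι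
        · rwa [hσ]
        · exact (abs_sub _ _).trans_lt (by linarith [h1 σ hσ, h2 σ hσ])
      rw [← map_sub, e, map_mul, map_natCast, abs_mul, abs_of_pos hm0] at this
      nlinarith
    by_cases z0 : (z : K) = 0
    · rw [h4, z0, map_zero, mul_zero, add_zero]
    · obtain ⟨k, hk, hk'⟩ := Embeddings.pow_eq_one_of_norm_le_one K ℂ z0 z.2
        (norm_le fun σ => (hz σ).le)
      have := pow_lt_one₀ (abs_nonneg _) (hz ι) hk.ne'
      rw [← abs_pow, ← map_pow, hk', map_one, abs_one] at this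
      exact absurd this (lt_irrefl _)
  · intro R
    refine ((Embeddings.finite_of_norm_le K ℂ R).image ι).subset ?_
    rintro _ ⟨h1, a, rfl, h2⟩
    refine ⟨a, ⟨a.2, norm_le fun σ => ?_⟩, rfl⟩
    by_cases hσ : σ = ι
    · rwa [hσ]
    · exact h2 σ hσ
  · have : AddGroup.FG (Fin (n + 1) → 𝓞 K) := Module.Finite.iff_addGroup_fg.1 inferInstance
    exact (AddGroup.fg_iff_addSubgroup_fg _).1 inferInstance

theorem exists_frame (hn : 0 < n) {b : Module.Basis (Fin (n + 1)) ℝ (V n)}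
    (hb : ∀ i j, lor (b i) (b j) = ι (q i j)) :
    ∃ h : Isom n, (∃ a : ℝ, 0 < a ∧ a • h • (e0 : Hyp n).1 ∈ (emO ι b).range) ∧
      ∀ k, ∃ a : ℝ, 0 < a ∧ a • h • ev k ∈ (emO ι b).range := by
  let B : LinearMap.BilinForm K (Fin (n + 1) → K) := Matrix.toBilin' (q.map fun a => (a : K))
  have hB : ∀ x y, lor (em ι b x) (em ι b y) = ι (B x y) := fun x y => by
    rw [lor_em hb, Matrix.toBilin'_apply']
  have : Invertible (2 : K) := invertibleOfNonzero two_ne_zero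
  obtain ⟨v0, hv0⟩ := LinearMap.BilinForm.exists_orthogonal_basis (B := B)
    ⟨fun x y => ι.injective (by rw [RingHom.id_apply, ← hB, ← hB, lor_comm])⟩
  let v := v0.reindex (finCongr (by simp : Module.finrank K (Fin (n + 1) → K) = n + 1))
  have hv : ∀ i j, i ≠ j → B (v i) (v j) = 0 := fun i j h => by
    simp only [v, Module.Basis.reindex_apply]
    exact hv0 ((finCongr _).symm.injective.ne h)
  obtain ⟨⟨d, hd⟩, hd'⟩ := IsLocalization.exist_integer_multiples_of_finite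
    (nonZeroDivisors (𝓞 K)) fun p : Fin (n + 1) × Fin (n + 1) => v p.1 p.2
  have d0 : ι d ≠ 0 := by
    rw [map_ne_zero]
    exact RingOfIntegers.coe_ne_zero_iff.2 (nonZeroDivisors.ne_zero hd)
  refine frame hn (w := fun i => ι d • em ι b (v i)) (fun i => ?_) (fun i j h => ?_) (fun i h => ?_)
    fun y => ?_
  · choose x hx using fun j => hd' (i, j)
    refine ⟨x, ?_⟩
    rw [← em_smul]
    exact congrArg (em ι b) (funext hx)
  · rw [lor_smul_left, lor_smul_right, hB, hv i j h, map_zero, mul_zero, mul_zero]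
  · refine v.ne_zero i (funext fun j => ι.injective ?_)
    rw [Fintype.linearIndependent_iff.1 b.linearIndependent _
      ((smul_eq_zero.1 h).resolve_left d0) j, Pi.zero_apply, map_zero]
  · have e : ∀ j, b j = ∑ i, ι (v.repr (Pi.single j 1) i) • em ι b (v i) := fun j => by
      simp only [← em_smul, ← map_sum, v.sum_repr]
      simp [em_apply, Pi.single_apply]
    refine ⟨fun i => (∑ j, b.repr y j * ι (v.repr (Pi.single j 1) i)) * (ι d)⁻¹, ?_⟩
    conv_lhs => rw [← b.sum_repr y]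
    simp only [mul_smul, inv_smul_smul₀ d0, Finset.sum_smul]
    rw [Finset.sum_comm]
    exact Finset.sum_congr rfl fun j _ => by rw [← Finset.smul_sum, ← e]

end

theorem final {n : ℕ} (hn : 0 < n) {Γ : Subgroup (Equiv.Perm (Hyp n))} (h1 : ∀ g ∈ Γ, IsIsom g)
    (h2 : ∀ g ∈ Γ, ∀ x : Hyp n, g x = x → g = 1) (h3 : ProperlyDiscontinuousSMul Γ (Hyp n))
    (h4 : CompactSpace (MulAction.orbitRel.Quotient Γ (Hyp n))) (h5 : IsSimplest Γ) :
    IsURCSpace.{u} n (MulAction.orbitRel.Quotient Γ (Hyp n)) := by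
  obtain ⟨K, _, _, _, ι, q, b, hb, hq, Γ₁, hle, hi, hL⟩ := h5
  obtain ⟨h, k0, k1⟩ := exists_frame hn hb
  refine isURCSpace_iff.2 (urc_of_AD hn (ad_of hb hq) h k0 k1 h1 h2 hle hi ?_)
  rintro γ hγ _ ⟨x, rfl⟩
  obtain ⟨A, a1, a2⟩ := hL _ hγ
  have e : γ.1.toLinearMap = Matrix.toLin' A := linear_ext a1
  obtain ⟨y, hy⟩ := a2 ⟨x, emO_apply b x⟩
  exact ⟨y, hy.symm.trans (LinearMap.congr_fun e _).symm⟩

end Pool.Agent.URC.AG
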