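import Pool.Agent.P.MP_797ab1_gt.Cocpt

/-! TASK F2: walls, congruence subgroups, rigidity. -/

open Set

namespace Pool.Agent.URC

namespace ArAux

noncomputable section

variable {n : ℕ}

lemma exists_act {g : Isom n} (hg : g ∈ G0 n) (u : LL n) :
    ∃ u' : LL n, emb i1 u' = g • emb i1 u := (hg _).2 ⟨u, rfl⟩

lemma qf_act {g : Isom n} {u v u' v' : LL n} (hu : emb i1 u' = g • emb i1 u)
    (hv : emb i1 v' = g • emb i1 v) : qf u' v' = qf u v :=
  i1_injective (by rw [i1_qf, i1_qf, hu, hv, lor_smul_smul])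

lemma qf_add_right (u v c : LL n) (m : OO) : qf u (v + m • c) = qf u v + m * qf u c := by
  simp only [qf, Pi.add_apply, Pi.smul_apply, smul_eq_mul, mul_add, Finset.sum_add_distrib,
    mul_sub, Finset.mul_sum]
  have : ∀ k : Fin n, u k.succ * (m * c k.succ) = m * (u k.succ * c k.succ) := fun k => by ring
  simp only [this]
  ring

lemma i2_qf_nonneg (u : LL n) : 0 ≤ i2 (qf u u) := by
  rw [i2_qf]
  exact Finset.sum_nonneg fun _ _ => mul_self_nonneg _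

lemma abs_i2_qf (u v : LL n) : 2 * |i2 (qf u v)| ≤ i2 (qf u u) + i2 (qf v v) := by
  simp only [i2_qf]
  have h1 : 0 ≤ (emb i2 u - emb i2 v) ⬝ᵥ (emb i2 u - emb i2 v) :=
    Finset.sum_nonneg fun _ _ => mul_self_nonneg _
  have h2 : 0 ≤ (emb i2 u + emb i2 v) ⬝ᵥ (emb i2 u + emb i2 v) :=
    Finset.sum_nonneg fun _ _ => mul_self_nonneg _
  simp only [sub_dotProduct, dotProduct_sub, add_dotProduct, dotProduct_add,
    dotProduct_comm (emb i2 v) (emb i2 u)] at h1 h2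
  rcases abs_cases (emb i2 u ⬝ᵥ emb i2 v) with h | h <;> linarith [h.1]

lemma emb_nsmul (m : ℕ) (c : LL n) : emb i1 ((m : OO) • c) = (m : ℝ) • emb i1 c := by
  rw [emb_smul, map_natCast]

/-- the principal congruence subgroup -/
def Cg (n m : ℕ) : Subgroup (Isom n) where
  carrier := {g | g ∈ G0 n ∧ ∀ u : LL n, ∃ c : LL n, g • emb i1 u = emb i1 u + (m : ℝ) • emb i1 c}
  mul_mem' := by
    rintro a b ⟨ha, ha'⟩ ⟨hb, hb'⟩
    refine ⟨mul_mem ha hb, fun u => ?_⟩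
    obtain ⟨c, hc⟩ := hb' u
    obtain ⟨c', hc'⟩ := ha' u
    obtain ⟨c'', hc''⟩ := exists_act ha c
    refine ⟨c' + c'', ?_⟩
    rw [mul_smul, hc, smul_add, hc', isom_smul_comm, ← hc'', map_add, smul_add, add_assoc]
  one_mem' := ⟨one_mem _, fun u => ⟨0, by simp⟩⟩
  inv_mem' := by
    rintro a ⟨ha, ha'⟩
    refine ⟨inv_mem ha, fun u => ?_⟩
    obtain ⟨u', hu'⟩ := exists_act (inv_mem ha) u
    obtain ⟨c, hc⟩ := ha' u'
    refine ⟨-c, ?_⟩
    rw [hu', smul_inv_smul] at hc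
    rw [map_neg, smul_neg, ← sub_eq_add_neg, eq_sub_iff_add_eq, ← hc]

lemma Cg_le (m : ℕ) : Cg n m ≤ G0 n := fun _ h => h.1

lemma Cg_conj {m : ℕ} {g γ : Isom n} (hg : g ∈ G0 n) (hγ : γ ∈ Cg n m) :
    g * γ * g⁻¹ ∈ Cg n m := by
  refine ⟨mul_mem (mul_mem hg hγ.1) (inv_mem hg), fun u => ?_⟩
  obtain ⟨u', hu'⟩ := exists_act (inv_mem hg) u
  obtain ⟨c, hc⟩ := hγ.2 u'
  obtain ⟨c', hc'⟩ := exists_act hg c
  refine ⟨c', ?_⟩
  rw [mul_smul, mul_smul, ← hu', hc, smul_add, hu', smul_inv_smul, isom_smul_comm, hc']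

lemma index_ne_zero_of_map {G F : Type*} [Group G] [Finite F] (H : Subgroup G) (φ : G → F)
    (h : ∀ a b, φ a = φ b → a⁻¹ * b ∈ H) : H.index ≠ 0 := by
  have : Finite (G ⧸ H) := Finite.of_injective (fun q : G ⧸ H => φ q.out) fun q q' e => by
    rw [← QuotientGroup.out_eq' q, ← QuotientGroup.out_eq' q']
    exact QuotientGroup.eq.2 (h _ _ e)
  exact Subgroup.index_ne_zero_of_finite

lemma exists_div {m : ℕ} {a b : OO} (h1 : (a.re : ZMod m) = b.re) (h2 : (a.im : ZMod m) = b.im) :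
    ∃ c : OO, b = a + (m : OO) * c := by
  obtain ⟨x, hx⟩ := (ZMod.intCast_eq_intCast_iff_dvd_sub _ _ _).1 h1
  obtain ⟨y, hy⟩ := (ZMod.intCast_eq_intCast_iff_dvd_sub _ _ _).1 h2
  refine ⟨⟨x, y⟩, ?_⟩
  ext
  · simp only [Zsqrtd.re_add, Zsqrtd.re_mul, Zsqrtd.re_natCast, Zsqrtd.im_natCast]
    linarith
  · simp only [Zsqrtd.im_add, Zsqrtd.im_mul, Zsqrtd.re_natCast, Zsqrtd.im_natCast]
    linarith

lemma emb_eq_sum (u : LL n) :
    emb i1 u = ∑ i : Fin (n + 1), i1 (u i) • emb i1 (Pi.single i (1 : OO) : LL n) := by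
  conv_lhs => rw [← Finset.univ_sum_single u]
  rw [map_sum]
  refine Finset.sum_congr rfl fun i _ => ?_
  rw [← emb_smul, ← Pi.single_smul, smul_eq_mul, mul_one]

lemma Cg_index {m : ℕ} (hm : m ≠ 0) : (Cg n m).relIndex (G0 n) ≠ 0 := by
  have : NeZero m := ⟨hm⟩
  choose act hact using fun (g : G0 n) (u : LL n) => exists_act g.2 u
  refine index_ne_zero_of_map _ (fun (g : G0 n) (i j : Fin (n + 1)) =>
    (((act g (Pi.single i 1) j).re : ZMod m), ((act g (Pi.single i 1) j).im : ZMod m)))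
    fun a b hab => ?_
  have h1 : ∀ i, ∃ c : LL n, act b (Pi.single i 1) = act a (Pi.single i 1) + (m : OO) • c := by
    intro i
    choose c hc using fun j => exists_div (congrArg Prod.fst (congrFun (congrFun hab i) j))
      (congrArg Prod.snd (congrFun (congrFun hab i) j))
    exact ⟨c, funext hc⟩
  choose c hc using h1
  refine Subgroup.mem_subgroupOf.2 ⟨(a⁻¹ * b).2, fun u => ?_⟩
  obtain ⟨c', hc'⟩ := exists_act (inv_mem a.2) (∑ i, u i • c i)
  refine ⟨c', ?_⟩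
  have h2 : b.1 • emb i1 u = a.1 • emb i1 u + (m : ℝ) • emb i1 (∑ i, u i • c i) := by
    rw [emb_eq_sum u, Finset.smul_sum, Finset.smul_sum, map_sum, Finset.smul_sum,
      ← Finset.sum_add_distrib]
    refine Finset.sum_congr rfl fun i _ => ?_
    rw [isom_smul_comm, isom_smul_comm, ← hact, ← hact, hc, map_add, emb_nsmul, emb_smul, smul_add,
      smul_comm (m : ℝ)]
  change (a.1⁻¹ * b.1) • emb i1 u = _
  rw [mul_smul, h2, smul_add, inv_smul_smul, isom_smul_comm, hc']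

lemma Cg_rigid {m : ℕ} {γ : Isom n} (hγ : γ ∈ Cg n m) {K : ℝ} (hK : 2 * K < m) {u v : LL n}
    (h1 : |lor (emb i1 u) (emb i1 v)| ≤ K) (h2 : |lor (emb i1 u) (γ • emb i1 v)| ≤ K)
    (hu : i2 (qf u u) ≤ K) (hv : i2 (qf v v) ≤ K) :
    lor (emb i1 u) (γ • emb i1 v) = lor (emb i1 u) (emb i1 v) := by
  obtain ⟨c, hc⟩ := hγ.2 v
  have hv' : emb i1 (v + (m : OO) • c) = γ • emb i1 v := by rw [map_add, emb_nsmul, hc]
  have hq := qf_act hv' hv'
  have a1 := abs_i2_qf u v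
  have a2 := abs_i2_qf u (v + (m : OO) • c)
  rw [hq] at a2
  rw [← hv', ← i1_qf] at h2 ⊢
  rw [← i1_qf] at h1 ⊢
  congr 1
  refine eq_of_congr (m := m) (c := qf u c) (by rw [qf_add_right]; ring) ?_ ?_
  · exact (abs_sub _ _).trans_lt (by linarith)
  · exact (abs_sub _ _).trans_lt (by linarith)

lemma Cg_fix {m : ℕ} {γ : Isom n} (hγ : γ ∈ Cg n m) {K : ℝ} (hK : 2 * K < m) {u : LL n}
    (h1 : |lor (emb i1 u) (emb i1 u)| ≤ K) (h2 : |lor (emb i1 u) (γ • emb i1 u)| ≤ K)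
    (hu : i2 (qf u u) ≤ K) : γ • emb i1 u = emb i1 u := by
  have h := Cg_rigid hγ hK h1 h2 hu hu
  obtain ⟨u', hu'⟩ := exists_act hγ.1 u
  have h0 : qf (u' - u) (u' - u) = 0 := by
    refine i1_injective ?_
    rw [i1_qf, map_zero, map_sub, hu']
    simp only [lor_sub_left, lor_sub_right, lor_smul_smul, lor_comm (γ • emb i1 u) (emb i1 u), h]
    ring
  rw [← hu', sub_eq_zero.1 (eq_zero_of_qf h0)]

/-- short spacelike lattice vectors -/
def Sh (n : ℕ) (R : ℝ) : Set (LL n) :=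
  {u | 0 < lor (emb i1 u) (emb i1 u) ∧ lor (emb i1 u) (emb i1 u) ≤ R ∧ i2 (qf u u) ≤ R}

/-- normalisation -/
def nm (y : V n) : V n := (√(lor y y))⁻¹ • y

lemma nm_smul (g : Isom n) (y : V n) : g • nm y = nm (g • y) := by
  rw [nm, nm, isom_smul_comm, lor_smul_smul]

lemma eq_smul_nm {y : V n} (h : 0 < lor y y) : y = √(lor y y) • nm y := by
  rw [nm, smul_smul, mul_inv_cancel₀ (Real.sqrt_pos.2 h).ne', one_smul]

lemma lor_nm {y : V n} (h : 0 < lor y y) : lor (nm y) (nm y) = 1 := by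
  have h1 := Real.sqrt_pos.2 h
  have h2 := Real.mul_self_sqrt h.le
  rw [nm, lor_smul_left, lor_smul_right]
  field_simp
  rw [sq, h2]

lemma abs_lor_le {y z : V n} {R B : ℝ} (hy : 0 < lor y y) (hy' : lor y y ≤ R) (hz : 0 < lor z z)
    (hz' : lor z z ≤ R) (h : |lor (nm y) (nm z)| ≤ B) : |lor y z| ≤ R * B := by
  have e : lor y z = √(lor y y) * (√(lor z z) * lor (nm y) (nm z)) := by
    conv_lhs => rw [eq_smul_nm hy, eq_smul_nm hz]
    rw [lor_smul_left, lor_smul_right]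
  have h1 : √(lor y y) * √(lor z z) ≤ R := by
    rw [← Real.mul_self_sqrt (hy.le.trans hy')]
    gcongr
  rw [e, ← mul_assoc, abs_mul, abs_of_nonneg (by positivity)]
  exact mul_le_mul h1 h (abs_nonneg _) (hy.le.trans hy')

/-- the walls -/
def Wl (n : ℕ) (R : ℝ) : Set (V n) := (fun u => nm (emb i1 u)) '' Sh n R

lemma sq_le_i2 (u : LL n) (j : Fin (n + 1)) : emb i2 u j ^ 2 ≤ i2 (qf u u) := by
  rw [i2_qf, sq]
  exact Finset.single_le_sum (f := fun j => emb i2 u j * emb i2 u j)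
    (fun _ _ => mul_self_nonneg _) (Finset.mem_univ j)

lemma sq_le_lor (y : V n) (k : Fin n) : y k.succ ^ 2 ≤ lor y y + y 0 ^ 2 := by
  have := Finset.single_le_sum (f := fun k : Fin n => y k.succ * y k.succ)
    (fun _ _ => mul_self_nonneg _) (Finset.mem_univ k)
  unfold lor
  nlinarith

lemma abs_le_of_sq {a C : ℝ} (h : a ^ 2 ≤ C) : |a| ≤ 1 + C := by
  nlinarith [sq_abs a, sq_nonneg (|a| - 1), sq_nonneg a]

lemma walls_Wl (R : ℝ) : Walls (Wl n R) := by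
  refine ⟨?_, ?_, fun T => ?_⟩
  · rintro _ ⟨u, hu, rfl⟩
    exact lor_nm hu.1
  · rintro _ ⟨u, hu, rfl⟩
    have hq : qf (-u) (-u) = qf u u := by simp [qf]
    refine ⟨-u, ⟨by simpa using hu.1, by simpa using hu.2.1, by rw [hq]; exact hu.2.2⟩, ?_⟩
    simp [nm]
  · refine ((finite_LL (n := n) (1 + (R + R * T ^ 2))).image fun u => nm (emb i1 u)).subset ?_
    rintro _ ⟨⟨u, hu, rfl⟩, hT⟩
    refine ⟨u, fun j => ?_, rfl⟩
    have hR : 0 ≤ R := hu.1.le.trans hu.2.1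
    have h0 : emb i1 u 0 ^ 2 ≤ R * T ^ 2 := by
      rw [lor_e0, abs_neg] at hT
      have e := congrFun (eq_smul_nm hu.1) 0
      rw [e, Pi.smul_apply, smul_eq_mul, mul_pow, Real.sq_sqrt hu.1.le, ← sq_abs]
      have := hu.2.1
      gcongr
    have h1 : 0 ≤ R * T ^ 2 := by positivity
    refine ⟨abs_le_of_sq ?_, abs_le_of_sq ?_⟩
    · refine Fin.cases ?_ (fun k => ?_) j
      · linarith
      · linarith [sq_le_lor (emb i1 u) k, hu.2.1]
    · linarith [sq_le_i2 u j, hu.2.2]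

lemma invt_Wl (R : ℝ) : Invt (G0 n) (Wl n R) := by
  rintro g hg _ ⟨u, hu, rfl⟩
  obtain ⟨u', hu'⟩ := exists_act hg u
  refine ⟨u', ⟨?_, ?_, ?_⟩, ?_⟩
  · rw [hu', lor_smul_smul]; exact hu.1
  · rw [hu', lor_smul_smul]; exact hu.2.1
  · rw [qf_act hu' hu']; exact hu.2.2
  · simp only [hu', nm_smul]

lemma emb_single_succ (i : OO →+* ℝ) (k : Fin n) :
    emb i (Pi.single k.succ (1 : OO) : LL n) = ev k := by
  funext j
  refine Fin.cases ?_ (fun l => ?_) j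
  · simp [ev, (Fin.succ_ne_zero k).symm]
  · simp [ev, Pi.single_apply]

lemma emb_single_zero (i : OO →+* ℝ) :
    emb i (Pi.single 0 (1 : OO) : LL n) = rr • (e0 : Hyp n).1 := by
  funext j
  refine Fin.cases ?_ (fun l => ?_) j
  · simp [e0]
  · simp [e0]

lemma i2_single_succ (k : Fin n) :
    i2 (qf (Pi.single k.succ (1 : OO) : LL n) (Pi.single k.succ 1)) = 1 := by
  rw [i2_qf, emb_single_succ]
  simp [ev]

lemma rr_le : rr * rr ≤ 2 := by
  rw [rr_mul]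
  exact Real.sqrt_le_iff.2 (by norm_num)

lemma i2_single_zero : i2 (qf (Pi.single 0 (1 : OO) : LL n) (Pi.single 0 1)) ≤ 2 := by
  rw [i2_qf, emb_single_zero]
  simpa [e0] using rr_le

lemma ev_mem {R : ℝ} (hR : 1 ≤ R) (k : Fin n) : ev k ∈ Wl n R := by
  have h : lor (ev k) (ev k) = 1 := by rw [lor_ev_ev, if_pos rfl]
  refine ⟨Pi.single k.succ 1, ⟨?_, ?_, ?_⟩, ?_⟩
  · rw [emb_single_succ, h]; exact one_pos
  · rw [emb_single_succ, h]; exact hR
  · rw [i2_single_succ]; exact hR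
  · simp only [emb_single_succ, nm, h, Real.sqrt_one, inv_one, one_smul]

lemma bis_mem {R₀ : ℝ} {γ γ' : Isom n} (hγ : γ ∈ G0 n) (hγ' : γ' ∈ G0 n)
    (hne : γ • (e0 : Hyp n) ≠ γ' • e0) (hd : dd (γ • (e0 : Hyp n)) (γ' • e0) ≤ R₀) :
    ∃ t : ℝ, 0 < t ∧ t • ((γ • (e0 : Hyp n)).1 - (γ' • (e0 : Hyp n)).1) ∈ Wl n (8 + 4 * |R₀|) := by
  obtain ⟨a, ha⟩ := exists_act hγ (Pi.single 0 1)
  obtain ⟨a', ha'⟩ := exists_act hγ' (Pi.single 0 1)
  have hrr : 0 < rr := lt_of_lt_of_le one_pos one_le_rr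
  have e : emb i1 (a - a') = rr • ((γ • (e0 : Hyp n)).1 - (γ' • (e0 : Hyp n)).1) := by
    rw [map_sub, ha, ha', emb_single_zero, isom_smul_comm, isom_smul_comm, smul_sub, smul_val,
      smul_val]
  have h1 : 1 < dd (γ • (e0 : Hyp n)) (γ' • e0) := not_le.1 fun h => hne (eq_of_dd_le_one h)
  have e2 : lor (emb i1 (a - a')) (emb i1 (a - a')) =
      rr * rr * (2 * dd (γ • (e0 : Hyp n)) (γ' • e0) - 2) := by
    rw [e]
    simp only [lor_smul_left, lor_smul_right, lor_sub_left, lor_sub_right, lor_self,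
      lor_eq_neg_dd, dd_comm (γ' • (e0 : Hyp n)) (γ • e0)]
    ring
  have hpos : 0 < lor (emb i1 (a - a')) (emb i1 (a - a')) := by
    rw [e2]
    exact mul_pos (mul_pos hrr hrr) (by linarith)
  refine ⟨(√(lor (emb i1 (a - a')) (emb i1 (a - a'))))⁻¹ * rr,
    mul_pos (inv_pos.2 (Real.sqrt_pos.2 hpos)) hrr, a - a', ⟨hpos, ?_, ?_⟩, ?_⟩
  · rw [e2]
    have := rr_le
    have := le_abs_self R₀
    nlinarith
  · have b1 : i2 (qf a a) ≤ 2 := by rw [qf_act ha ha]; exact i2_single_zero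
    have b2 : i2 (qf a' a') ≤ 2 := by rw [qf_act ha' ha']; exact i2_single_zero
    have b3 := abs_i2_qf a a'
    have b4 := neg_abs_le (i2 (qf a a'))
    have b5 : i2 (qf (a - a') (a - a')) = i2 (qf a a) + i2 (qf a' a') - 2 * i2 (qf a a') := by
      simp only [i2_qf, map_sub, sub_dotProduct, dotProduct_sub,
        dotProduct_comm (emb i2 a') (emb i2 a)]
      ring
    have := abs_nonneg R₀
    linarith
  · change nm _ = _
    rw [mul_smul, ← e, nm]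

lemma rigid_Cg {R B K : ℝ} {m : ℕ} (hK : 2 * K < m) (h1 : R * B ≤ K) (h2 : R ≤ K) :
    Rigid (Cg n m) (Wl n R) B := by
  constructor
  · rintro γ hγ _ ⟨u, hu, rfl⟩ _ ⟨v, hv, rfl⟩ b1 b2
    simp only [nm_smul] at b2 ⊢
    have c1 := abs_lor_le hu.1 hu.2.1 hv.1 hv.2.1 b1
    have c2 := abs_lor_le hu.1 hu.2.1 (z := γ • emb i1 v) (by rw [lor_smul_smul]; exact hv.1)
      (by rw [lor_smul_smul]; exact hv.2.1) b2
    have := Cg_rigid hγ hK (c1.trans h1) (c2.trans h1) (hu.2.2.trans h2) (hv.2.2.trans h2)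
    simp only [nm, lor_smul_left, lor_smul_right, lor_smul_smul, this]
  · rintro γ hγ _ ⟨u, hu, rfl⟩ b2
    simp only [nm_smul] at b2 ⊢
    have c2 := abs_lor_le hu.1 hu.2.1 (z := γ • emb i1 u) (by rw [lor_smul_smul]; exact hu.1)
      (by rw [lor_smul_smul]; exact hu.2.1) b2
    rw [Cg_fix hγ hK (by rw [abs_of_pos hu.1]; exact hu.2.1.trans h2) (c2.trans h1)
      (hu.2.2.trans h2)]

lemma eq_one_of_dd {D K : ℝ} {m : ℕ} (hK : 2 * K < m) (hD : 2 * D ≤ K) {γ : Isom n}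
    (hγ : γ ∈ Cg n m) (h : dd e0 (γ • (e0 : Hyp n)) ≤ D) : γ = 1 := by
  have d1 := one_le_dd e0 (γ • (e0 : Hyp n))
  have hrr : 0 < rr := lt_of_lt_of_le one_pos one_le_rr
  have r2 := rr_le
  have h0 : γ • (e0 : Hyp n).1 = (e0 : Hyp n).1 := by
    have := Cg_fix hγ hK (u := Pi.single 0 1) (by
      rw [emb_single_zero, lor_smul_left, lor_smul_right, lor_self, abs_le]
      constructor <;> nlinarith) (by
      rw [emb_single_zero, isom_smul_comm, lor_smul_left, lor_smul_right, ← smul_val,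
        lor_eq_neg_dd, abs_le]
      constructor <;> nlinarith) (i2_single_zero.trans (by linarith))
    rw [emb_single_zero, isom_smul_comm] at this
    exact smul_right_injective _ hrr.ne' this
  have hk : ∀ k : Fin n, γ • ev k = ev k := by
    intro k
    have h1 : lor (ev k) (ev k) = 1 := by rw [lor_ev_ev, if_pos rfl]
    have h2 : lor (e0 : Hyp n).1 (ev k) = 0 := by
      rw [lor_e0]
      simp [ev, (Fin.succ_ne_zero k).symm]
    have h3 : lor (e0 : Hyp n).1 (γ • ev k) = 0 := by rw [← h0, lor_smul_smul, h2]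
    have h4 := abs_lor_lor_le e0 h1 (w := γ • ev k) (by rw [lor_smul_smul, h1]) (a := 0) (b := 0)
      (by rw [h2, abs_zero]) (by rw [h3, abs_zero])
    have := Cg_fix hγ hK (u := Pi.single k.succ 1)
      (by rw [emb_single_succ, h1, abs_one]; linarith)
      (by rw [emb_single_succ]; linarith) (by rw [i2_single_succ]; linarith)
    rwa [emb_single_succ] at this
  refine Subtype.ext (LinearEquiv.toLinearMap_injective ((Pi.basisFun ℝ _).ext fun i => ?_))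
  rw [Pi.basisFun_apply]
  exact Fin.cases h0 hk i

lemma displ_Cg {R B K : ℝ} {m : ℕ} (hR : ∀ x : Hyp n, ∃ γ ∈ G0 n, dd e0 (γ • x) ≤ R)
    (hK : 2 * K < m) (h : 2 * (4 * R ^ 2 * |B|) ≤ K) : Displ (Cg n m) B := by
  intro γ hγ x hx
  obtain ⟨g, hg, hgx⟩ := hR x
  have key : g * γ * g⁻¹ = 1 := by
    refine eq_one_of_dd hK h (Cg_conj hg hγ) ?_
    set γ' := g * γ * g⁻¹ with hγ'
    have a1 := dd_tri e0 (g • x) (γ' • (e0 : Hyp n))
    have a2 := dd_tri (g • x) (γ' • g • x) (γ' • (e0 : Hyp n))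
    have a3 : dd (g • x) (γ' • g • x) ≤ |B| := by
      rw [hγ', mul_smul, mul_smul, inv_smul_smul, dd_smul_smul]
      exact hx.trans (le_abs_self B)
    rw [dd_smul_smul, dd_comm (g • x) e0] at a2
    have p1 := dd_pos e0 (g • x)
    have p2 := dd_pos (g • x) (γ' • g • x)
    have p3 := dd_pos (g • x) (γ' • (e0 : Hyp n))
    have p4 : 0 < R := p1.trans_le hgx
    have a4 : dd (g • x) (γ' • (e0 : Hyp n)) ≤ 2 * |B| * R := a2.trans (by gcongr)
    calc dd e0 (γ' • (e0 : Hyp n)) ≤ 2 * R * (2 * |B| * R) := a1.trans (by gcongr)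
      _ = 4 * R ^ 2 * |B| := by ring
  have : γ = g⁻¹ * (g * γ * g⁻¹) * g := by group
  rw [this, key, mul_one, inv_mul_cancel]

end

end ArAux

theorem arith {n : ℕ} (hn : 0 < n) (R₀ : ℝ) :
    ∃ W : Set (V n), Walls W ∧ Invt (G0 n) W ∧ (∀ k, ev k ∈ W) ∧
      (∀ γ ∈ G0 n, ∀ γ' ∈ G0 n, γ • (e0 : Hyp n) ≠ γ' • e0 →
        dd (γ • (e0 : Hyp n)) (γ' • e0) ≤ R₀ →
        ∃ t : ℝ, 0 < t ∧ t • ((γ • (e0 : Hyp n)).1 - (γ' • (e0 : Hyp n)).1) ∈ W) ∧
      ∀ B : ℝ, ∃ Γ ≤ G0 n, Γ.relIndex (G0 n) ≠ 0 ∧ Rigid Γ W B ∧ Displ Γ B := by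
  have h0 := abs_nonneg R₀
  refine ⟨ArAux.Wl n (8 + 4 * |R₀|), ArAux.walls_Wl _, ArAux.invt_Wl _,
    ArAux.ev_mem (by linarith), fun γ hγ γ' hγ' h1 h2 => ArAux.bis_mem hγ hγ' h1 h2, fun B => ?_⟩
  obtain ⟨R, hR⟩ := cocpt_G0 hn
  set K := (8 + 4 * |R₀|) * |B| + (8 + 4 * |R₀|) + 2 * (4 * R ^ 2 * |B|) with hK
  obtain ⟨m, hm⟩ := exists_nat_gt (2 * K)
  have p1 : 0 ≤ (8 + 4 * |R₀|) * |B| := by positivity
  have p2 : 0 ≤ 2 * (4 * R ^ 2 * |B|) := by positivity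
  have p3 : (8 + 4 * |R₀|) * B ≤ (8 + 4 * |R₀|) * |B| := by
    have := le_abs_self B
    gcongr
  have hm0 : m ≠ 0 := by
    rintro rfl
    simp only [Nat.cast_zero] at hm
    linarith
  exact ⟨ArAux.Cg n m, ArAux.Cg_le m, ArAux.Cg_index hm0,
    ArAux.rigid_Cg hm (by linarith) (by linarith), ArAux.displ_Cg hR hm (by linarith)⟩

end Pool.Agent.URC
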