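import Pool.Agent.P.MP_797ab1_gt.Lor

/-! The lattice `ℤ[√2]^(n+1)` with the form `x_1^2 + ... + x_n^2 - √2 x_0^2`. -/

open Set

namespace Pool.Agent.URC

noncomputable section

variable {n : ℕ}

abbrev OO : Type := ℤ√2

/-- the two real embeddings -/
def i1 : OO →+* ℝ := Zsqrtd.toReal (by norm_num)

def i2 : OO →+* ℝ := i1.comp (starRingEnd OO)

lemma i1_apply (a : OO) : i1 a = a.re + a.im * √2 := by
  simp [i1, Zsqrtd.toReal]

lemma i2_apply (a : OO) : i2 a = a.re - a.im * √2 := by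
  simp [i2, i1_apply, sub_eq_add_neg, starRingEnd_apply]

lemma i1_mul_i2 (a : OO) : i1 a * i2 a = (a.norm : ℝ) := by
  rw [i1_apply, i2_apply, Zsqrtd.norm_def]
  have := Real.mul_self_sqrt (show (0 : ℝ) ≤ 2 by norm_num)
  push_cast
  linear_combination (-(a.im : ℝ) ^ 2) * this

lemma i1_injective : Function.Injective i1 :=
  Zsqrtd.toReal_injective (by norm_num) fun k hk => by
    have h1 : k ≤ 1 := by nlinarith
    have h2 : -1 ≤ k := by nlinarith
    interval_cases k <;> omega

lemma i2_injective : Function.Injective i2 := i1_injective.comp star_injective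

lemma norm_ne_zero {a : OO} (h : a ≠ 0) : a.norm ≠ 0 := by
  intro h0
  have := i1_mul_i2 a
  rw [h0, Int.cast_zero, mul_eq_zero] at this
  rcases this with h1 | h1
  · exact h (i1_injective (by simpa using h1))
  · exact h (i2_injective (by simpa using h1))

lemma one_le_abs_mul {a : OO} (h : a ≠ 0) : 1 ≤ |i1 a| * |i2 a| := by
  rw [← abs_mul, i1_mul_i2]
  exact_mod_cast Int.one_le_abs (norm_ne_zero h)

/-- rigidity of congruences -/
lemma eq_of_congr {a b c : OO} {m : ℕ} (h : a - b = (m : OO) * c) (h1 : |i1 a - i1 b| < m)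
    (h2 : |i2 a - i2 b| < m) : a = b := by
  by_contra hne
  have hc : c ≠ 0 := by rintro rfl; exact hne (by simpa [sub_eq_zero] using h)
  have hm : (0 : ℝ) < m := (abs_nonneg _).trans_lt h1
  rw [← map_sub, h, map_mul, map_natCast, abs_mul, abs_of_pos hm] at h1 h2
  have h3 := one_le_abs_mul hc
  have a1 : |i1 c| < 1 := by nlinarith
  have a2 : |i2 c| < 1 := by nlinarith
  nlinarith [abs_nonneg (i1 c), abs_nonneg (i2 c)]

lemma finite_OO (R : ℝ) : {a : OO | |i1 a| ≤ R ∧ |i2 a| ≤ R}.Finite := by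
  have hf : ((fun p : ℤ × ℤ => (⟨p.1, p.2⟩ : OO)) ''
      (Icc (-⌈R⌉) ⌈R⌉ ×ˢ Icc (-⌈R⌉) ⌈R⌉)).Finite :=
    ((finite_Icc _ _).prod (finite_Icc _ _)).image _
  refine hf.subset fun a ⟨h1, h2⟩ => ⟨(a.re, a.im), ⟨?_, ?_⟩, rfl⟩
  all_goals
    rw [i1_apply, abs_le] at h1
    rw [i2_apply, abs_le] at h2
    have h3 := Int.le_ceil R
    have h4 : (1 : ℝ) ≤ √2 := Real.one_le_sqrt.2 (by norm_num)
    rw [mem_Icc, ← abs_le]
  · have : |(a.re : ℝ)| ≤ ⌈R⌉ := abs_le.2 ⟨by linarith, by linarith⟩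
    exact_mod_cast this
  · have h5 : |(a.im : ℝ) * √2| ≤ ⌈R⌉ := abs_le.2 ⟨by linarith, by linarith⟩
    rw [abs_mul, abs_of_pos (by linarith : (0 : ℝ) < √2)] at h5
    have : |(a.im : ℝ)| ≤ ⌈R⌉ := by nlinarith [abs_nonneg (a.im : ℝ)]
    exact_mod_cast this

/-- the fourth root of two -/
def rr : ℝ := √(√2)

lemma rr_mul : rr * rr = √2 := Real.mul_self_sqrt (Real.sqrt_nonneg _)

lemma one_le_rr : 1 ≤ rr := Real.one_le_sqrt.2 (Real.one_le_sqrt.2 (by norm_num))

/-- the lattice -/
abbrev LL (n : ℕ) : Type := Fin (n + 1) → OO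

/-- embedding of the lattice along a real embedding of the ring -/
def emb (i : OO →+* ℝ) : LL n →+ V n where
  toFun a := Fin.cons (rr * i (a 0)) fun k => i (a k.succ)
  map_zero' := by
    funext j; refine Fin.cases ?_ (fun k => ?_) j <;> simp
  map_add' a b := by
    funext j; refine Fin.cases ?_ (fun k => ?_) j <;> simp [mul_add]

@[simp] lemma emb_zero (i : OO →+* ℝ) (a : LL n) : emb i a 0 = rr * i (a 0) := rfl

@[simp] lemma emb_succ (i : OO →+* ℝ) (a : LL n) (k : Fin n) : emb i a k.succ = i (a k.succ) := rfl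

lemma emb_smul (i : OO →+* ℝ) (c : OO) (a : LL n) : emb i (c • a) = i c • emb i a := by
  funext j; refine Fin.cases ?_ (fun k => ?_) j
  · simp; ring
  · simp

lemma emb_injective {i : OO →+* ℝ} (hi : Function.Injective i) :
    Function.Injective (emb i : LL n → V n) := by
  intro a b h
  funext j; refine Fin.cases ?_ (fun k => ?_) j
  · have := congrFun h 0
    simp only [emb_zero] at this
    exact hi (mul_left_cancel₀ (by linarith [one_le_rr]) this)
  · exact hi (congrFun h k.succ)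

/-- the quadratic form over `ℤ[√2]` -/
def qf (a b : LL n) : OO := ∑ k : Fin n, a k.succ * b k.succ - Zsqrtd.sqrtd * (a 0 * b 0)

lemma i1_qf (a b : LL n) : i1 (qf a b) = lor (emb i1 a) (emb i1 b) := by
  have : i1 Zsqrtd.sqrtd = rr * rr := by rw [rr_mul, i1_apply]; simp
  simp only [qf, lor, map_sub, map_sum, map_mul, emb_zero, emb_succ, this]
  ring

lemma i2_qf (a b : LL n) : i2 (qf a b) = emb i2 a ⬝ᵥ emb i2 b := by
  have : i2 Zsqrtd.sqrtd = -(rr * rr) := by rw [rr_mul, i2_apply]; simp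
  simp only [qf, dotProduct, Fin.sum_univ_succ, map_sub, map_sum, map_mul, emb_zero, emb_succ,
    this]
  ring

lemma eq_zero_of_qf {a : LL n} (h : qf a a = 0) : a = 0 := by
  have := i2_qf a a
  rw [h, map_zero, eq_comm, dotProduct_self_eq_zero] at this
  exact emb_injective i2_injective (by simpa using this)

lemma finite_LL (R : ℝ) : {a : LL n | ∀ j, |emb i1 a j| ≤ R ∧ |emb i2 a j| ≤ R}.Finite := by
  refine (Finite.pi' fun _ : Fin (n + 1) => finite_OO R).subset fun a ha j => ?_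
  have := ha j
  revert this
  refine Fin.cases ?_ (fun k => ?_) j
  · simp only [emb_zero, abs_mul, abs_of_pos (lt_of_lt_of_le one_pos one_le_rr), mem_setOf_eq]
    rintro ⟨h1, h2⟩
    constructor <;> nlinarith [one_le_rr, abs_nonneg (i1 (a 0)), abs_nonneg (i2 (a 0))]
  · exact id

/-- the stabiliser of the lattice -/
def G0 (n : ℕ) : Subgroup (Isom n) where
  carrier := {g | ∀ v : V n, g • v ∈ range (emb i1 : LL n → V n) ↔ v ∈ range (emb i1 : LL n → V n)}
  mul_mem' := fun {a b} ha hb v => by rw [mul_smul, ha, hb]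
  one_mem' := fun v => by rw [one_smul]
  inv_mem' := fun {a} ha v => by rw [← ha, smul_inv_smul]

end

end Pool.Agent.URC
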