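import Pool.Agent.P.MP_797ab1_gt.Susp

/-! TASK C: local homology of Euclidean space, orientation classes, signs of open embeddings. -/

open Set Topology Function

namespace Pool.Agent.URC

noncomputable section

/-- Euclidean space (sup norm) -/
abbrev E (n : ℕ) : Type := Fin n → ℝ

variable {n : ℕ}

lemma mapsTo_pt {α β : Type*} {f : α → β} (hf : Injective f) (x : α) :
    MapsTo f {x}ᶜ {f x}ᶜ := fun _ hy h => hy (hf h)

/-- the dilation with centre `x` -/
def dil (x : E n) (l : ℝ) : C(E n, E n) := ⟨fun y => x + l • (y - x), by fun_prop⟩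

lemma dil_mapsTo {K : Set (E n)} {x : E n} (hs : StarConvex ℝ x K) {l : ℝ} (hl : 1 ≤ l) :
    MapsTo (dil x l) Kᶜ Kᶜ := by
  intro y hy hz
  have hl0 : 0 < l := by linarith
  have := hs hz (a := 1 - l⁻¹) (b := l⁻¹) (sub_nonneg.2 (inv_le_one_of_one_le₀ hl))
    (inv_nonneg.2 hl0.le) (by ring)
  apply hy
  convert this using 1
  change y = (1 - l⁻¹) • x + l⁻¹ • (x + l • (y - x))
  rw [smul_add, smul_smul, inv_mul_cancel₀ hl0.ne', one_smul, sub_smul, one_smul]
  abel

lemma map_dil {K : Set (E n)} {x : E n} (hs : StarConvex ℝ x K) {l : ℝ} (hl : 1 ≤ l) {k : ℕ}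
    (α : HH Kᶜ k) : HH.map (dil x l) (dil_mapsTo hs hl) α = α := by
  let H : C(E n × unitInterval, E n) :=
    ⟨fun q => x + (1 + (q.2 : ℝ) * (l - 1)) • (q.1 - x), by fun_prop⟩
  rw [← HH.map_homotopy (ContinuousMap.id _) (dil x l) H (fun y => by simp [H])
    (fun y => by simp [H, dil]) ?_ (mapsTo_id _), HH.map_id']
  intro y hy t
  have h1 : 1 ≤ 1 + (t : ℝ) * (l - 1) := by
    have := mul_nonneg t.2.1 (sub_nonneg.2 hl)
    linarith
  exact dil_mapsTo hs h1 hy

lemma exists_dil {K C : Set (E n)} (hK : Bornology.IsBounded K) (hC : IsCompact C) {x : E n}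
    (hx : C ⊆ {x}ᶜ) : ∃ l : ℝ, 1 ≤ l ∧ MapsTo (dil x l) C Kᶜ := by
  have h1 : Cᶜ ∈ 𝓝 x := hC.isClosed.isOpen_compl.mem_nhds fun h => hx h rfl
  obtain ⟨δ, hδ, hb⟩ := Metric.mem_nhds_iff.1 h1
  obtain ⟨R, hR⟩ := hK.subset_ball x
  refine ⟨|R| / δ + 1, le_add_of_nonneg_left (by positivity), fun y hy hz => ?_⟩
  have h2 : δ ≤ ‖y - x‖ := by
    by_contra h
    exact hb (by rw [Metric.mem_ball, dist_eq_norm]; exact not_le.1 h) hy
  have h3 := hR hz
  rw [Metric.mem_ball, dist_eq_norm] at h3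
  change ‖x + (|R| / δ + 1) • (y - x) - x‖ < R at h3
  rw [add_sub_cancel_left, norm_smul, Real.norm_of_nonneg (by positivity)] at h3
  have h4 : (|R| / δ + 1) * δ ≤ (|R| / δ + 1) * ‖y - x‖ :=
    mul_le_mul_of_nonneg_left h2 (by positivity)
  rw [add_mul, div_mul_cancel₀ _ hδ.ne'] at h4
  linarith [le_abs_self R]

/-- restriction from a bounded star-shaped set to its centre is an isomorphism -/
theorem res_bij {K : Set (E n)} (hK : Bornology.IsBounded K) {x : E n} (hs : StarConvex ℝ x K)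
    (hx : Kᶜ ⊆ {x}ᶜ) {k : ℕ} : Bijective (HH.res hx : HH Kᶜ k → HH {x}ᶜ k) := by
  constructor
  · rw [injective_iff_map_eq_zero]
    intro α h
    obtain ⟨c, hc, rfl⟩ := HH.exists_mk α
    rw [HH.res_mk, HH.mk_eq_zero] at h
    obtain ⟨d, hd⟩ := mem_Bd.1 h
    obtain ⟨l, hl, hm⟩ := exists_dil hK (isCompact_car (c - bd d)) (mem_ChIn_iff_car.1 hd)
    rw [← map_dil hs hl (HH.mk c hc), HH.map_mk, HH.mk_eq_zero]
    refine mem_Bd.2 ⟨push (dil x l) d, ?_⟩
    rw [bd_push, ← map_sub]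
    exact push_mem_ChIn _ hm (mem_ChIn_iff_car.2 subset_rfl)
  · intro α
    obtain ⟨c, hc, rfl⟩ := HH.exists_mk α
    obtain ⟨l, hl, hm⟩ := exists_dil hK (isCompact_car (bd c)) (mem_ChIn_iff_car.1 hc)
    refine ⟨HH.mk (push (dil x l) c) ?_, ?_⟩
    · rw [bd_push]
      exact push_mem_ChIn _ hm (mem_ChIn_iff_car.2 subset_rfl)
    · rw [HH.res_mk, ← map_dil (starConvex_singleton x) hl (HH.mk c hc), HH.map_mk]

/-- splitting off the coordinate `i`, with a shear -/
def spl (i : Fin (n + 1)) (c : ℝ) (v : E n) : C(E (n + 1), ℝ × E n) :=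
  ⟨fun x => (x i - c, fun j => x (i.succAbove j) + x i * v j), by fun_prop⟩

/-- the inverse of `spl` -/
def uns (i : Fin (n + 1)) (c : ℝ) (v : E n) : C(ℝ × E n, E (n + 1)) :=
  ⟨fun p => Fin.insertNth (α := fun _ => ℝ) i (p.1 + c) fun j => p.2 j - (p.1 + c) * v j,
    Continuous.finInsertNth (A := fun _ => ℝ) i (by fun_prop) (by fun_prop)⟩

lemma uns_spl (i : Fin (n + 1)) (c : ℝ) (v : E n) (x : E (n + 1)) :
    uns i c v (spl i c v x) = x := by
  funext j
  refine Fin.succAboveCases i ?_ (fun j => ?_) j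
  · simp [uns, spl]
  · simp [uns, spl]

lemma spl_uns (i : Fin (n + 1)) (c : ℝ) (v : E n) (p : ℝ × E n) :
    spl i c v (uns i c v p) = p := by
  ext
  · simp [uns, spl]
  · simp [uns, spl]

lemma spl_mapsTo (i : Fin (n + 1)) (c : ℝ) (v : E n) {x : E (n + 1)} {y : E n}
    (h : spl i c v x = (0, y)) : MapsTo (spl i c v) {x}ᶜ (Up {y} ∪ Dn {y}) := by
  intro z hz
  rw [mem_Up_union_Dn]
  intro h1 h2
  apply hz
  have : spl i c v z = spl i c v x := by rw [h]; exact Prod.ext h2 h1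
  rw [mem_singleton_iff, ← uns_spl i c v z, this, uns_spl]

lemma spl_bij (i : Fin (n + 1)) (c : ℝ) (v : E n) {x : E (n + 1)} {y : E n}
    (h : spl i c v x = (0, y)) {k : ℕ} :
    Bijective (HH.map (spl i c v) (spl_mapsTo i c v h) : HH {x}ᶜ k → HH (Up {y} ∪ Dn {y}) k) := by
  refine map_bij_of_inv _ (uns i c v) _ (fun p hp hx => ?_) (uns_spl i c v) (spl_uns i c v)
  have : p = (0, y) := by rw [← h, ← spl_uns i c v p, mem_singleton_iff.1 hx]
  subst this
  exact mem_Up_union_Dn.1 hp rfl rfl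

/-- local homology vanishes above the dimension -/
theorem vanish_pt (x : E n) {k : ℕ} (hk : n < k) (α : HH ({x}ᶜ : Set (E n)) k) : α = 0 := by
  induction n generalizing k with
  | zero =>
    obtain ⟨k, rfl⟩ : ∃ j, k = j + 1 := ⟨k - 1, by omega⟩
    exact vanish_subsingleton x α
  | succ n ih =>
    obtain ⟨k, rfl⟩ : ∃ j, k = j + 1 := ⟨k - 1, by omega⟩
    have h : spl 0 (x 0) 0 x = (0, fun j => x j.succ) := by
      ext <;> simp [spl]
    refine (spl_bij 0 (x 0) 0 h).1 ?_
    rw [map_zero]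
    exact susp_vanish isClosed_singleton (ih _ (by omega)) _

/-- the standard simplex in `E n`: drop the last barycentric coordinate -/
def jn (n : ℕ) : C(Dl (n + 1), E n) :=
  ⟨fun t i => t.1 i.castSucc,
    continuous_pi fun _ => (continuous_apply _).comp continuous_subtype_val⟩

lemma last_eq (t : Dl (n + 1)) : t.1 (Fin.last n) = 1 - ∑ i, jn n t i := by
  have := t.2.2
  rw [Fin.sum_univ_castSucc] at this
  change t.1 (Fin.last n) = 1 - ∑ i : Fin n, t.1 i.castSucc
  linarith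

lemma jn_inj : Injective (jn n) := by
  intro s t h
  ext i
  refine Fin.lastCases ?_ (fun i => congrFun h i) i
  change s.1 _ = t.1 _
  rw [last_eq, last_eq, h]

lemma bd_jn_mem {K : Set (Dl (n + 1))} (hi : ∀ t ∈ K, ∀ i, 0 < t i) :
    bd (Finsupp.single (jn n) (1 : ℤ)) ∈ ChIn (jn n '' K)ᶜ n := by
  rw [bd_single]
  refine Submodule.sum_mem _ fun i _ => Submodule.smul_mem _ _ (single_mem_ChIn _ ?_)
  rintro t ⟨s, hs, h⟩
  have := hi s hs i
  have e : s = face i t := jn_inj h
  rw [e] at this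
  simp at this

lemma bd_jn_pt {t : Dl (n + 1)} (hi : ∀ i, 0 < t i) :
    bd (Finsupp.single (jn n) (1 : ℤ)) ∈ ChIn {jn n t}ᶜ n := by
  have := bd_jn_mem (K := {t}) (by rintro _ rfl; exact hi)
  rwa [image_singleton] at this

/-- the standard simplex generates the local homology at each of its interior points -/
lemma gen_jn (t : Dl (n + 1)) (hi : ∀ i, 0 < t i) :
    Gen (HH.mk (Finsupp.single (jn n) 1) (bd_jn_pt hi)) := by
  induction n with
  | zero => exact gen_subsingleton _ _ _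
  | succ n ih =>
    have hs : ∑ j : Fin (n + 1), t.1 j.succ = 1 - t.1 0 := by
      have := t.2.2
      rw [Fin.sum_univ_succ] at this
      linarith
    have hi' : ∀ i, 0 < t.1 i := hi
    have h0 : 0 < 1 - t.1 0 := by
      rw [← hs]
      exact Finset.sum_pos (fun j _ => hi' _) Finset.univ_nonempty
    let t' : Dl (n + 1) := ⟨fun j => t.1 j.succ / (1 - t.1 0),
      fun j => div_nonneg (hi' _).le h0.le, by
        rw [← Finset.sum_div, hs, div_self h0.ne']⟩
    have ht' : ∀ j, 0 < t'.1 j := fun j => div_pos (hi' _) h0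
    let φ := spl 0 (t.1 0) (jn n t')
    have hφ : ∀ s : Dl (n + 2), φ (jn (n + 1) s) =
        (s.1 0 - t.1 0, fun j : Fin n => s.1 j.castSucc.succ + s.1 0 * t'.1 j.castSucc) :=
      fun s => rfl
    have h : φ (jn (n + 1) t) = (0, jn n t') := by
      rw [hφ]
      ext j
      · simp
      · change t.1 j.castSucc.succ + t.1 0 * (t.1 j.castSucc.succ / (1 - t.1 0)) =
          t.1 j.castSucc.succ / (1 - t.1 0)
        field_simp
        ring
    refine Gen.of_map (HH.map φ (spl_mapsTo _ _ _ h)) (spl_bij _ _ _ h) ?_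
    rw [HH.map_mk]
    let τ : C(Dl (n + 2), ℝ × E n) := φ.comp (jn (n + 1))
    have hf0 : ∀ s : Dl (n + 1), (face 0 s).1 0 = 0 := fun s => face_same 0 s
    have hf1 : ∀ (s : Dl (n + 1)) (j : Fin (n + 1)), (face 0 s).1 j.succ = s.1 j :=
      fun s j => face_succAbove 0 s j
    have ha : Finsupp.single (τ.comp (face 0)) (1 : ℤ) ∈ ChIn (Up {jn n t'}) (n + 1) := by
      refine single_mem_ChIn _ fun s _ => ?_
      change (face 0 s).1 0 - t.1 0 < 0
      rw [hf0]
      linarith [hi' 0]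
    have hb : ∑ i : Fin (n + 1), (-1 : ℤ) ^ ((i.succ : Fin (n + 2)) : ℕ) •
        Finsupp.single (τ.comp (face i.succ)) (1 : ℤ) ∈ ChIn (Dn {jn n t'}) (n + 1) := by
      refine Submodule.sum_mem _ fun i _ => Submodule.smul_mem _ _ (single_mem_ChIn _ ?_)
      intro s0 hs0
      have hz : (face i.succ s0).1 i.succ = 0 := face_same i.succ s0
      change 0 < (face i.succ s0).1 0 - t.1 0
      change (φ (jn (n + 1) (face i.succ s0))).2 = jn n t' at hs0
      generalize face i.succ s0 = s at hz hs0 ⊢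
      rw [hφ] at hs0
      have hss : ∑ j : Fin (n + 1), s.1 j.succ = 1 - s.1 0 := by
        have := s.2.2
        rw [Fin.sum_univ_succ] at this
        linarith
      let s' : Dl (n + 1) := ⟨fun j => s.1 j.succ + s.1 0 * t'.1 j,
        fun j => add_nonneg (s.2.1 _) (mul_nonneg (s.2.1 _) (ht' j).le), by
          rw [Finset.sum_add_distrib, ← Finset.mul_sum, t'.2.2, hss]; ring⟩
      have e : s' = t' := jn_inj hs0
      have e2 : s.1 i.succ + s.1 0 * t'.1 i = t'.1 i := congrFun (congrArg Subtype.val e) i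
      rw [hz, zero_add] at e2
      have e3 : s.1 0 = 1 := by
        have := ht' i
        field_simp at e2
        exact e2
      rw [e3]
      exact h0
    have hbd : bd (push φ (Finsupp.single (jn (n + 1)) (1 : ℤ))) =
        Finsupp.single (τ.comp (face 0)) (1 : ℤ) + ∑ i : Fin (n + 1),
          (-1 : ℤ) ^ ((i.succ : Fin (n + 2)) : ℕ) • Finsupp.single (τ.comp (face i.succ)) (1 : ℤ) := by
      rw [push_single, bd_single, Fin.sum_univ_succ]
      simp [τ]
    have hsnd : push ContinuousMap.snd (Finsupp.single (τ.comp (face 0)) (1 : ℤ)) =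
        Finsupp.single (jn n) 1 := by
      rw [push_single]
      congr 1
      ext s j
      change (face 0 s).1 j.castSucc.succ + (face 0 s).1 0 * t'.1 j.castSucc = s.1 j.castSucc
      rw [hf0, hf1, zero_mul, add_zero]
    refine susp_gen isClosed_singleton ha hb hbd (by rw [hsnd]; exact bd_jn_pt ht') ?_
    have := ih t' ht'
    convert this using 2

lemma sub_compl {α : Type*} {K K' : Set α} (h : K' ⊆ K) : Kᶜ ⊆ K'ᶜ := compl_subset_compl.2 h

theorem exists_oc (n : ℕ) : ∃ o : ∀ K : Set (E n), HH Kᶜ n,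
    (∀ K K' : Set (E n), Bornology.IsBounded K → ∀ h : Kᶜ ⊆ K'ᶜ, HH.res h (o K) = o K') ∧
      ∀ x : E n, Gen (o {x}) := by
  classical
  let p : E n := jn n stdSimplex.barycenter
  obtain ⟨g, hg⟩ : ∃ g : HH ({p}ᶜ : Set (E n)) n, Gen g :=
    ⟨_, gen_jn stdSimplex.barycenter fun i => by
      change (0 : ℝ) < (stdSimplex.barycenter : Dl (n + 1)).1 i
      rw [stdSimplex.barycenter_apply]; positivity⟩
  let B : ℕ → Set (E n) := fun R => Metric.closedBall p R
  have hp : ∀ R, p ∈ B R := fun R => Metric.mem_closedBall_self (by positivity)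
  have hbij : ∀ (R : ℕ) (x : E n) (hx : x ∈ B R), Bijective
      (HH.res (sub_compl (singleton_subset_iff.2 hx)) : HH (B R)ᶜ n → HH {x}ᶜ n) :=
    fun R x hx => res_bij Metric.isBounded_closedBall ((convex_closedBall _ _).starConvex hx) _
  choose ω hω using fun R => (hbij R p (hp R)).2 g
  have hmono : ∀ {R R' : ℕ}, R ≤ R' → B R ⊆ B R' := fun h =>
    Metric.closedBall_subset_closedBall (by exact_mod_cast h)
  have hcomp : ∀ (R R' : ℕ) (h : R ≤ R'), HH.res (sub_compl (hmono h)) (ω R') = ω R := by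
    intro R R' h
    refine (hbij R p (hp R)).1 ?_
    rw [HH.res_res, hω, hω]
  have hex : ∀ K : Set (E n), Bornology.IsBounded K → ∃ R : ℕ, K ⊆ B R := by
    intro K hK
    obtain ⟨r, hr⟩ := hK.subset_closedBall p
    exact ⟨⌈r⌉₊, hr.trans (Metric.closedBall_subset_closedBall (Nat.le_ceil r))⟩
  let o : ∀ K : Set (E n), HH Kᶜ n := fun K =>
    if h : ∃ R : ℕ, K ⊆ B R then HH.res (sub_compl h.choose_spec) (ω h.choose) else 0
  have ho : ∀ (K : Set (E n)) (R : ℕ) (h : K ⊆ B R), o K = HH.res (sub_compl h) (ω R) := by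
    intro K R h
    have h' : ∃ R : ℕ, K ⊆ B R := ⟨R, h⟩
    simp only [o, dif_pos h']
    rw [← hcomp _ _ (le_max_left h'.choose R), ← hcomp R _ (le_max_right h'.choose R),
      HH.res_res, HH.res_res]
  refine ⟨o, fun K K' hK h => ?_, fun x => ?_⟩
  · obtain ⟨R, hR⟩ := hex K hK
    rw [ho K R hR, ho K' R ((compl_subset_compl.1 h).trans hR), HH.res_res]
  · obtain ⟨R, hR⟩ := hex {x} Bornology.isBounded_singleton
    rw [ho _ R hR]
    refine Gen.map ?_ _ (hbij R x (singleton_subset_iff.1 hR))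
    refine Gen.of_map _ (hbij R p (hp R)) ?_
    rw [hω]
    exact hg

/-- the orientation class of `E n` along a bounded set -/
def oc (K : Set (E n)) : HH Kᶜ n := (exists_oc n).choose K

theorem res_oc {K K' : Set (E n)} (hK : Bornology.IsBounded K) (h : Kᶜ ⊆ K'ᶜ) :
    HH.res h (oc K) = oc K' := (exists_oc n).choose_spec.1 K K' hK h

theorem gen_oc_pt (x : E n) : Gen (oc {x}) := (exists_oc n).choose_spec.2 x

theorem gen_oc {K : Set (E n)} (hK : Bornology.IsBounded K) {x : E n} (hs : StarConvex ℝ x K)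
    (hx : x ∈ K) : Gen (oc K) := by
  have hx' : Kᶜ ⊆ {x}ᶜ := compl_subset_compl.2 (singleton_subset_iff.2 hx)
  refine Gen.of_map (HH.res hx') (res_bij hK hs hx') ?_
  rw [res_oc hK]
  exact gen_oc_pt x

theorem exists_sgn (ψ : C(E n, E n)) (hψ : IsOpenEmbedding ψ) : ∃ s : ℤˣ, ∀ x,
    HH.map ψ (mapsTo_pt hψ.injective x) (oc {x}) = (s : ℤ) • oc {ψ x} := by
  have hb : ∀ x, Bijective (HH.map ψ (mapsTo_pt hψ.injective x) : HH {x}ᶜ n → HH {ψ x}ᶜ n) := by
    intro x
    have h1 : ∀ y, y ∈ range ψ ∨ y ∈ ({ψ x}ᶜ : Set (E n)) := fun y => by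
      by_cases h : y = ψ x
      · exact Or.inl ⟨x, h.symm⟩
      · exact Or.inr h
    have h2 : ∀ y, ψ y ∈ ({ψ x}ᶜ : Set (E n)) → y ∈ ({x}ᶜ : Set (E n)) := fun y hy h => by
      rw [mem_singleton_iff.1 h] at hy
      exact hy rfl
    exact excision (A := {x}ᶜ) (T := {ψ x}ᶜ) ψ hψ isOpen_compl_singleton h1 h2 _
  choose s hs using fun x => (gen_oc_pt (ψ x)).exists_units ((gen_oc_pt x).map _ (hb x))
  have hloc : IsLocallyConstant s := by
    rw [IsLocallyConstant.iff_exists_open]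
    intro x
    obtain ⟨r, hr, hB⟩ := Metric.nhds_basis_closedBall.mem_iff.1
      (hψ.isOpen_range.mem_nhds ⟨x, rfl⟩)
    have hK : IsCompact (ψ ⁻¹' Metric.closedBall (ψ x) r) :=
      hψ.isInducing.isCompact_preimage' (isCompact_closedBall _ _) hB
    have hm : MapsTo ψ (ψ ⁻¹' Metric.closedBall (ψ x) r)ᶜ (Metric.closedBall (ψ x) r)ᶜ :=
      fun y hy => hy
    have hg : Gen (oc (Metric.closedBall (ψ x) r)) :=
      gen_oc Metric.isBounded_closedBall
        ((convex_closedBall _ _).starConvex (Metric.mem_closedBall_self hr.le))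
        (Metric.mem_closedBall_self hr.le)
    obtain ⟨m, hm'⟩ := hg.2 (HH.map ψ hm (oc _))
    have key : ∀ y, ψ y ∈ Metric.closedBall (ψ x) r → (s y : ℤ) = m := by
      intro y hy
      refine (gen_oc_pt (ψ y)).1 ?_
      have h1 := congrArg (HH.res (sub_compl (singleton_subset_iff.2 hy))) hm'
      simp only [map_zsmul] at h1
      rw [res_oc Metric.isBounded_closedBall, HH.res_map] at h1
      simp only
      rw [h1, ← hs y, ← res_oc hK.isBounded
        (sub_compl (singleton_subset_iff.2 (show y ∈ ψ ⁻¹' _ from hy))), HH.map_res]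
    refine ⟨ψ ⁻¹' Metric.ball (ψ x) r, Metric.isOpen_ball.preimage ψ.continuous,
      Metric.mem_ball_self hr, fun y hy => Units.ext ?_⟩
    rw [key y (Metric.ball_subset_closedBall hy), key x (Metric.mem_closedBall_self hr.le)]
  exact ⟨s 0, fun x => by rw [hs x, hloc.apply_eq_of_preconnectedSpace x 0]⟩

open Classical in
/-- the homological sign of an open embedding of `E n` into itself -/
def sgn (ψ : C(E n, E n)) : ℤˣ :=
  if h : IsOpenEmbedding ψ then (exists_sgn ψ h).choose else 1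

theorem sgn_spec {ψ : C(E n, E n)} (hψ : IsOpenEmbedding ψ) (x : E n) :
    HH.map ψ (mapsTo_pt hψ.injective x) (oc {x}) = (sgn ψ : ℤ) • oc {ψ x} := by
  rw [sgn, dif_pos hψ]
  exact (exists_sgn ψ hψ).choose_spec x

lemma sgn_spec' {ψ : C(E n, E n)} (hψ : IsOpenEmbedding ψ) {x y : E n} (h : ψ x = y)
    (hm : MapsTo ψ {x}ᶜ {y}ᶜ) : HH.map ψ hm (oc {x}) = (sgn ψ : ℤ) • oc {y} := by
  subst h
  exact sgn_spec hψ x

theorem sgn_comp {φ ψ : C(E n, E n)} (hφ : IsOpenEmbedding φ) (hψ : IsOpenEmbedding ψ) :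
    sgn (φ.comp ψ) = sgn φ * sgn ψ := by
  have hc : IsOpenEmbedding (φ.comp ψ) := hφ.comp hψ
  have h1 := sgn_spec' hc (x := 0) (y := φ (ψ 0)) rfl
    ((mapsTo_pt hφ.injective (ψ 0)).comp (mapsTo_pt hψ.injective 0))
  rw [← HH.map_map φ ψ (mapsTo_pt hφ.injective (ψ 0)) (mapsTo_pt hψ.injective 0), sgn_spec hψ,
    map_zsmul, sgn_spec hφ, smul_smul] at h1
  refine Units.ext ?_
  rw [Units.val_mul, mul_comm]
  exact ((gen_oc_pt (φ (ψ 0))).1 h1).symm

theorem sgn_id : sgn (ContinuousMap.id (E n)) = 1 := by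
  have h1 := sgn_spec' (ψ := ContinuousMap.id (E n)) IsOpenEmbedding.id (x := 0) (y := 0) rfl
    (mapsTo_id _)
  rw [HH.map_id'] at h1
  refine Units.ext ((gen_oc_pt (0 : E n)).1 ?_)
  simp only
  rw [← h1, Units.val_one, one_smul]

/-- the reflection in the `i`-th coordinate -/
def rf (i : Fin n) : C(E n, E n) :=
  ⟨fun x => update x i (-x i), by fun_prop⟩

lemma rf_rf (i : Fin n) (x : E n) : rf i (rf i x) = x := by
  simp [rf]

theorem isOpenEmbedding_rf (i : Fin n) : IsOpenEmbedding (rf i) :=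
  Homeomorph.isOpenEmbedding
    { toFun := rf i, invFun := rf i, left_inv := rf_rf i, right_inv := rf_rf i,
      continuous_toFun := (rf i).continuous, continuous_invFun := (rf i).continuous }

theorem sgn_rf (i : Fin n) : sgn (rf i) = -1 := by
  obtain ⟨n, rfl⟩ : ∃ m, n = m + 1 := ⟨n - 1, by have := i.2; omega⟩
  have h0 : rf i 0 = 0 := by simp [rf]
  have hm : MapsTo (rf i) {0}ᶜ {0}ᶜ := by
    have := mapsTo_pt (isOpenEmbedding_rf i).injective 0
    rwa [h0] at this
  have h1 := sgn_spec' (isOpenEmbedding_rf i) h0 hm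
  have h : spl i 0 0 0 = (0, 0) := by
    ext <;> simp [spl]
  have h2 : HH.map (rf i) hm (oc {0}) = -oc {0} := by
    refine (spl_bij i 0 0 h).1 ?_
    rw [map_neg, ← susp_flip isClosed_singleton, HH.map_map, HH.map_map]
    refine HH.map_congr ?_ _ _ _
    ext x j
    · simp [spl, rf, flipR]
    · simp [spl, rf, flipR]
  refine Units.ext ((gen_oc_pt (0 : E (n + 1))).1 ?_)
  simp only
  rw [← h1, h2, Units.val_neg, Units.val_one, neg_smul, one_smul]

theorem exists_emb (x : E n) {U : Set (E n)} (hU : U ∈ 𝓝 x) :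
    ∃ β : C(E n, E n), IsOpenEmbedding β ∧ β 0 = x ∧ ∀ y, β y ∈ U := by
  obtain ⟨r, hr, hb⟩ := Metric.mem_nhds_iff.1 hU
  refine ⟨⟨OpenPartialHomeomorph.univBall x r, OpenPartialHomeomorph.continuous_univBall x r⟩,
    OpenPartialHomeomorph.isOpenEmbedding _ (OpenPartialHomeomorph.univBall_source x r),
    OpenPartialHomeomorph.univBall_apply_zero x r, fun y => hb ?_⟩
  rw [← OpenPartialHomeomorph.univBall_target (E := E n) x hr]
  exact (OpenPartialHomeomorph.univBall x r).map_source (by simp)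

lemma bd_id_mem {K : Set (Dl (n + 1))} (hi : ∀ t ∈ K, ∀ i, 0 < t i) :
    bd (Finsupp.single (ContinuousMap.id (Dl (n + 1))) (1 : ℤ)) ∈ ChIn Kᶜ n := by
  rw [bd_single]
  refine Submodule.sum_mem _ fun i _ => Submodule.smul_mem _ _ (single_mem_ChIn _ fun t ht => ?_)
  simpa using hi _ ht i

lemma isOpen_int : IsOpen {t : Dl (n + 1) | ∀ i, 0 < t i} := by
  rw [ofPred_forall]
  exact isOpen_iInter_of_finite fun i =>
    isOpen_lt continuous_const ((continuous_apply i).comp continuous_subtype_val)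

lemma isOpenEmbedding_jn :
    IsOpenEmbedding fun t : {t : Dl (n + 1) | ∀ i, 0 < t i} => jn n t := by
  refine ⟨((jn n).continuous.isClosedEmbedding jn_inj).isEmbedding.comp IsEmbedding.subtypeVal, ?_⟩
  have : range (fun t : {t : Dl (n + 1) | ∀ i, 0 < t i} => jn n t) =
      (⋂ i, {x : E n | 0 < x i}) ∩ {x | ∑ i, x i < 1} := by
    ext x
    simp only [mem_range, mem_inter_iff, mem_iInter, mem_ofPred_eq]
    constructor
    · rintro ⟨⟨t, ht⟩, rfl⟩
      refine ⟨fun i => ht _, ?_⟩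
      have h1 : 0 < t.1 (Fin.last n) := ht _
      rw [last_eq] at h1
      linarith
    · rintro ⟨h1, h2⟩
      have hpos : ∀ i, 0 < Fin.snoc (α := fun _ => ℝ) x (1 - ∑ i, x i) i := fun i => by
        refine Fin.lastCases ?_ (fun i => ?_) i
        · rw [Fin.snoc_last]; linarith
        · rw [Fin.snoc_castSucc]; exact h1 i
      refine ⟨⟨⟨Fin.snoc (α := fun _ => ℝ) x (1 - ∑ i, x i), fun i => (hpos i).le, ?_⟩, hpos⟩, ?_⟩
      · rw [Fin.sum_univ_castSucc]
        simp
      · funext i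
        exact Fin.snoc_castSucc (α := fun _ => ℝ) _ _ _
  rw [this]
  exact (isOpen_iInter_of_finite fun i => isOpen_lt continuous_const (continuous_apply i)).inter
    (isOpen_lt (by fun_prop) continuous_const)

/-- the identity simplex generates the local homology of the simplex along a compact convex
subset of its interior -/
theorem gen_simplex {K : Set (Dl (n + 1))} (hK : IsClosed K) (hc : Convex ℝ (Subtype.val '' K))
    (hne : K.Nonempty) (hi : ∀ t ∈ K, ∀ i, 0 < t i) :
    Gen (HH.mk (Finsupp.single (ContinuousMap.id (Dl (n + 1))) 1) (bd_id_mem hi)) := by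
  have hL : IsCompact (jn n '' K) := hK.isCompact.image (jn n).continuous
  have hm : MapsTo (jn n) Kᶜ (jn n '' K)ᶜ := by
    rintro t ht ⟨s, hs, h⟩
    exact ht (jn_inj h ▸ hs)
  refine Gen.of_map (HH.map (jn n) hm)
    (excision' (jn n) isOpen_int isOpenEmbedding_jn hi hK hL.isClosed hm) ?_
  obtain ⟨t, ht⟩ := hne
  have hconv : Convex ℝ (jn n '' K) := by
    have := hc.linear_image (LinearMap.funLeft ℝ ℝ (Fin.castSucc : Fin n → Fin (n + 1)))
    rw [image_image] at this
    exact this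
  have hx : (jn n '' K)ᶜ ⊆ {jn n t}ᶜ := sub_compl (singleton_subset_iff.2 ⟨t, ht, rfl⟩)
  refine Gen.of_map (HH.res hx) (res_bij hL.isBounded (hconv.starConvex ⟨t, ht, rfl⟩) hx) ?_
  rw [HH.map_mk, HH.res_mk]
  convert gen_jn t (hi t ht) using 2
  rw [push_single, ContinuousMap.comp_id]

end

end Pool.Agent.URC
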