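import Pool.Agent.P.MP_797ab1_gt.Good
import Pool.Agent.P.MP_797ab1_gt.Local

/-! TASK M1: global charts of hyperbolic space attached to orthonormal frames, and their signs. -/

open Set Function Topology

namespace Pool.Agent.URC

noncomputable section

variable {n : ℕ}

/-- orthonormal spacelike frames -/
def ON (w : Fin n → V n) : Prop :=
  (∀ k, lor (w k) (w k) = 1) ∧ ∀ k l, k ≠ l → lor (w k) (w l) = 0

lemma on_ev : ON (ev : Fin n → V n) :=
  ⟨fun k => by simp [lor_ev_ev], fun k l h => by simp [lor_ev_ev, h]⟩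

lemma ON.smul {w : Fin n → V n} (h : ON w) (g : Isom n) : ON (g • w) :=
  ⟨fun k => by simpa using h.1 k, fun k l hkl => by simpa using h.2 k l hkl⟩

lemma SFrame.on {F : Fin n → Set (V n)} {B : ℝ} (hF : Fam F B) {w : Fin n → V n}
    (h : SFrame F w) : ON w :=
  ⟨fun k => hF.walls.unit _ ⟨k, h.1 k⟩, h.2⟩

namespace ChAux

lemma lor_comb {w : Fin n → V n} (hw : ON w) {p : Hyp n} (hp : ∀ k, lor p.1 (w k) = 0) (a : ℝ)
    (y : Fin n → ℝ) (k : Fin n) : lor (a • p.1 + ∑ l, y l • w l) (w k) = y k := by
  rw [lor_add_left, lor_smul_left, hp, lor_sum_left, Finset.sum_eq_single k]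
  · simp [hw.1 k]
  · intro l _ hl; simp [hw.2 l k hl]
  · simp

lemma lor_comb' {w : Fin n → V n} {p : Hyp n} (hp : ∀ k, lor p.1 (w k) = 0) (a : ℝ)
    (y : Fin n → ℝ) : lor p.1 (a • p.1 + ∑ l, y l • w l) = -a := by
  rw [lor_add_right, lor_smul_right, lor_sum_right]
  simp [hp]

lemma lor_comb_self {w : Fin n → V n} (hw : ON w) {p : Hyp n} (hp : ∀ k, lor p.1 (w k) = 0)
    (a : ℝ) (y : Fin n → ℝ) :
    lor (a • p.1 + ∑ l, y l • w l) (a • p.1 + ∑ l, y l • w l) = -a ^ 2 + ∑ l, y l ^ 2 := by
  conv_lhs => rw [lor_add_left, lor_smul_left, lor_comb' hp, lor_sum_left]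
  congr 1
  · ring
  · refine Finset.sum_congr rfl fun l _ => ?_
    rw [lor_smul_left, lor_comm, lor_comb hw hp, sq]

lemma expand {w : Fin n → V n} (hw : ON w) {p : Hyp n} (hp : ∀ k, lor p.1 (w k) = 0) (x : V n) :
    x = (-lor p.1 x) • p.1 + ∑ l, lor x (w l) • w l := by
  let L : V n →ₗ[ℝ] V n :=
    { toFun := fun c => c 0 • p.1 + ∑ l : Fin n, c l.succ • w l
      map_add' := fun c d => by
        simp only [Pi.add_apply, add_smul, Finset.sum_add_distrib]; abel
      map_smul' := fun a c => by
        simp only [Pi.smul_apply, smul_eq_mul, mul_smul, RingHom.id_apply, smul_add,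
          Finset.smul_sum] }
  have hi : Injective L := by
    refine (injective_iff_map_eq_zero L).2 fun c hc => ?_
    have hc' : c 0 • p.1 + ∑ l : Fin n, c l.succ • w l = 0 := hc
    funext i
    refine Fin.cases ?_ (fun k => ?_) i
    · have := lor_comb' hp (c 0) fun l => c l.succ
      rw [hc'] at this
      simpa using this
    · have := lor_comb hw hp (c 0) (fun l => c l.succ) k
      rw [hc'] at this
      simpa using this.symm
  obtain ⟨c, rfl⟩ := LinearMap.injective_iff_surjective.1 hi x
  change c 0 • p.1 + ∑ l : Fin n, c l.succ • w l = _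
  have h1 : lor p.1 (L c) = -c 0 := lor_comb' hp (c 0) fun l => c l.succ
  have h2 : ∀ k, lor (L c) (w k) = c k.succ := lor_comb hw hp (c 0) fun l => c l.succ
  simp only [h1, h2, neg_neg]

end ChAux

open ChAux

theorem dd_sq_of_perp {w : Fin n → V n} (hw : ON w) (x p : Hyp n) (hp : ∀ k, lor p.1 (w k) = 0) :
    dd x p ^ 2 = 1 + ∑ k, lor x.1 (w k) ^ 2 := by
  have h1 := lor_comb_self hw hp (-lor p.1 x.1) fun l => lor x.1 (w l)
  rw [← expand hw hp x.1, lor_self] at h1
  rw [dd_comm, dd]
  linarith

theorem exists_chart {w : Fin n → V n} (hw : ON w) :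
    ∃ χ : Hyp n ≃ₜ E n, ∀ x k, χ x k = lor x.1 (w k) := by
  obtain ⟨p, hp, -, -⟩ := exists_proj Finset.univ w (fun k _ => hw.1 k)
    (fun k _ l _ h => hw.2 k l h) (e0 : Hyp n)
  have hp : ∀ k, lor p.1 (w k) = 0 := fun k => hp k (Finset.mem_univ _)
  have hS : ∀ y : E n, 0 < 1 + ∑ l, y l ^ 2 := fun y => by positivity
  refine ⟨{ toFun := fun x k => lor x.1 (w k)
            invFun := fun y => ⟨√(1 + ∑ l, y l ^ 2) • p.1 + ∑ l, y l • w l, isH_of p ?_ ?_⟩
            left_inv := fun x => Subtype.ext ?_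
            right_inv := fun y => funext fun k => lor_comb hw hp _ y k
            continuous_toFun := by fun_prop
            continuous_invFun := Continuous.subtype_mk (by fun_prop) _ }, fun _ _ => rfl⟩
  · rw [lor_comb_self hw hp, Real.sq_sqrt (hS y).le]; ring
  · rw [lor_comb' hp]; exact neg_neg_of_pos (Real.sqrt_pos.2 (hS y))
  · simp only
    rw [← dd_sq_of_perp hw x p hp, Real.sqrt_sq (dd_pos x p).le, dd_comm]
    exact (expand hw hp x.1).symm

open Classical in
/-- the chart `x ↦ (⟨x, w k⟩)_k` -/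
def chi (w : Fin n → V n) : Hyp n ≃ₜ E n :=
  if h : ON w then (exists_chart h).choose else (exists_chart on_ev).choose

lemma chi_apply {w : Fin n → V n} (hw : ON w) (x : Hyp n) (k : Fin n) :
    chi w x k = lor x.1 (w k) := by
  rw [chi, dif_pos hw]
  exact (exists_chart hw).choose_spec x k

theorem isCompact_ball (R : ℝ) : IsCompact {x : Hyp n | dd e0 x ≤ R} := by
  have h1 : IsCompact ((chi ev : Hyp n ≃ₜ E n) ⁻¹' Metric.closedBall 0 |R|) :=
    (chi ev).isCompact_preimage.2 (isCompact_closedBall _ _)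
  refine h1.of_isClosed_subset (isClosed_le (by fun_prop) continuous_const) fun x hx => ?_
  have hx' : dd e0 x ≤ R := hx
  rw [mem_preimage, mem_closedBall_zero_iff, pi_norm_le_iff_of_nonneg (abs_nonneg R)]
  intro k
  rw [chi_apply on_ev, Real.norm_eq_abs]
  have := abs_lor_le_dd x e0 (w := ev k) (on_ev.1 k) (by rw [lor_e0]; simp [ev])
  rw [dd_comm] at this
  exact this.trans (hx'.trans (le_abs_self R))

/-- the change of chart from the frame `w` to the standard frame -/
def trn (w : Fin n → V n) : C(E n, E n) := ((chi w).symm.trans (chi ev) : E n ≃ₜ E n)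

/-- the sign of a frame -/
def del (w : Fin n → V n) : ℤˣ := sgn (trn w)

/-- an isometry read in the standard chart -/
def crd (g : Isom n) : C(E n, E n) :=
  ⟨fun y => chi ev (g • (chi ev).symm y), by fun_prop⟩

theorem isOpenEmbedding_crd (g : Isom n) : IsOpenEmbedding (crd g) :=
  (((chi ev).symm.trans (Homeomorph.smul g)).trans (chi ev)).isOpenEmbedding

theorem isOpenEmbedding_trn (w : Fin n → V n) : IsOpenEmbedding (trn w) :=
  ((chi w).symm.trans (chi ev)).isOpenEmbedding

lemma trn_apply (w : Fin n → V n) (y : E n) : trn w y = chi ev ((chi w).symm y) := rfl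

lemma crd_apply (g : Isom n) (y : E n) : crd g y = chi ev (g • (chi ev).symm y) := rfl

lemma chi_smul {w : Fin n → V n} (hw : ON w) (g : Isom n) (x : Hyp n) :
    chi (g • w) (g • x) = chi w x := by
  funext k
  rw [chi_apply (hw.smul g), chi_apply hw, smul_val]
  exact lor_smul_smul g _ _

lemma ON.update {w : Fin n → V n} (hw : ON w) (k : Fin n) : ON (update w k (-w k)) := by
  refine ⟨fun l => ?_, fun l m h => ?_⟩
  · by_cases hl : l = k
    · subst hl; simp [hw.1]
    · simp [hl, hw.1]
  · by_cases hl : l = k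
    · subst hl; simp [Ne.symm h, hw.2 l m h]
    · by_cases hm : m = k
      · subst hm; simp [hl, hw.2 l m h]
      · simp [hl, hm, hw.2 l m h]

/-- the orientation character -/
def osg (g : Isom n) : ℤˣ := sgn (crd g)

theorem osg_mul (g h : Isom n) : osg (g * h) = osg g * osg h := by
  rw [osg, osg, osg, ← sgn_comp (isOpenEmbedding_crd g) (isOpenEmbedding_crd h)]
  congr 1
  ext1 y
  simp [crd_apply, mul_smul]

theorem del_smul {w : Fin n → V n} (hw : ON w) (g : Isom n) : del (g • w) = osg g * del w := by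
  rw [del, del, osg, ← sgn_comp (isOpenEmbedding_crd g) (isOpenEmbedding_trn w)]
  congr 1
  ext1 y
  rw [ContinuousMap.comp_apply, crd_apply, trn_apply, trn_apply, Homeomorph.symm_apply_apply]
  congr 1
  rw [Homeomorph.symm_apply_eq, chi_smul hw, Homeomorph.apply_symm_apply]

theorem del_update {w : Fin n → V n} (hw : ON w) (k : Fin n) :
    del (update w k (-w k)) = -del w := by
  have h : trn (update w k (-w k)) = (trn w).comp (rf k) := by
    ext1 y
    rw [ContinuousMap.comp_apply, trn_apply, trn_apply]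
    congr 1
    rw [Homeomorph.symm_apply_eq]
    funext l
    rw [chi_apply (hw.update k)]
    have h1 := fun m => chi_apply hw ((chi w).symm (rf k y)) m
    rw [Homeomorph.apply_symm_apply] at h1
    by_cases hl : l = k
    · subst hl
      rw [update_self, lor_neg_right, ← h1]; simp [rf]
    · rw [update_of_ne hl, ← h1]; simp [rf, hl]
  rw [del, h, sgn_comp (isOpenEmbedding_trn w) (isOpenEmbedding_rf k), sgn_rf, del]
  simp

end

end Pool.Agent.URC
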