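import Pool.Agent.P.MP_797ab1_gt.Good

/-! TASK Q: cliques ordered by distance: chordality, trivialisation, projection property. -/

open Set

namespace Pool.Agent.URC

variable {n : ℕ} {F : Fin n → Set (V n)} {B : ℝ}

namespace ClqAux

/-- a rank function refining a real function with finite sublevel sets -/
lemma exists_rank {α : Type*} (S : Set α) (D : α → ℝ)
    (hfin : ∀ R, {x | x ∈ S ∧ D x ≤ R}.Finite) :
    ∃ rk : α → ℕ, InjOn rk S ∧ ∀ x ∈ S, ∀ y ∈ S, rk x ≤ rk y → D x ≤ D y := by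
  obtain ⟨inst, -⟩ := exists_wellFoundedLT α
  let key : α → ℝ ×ₗ α := fun x => toLex (D x, x)
  have hk : ∀ x y, key x ≤ key y → D x ≤ D y := fun x y h => by
    rcases Prod.Lex.toLex_le_toLex.1 h with h | h
    exacts [h.le, h.1.le]
  have hlt : ∀ x ∈ S, ∀ y, key x < key y →
      {t | t ∈ S ∧ key t < key x}.ncard < {t | t ∈ S ∧ key t < key y}.ncard := by
    intro x hx y hxy
    refine ncard_lt_ncard ⟨fun t ht => ⟨ht.1, ht.2.trans hxy⟩, fun h => ?_⟩
      ((hfin (D y)).subset fun t ht => ⟨ht.1, hk _ _ ht.2.le⟩)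
    exact lt_irrefl _ (h (show x ∈ {t | t ∈ S ∧ key t < key y} from ⟨hx, hxy⟩)).2
  refine ⟨fun x => {t | t ∈ S ∧ key t < key x}.ncard, fun x hx y hy h => ?_,
    fun x _ y hy h => hk _ _ (not_lt.1 fun h' => absurd (hlt y hy x h') (not_lt.2 h))⟩
  rcases lt_trichotomy (key x) (key y) with h' | h' | h'
  · exact absurd h (hlt x hx y h').ne
  · exact congrArg (fun t => (ofLex t).2) h'
  · exact absurd h (hlt y hy x h').ne'

/-- the hyperbolic cosine of the distance from `b` to the subspace of `σ` -/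
noncomputable def CC (b : Hyp n) (σ : Finset (V n)) : ℝ := √(1 + ∑ v ∈ σ, lor b.1 v ^ 2)

lemma CC_pos (b : Hyp n) (σ : Finset (V n)) : 0 < CC b σ := Real.sqrt_pos.2 (by positivity)

lemma abs_le_CC (b : Hyp n) {σ : Finset (V n)} {v : V n} (hv : v ∈ σ) :
    |lor b.1 v| ≤ CC b σ := by
  refine Real.abs_le_sqrt ?_
  have := Finset.single_le_sum (f := fun v => lor b.1 v ^ 2) (fun _ _ => sq_nonneg _) hv
  linarith

lemma mono {σ τ : Finset (V n)} (h : Clq F τ) (hs : σ ⊆ τ) : Clq F σ :=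
  ⟨fun v hv => h.1 v (hs hv), fun v hv v' hv' => h.2 v (hs hv) v' (hs hv')⟩

lemma nb_symm {m : ℕ} {σ τ : Finset (V n)} (h : Nb F m σ τ) : Nb F m τ σ :=
  ⟨h.2.1, h.1, by rw [Finset.union_comm]; exact h.2.2⟩

lemma nb_left {m : ℕ} {σ τ : Finset (V n)} (h : Nb F m σ τ) : Clq F σ :=
  mono h.2.2 Finset.subset_union_left

lemma nb_right {m : ℕ} {σ τ : Finset (V n)} (h : Nb F m σ τ) : Clq F τ :=
  mono h.2.2 Finset.subset_union_right

lemma exists_p (hF : Fam F B) (b : Hyp n) {σ : Finset (V n)} (h : Clq F σ) :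
    ∃ p : Hyp n, (∀ v ∈ σ, lor p.1 v = 0) ∧ dd b p = CC b σ ∧
      ∀ y, (∀ v ∈ σ, lor v y = 0) → lor b.1 y = CC b σ * lor p.1 y := by
  obtain ⟨p, h1, h2, h3⟩ := exists_proj σ (fun v => v)
    (fun v hv => by obtain ⟨k, hk⟩ := h.1 v hv; exact hF.unit k v hk) h.2 b
  have h4 : dd b p = CC b σ := by
    rw [CC, ← h2, Real.sqrt_sq (dd_pos b p).le]
  refine ⟨p, h1, h4, fun y hy => ?_⟩
  have := congrArg (fun x => lor x y) h3
  simp only [lor_add_left, lor_smul_left, lor_sum_left] at this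
  rw [this, Finset.sum_eq_zero fun v hv => by rw [hy v hv, mul_zero], h4, add_zero]

lemma exists_rk (hF : Fam F B) (b : Hyp n) : ∃ rk : Finset (V n) → ℕ,
    InjOn rk {σ | Clq F σ} ∧ ∀ σ τ, Clq F σ → Clq F τ → rk σ ≤ rk τ → CC b σ ≤ CC b τ := by
  obtain ⟨rk, h1, h2⟩ := exists_rank {σ | Clq F σ} (CC b) fun R => by
    refine ((hF.walls.fin' b R).finite_subsets.preimage
      (f := fun σ : Finset (V n) => (σ : Set (V n))) Finset.coe_injective.injOn).subset ?_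
    rintro σ ⟨h1, h2⟩ v hv
    obtain ⟨k, hk⟩ := h1.1 v hv
    exact ⟨⟨k, Or.inl hk⟩, (abs_le_CC b hv).trans h2⟩
  exact ⟨rk, h1, fun σ τ hσ hτ => h2 σ hσ τ hτ⟩

lemma clq_of_close (hF : Fam F B) (x : Hyp n) {τ : Finset (V n)} (h1 : ∀ v ∈ τ, ∃ k, v ∈ F k)
    (h2 : ∀ v ∈ τ, |lor x.1 v| ≤ 2) : Clq F τ := by
  refine ⟨h1, fun v hv v' hv' hne => ?_⟩
  obtain ⟨k, hk⟩ := h1 v hv
  obtain ⟨l, hl⟩ := h1 v' hv'
  have h3 : |lor v v'| ≤ B := by
    have := abs_lor_lor_le x (hF.unit k v hk) (hF.unit l v' hl) (h2 v hv) (h2 v' hv')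
    linarith [hF.le_B]
  by_cases e : k = l
  · subst e
    exact absurd (hF.same k v hk v' hl h3) hne
  · exact hF.orth k l e v hk v' hl h3

/-- chordality -/
lemma chord (hF : Fam F B) (b : Hyp n) {σ τ ρ : Finset (V n)} (h1 : Clq F (τ ∪ σ))
    (h2 : Clq F (ρ ∪ σ)) (d1 : CC b τ ≤ 2 * CC b σ) (d2 : CC b ρ ≤ 2 * CC b σ) :
    Clq F (τ ∪ ρ ∪ σ) := by
  obtain ⟨p, p1, -, p3⟩ := exists_p hF b (mono h1 Finset.subset_union_right)
  have key : ∀ τ : Finset (V n), Clq F (τ ∪ σ) → CC b τ ≤ 2 * CC b σ →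
      ∀ v ∈ τ, |lor p.1 v| ≤ 2 := by
    intro τ h d v hv
    by_cases hs : v ∈ σ
    · rw [p1 v hs]; norm_num
    have h3 := p3 v fun w hw => h.2 w (Finset.mem_union_right _ hw) v
      (Finset.mem_union_left _ hv) fun e => hs (e ▸ hw)
    have h4 := abs_le_CC b hv
    have h5 := CC_pos b σ
    rw [h3, abs_mul, abs_of_pos h5] at h4
    nlinarith
  refine clq_of_close hF p (fun v hv => ?_) fun v hv => ?_
  · simp only [Finset.mem_union] at hv
    rcases hv with (hv | hv) | hv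
    exacts [h1.1 v (Finset.mem_union_left _ hv), h2.1 v (Finset.mem_union_left _ hv),
      h1.1 v (Finset.mem_union_right _ hv)]
  · simp only [Finset.mem_union] at hv
    rcases hv with (hv | hv) | hv
    exacts [key τ h1 d1 v hv, key ρ h2 d2 v hv, by rw [p1 v hv]; norm_num]

lemma rho_comm (b x y : Hyp n) : rho b x y = rho b y x := by
  rw [rho, rho, dd_comm x y, mul_comm]

lemma exists_p' (hF : Fam F B) (b : Hyp n) {σ : Finset (V n)} (h : Clq F σ) :
    ∃ p : Hyp n, (∀ v ∈ σ, lor p.1 v = 0) ∧ dd b p = CC b σ ∧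
      ∀ z : Hyp n, (∀ v ∈ σ, lor z.1 v = 0) → rho b p z = (CC b σ)⁻¹ := by
  obtain ⟨p, h1, h2, h3⟩ := exists_p hF b h
  refine ⟨p, h1, h2, fun z hz => ?_⟩
  have h4 := h3 z.1 fun v hv => by rw [lor_comm, hz v hv]
  have h5 : dd b z = CC b σ * dd p z := by simp only [dd, h4]; ring
  have h6 := CC_pos b σ
  have h7 := dd_pos p z
  rw [rho, h2, h5, Real.sqrt_eq_iff_mul_self_eq (by positivity) (by positivity)]
  field_simp

lemma rho_two (hF : Fam F B) (b : Hyp n) {σ : Finset (V n)} (h : Clq F σ) {z z' : Hyp n}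
    (hz : ∀ v ∈ σ, lor z.1 v = 0) (hz' : ∀ v ∈ σ, lor z'.1 v = 0) :
    rho b z z' ≤ 2 * (CC b σ)⁻¹ := by
  obtain ⟨p, -, -, h3⟩ := exists_p' hF b h
  have := rho_tri b z p z'
  rw [rho_comm b z p, h3 z hz, h3 z' hz'] at this
  linarith

end ClqAux

open ClqAux

theorem exists_triv (hF : Fam F B) (m : ℕ) {A : Type*} [Group A]
    (g : Finset (V n) → Finset (V n) → A)
    (hg : ∀ σ₁ σ₂ σ₃ : Finset (V n), σ₁.card = m → σ₂.card = m → σ₃.card = m →
      Clq F (σ₁ ∪ σ₂ ∪ σ₃) → g σ₁ σ₂ * g σ₂ σ₃ = g σ₁ σ₃) :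
    ∃ a : Finset (V n) → A, ∀ σ σ', Nb F m σ σ' → a σ' = a σ * g σ σ' := by
  classical
  obtain ⟨rk, hinj, hmon⟩ := exists_rk hF e0
  let a : Finset (V n) → A := WellFounded.fix (InvImage.wf rk Nat.lt_wfRel.wf) fun σ ih =>
    if h : ∃ τ, Nb F m τ σ ∧ rk τ < rk σ then ih h.choose h.choose_spec.2 * g h.choose σ else 1
  have ha : ∀ σ, a σ =
      if h : ∃ τ, Nb F m τ σ ∧ rk τ < rk σ then a h.choose * g h.choose σ else 1 :=
    fun σ => WellFounded.fix_eq _ _ _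
  have g1 : ∀ σ τ, Nb F m σ τ → g σ σ = 1 := fun σ τ h => by
    have := hg σ σ σ h.1 h.1 h.1 (by simpa using nb_left h)
    exact mul_eq_left.1 this
  have key : ∀ N : ℕ, ∀ σ τ, rk σ < N → rk τ < N → Nb F m σ τ → a τ = a σ * g σ τ := by
    intro N
    induction N with
    | zero => intro σ τ h; omega
    | succ N ih =>
      have P : ∀ σ τ, rk σ ≤ N → rk τ < rk σ → Nb F m τ σ → a σ = a τ * g τ σ := by
        intro σ τ h1 h2 h3
        have h : ∃ τ, Nb F m τ σ ∧ rk τ < rk σ := ⟨τ, h3, h2⟩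
        obtain ⟨h4, h5⟩ := h.choose_spec
        rw [ha σ, dif_pos h]
        set ρ := h.choose
        have c := CC_pos e0 σ
        have h6 : Clq F (τ ∪ ρ ∪ σ) := chord hF e0 h3.2.2 h4.2.2
          (by linarith [hmon τ σ (nb_left h3) (nb_right h3) h2.le])
          (by linarith [hmon ρ σ (nb_left h4) (nb_right h4) h5.le])
        rw [ih τ ρ (by omega) (by omega) ⟨h3.1, h4.1, mono h6 Finset.subset_union_left⟩,
          mul_assoc, hg τ ρ σ h3.1 h4.1 h3.2.1 h6]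
      intro σ τ h1 h2 h3
      rcases lt_trichotomy (rk σ) (rk τ) with h | h | h
      · exact P τ σ (by omega) h h3
      · obtain rfl : σ = τ := hinj (nb_left h3) (nb_right h3) h
        rw [g1 σ σ h3, mul_one]
      · rw [P σ τ (by omega) h (nb_symm h3), mul_assoc, hg τ σ τ h3.2.1 h3.1 h3.2.1
          (mono h3.2.2 fun v => by simp only [Finset.mem_union]; tauto), g1 τ σ (nb_symm h3),
          mul_one]
  exact ⟨a, fun σ τ h => key (rk σ + rk τ + 1) σ τ (by omega) (by omega) h⟩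

theorem proj_YY (hF : Fam F B) {m : ℕ} {σ₀ : Finset (V n)} (h : Clq F σ₀) (hm : σ₀.card = m) :
    Proj 200 (YY F m σ₀) := by
  intro b
  obtain ⟨rk, hinj, hmon⟩ := exists_rk hF b
  set K : Set (Finset (V n)) := {σ | Relation.ReflTransGen (Nb F m) σ₀ σ} with hK
  have hKc : ∀ σ ∈ K, Clq F σ := by
    intro σ hσ
    rcases Relation.ReflTransGen.cases_tail hσ with rfl | ⟨τ, -, h'⟩
    exacts [h, nb_right h']
  have hKn : ∀ σ ∈ K, ∀ τ, Nb F m τ σ → τ ∈ K := fun σ hσ τ h' =>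
    Relation.ReflTransGen.tail hσ (nb_symm h')
  obtain ⟨r, hr, hrmin⟩ := (InvImage.wf rk Nat.lt_wfRel.wf).has_min K
    ⟨σ₀, Relation.ReflTransGen.refl⟩
  replace hrmin : ∀ σ ∈ K, rk r ≤ rk σ := fun σ hσ => not_lt.1 (hrmin σ hσ)
  -- descent to an earlier neighbour is confluent
  let E : Finset (V n) → Finset (V n) → Prop := fun σ τ => Nb F m τ σ ∧ rk τ < rk σ
  have hE : ∀ σ τ, Nb F m σ τ → σ = τ ∨ E σ τ ∨ E τ σ := by
    intro σ τ h'
    rcases lt_trichotomy (rk σ) (rk τ) with h'' | h'' | h''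
    exacts [Or.inr (Or.inr ⟨h', h''⟩), Or.inl (hinj (nb_left h') (nb_right h') h''),
      Or.inr (Or.inl ⟨nb_symm h', h''⟩)]
  have hequiv : Equivalence (Relation.Join (Relation.ReflTransGen E)) := by
    refine Relation.equivalence_join_reflTransGen fun σ τ ρ h1 h2 => ?_
    have c := CC_pos b σ
    have h6 : Clq F (τ ∪ ρ ∪ σ) := chord hF b h1.1.2.2 h2.1.2.2
      (by linarith [hmon τ σ (nb_left h1.1) (nb_right h1.1) h1.2.le])
      (by linarith [hmon ρ σ (nb_left h2.1) (nb_right h2.1) h2.2.le])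
    rcases hE τ ρ ⟨h1.1.1, h2.1.1, mono h6 Finset.subset_union_left⟩ with rfl | h3 | h3
    exacts [⟨τ, .refl, .refl⟩, ⟨ρ, .single h3, .refl⟩, ⟨τ, .refl, .single h3⟩]
  have hjoin : ∀ σ ∈ K, Relation.Join (Relation.ReflTransGen E) σ₀ σ := by
    intro σ hσ
    induction hσ with
    | refl => exact hequiv.refl _
    | @tail σ τ _ h2 ih =>
      refine hequiv.trans ih ?_
      rcases hE σ τ h2 with rfl | h3 | h3
      exacts [hequiv.refl _, ⟨τ, .single h3, .refl⟩, ⟨σ, .refl, .single h3⟩]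
  have hpar : ∀ σ ∈ K, σ ≠ r → ∃ τ, E σ τ := by
    intro σ hσ hne
    obtain ⟨d, h1, h2⟩ := hequiv.trans (hequiv.symm (hjoin r hr)) (hjoin σ hσ)
    rcases Relation.ReflTransGen.cases_head h1 with rfl | ⟨τ, h3, -⟩
    · rcases Relation.ReflTransGen.cases_head h2 with h4 | ⟨τ, h3, -⟩
      exacts [absurd h4 hne, ⟨τ, h3⟩]
    · exact absurd (hrmin τ (hKn r hr τ h3.1)) (not_le.2 h3.2)
  obtain ⟨p, p1, p2, p3⟩ := exists_p' hF b (hKc r hr)
  have c0 := CC_pos b r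
  have main : ∀ N : ℕ, ∀ σ ∈ K, rk σ < N → σ ≠ r → ∀ z : Hyp n, (∀ v ∈ σ, lor z.1 v = 0) →
      rho b p z ≤ 5 * (CC b r)⁻¹ - 2 * (CC b σ)⁻¹ := by
    intro N
    induction N with
    | zero => intro σ _ h'; omega
    | succ N ih =>
      intro σ hσ hN hne z hz
      obtain ⟨τ, hτ, hmin⟩ := (InvImage.wf rk Nat.lt_wfRel.wf).has_min {τ | E σ τ} (hpar σ hσ hne)
      obtain ⟨hτ1, hτ2⟩ : E σ τ := hτ
      obtain ⟨q, q1, -⟩ := exists_p hF b hτ1.2.2
      have t1 := rho_tri b p q z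
      have t2 := rho_two hF b (hKc σ hσ) (fun v hv => q1 v (Finset.mem_union_right _ hv)) hz
      have c1 := CC_pos b σ
      have c2 := CC_pos b τ
      have hτK := hKn σ hσ τ hτ1
      by_cases e : τ = r
      · subst e
        rw [p3 q fun v hv => q1 v (Finset.mem_union_left _ hv)] at t1
        have : (CC b σ)⁻¹ ≤ (CC b τ)⁻¹ :=
          inv_anti₀ c2 (hmon τ σ (nb_left hτ1) (nb_right hτ1) hτ2.le)
        linarith
      · have t3 := ih τ hτK (by omega) e q fun v hv => q1 v (Finset.mem_union_left _ hv)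
        have h2 : 2 * CC b τ ≤ CC b σ := by
          by_contra hlt
          obtain ⟨ρ, hρ1, hρ2⟩ := hpar τ hτK e
          have h6 : Clq F (ρ ∪ σ ∪ τ) := chord hF b hρ1.2.2 (nb_symm hτ1).2.2
            (by linarith [hmon ρ τ (nb_left hρ1) (nb_right hρ1) hρ2.le]) (not_le.1 hlt).le
          exact hmin ρ ⟨⟨hρ1.1, hτ1.2.1, mono h6 Finset.subset_union_left⟩, hρ2.trans hτ2⟩ hρ2
        have : (CC b σ)⁻¹ ≤ (2 * CC b τ)⁻¹ := inv_anti₀ (by positivity) h2
        rw [mul_inv] at this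
        linarith
  refine ⟨p, ⟨r, hr, p1⟩, ?_⟩
  rintro z ⟨σ, hσ, hz⟩
  have h5 : rho b p z ≤ 5 * (CC b r)⁻¹ := by
    by_cases e : σ = r
    · subst e
      rw [p3 z hz]
      linarith [inv_pos.2 c0]
    · linarith [main _ σ hσ (Nat.lt_succ_self _) e z hz, inv_pos.2 (CC_pos b σ)]
  have h6 : rho b p z ^ 2 ≤ (5 * (CC b r)⁻¹) ^ 2 := by
    have := rho_nonneg b p z
    gcongr
  have h7 := dd_pos b z
  rw [rho_sq, p2, div_le_iff₀ (by positivity)] at h6
  have h8 := mul_le_mul_of_nonneg_left h6 c0.le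
  have h9 : CC b r * ((5 * (CC b r)⁻¹) ^ 2 * (CC b r * dd b z)) = 25 * dd b z := by
    field_simp
    norm_num
  rw [p2]
  linarith

end Pool.Agent.URC
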