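import Pool.Agent.P.MP_797ab1_gt.ArithDefs

/-! TASK F1: cocompactness of the arithmetic group (Minkowski). -/

open Set MeasureTheory Module Matrix

namespace Pool.Agent.URC

noncomputable section

namespace Cc

variable {n : ℕ}

/-- scaling of one coordinate -/
def sc (j : Fin (n + 1)) (c : ℝ) : V n →ₗ[ℝ] V n := toLin' (diagonal (Function.update 1 j c))

lemma sc_apply (j : Fin (n + 1)) (c : ℝ) (y : V n) (k : Fin (n + 1)) :
    sc j c y k = if k = j then c * y k else y k := by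
  rw [sc, toLin'_apply, mulVec_diagonal, Function.update_apply]
  split_ifs <;> simp

lemma det_sc (j : Fin (n + 1)) (c : ℝ) : LinearMap.det (sc j c) = c := by
  rw [sc, LinearMap.det_toLin', det_diagonal, Finset.prod_update_of_mem (Finset.mem_univ _)]
  simp

lemma det_sq {g : V n →ₗ[ℝ] V n} (h : ∀ x y, lor (g x) (g y) = lor x y) :
    LinearMap.det g ^ 2 = 1 := by
  have e : ∀ x y : V n, lor x y = x ⬝ᵥ sc 0 (-1) y := fun x y => by
    simp only [lor, dotProduct, Fin.sum_univ_succ, sc_apply, Fin.succ_ne_zero, if_true, if_false]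
    ring
  have h1 : (LinearMap.toMatrix' g)ᵀ * LinearMap.toMatrix' (sc 0 (-1)) * LinearMap.toMatrix' g
      = LinearMap.toMatrix' (sc (0 : Fin (n + 1)) (-1)) := by
    ext i j
    have := h (Pi.single i 1) (Pi.single j 1)
    rw [e, e, single_dotProduct, one_mul] at this
    rw [Matrix.mul_assoc, ← LinearMap.toMatrix'_comp, mul_apply, LinearMap.toMatrix'_apply,
      ← this]
    simp [dotProduct, LinearMap.toMatrix'_apply]
  have h2 := congrArg det h1
  rw [det_mul, det_mul, det_transpose, LinearMap.det_toMatrix', LinearMap.det_toMatrix',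
    det_sc] at h2
  linarith

/-- the reflection in a coordinate hyperplane -/
def fl (j : Fin (n + 1)) : V n ≃ₗ[ℝ] V n :=
  LinearEquiv.ofInvolutive (sc j (-1)) fun y => by
    funext k; simp only [sc_apply]; split_ifs <;> simp

lemma fl_apply (j : Fin (n + 1)) (y : V n) (k : Fin (n + 1)) :
    fl j y k = if k = j then -y k else y k := by
  change sc j (-1) y k = _
  rw [sc_apply, neg_one_mul]

lemma lor_fl (j : Fin (n + 1)) (x y : V n) : lor (fl j x) (fl j y) = lor x y := by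
  have : ∀ k, fl j x k * fl j y k = x k * y k := fun k => by
    simp only [fl_apply]; split_ifs <;> simp
  simp only [lor, this]

lemma fl_mem (j : Fin (n + 1)) {v : V n} (h : v ∈ range (emb i1 : LL n → V n)) :
    fl j v ∈ range (emb i1 : LL n → V n) := by
  obtain ⟨a, rfl⟩ := h
  refine ⟨fun k => if k = j then -a k else a k, funext fun k => ?_⟩
  rw [fl_apply]
  refine Fin.cases ?_ (fun k => ?_) k
  · simp only [emb_zero]; split_ifs <;> simp
  · simp only [emb_succ]; split_ifs <;> simp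

/-- linear maps preserving the form and the lattice -/
def Gd (g : V n ≃ₗ[ℝ] V n) : Prop := (∀ x y, lor (g x) (g y) = lor x y) ∧
  ∀ v, g v ∈ range (emb i1 : LL n → V n) ↔ v ∈ range (emb i1 : LL n → V n)

lemma Gd.fl {g : V n ≃ₗ[ℝ] V n} (h : Gd g) (j : Fin (n + 1)) : Gd (fl j * g) := by
  refine ⟨fun x y => (lor_fl j _ _).trans (h.1 x y), fun v => Iff.trans ⟨fun k => ?_, fl_mem j⟩
    (h.2 v)⟩
  have e : g v = Cc.fl j (Cc.fl j (g v)) := by
    funext k; simp only [fl_apply]; split_ifs <;> simp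
  exact e ▸ fl_mem j k

lemma fix (hn : 0 < n) {g : V n ≃ₗ[ℝ] V n} (h : Gd g) :
    ∃ γ ∈ G0 n, ∀ v : V n, |(γ • v) 0| = |g v 0| := by
  have hx : lor (g (e0 : Hyp n).1) (g (e0 : Hyp n).1) = -1 := by rw [h.1, lor_self]
  wlog h0 : 0 < g (e0 : Hyp n).1 0 generalizing g
  · have h1 : g (e0 : Hyp n).1 0 ≠ 0 := fun e => by
      have := perp_nonneg e0 (y := g (e0 : Hyp n).1) (by rw [lor_e0, e, neg_zero])
      linarith
    obtain ⟨γ, h2, h3⟩ := this (h.fl 0) (by rw [(h.fl 0).1, lor_self]) (by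
      rw [LinearEquiv.mul_apply, fl_apply, if_pos rfl]
      exact neg_pos.2 (lt_of_le_of_ne (not_lt.1 h0) h1))
    exact ⟨γ, h2, fun v => by rw [h3, LinearEquiv.mul_apply, fl_apply, if_pos rfl, abs_neg]⟩
  wlog hd : LinearMap.det (g : V n →ₗ[ℝ] V n) = 1 generalizing g
  · have e : ∀ v, (fl (Fin.succ ⟨0, hn⟩) * g) v 0 = g v 0 := fun v => by
      rw [LinearEquiv.mul_apply, fl_apply, if_neg (Fin.succ_ne_zero _).symm]
    obtain ⟨γ, h2, h3⟩ := this (h.fl (Fin.succ ⟨0, hn⟩)) (by rw [(h.fl _).1, lor_self])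
      (by rwa [e]) (by
        have := (sq_eq_one_iff.1 (det_sq (g := (g : V n →ₗ[ℝ] V n)) h.1)).resolve_left hd
        change LinearMap.det (sc _ (-1) ∘ₗ (g : V n →ₗ[ℝ] V n)) = 1
        rw [LinearMap.det_comp, det_sc, this]; norm_num)
    exact ⟨γ, h2, fun v => by rw [h3, e]⟩
  refine ⟨⟨g, Units.ext (by rw [LinearEquiv.coe_det, hd]; rfl), h.1, fun x => ⟨fun k => ?_,
    fun k => ?_⟩⟩, h.2, fun v => rfl⟩
  · refine isH_of e0 (by rw [← h.1, k.1]) ?_
    rw [← h.1]
    exact neg_pos.1 (dd_pos ⟨_, hx, h0⟩ ⟨_, k⟩)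
  · refine isH_of ⟨_, hx, h0⟩ (by rw [h.1, k.1]) ?_
    change lor (g _) (g _) < 0
    rw [h.1]
    exact neg_pos.1 (dd_pos e0 ⟨_, k⟩)

lemma abs_dot_le {x y : V n} {a : ℝ} (hx : ∀ j, |x j| ≤ a) (hy : ∀ j, |y j| ≤ a) :
    |x ⬝ᵥ y| ≤ (n + 1) * a ^ 2 := by
  refine (Finset.abs_sum_le_sum_abs _ _).trans ((Finset.sum_le_card_nsmul _ _ (a ^ 2)
    fun j _ => ?_).trans_eq (by simp))
  rw [abs_mul, sq]
  exact mul_le_mul (hx j) (hy j) (abs_nonneg _) ((abs_nonneg _).trans (hx j))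

lemma abs_lor_le {x y : V n} {a : ℝ} (hx : ∀ j, |x j| ≤ a) (hy : ∀ j, |y j| ≤ a) :
    |lor x y| ≤ (n + 1) * a ^ 2 := by
  have e : lor x y = x ⬝ᵥ fl 0 y := by
    simp only [lor, dotProduct, Fin.sum_univ_succ, fl_apply, Fin.succ_ne_zero, if_true, if_false]
    ring
  rw [e]
  exact abs_dot_le hx fun j => by rw [fl_apply]; split_ifs <;> simpa using hy j

/-- the Minkowski embedding -/
def M0 : V n × V n →ₗ[ℝ] V n × V n :=
  (sc 0 rr ∘ₗ (LinearMap.fst ℝ _ _ + √2 • LinearMap.snd ℝ _ _)).prod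
    (sc 0 rr ∘ₗ (LinearMap.fst ℝ _ _ - √2 • LinearMap.snd ℝ _ _))

lemma M0_emb (a : LL n) :
    M0 (fun j => ((a j).re : ℝ), fun j => ((a j).im : ℝ)) = (emb i1 a, emb i2 a) := by
  ext j <;> refine Fin.cases ?_ (fun k => ?_) j <;>
    simp [M0, sc_apply, i1_apply, i2_apply, mul_comm, mul_add, mul_sub, mul_assoc]

lemma det_M0 : LinearMap.det (M0 (n := n)) ≠ 0 := fun h => by
  obtain ⟨v, hv, h0⟩ := (Submodule.ne_bot_iff _).1 (LinearMap.bot_lt_ker_of_det_eq_zero h).ne'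
  have hs : Function.Injective (sc (0 : Fin (n + 1)) rr) := by
    rw [← LinearMap.ker_eq_bot, ← not_ne_iff, ← LinearMap.det_eq_zero_iff_ker_ne_bot, det_sc]
    linarith [one_le_rr]
  have h1 : v.1 + √2 • v.2 = 0 := hs (by simpa [M0] using congrArg Prod.fst hv)
  have h2 : v.1 - √2 • v.2 = 0 := hs (by simpa [M0] using congrArg Prod.snd hv)
  have h3 : v.1 = 0 := by linear_combination (norm := module) (1/2 : ℝ) • h1 + (1/2 : ℝ) • h2
  rw [h3, zero_add, smul_eq_zero] at h1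
  exact h0 (Prod.ext h3 (h1.resolve_left (by positivity)))

lemma mink {ε : ℝ} (hε : 0 < ε) : ∃ T : ℝ, 1 ≤ T ∧ ∀ (s : V n →ₗ[ℝ] V n),
    LinearMap.det s ^ 2 = 1 → ∀ i, ∃ a : LL n, a ≠ 0 ∧ (∀ j, |emb i2 a j| ≤ ε) ∧
      |s (emb i1 a) i| ≤ T * ε ∧ ∀ j ≠ i, |s (emb i1 a) j| ≤ ε := by
  let b := (Pi.basisFun ℝ (Fin (n + 1))).prod (Pi.basisFun ℝ (Fin (n + 1)))
  let μ : Measure (V n × V n) := (volume : Measure (V n)).prod volume
  have : μ.IsAddHaarMeasure := Measure.prod.instIsAddHaarMeasure _ _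
  obtain ⟨T, hT, hlt⟩ := ENNReal.exists_nat_pos_mul_gt
    (a := ENNReal.ofReal |LinearMap.det (M0 (n := n))|⁻¹ * μ (Metric.ball 0 ε))
    (b := μ (ZSpan.fundamentalDomain b) * 2 ^ finrank ℝ (V n × V n))
    (mul_ne_zero (by simpa using det_M0) (Metric.measure_ball_pos μ 0 hε).ne')
    (ENNReal.mul_ne_top (ZSpan.fundamentalDomain_isBounded b).measure_lt_top.ne (by simp))
  have hT' : (0:ℝ) < T := by exact_mod_cast hT
  refine ⟨T, by exact_mod_cast hT, fun s hs i => ?_⟩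
  let M := (sc i (T:ℝ)⁻¹ ∘ₗ s).prodMap LinearMap.id ∘ₗ M0
  have hM : |LinearMap.det M| = (T:ℝ)⁻¹ * |LinearMap.det (M0 (n := n))| := by
    rw [LinearMap.det_comp, LinearMap.det_prodMap, LinearMap.det_comp, det_sc, LinearMap.det_id,
      mul_one, abs_mul, abs_mul, (abs_eq zero_le_one).2 (sq_eq_one_iff.1 hs), mul_one, abs_of_pos (inv_pos.2 hT')]
  have hM0 : LinearMap.det M ≠ 0 := by
    rw [← abs_pos, hM]; exact mul_pos (inv_pos.2 hT') (abs_pos.2 det_M0)
  have : Countable (Submodule.span ℤ (range b)).toAddSubgroup :=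
    inferInstanceAs (Countable (Submodule.span ℤ (range b)))
  obtain ⟨⟨x, hx⟩, h0, h1⟩ := exists_ne_zero_mem_lattice_of_measure_mul_two_pow_lt_measure
    (ZSpan.isAddFundamentalDomain' b μ) (s := M ⁻¹' Metric.ball 0 ε)
    (fun x hx => by simpa using hx) ((convex_ball 0 ε).linear_preimage M) (by
      rw [Measure.addHaar_preimage_linearMap μ hM0, abs_inv, hM, mul_inv, inv_inv,
        ENNReal.ofReal_mul hT'.le, ENNReal.ofReal_natCast, mul_assoc]
      exact hlt)
  have hx' := (b.mem_span_iff_repr_mem ℤ x).1 hx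
  choose p hp using fun j => hx' (Sum.inl j)
  choose q hq using fun j => hx' (Sum.inr j)
  have e : x = (fun j => (p j : ℝ), fun j => (q j : ℝ)) := by
    ext j
    · simpa [b] using (hp j).symm
    · simpa [b] using (hq j).symm
  have e2 : M x = (sc i (T:ℝ)⁻¹ (s (emb i1 fun j => ⟨p j, q j⟩)), emb i2 fun j => ⟨p j, q j⟩) := by
    rw [e, LinearMap.comp_apply, M0_emb fun j => ⟨p j, q j⟩]; rfl
  rw [mem_preimage, mem_ball_zero_iff, e2, Prod.norm_def, max_lt_iff] at h1
  have k := fun j => (norm_le_pi_norm _ j).trans h1.1.le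
  refine ⟨fun j => ⟨p j, q j⟩, fun h => h0 (Subtype.ext ?_), fun j => (norm_le_pi_norm _ j).trans
    h1.2.le, ?_, fun j hj => by simpa [sc_apply, hj] using k j⟩
  · have h2 := fun j => congrArg Zsqrtd.re (congrFun h j)
    have h3 := fun j => congrArg Zsqrtd.im (congrFun h j)
    simp only [Pi.zero_apply, Zsqrtd.re_zero, Zsqrtd.im_zero] at h2 h3
    simp only [e, h2, h3, Int.cast_zero]; rfl
  · have := k i
    dsimp only at this
    rwa [sc_apply, if_pos rfl, Real.norm_eq_abs, abs_mul, abs_of_pos (inv_pos.2 hT'),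
      inv_mul_le_iff₀ hT'] at this

lemma short : ∃ T : ℝ, ∀ x : Hyp n, ∃ (l : Fin (n + 1) → LL n) (b : Basis (Fin (n + 1)) ℝ (V n)),
    (∀ i, b i = emb i1 (l i)) ∧ (∀ i, |lor x.1 (b i)| ≤ T) ∧
      ∀ i j, |i1 (qf (l i) (l j))| ≤ T ∧ |i2 (qf (l i) (l j))| ≤ T := by
  have hN : (0:ℝ) < n + 1 := by positivity
  obtain ⟨T, hT, H⟩ := mink (n := n) (ε := 1 / (2 * (n + 1))) (by positivity)
  have hε : 1 / (2 * (n + 1) : ℝ) ≤ 1 := by
    rw [div_le_one (by positivity)]; linarith [(Nat.cast_nonneg n : (0:ℝ) ≤ n)]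
  refine ⟨(n + 1) * T ^ 2, fun x => ?_⟩
  have hC := dd_pos e0 x
  let w : V n := x.1 + (e0 : Hyp n).1
  let s : V n →ₗ[ℝ] V n := ⟨⟨fun y => y + (lor y w / (1 + dd e0 x)) • w, fun y z => by
    rw [lor_add_left, add_div, add_smul]; abel⟩, fun c y => by
    simp only [lor_smul_left, RingHom.id_apply, smul_add, smul_smul, mul_div_assoc]⟩
  have hs : ∀ y z, lor (s y) (s z) = lor y z := fun y z => by
    change lor (y + _ • w) (z + _ • w) = _
    have hw : lor w w = -2 * (1 + dd e0 x) := by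
      simp only [w, lor_add_left, lor_add_right, lor_eq_neg_dd, dd_self, dd_comm x]; ring
    simp only [lor_add_left y, lor_add_right _ z, lor_smul_left, lor_smul_right, hw, lor_comm w z]
    field_simp
    ring
  have hs0 : ∀ y, s y 0 = lor x.1 y := fun y => by
    have : lor (e0 : Hyp n).1 (y + (lor y w / (1 + dd e0 x)) • w) = -lor x.1 y := by
      simp only [w, lor_add_right, lor_add_left, lor_smul_right, lor_eq_neg_dd, dd_self,
        lor_comm y]
      field_simp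
      ring
    rw [lor_e0] at this
    exact neg_injective this
  let S : Set (V n) := {v | ∃ a : LL n, v = s (emb i1 a) ∧ (∀ j, |emb i2 a j| ≤ T) ∧
    ∀ j, |v j| ≤ T}
  have hS : ⊤ ≤ Submodule.span ℝ S := by
    by_contra hc
    obtain ⟨f, hf, hle⟩ := Submodule.exists_le_ker_of_lt_top _ (lt_top_iff_ne_top.2
      fun h => hc h.ge)
    obtain ⟨i, hi⟩ := Finite.exists_max fun j : Fin (n + 1) => |f (Pi.single j 1)|
    have hf' : ∀ y : V n, f y = ∑ j, y j * f (Pi.single j 1) := fun y => by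
      rw [LinearMap.pi_apply_eq_sum_univ]
      exact Finset.sum_congr rfl fun j _ => by
        rw [smul_eq_mul]; congr 2; funext k; simp [Pi.single_apply, eq_comm]
    have hi0 : 0 < |f (Pi.single i 1)| := by
      by_contra h
      refine hf (LinearMap.ext fun y => ?_)
      rw [hf', Finset.sum_eq_zero]; · rfl
      intro j _
      rw [abs_nonpos_iff.1 ((hi j).trans (not_lt.1 h)), mul_zero]
    obtain ⟨a, ha, h1, h2, h3⟩ := H s (det_sq hs) i
    have h4 : f (s (emb i1 a)) = 0 := hle (Submodule.subset_span ⟨a, rfl,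
      fun j => (h1 j).trans (hε.trans hT), fun j => by
        by_cases hj : j = i
        · rw [hj]; nlinarith
        · exact (h3 j hj).trans (hε.trans hT)⟩)
    rw [hf', ← Finset.add_sum_erase _ _ (Finset.mem_univ i), add_eq_zero_iff_eq_neg] at h4
    have h5 : |s (emb i1 a) i| * |f (Pi.single i 1)| ≤ 1 / 2 * |f (Pi.single i 1)| := by
      rw [← abs_mul, h4, abs_neg]
      refine (Finset.abs_sum_le_sum_abs _ _).trans ((Finset.sum_le_card_nsmul _ _
        (1 / (2 * (n + 1)) * |f (Pi.single i 1)|) fun j hj => ?_).trans ?_)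
      · rw [abs_mul]
        exact mul_le_mul (h3 j (Finset.ne_of_mem_erase hj)) (hi j) (abs_nonneg _) (by positivity)
      · rw [Finset.card_erase_of_mem (Finset.mem_univ _), Finset.card_univ, Fintype.card_fin,
          Nat.add_sub_cancel, nsmul_eq_mul, ← mul_assoc]
        refine mul_le_mul_of_nonneg_right ?_ hi0.le
        rw [mul_one_div, div_le_div_iff₀ (by positivity) (by norm_num)]; linarith
    have h6 : ∀ j, |s (emb i1 a) j| ≤ 1 / 2 := fun j => by
      by_cases hj : j = i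
      · rw [hj]; exact le_of_mul_le_mul_right h5 hi0
      · refine (h3 j hj).trans (one_div_le_one_div_of_le (by norm_num) ?_)
        linarith [(Nat.cast_nonneg n : (0:ℝ) ≤ n)]
    have h7 := abs_lor_le h6 h6
    have h8 := abs_dot_le h1 h1
    rw [hs, ← i1_qf] at h7
    rw [← i2_qf] at h8
    have h9 := (one_le_abs_mul fun h => ha (eq_zero_of_qf h)).trans
      (mul_le_mul h7 h8 (abs_nonneg _) (by positivity))
    have : ((n:ℝ) + 1) * (1 / 2) ^ 2 * ((n + 1) * (1 / (2 * (n + 1))) ^ 2) = 1 / 16 := by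
      field_simp; norm_num
    linarith
  let b0 := (Basis.ofSpan hS).reindex ((Basis.ofSpan hS).indexEquiv (Pi.basisFun ℝ (Fin (n + 1))))
  have hb : ∀ i, b0 i ∈ S := fun i => Basis.ofSpan_subset hS ⟨_, (Basis.reindex_apply _ _ _).symm⟩
  choose l h1 h2 h3 using hb
  have hl : LinearIndependent ℝ fun i => emb i1 (l i) :=
    LinearIndependent.of_comp s (by
      have := b0.linearIndependent
      rwa [show (b0 : Fin (n + 1) → V n) = _ from funext h1] at this)
  classical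
  refine ⟨l, basisOfPiSpaceOfLinearIndependent hl, fun i => by
    rw [coe_basisOfPiSpaceOfLinearIndependent], fun i => ?_, fun i j => ⟨?_, ?_⟩⟩
  · rw [coe_basisOfPiSpaceOfLinearIndependent, ← hs0, ← h1]
    nlinarith [h3 i 0, (Nat.cast_nonneg n : (0:ℝ) ≤ n)]
  · rw [i1_qf, ← hs, ← h1, ← h1]; exact abs_lor_le (h3 i) (h3 j)
  · rw [i2_qf]; exact abs_dot_le (h2 i) (h2 j)

variable {l l' : Fin (n + 1) → LL n} {b b' : Basis (Fin (n + 1)) ℝ (V n)}

/-- Gram matrix -/
def Gm (l : Fin (n + 1) → LL n) : Matrix (Fin (n + 1)) (Fin (n + 1)) OO :=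
  of fun i j => qf (l i) (l j)

lemma orth (b : Basis (Fin (n + 1)) ℝ (V n)) {u : V n} (h : ∀ j, lor u (b j) = 0) : u = 0 :=
  eq_zero_of_lor fun x => by
    rw [← b.sum_repr x, lor_sum_left]
    exact Finset.sum_eq_zero fun j _ => by rw [lor_smul_left, lor_comm, h, mul_zero]

lemma lor_comb (hb : ∀ i, b i = emb i1 (l i)) (c : Fin (n + 1) → OO) (j : Fin (n + 1)) :
    lor (∑ i, i1 (c i) • b i) (b j) = i1 ((c ᵥ* Gm l) j) := by
  simp only [lor_sum_left, lor_smul_left, hb, ← i1_qf, vecMul, dotProduct, Gm, of_apply, map_sum,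
    map_mul]

lemma det_Gm (hb : ∀ i, b i = emb i1 (l i)) : (Gm l).det ≠ 0 := fun h => by
  have := i1_injective.isDomain
  obtain ⟨v, hv, h0⟩ := exists_vecMul_eq_zero_iff.2 h
  have h1 := orth b fun j => by rw [lor_comb hb v, h0, Pi.zero_apply, map_zero]
  exact hv (funext fun i => i1_injective (by
    rw [Fintype.linearIndependent_iff.1 b.linearIndependent _ h1 i, Pi.zero_apply, map_zero]))

lemma coef (hb : ∀ i, b i = emb i1 (l i)) {d : OO} (hd : (Gm l).det ∣ d) (w : LL n) :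
    ∃ c : Fin (n + 1) → OO, i1 d • emb i1 w = ∑ i, i1 (c i) • b i := by
  obtain ⟨u, rfl⟩ := hd
  refine ⟨u • ((fun j => qf w (l j)) ᵥ* (Gm l).adjugate), sub_eq_zero.1 (orth b fun j => ?_)⟩
  rw [lor_sub_left, lor_comb hb, smul_vecMul, vecMul_vecMul, adjugate_mul, lor_smul_left, hb,
    ← i1_qf, ← map_mul, ← map_sub, vecMul_smul, vecMul_one]
  simp only [Pi.smul_apply, smul_eq_mul]
  rw [show (Gm l).det * u * qf w (l j) - u * ((Gm l).det * qf w (l j)) = 0 by ring, map_zero]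

lemma equiv_mem (hb : ∀ i, b i = emb i1 (l i)) (hb' : ∀ i, b' i = emb i1 (l' i)) {d : OO}
    (hd : (Gm l).det ∣ d) (h0 : d ≠ 0) (h : ∀ i j, d ∣ l' i j - l i j) {v : V n}
    (hv : v ∈ range (emb i1 : LL n → V n)) :
    b.equiv b' (Equiv.refl _) v ∈ range (emb i1 : LL n → V n) := by
  obtain ⟨w, rfl⟩ := hv
  obtain ⟨c, hc⟩ := coef hb hd w
  choose e he using h
  have h1 : ∀ i, b' i = b i + i1 d • emb i1 (e i) := fun i => by
    rw [hb, hb', ← emb_smul, ← map_add]
    congr 1; funext j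
    simp only [Pi.add_apply, Pi.smul_apply, smul_eq_mul, ← he]; ring
  refine ⟨w + ∑ i, c i • e i, smul_right_injective _ ((map_ne_zero_iff _ i1_injective).2 h0) ?_⟩
  simp only [← map_smul (b.equiv b' (Equiv.refl _)), hc, map_add, map_sum, smul_add, map_smul,
    Basis.equiv_apply, Equiv.refl_apply, h1, emb_smul, Finset.sum_add_distrib, Finset.smul_sum,
    smul_comm (i1 d)]

lemma equiv_gd (hb : ∀ i, b i = emb i1 (l i)) (hb' : ∀ i, b' i = emb i1 (l' i)) {d : OO}
    (hG : Gm l = Gm l') (hd : (Gm l).det ∣ d) (h0 : d ≠ 0) (h : ∀ i j, d ∣ l' i j - l i j) :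
    Gd (b.equiv b' (Equiv.refl _)) := by
  refine ⟨fun x y => ?_, fun v => ⟨fun k => ?_, equiv_mem hb hb' hd h0 h⟩⟩
  · have e : ∀ i j, lor (b' i) (b' j) = lor (b i) (b j) := fun i j => by
      rw [hb, hb, hb', hb', ← i1_qf, ← i1_qf]
      exact congrArg i1 (congrFun (congrFun hG i) j).symm
    rw [← b.sum_repr x, ← b.sum_repr y]
    simp only [map_sum, map_smul, Basis.equiv_apply, Equiv.refl_apply, lor_sum_left,
      lor_sum_right, lor_smul_left, lor_smul_right, e]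
  · have := equiv_mem hb' hb (hG ▸ hd) h0 (fun i j => dvd_sub_comm.1 (h i j)) k
    rwa [← Equiv.refl_symm, ← Basis.equiv_symm, Equiv.refl_symm,
      LinearEquiv.symm_apply_apply] at this

end Cc

open Cc in
theorem cocpt_G0 {n : ℕ} (hn : 0 < n) : Cocpt (G0 n) := by
  obtain ⟨T, H⟩ := short (n := n)
  choose l b hb h1 h2 using H
  have hF : (range fun x => Gm (l x)).Finite :=
    (Finite.pi' fun _ => Finite.pi' fun _ => finite_OO T).subset (by
      rintro _ ⟨x, rfl⟩ i j; exact h2 x i j)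
  let d : ℕ := ∏ G ∈ hF.toFinset, G.det.norm.natAbs
  have hd : d ≠ 0 := Finset.prod_ne_zero_iff.2 fun G hG => by
    obtain ⟨x, rfl⟩ := hF.mem_toFinset.1 hG
    exact Int.natAbs_ne_zero.2 (norm_ne_zero (det_Gm (hb x)))
  have hdv : ∀ x, (Gm (l x)).det ∣ (d : OO) := fun x => by
    have k1 : (Gm (l x)).det ∣ ((Gm (l x)).det.norm : OO) := ⟨_, Zsqrtd.norm_eq_mul_conj _⟩
    have k2 : (Gm (l x)).det.norm ∣ (d : ℤ) := Int.natAbs_dvd.1 (Int.natCast_dvd_natCast.2
      (Finset.dvd_prod_of_mem _ (hF.mem_toFinset.2 ⟨x, rfl⟩)))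
    exact k1.trans (by simpa using Int.cast_dvd_cast (α := OO) _ _ k2)
  have : NeZero d := ⟨hd⟩
  let f := fun x => (Gm (l x), fun i j => (((l x i j).re : ZMod d), ((l x i j).im : ZMod d)))
  have hf : (range f).Finite := (hF.prod finite_univ).subset (by
    rintro _ ⟨x, rfl⟩; exact ⟨⟨x, rfl⟩, trivial⟩)
  have : Nonempty (Hyp n) := ⟨e0⟩
  obtain ⟨R, hR⟩ := (hf.image fun y => ∑ i, |(b (Function.invFun f y)).repr (e0 : Hyp n).1 i|
    * T).bddAbove
  refine ⟨R, fun x => ?_⟩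
  have e := Function.invFun_eq (f := f) ⟨x, rfl⟩
  have hR' := hR ⟨_, ⟨x, rfl⟩, rfl⟩
  beta_reduce at hR'
  generalize Function.invFun f (f x) = y at e hR'
  have hg := equiv_gd (hb x) (hb y) (congrArg Prod.fst e).symm (hdv x) (by exact_mod_cast hd)
    fun i j => by
      have k := congrFun (congrFun (congrArg Prod.snd e) i) j
      rw [Prod.mk.injEq, eq_comm, ZMod.intCast_eq_intCast_iff_dvd_sub, eq_comm,
        ZMod.intCast_eq_intCast_iff_dvd_sub] at k
      exact_mod_cast (Zsqrtd.intCast_dvd d _).2 k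
  obtain ⟨γ, hγ, h⟩ := fix hn hg
  refine ⟨γ, hγ, le_trans ?_ hR'⟩
  rw [dd, lor_e0, neg_neg, smul_val]
  refine (le_abs_self _).trans ?_
  rw [h, ← abs_neg, ← lor_e0]
  nth_rewrite 1 [← (b y).sum_repr (e0 : Hyp n).1]
  rw [lor_sum_left]
  refine (Finset.abs_sum_le_sum_abs _ _).trans (Finset.sum_le_sum fun i _ => ?_)
  rw [lor_smul_left, abs_mul]
  refine mul_le_mul_of_nonneg_left ?_ (abs_nonneg _)
  have k := hg.1 (b x i) x.1
  rw [Basis.equiv_apply, Equiv.refl_apply] at k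
  rw [k, lor_comm]
  exact h1 x i

end

end Pool.Agent.URC
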