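import Pool.Agent.P.MP_797ab1_gt.Sd

/-! TASK D: every cycle in a path-connected space is homologous to a connected coloured one. -/

open Set

namespace Pool.Agent.URC

universe u

/-- a coloured pseudomanifold structure on a finite family of signed singular simplices -/
structure Col (X : Type u) [TopologicalSpace X] (n : ℕ) (U : Type u) where
  sg : U → ℤˣ
  s : U → C(Dl (n + 1), X)
  lam : Fin (n + 1) → Equiv.Perm U
  lam_lam : ∀ i u, lam i (lam i u) = u
  sg_lam : ∀ i u, sg (lam i u) = -sg u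
  s_lam : ∀ i u (t : Dl (n + 1)), t i = 0 → s (lam i u) t = s u t

namespace ColAux

open Relation

section Comb

variable {U K ι : Type*}

lemma units_neg_ne (a : ℤˣ) : -a ≠ a := by
  rcases Int.units_eq_one_or a with rfl | rfl <;> decide

lemma units_eq_neg {a b : ℤˣ} (h : a ≠ b) : a = -b := by
  rcases Int.units_eq_one_or a with rfl | rfl <;> rcases Int.units_eq_one_or b with rfl | rfl <;>
    simp_all

/-- a sign-reversing involution preserving the classes -/
def IsPair (sg : U → ℤˣ) (κ : U → K) (l : Equiv.Perm U) : Prop :=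
  (∀ u, l (l u) = u) ∧ (∀ u, sg (l u) = -sg u) ∧ ∀ u, κ (l u) = κ u

open Classical in
lemma exists_pair [Fintype U] (sg : U → ℤˣ) (κ : U → K)
    (hbal : ∀ k, ∑ u ∈ Finset.univ.filter (fun u => κ u = k), (sg u : ℤ) = 0) :
    ∃ l : Equiv.Perm U, IsPair sg κ l := by
  have hcard : ∀ k, Nonempty ({a : {u // sg u = 1} // κ a.1 = k} ≃
      {a : {u // ¬ sg u = 1} // κ a.1 = k}) := by
    intro k
    have h := hbal k
    rw [← Finset.sum_filter_add_sum_filter_not _ (fun u => sg u = 1)] at h
    have h1 : ∑ u ∈ (Finset.univ.filter (fun u => κ u = k)).filter (fun u => sg u = 1),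
        (sg u : ℤ) = ((Finset.univ.filter (fun u => κ u = k)).filter (fun u => sg u = 1)).card := by
      rw [Finset.sum_congr rfl (g := fun _ => (1 : ℤ))]
      · simp
      · intro u hu
        rw [(Finset.mem_filter.1 hu).2]
        rfl
    have h2 : ∑ u ∈ (Finset.univ.filter (fun u => κ u = k)).filter (fun u => ¬ sg u = 1),
        (sg u : ℤ) =
        -((Finset.univ.filter (fun u => κ u = k)).filter (fun u => ¬ sg u = 1)).card := by
      rw [Finset.sum_congr rfl (g := fun _ => (-1 : ℤ))]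
      · simp
      · intro u hu
        rw [units_eq_neg (Finset.mem_filter.1 hu).2]
        rfl
    rw [h1, h2] at h
    have h3 : ((Finset.univ.filter (fun u => κ u = k)).filter (fun u => sg u = 1)).card =
        ((Finset.univ.filter (fun u => κ u = k)).filter (fun u => ¬ sg u = 1)).card := by
      omega
    have e1 : ∀ (p : U → Prop) [DecidablePred p], {a : {u // p u} // κ a.1 = k} ≃
        ((Finset.univ.filter (fun u => κ u = k)).filter p : Finset U) := fun p _ =>
      { toFun := fun a => ⟨a.1.1, by simp [a.2, a.1.2]⟩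
        invFun := fun a => ⟨⟨a.1, (Finset.mem_filter.1 a.2).2⟩,
          (Finset.mem_filter.1 (Finset.mem_filter.1 a.2).1).2⟩
        left_inv := fun _ => rfl
        right_inv := fun _ => rfl }
    exact ⟨((e1 _).trans (Finset.equivOfCardEq h3)).trans (e1 fun u => ¬ sg u = 1).symm⟩
  let e : {u // sg u = 1} ≃ {u // ¬ sg u = 1} :=
    Equiv.ofFiberEquiv (f := fun a => κ a.1) (g := fun a => κ a.1) fun k => (hcard k).some
  have he : ∀ a, κ (e a).1 = κ a.1 := fun a =>
    Equiv.ofFiberEquiv_map (f := fun a : {u // sg u = 1} => κ a.1)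
      (g := fun a : {u // ¬ sg u = 1} => κ a.1) (fun k => (hcard k).some) a
  let f : U → U := fun u => if h : sg u = 1 then (e ⟨u, h⟩).1 else (e.symm ⟨u, h⟩).1
  have hf1 : ∀ a : {u // sg u = 1}, f a.1 = (e a).1 := fun a => dif_pos a.2
  have hf2 : ∀ a : {u // ¬ sg u = 1}, f a.1 = (e.symm a).1 := fun a => dif_neg a.2
  have hinv : Function.Involutive f := by
    intro u
    by_cases h : sg u = 1
    · rw [hf1 ⟨u, h⟩, hf2, Equiv.symm_apply_apply]
    · rw [hf2 ⟨u, h⟩, hf1, Equiv.apply_symm_apply]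
  refine ⟨hinv.toPerm, hinv, fun u => ?_, fun u => ?_⟩
  · change sg (f u) = -sg u
    by_cases h : sg u = 1
    · rw [hf1 ⟨u, h⟩, h]
      exact units_eq_neg (e ⟨u, h⟩).2
    · rw [hf2 ⟨u, h⟩, (e.symm ⟨u, h⟩).2, units_eq_neg h, neg_neg]
  · change κ (f u) = κ u
    by_cases h : sg u = 1
    · rw [hf1 ⟨u, h⟩, he]
    · rw [hf2 ⟨u, h⟩, ← he, Equiv.apply_symm_apply]

lemma sum_zero {sg : U → ℤˣ} {κ : U → K} {l : Equiv.Perm U} (h : IsPair sg κ l) (W : Finset U)
    (hW : ∀ u ∈ W, l u ∈ W) : ∑ u ∈ W, (sg u : ℤ) = 0 :=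
  Finset.sum_involution (fun u _ => l u) (fun u _ => by rw [h.2.1]; simp)
    (fun u _ _ hu => units_neg_ne (sg u) (by rw [← h.2.1, hu])) hW fun u _ => h.1 u

lemma IsPair.conj [DecidableEq U] {sg : U → ℤˣ} {κ : U → K} {l : Equiv.Perm U}
    (h : IsPair sg κ l) {a a' : U} (hs : sg a = sg a') (hk : κ a = κ a') :
    IsPair sg κ (Equiv.swap a a' * l * Equiv.swap a a') := by
  have h1 : ∀ x, sg (Equiv.swap a a' x) = sg x := Equiv.apply_swap_eq_self hs
  have h2 : ∀ x, κ (Equiv.swap a a' x) = κ x := Equiv.apply_swap_eq_self hk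
  refine ⟨fun u => ?_, fun u => ?_, fun u => ?_⟩
  · simp only [Equiv.Perm.mul_apply, Equiv.swap_apply_self, h.1]
  · simp only [Equiv.Perm.mul_apply, h1, h.2.1]
  · simp only [Equiv.Perm.mul_apply, h2, h.2.2]

/-- the orbit of `u₀` -/
def Orb (lam : ι → Equiv.Perm U) (u₀ : U) : Set U :=
  {u | ReflTransGen (fun a b => ∃ i, lam i a = b) u₀ u}

lemma Orb.step {lam : ι → Equiv.Perm U} {u₀ u : U} (h : u ∈ Orb lam u₀) (i : ι) :
    lam i u ∈ Orb lam u₀ := ReflTransGen.tail h ⟨i, rfl⟩

lemma Orb.sub {lam : ι → Equiv.Perm U} {u₀ : U} {W : Set U} (h0 : u₀ ∈ W)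
    (hW : ∀ i, ∀ u ∈ W, lam i u ∈ W) : Orb lam u₀ ⊆ W := by
  intro u hu
  induction hu with
  | refl => exact h0
  | tail _ h ih =>
    obtain ⟨i, rfl⟩ := h
    exact hW i _ ih

/-- re-pairing enlarges the orbit -/
lemma grow [Fintype U] [Nontrivial ι] {sg : U → ℤˣ} {κ : ι → U → K} {lam : ι → Equiv.Perm U}
    (h : ∀ i, IsPair sg (κ i) (lam i)) {u₀ a a' : U} {i : ι} (ha : a ∈ Orb lam u₀)
    (ha' : a' ∉ Orb lam u₀) (hs : sg a = sg a') (hk : κ i a = κ i a') :
    ∃ lam' : ι → Equiv.Perm U, (∀ i, IsPair sg (κ i) (lam' i)) ∧ Orb lam u₀ ⊂ Orb lam' u₀ := by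
  classical
  let lam' : ι → Equiv.Perm U :=
    Function.update lam i (Equiv.swap a a' * lam i * Equiv.swap a a')
  have hi : lam' i = Equiv.swap a a' * lam i * Equiv.swap a a' := Function.update_self ..
  have hj : ∀ j, j ≠ i → lam' j = lam j := fun j hj => Function.update_of_ne hj ..
  have hp : ∀ j, IsPair sg (κ j) (lam' j) := by
    intro j
    by_cases e : j = i
    · rw [e, hi]
      exact (h i).conj hs hk
    · rw [hj j e]
      exact h j
  have hne : ∀ x ∈ Orb lam u₀, x ≠ a' := fun x hx e => ha' (e ▸ hx)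
  have hsame : ∀ x ∈ Orb lam u₀, x ≠ a → x ≠ lam i a → lam' i x = lam i x := by
    intro x hx h1 h2
    rw [hi]
    simp only [Equiv.Perm.mul_apply]
    rw [Equiv.swap_apply_of_ne_of_ne h1 (hne x hx), Equiv.swap_apply_of_ne_of_ne]
    · intro e
      exact h2 (by rw [← e, (h i).1])
    · exact hne _ (Orb.step hx i)
  have hsub : Orb lam u₀ ⊆ Orb lam' u₀ := by
    let W : Finset U := Finset.univ.filter fun x => x ∈ Orb lam u₀ ∧ x ∈ Orb lam' u₀
    have hW : ∀ x, x ∈ W ↔ x ∈ Orb lam u₀ ∧ x ∈ Orb lam' u₀ := fun x => by simp [W]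
    have hWj : ∀ j, j ≠ i → ∀ x ∈ W, lam j x ∈ W := by
      intro j e x hx
      rw [hW] at hx ⊢
      exact ⟨Orb.step hx.1 j, hj j e ▸ Orb.step hx.2 j⟩
    have hWi : ∀ x ∈ W, x ≠ a → x ≠ lam i a → lam i x ∈ W := by
      intro x hx h1 h2
      rw [hW] at hx ⊢
      exact ⟨Orb.step hx.1 i, hsame x hx.1 h1 h2 ▸ Orb.step hx.2 i⟩
    obtain ⟨j, hji⟩ := exists_ne i
    have hz : ∑ u ∈ W, (sg u : ℤ) = 0 := sum_zero (h j) W (hWj j hji)
    -- a vertex of the removed edge cannot be alone in `W`
    have halone : ∀ x, (x = a ∨ x = lam i a) → x ∈ W → lam i x ∈ W := by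
      intro x hxa hx
      by_contra hnx
      have hz' : ∑ u ∈ W.erase x, (sg u : ℤ) = 0 := by
        refine sum_zero (h i) _ fun y hy => ?_
        obtain ⟨hyx, hyW⟩ := Finset.mem_erase.1 hy
        have hy' : y ≠ lam i x := fun e => hnx (e ▸ hyW)
        refine Finset.mem_erase.2 ⟨fun e => hy' (by rw [← e, (h i).1]), ?_⟩
        rcases hxa with rfl | rfl
        · exact hWi y hyW hyx hy'
        · rw [(h i).1] at hy'
          exact hWi y hyW hy' hyx
      rw [← Finset.add_sum_erase W _ hx, hz', add_zero] at hz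
      exact (sg x).ne_zero hz
    have hall : Orb lam u₀ ⊆ (W : Set U) := by
      refine Orb.sub ((hW u₀).2 ⟨ReflTransGen.refl, ReflTransGen.refl⟩) fun j x hx => ?_
      by_cases e : j = i
      · rw [e]
        by_cases hxa : x = a ∨ x = lam i a
        · exact halone x hxa hx
        · exact hWi x hx (fun e => hxa (Or.inl e)) fun e => hxa (Or.inr e)
      · exact hWj j e x hx
    exact fun x hx => ((hW x).1 (hall hx)).2
  refine ⟨lam', hp, hsub, fun hcon => ?_⟩
  have h1 : lam' i a ∈ Orb lam u₀ := hcon (Orb.step (hsub ha) i)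
  have h2 : lam' i a = lam i a' := by
    rw [hi]
    simp only [Equiv.Perm.mul_apply, Equiv.swap_apply_left]
    refine Equiv.swap_apply_of_ne_of_ne (fun e => ?_) fun e => ?_
    · exact units_neg_ne (sg a') (by rw [← (h i).2.1, e, hs])
    · exact units_neg_ne (sg a') (by rw [← (h i).2.1, e])
  rw [h2] at h1
  exact ha' (by simpa only [(h i).1] using Orb.step h1 i)

open Classical in
lemma exists_trans [Fintype U] [Finite ι] [Nontrivial ι] (sg : U → ℤˣ) (κ : ι → U → K)
    (hbal : ∀ i k, ∑ u ∈ Finset.univ.filter (fun u => κ i u = k), (sg u : ℤ) = 0) (u₀ : U)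
    (hconn : ∀ u, ReflTransGen (fun a b => ∃ i, κ i a = κ i b) u u₀) :
    ∃ lam : ι → Equiv.Perm U, (∀ i, IsPair sg (κ i) (lam i)) ∧
      ∀ u u', ReflTransGen (fun a b => ∃ i, lam i a = b) u u' := by
  choose lam₀ hlam₀ using fun i => exists_pair sg (κ i) (hbal i)
  obtain ⟨lam, hlam, hmax⟩ := Set.exists_max_image
    {lam : ι → Equiv.Perm U | ∀ i, IsPair sg (κ i) (lam i)} (fun lam => (Orb lam u₀).ncard)
    (Set.toFinite _) ⟨lam₀, hlam₀⟩
  have hall : ∀ u, u ∈ Orb lam u₀ := by
    intro u
    induction hconn u using ReflTransGen.head_induction_on with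
    | refl => exact ReflTransGen.refl
    | @head a' a hk _ ih =>
      obtain ⟨i, hk⟩ := hk
      by_contra ha'
      have key : ∃ b, b ∉ Orb lam u₀ ∧ sg a = sg b ∧ κ i a = κ i b := by
        by_cases hs : sg a = sg a'
        · exact ⟨a', ha', hs, hk.symm⟩
        · refine ⟨lam i a', fun hb => ha' ?_, ?_, ?_⟩
          · simpa only [(hlam i).1] using Orb.step hb i
          · rw [(hlam i).2.1]
            exact units_eq_neg hs
          · rw [(hlam i).2.2, hk]
      obtain ⟨b, hb, hs, hkb⟩ := key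
      obtain ⟨lam', hlam', hlt⟩ := grow hlam ih hb hs hkb
      exact absurd (hmax lam' hlam') (not_le.2 (Set.ncard_lt_ncard hlt))
  refine ⟨lam, hlam, fun u u' => ?_⟩
  have hback : ∀ u, ReflTransGen (fun a b => ∃ i, lam i a = b) u₀ u →
      ReflTransGen (fun a b => ∃ i, lam i a = b) u u₀ := by
    intro u hu
    induction hu with
    | refl => exact ReflTransGen.refl
    | tail _ h ih =>
      obtain ⟨i, rfl⟩ := h
      exact ReflTransGen.head ⟨i, (hlam i).1 _⟩ ih
  exact (hback u (hall u)).trans (hall u')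

/-- a finite connected set containing a given finite set -/
lemma exists_conn {α : Type*} (r : α → α → Prop) (c : α) (h : ∀ a, ReflTransGen r a c)
    (F : Finset α) : ∃ G : Finset α, F ⊆ G ∧ c ∈ G ∧
      ∀ a ∈ G, ReflTransGen (fun x y => x ∈ G ∧ y ∈ G ∧ r x y) a c := by
  classical
  have mono : ∀ {G G' : Finset α}, G ⊆ G' → ∀ {a},
      ReflTransGen (fun x y => x ∈ G ∧ y ∈ G ∧ r x y) a c →
      ReflTransGen (fun x y => x ∈ G' ∧ y ∈ G' ∧ r x y) a c := by
    intro G G' hG a ha
    induction ha using ReflTransGen.head_induction_on with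
    | refl => exact ReflTransGen.refl
    | head hxy _ ih => exact ReflTransGen.head ⟨hG hxy.1, hG hxy.2.1, hxy.2.2⟩ ih
  have one : ∀ a, ∃ G : Finset α, a ∈ G ∧ c ∈ G ∧
      ∀ a ∈ G, ReflTransGen (fun x y => x ∈ G ∧ y ∈ G ∧ r x y) a c := by
    intro a
    induction h a using ReflTransGen.head_induction_on with
    | refl =>
      refine ⟨{c}, Finset.mem_singleton_self c, Finset.mem_singleton_self c, fun a ha => ?_⟩
      rw [Finset.mem_singleton.1 ha]
    | @head a b hab _ ih =>
      obtain ⟨G, hb, hc, hG⟩ := ih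
      refine ⟨insert a G, Finset.mem_insert_self _ _, Finset.mem_insert_of_mem hc, fun x hx => ?_⟩
      rcases Finset.mem_insert.1 hx with rfl | hx
      · exact ReflTransGen.head ⟨Finset.mem_insert_self _ _, Finset.mem_insert_of_mem hb, hab⟩
          (mono (Finset.subset_insert _ _) (hG b hb))
      · exact mono (Finset.subset_insert _ _) (hG x hx)
  induction F using Finset.induction_on with
  | empty =>
    obtain ⟨G, _, hc, hG⟩ := one c
    exact ⟨G, Finset.empty_subset _, hc, hG⟩
  | insert a F _ ih =>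
    obtain ⟨G, hF, hc, hG⟩ := ih
    obtain ⟨G', ha, _, hG'⟩ := one a
    refine ⟨G ∪ G', Finset.insert_subset (Finset.mem_union_right _ ha)
      (hF.trans Finset.subset_union_left), Finset.mem_union_left _ hc, fun x hx => ?_⟩
    rcases Finset.mem_union.1 hx with hx | hx
    · exact mono Finset.subset_union_left (hG x hx)
    · exact mono Finset.subset_union_right (hG' x hx)

end Comb

section Top

variable {X : Type u} [TopologicalSpace X] {n : ℕ}

/-- two simplices with a common face -/
def Adj (σ τ : C(Dl (n + 1), X)) : Prop := ∃ i, σ.comp (face i) = τ.comp (face i)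

/-- the simplicial map attached to a map of vertices -/
noncomputable def smap (f : Fin (n + 1) → Fin (n + 1)) : C(Dl (n + 1), Dl (n + 1)) :=
  ⟨stdSimplex.map f, stdSimplex.continuous_map _⟩

lemma adj_update (σ : C(Dl (n + 1), X)) (f : Fin (n + 1) → Fin (n + 1)) (i a : Fin (n + 1)) :
    Adj (σ.comp (smap (Function.update f i a))) (σ.comp (smap f)) := by
  refine ⟨i, ?_⟩
  ext t
  change σ (stdSimplex.map _ (stdSimplex.map _ t)) = σ (stdSimplex.map _ (stdSimplex.map _ t))
  rw [stdSimplex.map_comp_apply, stdSimplex.map_comp_apply]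
  congr 2
  funext l
  exact Function.update_of_ne (Fin.succAbove_ne i l) ..

lemma conn_smap (σ : C(Dl (n + 1), X)) (f g : Fin (n + 1) → Fin (n + 1)) :
    ReflTransGen Adj (σ.comp (smap f)) (σ.comp (smap g)) := by
  have key : ∀ S : Finset (Fin (n + 1)),
      ReflTransGen Adj (σ.comp (smap (S.piecewise f g))) (σ.comp (smap g)) := by
    intro S
    induction S using Finset.induction_on with
    | empty => rw [Finset.piecewise_empty]
    | insert i S _ ih =>
      rw [Finset.piecewise_insert]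
      exact ReflTransGen.head (adj_update σ _ i _) ih
  simpa only [Finset.piecewise_univ] using key Finset.univ

lemma comp_smap_id (σ : C(Dl (n + 1), X)) : σ.comp (smap id) = σ := by
  ext t
  change σ (stdSimplex.map id t) = σ t
  rw [stdSimplex.map_id_apply]

lemma comp_smap_const (σ : C(Dl (n + 1), X)) (a : Fin (n + 1)) :
    σ.comp (smap fun _ => a) = ContinuousMap.const _ (σ (stdSimplex.vertex a)) := by
  ext t
  change σ (stdSimplex.map (fun _ => a) t) = σ (stdSimplex.vertex a)
  congr 1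
  ext j
  change FunOnFinite.linearMap ℝ ℝ (fun _ => a) t j = (Pi.single a 1 : Fin (n + 1) → ℝ) j
  rw [FunOnFinite.linearMap_apply_apply]
  by_cases h : a = j
  · subst h
    simpa using t.2.2
  · simp [h, Pi.single_eq_of_ne' h]

lemma conn_const [PathConnectedSpace X] (hn : 0 < n) (σ : C(Dl (n + 1), X)) (x : X) :
    ReflTransGen Adj σ (ContinuousMap.const _ x) := by
  obtain ⟨γ⟩ := PathConnectedSpace.joined (σ (stdSimplex.vertex 0)) x
  let τ : C(Dl (n + 1), X) := ⟨fun t => γ.extend (t.1 (Fin.last n)),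
    γ.continuous_extend.comp ((continuous_apply _).comp continuous_subtype_val)⟩
  have h0 : τ (stdSimplex.vertex 0) = σ (stdSimplex.vertex 0) := by
    have : (Fin.last n) ≠ 0 := fun e => hn.ne' (by simpa using congrArg Fin.val e)
    change γ.extend ((Pi.single 0 1 : Fin (n + 1) → ℝ) (Fin.last n)) = _
    rw [Pi.single_eq_of_ne this, Path.extend_zero]
  have h1 : τ (stdSimplex.vertex (Fin.last n)) = x := by
    change γ.extend ((Pi.single (Fin.last n) 1 : Fin (n + 1) → ℝ) (Fin.last n)) = _
    rw [Pi.single_eq_same, Path.extend_one]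
  have a1 := conn_smap σ id fun _ => 0
  have a2 := conn_smap τ (fun _ => 0) fun _ => Fin.last n
  rw [comp_smap_id, comp_smap_const] at a1
  rw [comp_smap_const, comp_smap_const, h0, h1] at a2
  exact a1.trans a2

end Top

end ColAux

theorem exists_col {X : Type u} [TopologicalSpace X] [PathConnectedSpace X] {n : ℕ} (hn : 0 < n)
    (z : Ch X (n + 1)) (hz : bd z = 0) :
    ∃ (U : Type u) (_ : Fintype U) (_ : Nonempty U) (C : Col X n U),
      (∀ u u', Relation.ReflTransGen (fun a b => ∃ i, C.lam i a = b) u u') ∧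
      ∃ w : Ch X (n + 2), (∑ u, Finsupp.single (C.s u) (C.sg u : ℤ)) - z = bd w := by
  classical
  obtain ⟨z', hw, hz'⟩ := exists_coloured z hz
  obtain ⟨x₀⟩ : Nonempty X := inferInstance
  obtain ⟨G, hsupp, hc, hG⟩ := ColAux.exists_conn ColAux.Adj (ContinuousMap.const (Dl (n + 1)) x₀)
    (fun σ => ColAux.conn_const hn σ x₀) z'.support
  let U : Type u := (σ : G) × (ε : ℤˣ) × Fin (((ε : ℤ) * z' σ.1).toNat + 1)
  let base : G → U := fun σ => ⟨σ, 1, 0⟩
  let sg : U → ℤˣ := fun u => u.2.1
  let s : U → C(Dl (n + 1), X) := fun u => u.1.1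
  have hsum : (∑ u : U, Finsupp.single (s u) (sg u : ℤ)) = z' := by
    have h1 : ∀ σ : G, (∑ v : (ε : ℤˣ) × Fin (((ε : ℤ) * z' σ.1).toNat + 1),
        Finsupp.single σ.1 (v.1 : ℤ)) = Finsupp.single σ.1 (z' σ.1) := by
      intro σ
      rw [← Finsupp.single_finset_sum, Fintype.sum_sigma]
      congr 1
      simp only [Finset.sum_const, Finset.card_univ, Fintype.card_fin, UnitsInt.univ]
      rw [Finset.sum_pair (by decide)]
      simp only [Units.val_one, Units.val_neg, one_mul, neg_mul, nsmul_eq_mul]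
      push_cast
      omega
    rw [Fintype.sum_sigma]
    simp only [s, sg]
    rw [Finset.sum_congr rfl fun σ _ => h1 σ,
      Finset.sum_coe_sort G fun σ => Finsupp.single σ (z' σ)]
    conv_rhs => rw [← Finsupp.sum_single z']
    rw [Finsupp.sum]
    refine (Finset.sum_subset hsupp fun σ _ hσ => ?_).symm
    rw [Finsupp.notMem_support_iff.1 hσ, Finsupp.single_zero]
  haveI : Nontrivial (Fin (n + 1)) := Fin.nontrivial_iff_two_le.2 (by omega)
  obtain ⟨lam, hlam, htr⟩ := ColAux.exists_trans sg (fun i u => (s u).comp (face i))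
    (fun i φ => by
      have h := hz' i
      rw [← hsum, map_sum] at h
      have h2 := DFunLike.congr_fun h φ
      simp only [bdi_single, Finsupp.finset_sum_apply, Finsupp.single_apply,
        Finsupp.zero_apply] at h2
      rw [Finset.sum_filter]
      exact h2) (base ⟨_, hc⟩)
    (fun u => by
      have key : ∀ σ, Relation.ReflTransGen (fun x y => x ∈ G ∧ y ∈ G ∧ ColAux.Adj x y) σ
          (ContinuousMap.const (Dl (n + 1)) x₀) → ∀ u : U, s u = σ →
          Relation.ReflTransGen (fun a b : U => ∃ i, (s a).comp (face i) = (s b).comp (face i)) u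
            (base ⟨_, hc⟩) := by
        intro σ hσ
        induction hσ using Relation.ReflTransGen.head_induction_on with
        | refl =>
          intro u hu
          exact Relation.ReflTransGen.single ⟨0, by rw [hu]⟩
        | @head a b hab _ ih =>
          intro u hu
          obtain ⟨_, hb, i, hi⟩ := hab
          exact Relation.ReflTransGen.head ⟨i, by rw [hu]; exact hi⟩ (ih (base ⟨b, hb⟩) rfl)
      exact key _ (hG _ u.1.2) u rfl)
  refine ⟨U, inferInstance, ⟨base ⟨_, hc⟩⟩,
    ⟨sg, s, lam, fun i => (hlam i).1, fun i => (hlam i).2.1, fun i u t ht => ?_⟩, htr, ?_⟩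
  · obtain ⟨t', rfl⟩ := exists_face i t ht
    exact DFunLike.congr_fun ((hlam i).2.2 u) t'
  · obtain ⟨w, hw⟩ := hw
    exact ⟨w, (congrArg (fun c => c - z) hsum).trans hw⟩

end Pool.Agent.URC
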