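import Pool.Agent.P.MP_797ab1_gt.Chart
import Pool.Agent.P.MP_797ab1_gt.Fund

/-! TASK M2: the quotient manifolds, their coverings and fundamental classes. -/

open Set Function Topology

namespace Pool.Agent.URC

noncomputable section

variable {n : ℕ} {Γ : Subgroup (Isom n)} {B : ℝ}

/-- the projection to the orbit space -/
def pr (Γ : Subgroup (Isom n)) : C(Hyp n, Quo Γ) :=
  ⟨fun x => Quotient.mk (MulAction.orbitRel Γ (Hyp n)) x, continuous_quotient_mk'⟩

theorem pr_eq_iff {x y : Hyp n} : pr Γ x = pr Γ y ↔ ∃ γ ∈ Γ, γ • x = y := by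
  rw [eq_comm]
  refine Quotient.eq.trans (MulAction.orbitRel_apply.trans ?_)
  exact ⟨fun ⟨γ, h⟩ => ⟨γ.1, γ.2, h⟩, fun ⟨γ, h1, h2⟩ => ⟨⟨γ, h1⟩, h2⟩⟩

theorem pr_surjective : Surjective (pr Γ) := Quotient.mk_surjective

theorem isQuotientMap_pr : IsQuotientMap (pr Γ) := isQuotientMap_quotient_mk'

namespace CvAux

instance : ContinuousConstSMul Γ (Hyp n) where
  continuous_const_smul γ := continuous_const_smul γ.1

lemma isOpenMap_pr : IsOpenMap (pr Γ) := isOpenMap_quotient_mk'_mul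

lemma isOpen_nb (c : Hyp n) : IsOpen {y : Hyp n | dd y c < 2} :=
  isOpen_lt (by fun_prop) continuous_const

lemma nb_mem (c : Hyp n) : {y : Hyp n | dd y c < 2} ∈ 𝓝 c :=
  (isOpen_nb c).mem_nhds (by simp)

lemma dd_le_of_nb {c x y : Hyp n} (hx : dd x c < 2) (hy : dd y c < 2) : dd x y ≤ 8 := by
  have h1 := dd_tri x c y
  rw [dd_comm c y] at h1
  have := dd_pos x c
  have := dd_pos y c
  nlinarith

lemma injOn_pr (hD : Displ Γ B) (hB : 100 ≤ B) (c : Hyp n) :
    InjOn (pr Γ) {y : Hyp n | dd y c < 2} := by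
  intro x hx y hy e
  obtain ⟨γ, hγ, rfl⟩ := pr_eq_iff.1 e
  rw [hD γ hγ x ((dd_le_of_nb hx hy).trans (by linarith)), one_smul]

lemma isLocalHomeomorph_pr (hD : Displ Γ B) (hB : 100 ≤ B) : IsLocalHomeomorph (pr Γ) := by
  refine isLocalHomeomorph_iff_isOpenEmbedding_restrict.2 fun c => ⟨_, nb_mem c, ?_⟩
  exact .of_continuous_injective_isOpenMap ((pr Γ).continuous.comp continuous_subtype_val)
    (fun x y e => Subtype.ext (injOn_pr hD hB c x.2 y.2 e))
    (isOpenMap_pr.comp (isOpen_nb c).isOpenMap_subtype_val)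

lemma exists_bound {K : Set (Hyp n)} (hK : IsCompact K) : ∃ R : ℝ, ∀ x ∈ K, dd e0 x ≤ R := by
  obtain ⟨R, hR⟩ := (hK.image (f := fun x => dd e0 x) (by fun_prop)).bddAbove
  exact ⟨R, fun x hx => hR ⟨x, hx, rfl⟩⟩

instance : LocallyCompactSpace (Hyp n) := (chi ev).isOpenEmbedding.locallyCompactSpace

end CvAux

open CvAux

theorem properlyDiscontinuous (hD : Displ Γ B) (hB : 100 ≤ B) :
    ProperlyDiscontinuousSMul Γ (Hyp n) := by
  refine ⟨fun {K L} hK hL => ?_⟩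
  obtain ⟨R, hR⟩ := exists_bound hK
  obtain ⟨R', hR'⟩ := exists_bound hL
  obtain ⟨t, -, ht⟩ := (isCompact_ball (n := n) (2 * R' * R)).elim_nhds_subcover
    (fun c => {y : Hyp n | dd y c < 2}) fun c _ => nb_mem c
  refine (t.finite_toSet.biUnion (t := fun c => {γ : Γ | dd (γ.1 • e0) c < 2})
    fun c _ => Set.Subsingleton.finite fun γ hγ γ' hγ' => ?_).subset ?_
  · have h1 := dd_le_of_nb hγ hγ'
    have h2 : dd e0 ((γ.1⁻¹ * γ'.1) • (e0 : Hyp n)) ≤ B := by
      rw [← dd_smul_smul γ.1, smul_smul, mul_inv_cancel_left]; linarith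
    exact Subtype.ext (inv_mul_eq_one.1 (hD _ (mul_mem (inv_mem γ.2) γ'.2) _ h2))
  · rintro γ ⟨_, ⟨x, hx, rfl⟩, hy⟩
    have h1 : dd e0 (γ.1 • x) ≤ R' := hR' _ hy
    have h2 := hR x hx
    have h3 := dd_tri e0 (γ.1 • x) (γ.1 • e0)
    rw [dd_smul_smul, dd_comm x] at h3
    have h4 : dd e0 (γ.1 • (e0 : Hyp n)) ≤ 2 * R' * R := by
      refine h3.trans ?_
      have := dd_pos e0 x
      have := (dd_pos _ _).trans_le h1
      gcongr
    simpa using ht h4

theorem compactSpace_quo (hC : Cocpt Γ) : CompactSpace (Quo Γ) := by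
  obtain ⟨R, hR⟩ := hC
  refine ⟨((isCompact_ball R).image (pr Γ).continuous).of_isClosed_subset isClosed_univ ?_⟩
  intro q _
  obtain ⟨x, rfl⟩ := pr_surjective q
  obtain ⟨γ, h1, h2⟩ := hR x
  exact ⟨γ • x, h2, (pr_eq_iff.2 ⟨γ, h1, rfl⟩).symm⟩

theorem t2Space_quo (hD : Displ Γ B) (hB : 100 ≤ B) : T2Space (Quo Γ) := by
  have := properlyDiscontinuous hD hB
  exact t2Space_of_properlyDiscontinuousSMul_of_t2Space

theorem connectedSpace_quo : ConnectedSpace (Quo Γ) := by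
  have : ConnectedSpace (Hyp n) :=
    (chi ev).symm.surjective.connectedSpace (chi ev).symm.continuous
  exact pr_surjective.connectedSpace (pr Γ).continuous

theorem exists_covering (hD : Displ Γ B) (hB : 100 ≤ B) (hC : Cocpt Γ) {Γ' : Subgroup (Isom n)}
    (hle : Γ' ≤ Γ) (hi : Γ'.relIndex Γ ≠ 0) :
    ∃ p : Quo Γ' → Quo Γ, IsCoveringMap p ∧ ∀ y, (p ⁻¹' {y}).Finite := by
  have hD' : Displ Γ' B := fun γ h => hD γ (hle h)
  have := t2Space_quo hD hB
  have := t2Space_quo hD' hB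
  have := compactSpace_quo (hC.mono hi)
  let p : Quo Γ' → Quo Γ := Quotient.lift (pr Γ) fun x y h => by
    obtain ⟨γ, h1, h2⟩ := (pr_eq_iff (Γ := Γ')).1 (Quotient.sound h)
    exact pr_eq_iff.2 ⟨γ, hle h1, h2⟩
  have h1 : IsLocalHomeomorphOn p (pr Γ' '' univ) :=
    IsLocalHomeomorphOn.of_comp_right (g := p) (f := pr Γ')
      (isLocalHomeomorph_pr hD hB).isLocalHomeomorphOn
      (isLocalHomeomorph_pr hD' hB).isLocalHomeomorphOn
  rw [image_univ_of_surjective pr_surjective, ← isLocalHomeomorph_iff_isLocalHomeomorphOn_univ]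
    at h1
  refine ⟨p, isLocalHomeomorph_iff_isCoveringMap.1 h1, fun y => ?_⟩
  refine (isClosed_singleton.preimage h1.continuous).isCompact.finite
    (.of_openPartialHomeomorph p subset_rfl fun e _ => ?_)
  obtain ⟨φ, h2, h3⟩ := h1 e
  exact ⟨φ, h2, h3.symm⟩

/-- local charts of the quotient -/
def cht (Γ : Subgroup (Isom n)) (w : Fin n → V n) (β : C(E n, E n)) : C(E n, Quo Γ) :=
  (pr Γ).comp (((chi w).symm : C(E n, Hyp n)).comp β)

lemma cht_apply (w : Fin n → V n) (β : C(E n, E n)) (z : E n) :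
    cht Γ w β z = pr Γ ((chi w).symm (β z)) := rfl

theorem fund_quo (hn : 0 < n) (hD : Displ Γ B) (hB : 100 ≤ B) (hC : Cocpt Γ)
    (ho : ∀ γ ∈ Γ, osg γ = 1) :
    ∃ (c : Ch (Quo Γ) (n + 1)) (hc : bd c ∈ ChIn (∅ : Set (Quo Γ)) n), IsFund n c ∧
      ∀ (w : Fin n → V n) (β : C(E n, E n)), IsOpenEmbedding β →
        ∀ (hi : Injective (cht Γ w β)) (z : E n),
          HH.res (empty_subset _) (HH.mk c hc) =
            ((del w * sgn β : ℤˣ) : ℤ) • HH.map (cht Γ w β) (mapsTo_pt hi z) (oc {z}) := by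
  have := t2Space_quo hD hB
  have := compactSpace_quo hC
  let p : C(E n, Quo Γ) := (pr Γ).comp ((chi (ev : Fin n → V n)).symm : C(E n, Hyp n))
  have hp : ∀ y, p y = pr Γ ((chi ev).symm y) := fun _ => rfl
  obtain ⟨c, hc, h1, h2⟩ := fund hn p (pr_surjective.comp (chi ev).symm.surjective)
    (isOpenMap_pr.comp (chi ev).symm.isOpenMap)
    (fun x => ⟨_, (chi ev).symm.continuous.continuousAt.preimage_mem_nhds
      (nb_mem ((chi ev).symm x)), fun a ha b hb e =>
        (chi ev).symm.injective (injOn_pr hD hB _ ha hb e)⟩)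
    (fun x y e => by
      rw [hp, hp] at e
      obtain ⟨γ, h1, h2⟩ := pr_eq_iff.1 e
      refine ⟨crd γ, isOpenEmbedding_crd γ, ho γ h1, ?_, fun z => ?_⟩
      · rw [crd_apply, h2, Homeomorph.apply_symm_apply]
      · rw [hp, hp, crd_apply, Homeomorph.symm_apply_apply]
        exact (pr_eq_iff.2 ⟨γ, h1, rfl⟩).symm)
  refine ⟨c, hc, h1, fun w β hβ hi z => ?_⟩
  have e : cht Γ w β = p.comp ((trn w).comp β) := by
    ext1 y
    change _ = p (trn w (β y))
    rw [cht_apply, hp, trn_apply, Homeomorph.symm_apply_apply]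
  have h3 := h2 ((trn w).comp β) ((isOpenEmbedding_trn w).comp hβ)
  rw [sgn_comp (isOpenEmbedding_trn w) hβ, ← e] at h3
  exact h3 hi z

end

end Pool.Agent.URC
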