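import Pool.Agent.P.MP_797ab1_gt.Final

/-! Controls for the statement, part A: the quotient is a closed smooth manifold whose changes
of chart are isometries of hyperbolic space. -/

open Set Function Topology Filter

namespace Pool.Agent.URC.Ctl

variable {n : ℕ}

lemma continuous_of_isIsom {g : Equiv.Perm (Hyp n)} (h : IsIsom g) : Continuous g := by
  obtain ⟨A, -, -, hA⟩ := h
  refine continuous_induced_rng.2 ?_
  have e : (Subtype.val ∘ g : Hyp n → V n) = fun x => A.mulVec x.1 := funext hA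
  rw [e]
  exact continuous_const.matrix_mulVec continuous_subtype_val

lemma chi_ev (x : Hyp n) (i : Fin n) : chi ev x i = x.1 i.succ := by
  rw [chi_apply on_ev]
  simp [lor, ev, Pi.single_apply, (Fin.succ_ne_zero i).symm]

lemma chi_symm_succ (y : E n) (i : Fin n) : ((chi ev).symm y).1 i.succ = y i := by
  rw [← chi_ev, Homeomorph.apply_symm_apply]

lemma chi_symm_zero (y : E n) : ((chi ev).symm y).1 0 = √(1 + ∑ i, y i ^ 2) := by
  obtain ⟨h1, h2⟩ := ((chi ev).symm y).2
  have h3 : 1 + ∑ i, y i ^ 2 = ((chi ev).symm y).1 0 ^ 2 := by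
    simp only [lor, chi_symm_succ] at h1
    simp only [sq]
    linarith
  rw [h3, Real.sqrt_sq h2.le]

lemma contDiff_sec : ContDiff ℝ ⊤ fun y : E n => ((chi ev).symm y).1 := by
  refine contDiff_pi.2 fun j => ?_
  refine Fin.cases ?_ (fun i => ?_) j
  · simp only [chi_symm_zero]
    refine ContDiff.sqrt (by fun_prop) fun y => ?_
    positivity
  · simp only [chi_symm_succ]
    fun_prop

lemma contDiff_crd {g : Equiv.Perm (Hyp n)} (h : IsIsom g) :
    ContDiff ℝ ⊤ fun y : E n => chi ev (g ((chi ev).symm y)) := by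
  obtain ⟨A, -, -, hA⟩ := h
  refine contDiff_pi.2 fun i => ?_
  simp only [chi_ev, hA, Matrix.mulVec, dotProduct]
  exact ContDiff.sum fun j _ => contDiff_const.mul (contDiff_pi.1 contDiff_sec j)

lemma lor_crd {g : Equiv.Perm (Hyp n)} (h : IsIsom g) (y u v : E n) :
    lor (fderiv ℝ (fun y : E n => ((chi ev).symm y).1) (chi ev (g ((chi ev).symm y)))
        (fderiv ℝ (fun y : E n => chi ev (g ((chi ev).symm y))) y u))
      (fderiv ℝ (fun y : E n => ((chi ev).symm y).1) (chi ev (g ((chi ev).symm y)))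
        (fderiv ℝ (fun y : E n => chi ev (g ((chi ev).symm y))) y v)) =
    lor (fderiv ℝ (fun y : E n => ((chi ev).symm y).1) y u)
      (fderiv ℝ (fun y : E n => ((chi ev).symm y).1) y v) := by
  have hG := ((contDiff_crd h).differentiable (by simp) y).hasFDerivAt
  have hs := fun z : E n => ((contDiff_sec (n := n)).differentiable (by simp) z).hasFDerivAt
  obtain ⟨A, -, hl, hA⟩ := h
  let L : V n →L[ℝ] V n := LinearMap.toContinuousLinearMap (Matrix.toLin' A)
  have h1 := (hs _).comp y hG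
  have h2 := L.hasFDerivAt.comp y (hs y)
  have e : ((fun y : E n => ((chi ev).symm y).1) ∘ fun y : E n => chi ev (g ((chi ev).symm y))) =
      L ∘ fun y : E n => ((chi ev).symm y).1 := by
    funext z
    simp only [comp_apply, Homeomorph.symm_apply_apply, hA]
    rfl
  rw [e] at h1
  have h3 := h1.unique h2
  have h4 := fun w => congrArg (fun T : E n →L[ℝ] V n => T w) h3
  simp only [ContinuousLinearMap.comp_apply] at h4
  rw [h4, h4]
  exact hl _ _

lemma lor_sec_pos (y u : E n) (hu : u ≠ 0) :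
    0 < lor (fderiv ℝ (fun y : E n => ((chi ev).symm y).1) y u)
      (fderiv ℝ (fun y : E n => ((chi ev).symm y).1) y u) := by
  have hs := ((contDiff_sec (n := n)).differentiable (by simp) y).hasFDerivAt
  set D := fderiv ℝ (fun y : E n => ((chi ev).symm y).1) y with hD
  have hj := fun j => hasFDerivAt_pi'.1 hs j
  have h1 : ∀ i : Fin n, D u i.succ = u i := fun i => by
    have a := hj i.succ
    simp only [chi_symm_succ] at a
    have b := a.unique (hasFDerivAt_apply (𝕜 := ℝ) i y)
    exact congrArg (fun T : E n →L[ℝ] ℝ => T u) b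
  have hq : ∀ z : E n, ((chi ev).symm z).1 0 * ((chi ev).symm z).1 0 = 1 + ∑ i, z i * z i :=
    fun z => by
      have := ((chi ev).symm z).2.1
      simp only [lor, chi_symm_succ] at this
      linarith
  have h2 : ((chi ev).symm y).1 0 * D u 0 = ∑ i, y i * u i := by
    have a := (hj 0).mul (hj 0)
    have b : HasFDerivAt (fun z : E n => 1 + ∑ i, z i * z i) _ y :=
      (HasFDerivAt.fun_sum (u := Finset.univ) fun i _ =>
        (hasFDerivAt_apply (𝕜 := ℝ) i y).mul (hasFDerivAt_apply (𝕜 := ℝ) i y)).const_add 1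
    have e : ((fun z : E n => ((chi ev).symm z).1 0) * fun z : E n => ((chi ev).symm z).1 0) =
        fun z : E n => 1 + ∑ i, z i * z i := funext hq
    rw [e] at a
    have c := congrArg (fun T : E n →L[ℝ] ℝ => T u) (a.unique b)
    simp only [_root_.add_apply, _root_.smul_apply,
      ContinuousLinearMap.comp_apply, ContinuousLinearMap.proj_apply, smul_eq_mul,
      _root_.sum_apply, Finset.sum_add_distrib] at c
    linarith
  have h3 : 0 < ∑ i, u i ^ 2 := by
    obtain ⟨i, hi⟩ := Function.ne_iff.1 hu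
    exact Finset.sum_pos' (fun _ _ => sq_nonneg _) ⟨i, Finset.mem_univ _, by
      have : u i ≠ 0 := hi
      positivity⟩
  have h4 := Finset.sum_mul_sq_le_sq_mul_sq Finset.univ y u
  have h5 := hq y
  have h6 : 0 ≤ ∑ i, y i ^ 2 := Finset.sum_nonneg fun _ _ => sq_nonneg _
  simp only [lor, h1]
  simp only [← sq] at h5 ⊢
  rw [← h2, mul_pow, h5] at h4
  nlinarith [sq_nonneg (D u 0)]

theorem closed_manifold (Γ : Subgroup (Equiv.Perm (Hyp n))) (h1 : ∀ g ∈ Γ, IsIsom g)
    (h2 : ∀ g ∈ Γ, ∀ x : Hyp n, g x = x → g = 1) (h3 : ProperlyDiscontinuousSMul Γ (Hyp n)) :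
    T2Space (MulAction.orbitRel.Quotient Γ (Hyp n)) ∧
      SecondCountableTopology (MulAction.orbitRel.Quotient Γ (Hyp n)) ∧
      PathConnectedSpace (MulAction.orbitRel.Quotient Γ (Hyp n)) ∧
      IsCoveringMap (Quotient.mk (MulAction.orbitRel Γ (Hyp n))) ∧
      ∃ _ : ChartedSpace (Fin n → ℝ) (MulAction.orbitRel.Quotient Γ (Hyp n)),
        IsManifold (modelWithCornersSelf ℝ (Fin n → ℝ)) ⊤
          (MulAction.orbitRel.Quotient Γ (Hyp n)) ∧
        (∀ e ∈ atlas (Fin n → ℝ) (MulAction.orbitRel.Quotient Γ (Hyp n)), ∀ y,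
          e.symm y = Quotient.mk (MulAction.orbitRel Γ (Hyp n)) ((chi ev).symm y)) ∧
        ∀ e ∈ atlas (Fin n → ℝ) (MulAction.orbitRel.Quotient Γ (Hyp n)),
          ∀ e' ∈ atlas (Fin n → ℝ) (MulAction.orbitRel.Quotient Γ (Hyp n)),
            ∀ y ∈ (e.symm.trans e').source, ∃ g ∈ Γ,
              ∀ᶠ y' in nhds y, e.symm.trans e' y' = chi ev (g ((chi ev).symm y')) := by
  have : ContinuousConstSMul Γ (Hyp n) := ⟨fun g => continuous_of_isIsom (h1 g.1 g.2)⟩
  have : IsCancelSMul Γ (Hyp n) := isCancelSMul_iff_eq_one_of_smul_eq.2 fun g x h =>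
    Subtype.ext (h2 g.1 g.2 x h)
  have : PathConnectedSpace (Hyp n) :=
    (chi ev).symm.surjective.pathConnectedSpace (chi ev).symm.continuous
  have hc := (isQuotientCoveringMap_quotientMk_of_properlyDiscontinuousSMul
    (G := Γ) (E := Hyp n)).isCoveringMap
  let p : E n → MulAction.orbitRel.Quotient Γ (Hyp n) := fun y =>
    Quotient.mk (MulAction.orbitRel Γ (Hyp n)) ((chi ev).symm y)
  have hp : IsLocalHomeomorph p := hc.isLocalHomeomorph.comp (chi ev).symm.isLocalHomeomorph
  have hs : Surjective p := Quotient.mk_surjective.comp (chi ev).symm.surjective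
  choose e he1 he2 using hp
  let C : ChartedSpace (Fin n → ℝ) (MulAction.orbitRel.Quotient Γ (Hyp n)) :=
    { atlas := {c | ⇑c.symm = p}
      chartAt := fun q => (e (surjInv hs q)).symm
      mem_chart_source := fun q => by
        have := (e (surjInv hs q)).map_source (he1 _)
        rw [← he2, surjInv_eq hs] at this
        exact this
      chart_mem_atlas := fun q => (he2 _).symm }
  have key : ∀ c c' : OpenPartialHomeomorph (MulAction.orbitRel.Quotient Γ (Hyp n)) (E n),
      ⇑c.symm = p → ⇑c'.symm = p → ∀ y ∈ (c.symm.trans c').source, ∃ g ∈ Γ,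
        ∀ᶠ y' in nhds y, c.symm.trans c' y' = chi ev (g ((chi ev).symm y')) := by
    intro c c' k k' y hy
    have hy2 : p y ∈ c'.source := by
      have : c.symm y ∈ c'.source := hy.2
      rwa [k] at this
    have a1 : p (c' (p y)) = p y := by
      have := c'.left_inv hy2
      rwa [k'] at this
    obtain ⟨g, hg⟩ : ∃ g : Γ, g • (chi ev).symm y = (chi ev).symm (c' (p y)) :=
      MulAction.orbitRel_apply.1 (Quotient.exact a1)
    refine ⟨g.1, g.2, ?_⟩
    have a2 : chi ev (g.1 ((chi ev).symm y)) ∈ c'.target := by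
      have : g.1 ((chi ev).symm y) = (chi ev).symm (c' (p y)) := hg
      rw [this, Homeomorph.apply_symm_apply]
      exact c'.map_source hy2
    filter_upwards [(contDiff_crd (h1 g.1 g.2)).continuous.continuousAt.preimage_mem_nhds
      (c'.open_target.mem_nhds a2)] with z hz
    have a3 : p (chi ev (g.1 ((chi ev).symm z))) = p z := by
      simp only [p, Homeomorph.symm_apply_apply]
      exact Quotient.sound (MulAction.orbitRel_apply.2 ⟨g, rfl⟩)
    have a4 := c'.right_inv hz
    rw [k', a3] at a4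
    rw [OpenPartialHomeomorph.trans_apply, k]
    exact a4
  refine ⟨t2Space_of_properlyDiscontinuousSMul_of_t2Space,
    ContinuousConstSMul.secondCountableTopology,
    Quotient.mk_surjective.pathConnectedSpace continuous_quotient_mk', hc, C, ?_,
    fun c k y => congrFun k y, fun c k c' k' => key c c' k k'⟩
  refine isManifold_of_contDiffOn _ _ _ fun c c' k k' y hy => ?_
  obtain ⟨g, hg, a⟩ := key c c' k k' y hy.1
  exact ((contDiff_crd (h1 g hg)).contDiffAt.congr_of_eventuallyEq a).contDiffWithinAt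

theorem closed_hyperbolic (Γ : Subgroup (Equiv.Perm (Hyp n))) (h1 : ∀ g ∈ Γ, IsIsom g)
    (h2 : ∀ g ∈ Γ, ∀ x : Hyp n, g x = x → g = 1) (h3 : ProperlyDiscontinuousSMul Γ (Hyp n)) :
    T2Space (MulAction.orbitRel.Quotient Γ (Hyp n)) ∧
      SecondCountableTopology (MulAction.orbitRel.Quotient Γ (Hyp n)) ∧
      PathConnectedSpace (MulAction.orbitRel.Quotient Γ (Hyp n)) ∧
      IsCoveringMap (Quotient.mk (MulAction.orbitRel Γ (Hyp n))) ∧
      ∃ (s : Homeomorph (Fin n → ℝ) (Hyp n))
        (_ : ChartedSpace (Fin n → ℝ) (MulAction.orbitRel.Quotient Γ (Hyp n))),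
        (∀ y i, (s y).1 (Fin.succ i) = y i) ∧ ContDiff ℝ ⊤ (fun y => (s y).1) ∧
        (∀ y u, u ≠ 0 →
          0 < lor (fderiv ℝ (fun y => (s y).1) y u) (fderiv ℝ (fun y => (s y).1) y u)) ∧
        IsManifold (modelWithCornersSelf ℝ (Fin n → ℝ)) ⊤
          (MulAction.orbitRel.Quotient Γ (Hyp n)) ∧
        (∀ e ∈ atlas (Fin n → ℝ) (MulAction.orbitRel.Quotient Γ (Hyp n)), ∀ y,
          e.symm y = Quotient.mk (MulAction.orbitRel Γ (Hyp n)) (s y)) ∧
        ∀ e ∈ atlas (Fin n → ℝ) (MulAction.orbitRel.Quotient Γ (Hyp n)),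
          ∀ e' ∈ atlas (Fin n → ℝ) (MulAction.orbitRel.Quotient Γ (Hyp n)),
            ∀ y ∈ (e.symm.trans e').source,
              (∃ g ∈ Γ, ∀ᶠ y' in nhds y, s (e.symm.trans e' y') = g (s y')) ∧
              ∀ u v, lor (fderiv ℝ (fun y => (s y).1) (e.symm.trans e' y)
                    (fderiv ℝ (e.symm.trans e') y u))
                  (fderiv ℝ (fun y => (s y).1) (e.symm.trans e' y)
                    (fderiv ℝ (e.symm.trans e') y v)) =
                lor (fderiv ℝ (fun y => (s y).1) y u) (fderiv ℝ (fun y => (s y).1) y v) := by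
  obtain ⟨a1, a2, a3, a4, C, a5, a6, a7⟩ := closed_manifold Γ h1 h2 h3
  refine ⟨a1, a2, a3, a4, (chi ev).symm, C, chi_symm_succ, contDiff_sec, lor_sec_pos, a5, a6,
    fun e he e' he' y hy => ?_⟩
  obtain ⟨g, hg, a⟩ := a7 e he e' he' y hy
  refine ⟨⟨g, hg, a.mono fun z hz => by rw [hz, Homeomorph.symm_apply_apply]⟩, fun u v => ?_⟩
  have b : (⇑(e.symm.trans e')) =ᶠ[nhds y] fun y' => chi ev (g ((chi ev).symm y')) := a
  rw [b.fderiv_eq, b.self_of_nhds]
  exact lor_crd (h1 g hg) y u v

end Pool.Agent.URC.Ctl
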