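import Pool.Agent.P.MP_797ab1_gt.CtlA

/-! Controls for the statement, part B: the finite-index form, failure of the literal reading of
the definition, and spaces that are not universal realisators. -/

open Set Function Topology Filter

namespace Pool.Agent.URC.Ctl

universe u

variable {n : ℕ}

lemma exists_ne_of_fund (hn : 0 < n) {N : Type*} [TopologicalSpace N] {μ : Ch N (n + 1)}
    (h : IsFund n μ) (x : N) : ∃ y, y ≠ x := by
  by_contra hc
  push Not at hc
  have : Subsingleton N := ⟨fun a b => (hc a).trans (hc b).symm⟩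
  obtain ⟨k, rfl⟩ : ∃ k, n = k + 1 := ⟨n - 1, by omega⟩
  have hb : bd μ ∈ ChIn ({x}ᶜ : Set N) (k + 1) := by rw [h.1]; exact Submodule.zero_mem _
  have := HH.mk_eq_zero.1 (vanish_subsingleton x (HH.mk μ hb))
  exact one_ne_zero ((h.2 x).2 1 (by rwa [one_smul]))

theorem main' (hn : 0 < n) : ∃ (Γ : Subgroup (Isom n)) (B : ℝ), 100 ≤ B ∧ Displ Γ B ∧ Cocpt Γ ∧
    (∀ g ∈ Γ, osg g = 1) ∧
    ∀ (X : Type u) [TopologicalSpace X] [PathConnectedSpace X] (z : Ch X (n + 1)), bd z = 0 →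
      ∃ Γ' ≤ Γ, Γ'.relIndex Γ ≠ 0 ∧ ∃ (μ : Ch (Quo Γ') (n + 1)) (f : C(Quo Γ', X)) (q : ℤ),
        IsFund n μ ∧ q ≠ 0 ∧ ∃ w : Ch X (n + 2), push f μ - q • z = bd w := by
  obtain ⟨Γ, W, κ, B, hG, hB, he⟩ := exists_good hn (4 * (n : ℝ) + 100)
  have hF := hG.fam he hB
  set F : Fin n → Set (V n) := fun k => {v : V n | ∃ γ ∈ Γ, γ • ev k = v}
  have hI : ∀ k, Invt Γ (F k) := by
    rintro k γ hγ _ ⟨γ', hγ', rfl⟩
    exact ⟨γ * γ', mul_mem hγ hγ', mul_smul _ _ _⟩
  obtain ⟨Γ₁, l1, i1, ho, P, ε, hP, hε, hsg⟩ := exists_eps hF hI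
  have hI1 : ∀ k, Invt Γ₁ (F k) := fun k γ h => hI k γ (l1 h)
  obtain ⟨Γ₂, l2, i2, ℓ, hℓ, hγ, hfl⟩ := label hn (hG.mono l1 i1) hF hI1 ε hε
  have hG2 := (hG.mono l1 i1).mono l2 i2
  have hfr : Frame F ev := ⟨fun k => ⟨1, one_mem _, one_smul _ _⟩, on_ev.2⟩
  obtain ⟨π₀, hπ₀, -⟩ := hfl _ hfr
  refine ⟨Γ₂, B, hF.le_B, hG2.displ, hG2.cocpt, fun γ h => ho γ (l2 h), fun X _ _ z hz => ?_⟩
  exact urc hn hF (fun k γ h => hI1 k γ (l2 h)) hG2.displ hF.le_B hG2.cocpt
    (fun γ h => ho γ (l2 h)) hℓ hγ P hP (by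
      intro w o π k1 k2 k3
      obtain ⟨p, h1, h2, h3⟩ := hsg w o k1 k3
      obtain ⟨π', h4, h5⟩ := hfl p h1
      have : Flg ℓ p π := fun k => by
        rw [← k2 k]
        rcases h2 k with e | e
        · rw [e]
        · rw [e, hℓ.neg]
      rw [h3, ← h5, flg_unique this h4])
    ⟨fun k => Or.inl (hfr.1 k), hfr.2⟩ hπ₀ z hz

lemma rel_map (Γ : Subgroup (Isom n)) : MulAction.orbitRel Γ (Hyp n) =
    MulAction.orbitRel (Γ.map (MulAction.toPermHom (Isom n) (Hyp n))) (Hyp n) := by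
  ext x y
  simp only [MulAction.orbitRel_apply, MulAction.mem_orbit_iff]
  constructor
  · rintro ⟨g, rfl⟩
    exact ⟨⟨_, g.1, g.2, rfl⟩, rfl⟩
  · rintro ⟨⟨_, g, hg, rfl⟩, rfl⟩
    exact ⟨⟨g, hg⟩, rfl⟩

lemma data_map {Γ : Subgroup (Isom n)} {B : ℝ} (hB : 100 ≤ B) (hD : Displ Γ B) (hC : Cocpt Γ) :
    (∀ g ∈ Γ.map (MulAction.toPermHom (Isom n) (Hyp n)), IsIsom g) ∧
      (∀ g ∈ Γ.map (MulAction.toPermHom (Isom n) (Hyp n)), ∀ x : Hyp n, g x = x → g = 1) ∧
      ProperlyDiscontinuousSMul (Γ.map (MulAction.toPermHom (Isom n) (Hyp n))) (Hyp n) ∧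
      CompactSpace (MulAction.orbitRel.Quotient
        (Γ.map (MulAction.toPermHom (Isom n) (Hyp n))) (Hyp n)) := by
  have key : ∀ s : Setoid (Hyp n), MulAction.orbitRel Γ (Hyp n) = s →
      CompactSpace (Quotient s) := by
    rintro _ rfl
    exact compactSpace_quo hC
  refine ⟨?_, ?_, ⟨fun {K L} hK hL => ?_⟩, key _ (rel_map Γ)⟩
  · rintro _ ⟨g, -, rfl⟩
    refine ⟨LinearMap.toMatrix' g.1.toLinearMap, ?_, fun x y => ?_, fun x => ?_⟩
    · rw [LinearMap.det_toMatrix', ← LinearEquiv.coe_det, g.2.1, Units.val_one]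
    · rw [LinearMap.toMatrix'_mulVec, LinearMap.toMatrix'_mulVec]
      exact g.2.2.1 x y
    · rw [LinearMap.toMatrix'_mulVec]; rfl
  · rintro _ ⟨g, hg, rfl⟩ x hx
    have hx' : g • x = x := hx
    rw [hD g hg x (by rw [hx', dd_self]; linarith), map_one]
  · refine (((properlyDiscontinuous hD hB).finite_disjoint_inter_image hK hL).image
      fun g : Γ => (⟨_, g.1, g.2, rfl⟩ : Γ.map (MulAction.toPermHom (Isom n) (Hyp n)))).subset ?_
    rintro ⟨_, g, hg, rfl⟩ h
    exact ⟨⟨g, hg⟩, h, rfl⟩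

lemma relIndex_map_ne_zero {G H : Type*} [Group G] [Group H] (φ : G →* H) {A B : Subgroup G}
    (h : A.relIndex B ≠ 0) : (A.map φ).relIndex (B.map φ) ≠ 0 := by
  rw [← Subgroup.relIndex_comap]
  exact fun e => h (Subgroup.relIndex_eq_zero_of_le_left (Subgroup.le_comap_map φ A) e)

theorem finite_index (hn : 0 < n) : ∃ Γ : Subgroup (Equiv.Perm (Hyp n)),
    (∀ g ∈ Γ, IsIsom g) ∧ (∀ g ∈ Γ, ∀ x : Hyp n, g x = x → g = 1) ∧
      ProperlyDiscontinuousSMul Γ (Hyp n) ∧
      CompactSpace (MulAction.orbitRel.Quotient Γ (Hyp n)) ∧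
      (∃ ν : Ch (MulAction.orbitRel.Quotient Γ (Hyp n)) (n + 1), IsFundCycle n ν) ∧
      ∀ (X : Type u) [TopologicalSpace X] [PathConnectedSpace X] (z : Ch X (n + 1)),
        boundary z = 0 → ∃ Γ' ≤ Γ, Γ'.relIndex Γ ≠ 0 ∧ ProperlyDiscontinuousSMul Γ' (Hyp n) ∧
          CompactSpace (MulAction.orbitRel.Quotient Γ' (Hyp n)) ∧
          ∃ (μ : Ch (MulAction.orbitRel.Quotient Γ' (Hyp n)) (n + 1))
            (f : ContinuousMap (MulAction.orbitRel.Quotient Γ' (Hyp n)) X) (q : ℤ),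
            IsFundCycle n μ ∧ q ≠ 0 ∧
              ∃ w : Ch X (n + 2), induced f μ - q • z = boundary w := by
  obtain ⟨Γ, B, hB, hD, hC, ho, h⟩ := main'.{u} hn
  obtain ⟨a1, a2, a3, a4⟩ := data_map hB hD hC
  have k1 : ∀ s : Setoid (Hyp n), MulAction.orbitRel Γ (Hyp n) = s →
      ∃ ν : Ch (Quotient s) (n + 1), IsFundCycle n ν := by
    rintro _ rfl
    obtain ⟨c, -, hc, -⟩ := fund_quo hn hD hB hC ho
    exact ⟨c, (isFundCycle_iff c).2 hc⟩
  refine ⟨_, a1, a2, a3, a4, k1 _ (rel_map Γ), fun X _ _ z hz => ?_⟩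
  obtain ⟨Γ', hle, hi, h'⟩ := h X z (by rwa [← boundary_eq])
  obtain ⟨-, -, b3, b4⟩ := data_map (Γ := Γ') hB (fun γ h => hD γ (hle h)) (hC.mono hi)
  have k2 : ∀ s : Setoid (Hyp n), MulAction.orbitRel Γ' (Hyp n) = s →
      ∃ (μ : Ch (Quotient s) (n + 1)) (f : C(Quotient s, X)) (q : ℤ), IsFundCycle n μ ∧ q ≠ 0 ∧
        ∃ w : Ch X (n + 2), induced f μ - q • z = boundary w := by
    rintro _ rfl
    simpa only [isFundCycle_iff, induced_eq, boundary_eq] using h'
  exact ⟨_, Subgroup.map_mono hle, relIndex_map_ne_zero _ hi, b3, b4, k2 _ (rel_map Γ')⟩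

theorem literal_fails (hn : 0 < n) : ∃ (X : Type) (_ : TopologicalSpace X) (z : Ch X (n + 1)),
    Nonempty X ∧ boundary z = 0 ∧ ∀ (N : Type) [TopologicalSpace N] [ConnectedSpace N]
      (μ : Ch N (n + 1)) (f : ContinuousMap N X) (q : ℤ), q ≠ 0 →
        ¬∃ w : Ch X (n + 2), induced f μ - q • z = boundary w := by
  obtain ⟨Γ, B, hB, hD, hC, ho, -⟩ := main'.{0} hn
  obtain ⟨c, -, hc, -⟩ := fund_quo hn hD hB hC ho
  let x : Quo Γ := pr Γ e0
  obtain ⟨y, hy⟩ := exists_ne_of_fund hn hc x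
  let jl : C(Quo Γ, Quo Γ ⊕ Quo Γ) := ⟨Sum.inl, continuous_inl⟩
  let jr : C(Quo Γ, Quo Γ ⊕ Quo Γ) := ⟨Sum.inr, continuous_inr⟩
  refine ⟨Quo Γ ⊕ Quo Γ, inferInstance, push jl c + push jr c, ⟨Sum.inl x⟩, ?_, ?_⟩
  · rw [boundary_eq, map_add, bd_push, bd_push, hc.1, map_zero, map_zero, add_zero]
  rintro N _ _ μ f q hq ⟨w, hw⟩
  rw [induced_eq, boundary_eq] at hw
  have key : ∀ r : C(Quo Γ ⊕ Quo Γ, Quo Γ), (∀ a, r (f a) = y) →
      push r (push jl c + push jr c) - c ∈ ChIn ({x}ᶜ : Set (Quo Γ)) (n + 1) → False := by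
    intro r h1 h2
    have h3 : push r (push f μ) ∈ ChIn ({x}ᶜ : Set (Quo Γ)) (n + 1) := by
      rw [push_push]
      refine push_mem_ChIn (A := univ) _ (fun a _ e => ?_) (mem_ChIn_univ μ)
      exact hy ((h1 a).symm.trans e)
    have h4 := congrArg (push r) hw
    rw [map_sub, map_zsmul, ← bd_push] at h4
    refine hq ((hc.2 x).2 q ?_)
    have h5 : q • c = push r (push f μ) - q • (push r (push jl c + push jr c) - c) -
        bd (push r w) := by
      rw [← h4, smul_sub]; abel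
    rw [h5]
    exact Submodule.sub_mem _ (mem_Bd_of_ChIn (Submodule.sub_mem _ h3
      (Submodule.smul_mem _ _ h2))) (bd_mem_Bd _ _)
  have hcst : push (ContinuousMap.const (Quo Γ) y) c ∈ ChIn ({x}ᶜ : Set (Quo Γ)) (n + 1) :=
    push_mem_ChIn _ (fun _ _ => hy) (mem_ChIn_univ c)
  rcases isClopen_iff.1 (isClopen_range_inl.preimage f.continuous) with h | h
  · refine key ⟨Sum.elim id fun _ => y, continuous_id.sumElim continuous_const⟩ (fun a => ?_) ?_
    · have : a ∉ f ⁻¹' range Sum.inl := by rw [h]; exact notMem_empty a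
      rcases e : f a with b | b
      · exact absurd ⟨b, e.symm⟩ this
      · rfl
    · rw [map_add, push_push, push_push]
      have e : push (ContinuousMap.id (Quo Γ)) c + push (ContinuousMap.const (Quo Γ) y) c - c =
          push (ContinuousMap.const (Quo Γ) y) c := by rw [push_id]; abel
      rw [← e] at hcst
      exact hcst
  · refine key ⟨Sum.elim (fun _ => y) id, continuous_const.sumElim continuous_id⟩ (fun a => ?_) ?_
    · obtain ⟨b, e⟩ : a ∈ f ⁻¹' range Sum.inl := by rw [h]; exact mem_univ a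
      rw [← e]; rfl
    · rw [map_add, push_push, push_push]
      have e : push (ContinuousMap.const (Quo Γ) y) c + push (ContinuousMap.id (Quo Γ)) c - c =
          push (ContinuousMap.const (Quo Γ) y) c := by rw [push_id]; abel
      rw [← e] at hcst
      exact hcst

/-- every map from `M` lifts through every covering map -/
def Lifts (M : Type) [TopologicalSpace M] : Prop :=
  ∀ (A B : Type) [TopologicalSpace A] [TopologicalSpace B] (p : A → B), IsCoveringMap p →
    ∀ (f : ContinuousMap M B) (m : M) (a : A), p a = f m →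
      ∃ F : ContinuousMap M A, F m = a ∧ ∀ x, p (F x) = f x

theorem lifts_of_simplyConnected (M : Type) [TopologicalSpace M] [SimplyConnectedSpace M]
    [LocallyPathConnectedSpace M] : Lifts M := fun _ _ _ _ _ hp f m a h =>
  let ⟨F, ⟨h1, h2⟩, _⟩ := hp.existsUnique_continuousMap_lifts f m a h
  ⟨F, h1, congrFun h2⟩

theorem not_of_lifts (hn : 0 < n) (M : Type) [TopologicalSpace M] [Nonempty M] (hL : Lifts M) :
    ¬IsURCSpace.{u} n M := by
  rw [isURCSpace_iff]
  intro hM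
  obtain ⟨Γ, B, hB, hD, hC, ho, -⟩ := main'.{0} hn
  obtain ⟨c, -, hc, -⟩ := fund_quo hn hD hB hC ho
  have := properlyDiscontinuous hD hB
  have : IsCancelSMul Γ (Hyp n) := isCancelSMul_iff_eq_one_of_smul_eq.2 fun g x h =>
    Subtype.ext (hD g.1 g.2 x (by
      have h' : g.1 • x = x := h
      rw [h', dd_self]; linarith))
  have hcov : IsCoveringMap (pr Γ) := (isQuotientCoveringMap_quotientMk_of_properlyDiscontinuousSMul
    (G := Γ) (E := Hyp n)).isCoveringMap
  have : PathConnectedSpace (Hyp n) :=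
    (chi ev).symm.surjective.pathConnectedSpace (chi ev).symm.continuous
  have : PathConnectedSpace (Quo Γ) := pr_surjective.pathConnectedSpace (pr Γ).continuous
  let up : C(Quo Γ, ULift.{u} (Quo Γ)) := ⟨ULift.up, continuous_uliftUp⟩
  let dn : C(ULift.{u} (Quo Γ), Quo Γ) := ⟨ULift.down, continuous_uliftDown⟩
  have hpc : PathConnectedSpace (ULift.{u} (Quo Γ)) :=
    ULift.up_surjective.pathConnectedSpace continuous_uliftUp
  obtain ⟨N, _, p, h1, h2, -, h4, μ, f, q, h5, hq, w, hw⟩ := hM (ULift.{u} (Quo Γ)) (push up c)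
    (by rw [bd_push, hc.1, map_zero])
  have := h4 hpc
  obtain ⟨a₀⟩ : Nonempty N := inferInstance
  obtain ⟨s, s1, s2⟩ := hL _ _ p h1 (ContinuousMap.id M) (p a₀) a₀ rfl
  have s3 : s ∘ p = id := h1.eq_of_comp_eq (s.continuous.comp h1.continuous) continuous_id
    (funext fun a => s2 (p a)) a₀ s1
  obtain ⟨b₀, hb⟩ := pr_surjective (dn (f (s (p a₀))))
  obtain ⟨F, -, F2⟩ := hL _ _ _ hcov (dn.comp (f.comp s)) (p a₀) b₀ hb
  let y : Quo Γ := pr Γ ((chi ev).symm 0)
  obtain ⟨x, hx⟩ := exists_ne_of_fund hn hc y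
  have hp := h1.continuous
  let H : C(N × unitInterval, Quo Γ) :=
    ⟨fun t => pr Γ ((chi ev).symm ((1 - (t.2 : ℝ)) • chi ev (F (p t.1)))), by fun_prop⟩
  have hb0 : bd μ ∈ ChIn (∅ : Set N) n := by rw [h5.1]; exact Submodule.zero_mem _
  have e := HH.map_homotopy (dn.comp f) (ContinuousMap.const N y) H (fun a => by
      have e1 := F2 (p a)
      have e2 := congrFun s3 a
      simp only [comp_apply, ContinuousMap.comp_apply, id] at e1 e2
      simp [H, e1, e2])
    (fun a => by simp [H, y]) (A := ∅) (B := {x}ᶜ) (fun _ h => h.elim) (mapsTo_empty _ _)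
    (mapsTo_empty _ _) (HH.mk μ hb0)
  rw [HH.map_eq_zero (ContinuousMap.const N y) _ (fun _ => hx.symm), HH.map_mk,
    HH.mk_eq_zero] at e
  have h6 := congrArg (push dn) hw
  have e3 : dn.comp up = ContinuousMap.id _ := rfl
  rw [map_sub, map_zsmul, ← bd_push, push_push, push_push, e3, push_id] at h6
  refine hq ((hc.2 x).2 q ?_)
  have h7 : q • c = push (dn.comp f) μ - bd (push dn w) := by rw [← h6]; abel
  rw [h7]
  exact Submodule.sub_mem _ e (bd_mem_Bd _ _)

theorem not_simplyConnected (hn : 0 < n) (M : Type) [TopologicalSpace M] [SimplyConnectedSpace M]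
    [LocallyPathConnectedSpace M] : ¬IsURCSpace.{u} n M :=
  not_of_lifts hn M (lifts_of_simplyConnected M)

theorem Lifts.homeo {M M' : Type} [TopologicalSpace M] [TopologicalSpace M'] (h : Lifts M)
    (e : M ≃ₜ M') : Lifts M' := fun A B _ _ p hp f m a ha => by
  obtain ⟨F, h1, h2⟩ := h A B p hp (f.comp (e : C(M, M'))) (e.symm m) a (by simpa using ha)
  exact ⟨F.comp (e.symm : C(M', M)), h1, fun x => by simpa using h2 (e.symm x)⟩

theorem lifts_sphere (hn : 2 ≤ n) :
    Lifts (Metric.sphere (0 : EuclideanSpace ℝ (Fin (n + 1))) 1) := by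
  intro A B _ _ p hp f m a ha
  have : Fact (Module.finrank ℝ (EuclideanSpace ℝ (Fin (n + 1))) = n + 1) := ⟨by simp⟩
  have loc : ∀ (v x : Metric.sphere (0 : EuclideanSpace ℝ (Fin (n + 1))) 1) (b : A), x ≠ v →
      p b = f x → ∃ G : Metric.sphere (0 : EuclideanSpace ℝ (Fin (n + 1))) 1 → A,
        ContinuousOn G {v}ᶜ ∧ G x = b ∧ ∀ y, y ≠ v → p (G y) = f y := by
    intro v x b hx hb
    have hc : Continuous (stereographic' n v).symm := by
      rw [← continuousOn_univ, ← stereographic'_target v]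
      exact (stereographic' n v).continuousOn_symm
    have hl : ∀ y, y ≠ v → (stereographic' n v).symm (stereographic' n v y) = y := fun y hy =>
      (stereographic' n v).left_inv (by rw [stereographic'_source]; exact hy)
    obtain ⟨F, h1, h2⟩ := lifts_of_simplyConnected (EuclideanSpace ℝ (Fin n)) A B p hp
      (f.comp ⟨_, hc⟩) (stereographic' n v x) b (hb.trans (congrArg f (hl x hx).symm))
    refine ⟨fun y => F (stereographic' n v y), F.continuous.comp_continuousOn ?_, h1,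
      fun y hy => (h2 _).trans (congrArg f (hl y hy))⟩
    rw [← stereographic'_source (n := n) v]
    exact (stereographic' n v).continuousOn
  have hm : m ≠ -m := ne_neg_of_mem_unit_sphere ℝ m
  have hcon : IsConnected ({-m}ᶜ ∩ {m}ᶜ :
      Set (Metric.sphere (0 : EuclideanSpace ℝ (Fin (n + 1))) 1)) := by
    have h1 : IsConnected ({stereographic' n (-m) m}ᶜ : Set (EuclideanSpace ℝ (Fin n))) :=
      isConnected_compl_singleton_of_one_lt_rank (by
        rw [← Module.finrank_eq_rank, finrank_euclideanSpace_fin]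
        exact_mod_cast hn) _
    have h2 := h1.image (stereographic' n (-m)).symm
      ((stereographic' n (-m)).continuousOn_symm.mono (by simp))
    have hs : ∀ y, y ≠ -m → y ∈ (stereographic' n (-m)).source := fun y hy => by
      rw [stereographic'_source]; exact hy
    have e : (stereographic' n (-m)).symm '' {stereographic' n (-m) m}ᶜ = {-m}ᶜ ∩ {m}ᶜ := by
      ext y
      constructor
      · rintro ⟨z, hz, rfl⟩
        have hz' : z ∈ (stereographic' n (-m)).target := by simp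
        refine ⟨?_, fun h => hz ?_⟩
        · have := (stereographic' n (-m)).map_target hz'
          rwa [stereographic'_source] at this
        · have h' : (stereographic' n (-m)).symm z = m := h
          rw [mem_singleton_iff, ← (stereographic' n (-m)).right_inv hz', h']
      · rintro ⟨k1, k2⟩
        exact ⟨_, fun h => k2 ((stereographic' n (-m)).injOn (hs y k1) (hs m hm) h),
          (stereographic' n (-m)).left_inv (hs y k1)⟩
    rwa [e] at h2
  obtain ⟨G1, c1, e1, l1⟩ := loc (-m) m a hm ha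
  obtain ⟨x, x1, x2⟩ := hcon.nonempty
  obtain ⟨G2, c2, e2, l2⟩ := loc m x (G1 x) x2 (l1 x x1)
  have hE := hp.eqOn_of_comp_eqOn hcon.isPreconnected (c1.mono inter_subset_left)
    (c2.mono inter_subset_right) (fun y hy => (l1 y hy.1).trans (l2 y hy.2).symm) ⟨x1, x2⟩ e2.symm
  classical
  refine ⟨⟨fun y => if y = m then a else G2 y, continuous_iff_continuousAt.2 fun y => ?_⟩,
    by simp, fun y => ?_⟩
  · by_cases hy : y = m
    · subst hy
      refine (c1.continuousAt (isOpen_compl_singleton.mem_nhds hm)).congr ?_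
      filter_upwards [isOpen_compl_singleton.mem_nhds hm] with z hz
      split_ifs with h
      · rw [h, e1]
      · exact hE ⟨hz, h⟩
    · refine (c2.continuousAt (isOpen_compl_singleton.mem_nhds hy)).congr ?_
      filter_upwards [isOpen_compl_singleton.mem_nhds hy] with z hz
      exact (if_neg hz).symm
  · by_cases hy : y = m
    · simp [hy, ha]
    · simp [hy, l2 y hy]

theorem not_sphere (hn : 2 ≤ n) : ¬IsURCSpace.{u} n {x : V n // ∑ i, x i * x i = 1} := by
  have e : Metric.sphere (0 : EuclideanSpace ℝ (Fin (n + 1))) 1 ≃ₜ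
      {x : V n // ∑ i, x i * x i = 1} :=
    (EuclideanSpace.equiv (Fin (n + 1)) ℝ).toHomeomorph.subtype fun x => by
      rw [mem_sphere_zero_iff_norm, EuclideanSpace.norm_eq, Real.sqrt_eq_one]
      simp [sq]
  have : Nonempty {x : V n // ∑ i, x i * x i = 1} :=
    ⟨⟨Pi.single 0 1, by simp [Pi.single_apply]⟩⟩
  exact not_of_lifts (by omega) _ ((lifts_sphere hn).homeo e)

theorem cosets {G : Type*} [Group G] {A B : Subgroup G} (h : A.relIndex B ≠ 0) :
    ∃ T : Finset G, ∀ g ∈ B, ∃ t ∈ T, t⁻¹ * g ∈ A := by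
  classical
  have : (A.subgroupOf B).FiniteIndex := ⟨h⟩
  have := Fintype.ofFinite (B ⧸ A.subgroupOf B)
  refine ⟨Finset.univ.image fun q : B ⧸ A.subgroupOf B => (q.out : B).1, fun g hg => ?_⟩
  refine ⟨_, Finset.mem_image_of_mem _ (Finset.mem_univ (QuotientGroup.mk ⟨g, hg⟩)), ?_⟩
  exact (QuotientGroup.eq (s := A.subgroupOf B)).1
    (QuotientGroup.out_eq' (QuotientGroup.mk (⟨g, hg⟩ : B) : B ⧸ A.subgroupOf B))

end Pool.Agent.URC.Ctl
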