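import Pool.Agent.P.MP_797ab1_gt.CtlA

/-! Controls for the statement, part C: the metric of the hyperboloid has curvature `-1`. -/

open Set Function Topology Filter

namespace Pool.Agent.URC.Ctl

variable {n : ℕ}

lemma sec_sq (z : E n) :
    ((chi ev).symm z).1 0 * ((chi ev).symm z).1 0 = 1 + ∑ i, z i * z i := by
  have := ((chi ev).symm z).2.1
  simp only [lor, chi_symm_succ] at this
  linarith

lemma exists_dot (v y : E n) : ∃ L : E n →L[ℝ] ℝ,
    HasFDerivAt (fun y : E n => ∑ i, y i * v i) L y ∧ ∀ u, L u = ∑ i, u i * v i := by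
  refine ⟨_, HasFDerivAt.fun_sum (u := Finset.univ) fun i _ =>
    (hasFDerivAt_apply (𝕜 := ℝ) i y).mul_const (v i), fun u => ?_⟩
  simp [mul_comm]

lemma exists_nrm (y : E n) : ∃ L : E n →L[ℝ] ℝ,
    HasFDerivAt (fun y : E n => 1 + ∑ i, y i * y i) L y ∧ ∀ u, L u = 2 * ∑ i, y i * u i := by
  refine ⟨_, (HasFDerivAt.fun_sum (u := Finset.univ) fun i _ =>
    (hasFDerivAt_apply (𝕜 := ℝ) i y).mul (hasFDerivAt_apply (𝕜 := ℝ) i y)).const_add 1,
    fun u => ?_⟩
  simp [two_mul, Finset.sum_add_distrib]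

lemma nrm_pos (y : E n) : 0 < 1 + ∑ i, y i * y i := by
  have : 0 ≤ ∑ i, y i * y i := Finset.sum_nonneg fun _ _ => mul_self_nonneg _
  linarith

lemma met_eq (y u v : E n) :
    lor (fderiv ℝ (fun y : E n => ((chi ev).symm y).1) y u)
      (fderiv ℝ (fun y : E n => ((chi ev).symm y).1) y v) =
    ∑ i, u i * v i - (∑ i, y i * u i) * (∑ i, y i * v i) * (1 + ∑ i, y i * y i)⁻¹ := by
  have hs := ((contDiff_sec (n := n)).differentiable (by simp) y).hasFDerivAt
  set D := fderiv ℝ (fun y : E n => ((chi ev).symm y).1) y with hD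
  have hj := fun j => hasFDerivAt_pi'.1 hs j
  have h1 : ∀ (u : E n) (i : Fin n), D u i.succ = u i := fun u i => by
    have a := hj i.succ
    simp only [chi_symm_succ] at a
    have b := a.unique (hasFDerivAt_apply (𝕜 := ℝ) i y)
    exact congrArg (fun T : E n →L[ℝ] ℝ => T u) b
  have h2 : ∀ u : E n, ((chi ev).symm y).1 0 * D u 0 = ∑ i, y i * u i := fun u => by
    have a := (hj 0).mul (hj 0)
    obtain ⟨L, b, hL⟩ := exists_nrm y
    have e : ((fun z : E n => ((chi ev).symm z).1 0) * fun z : E n => ((chi ev).symm z).1 0) =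
        fun z : E n => 1 + ∑ i, z i * z i := funext sec_sq
    rw [e] at a
    have c := congrArg (fun T : E n →L[ℝ] ℝ => T u) (a.unique b)
    simp only [_root_.add_apply, _root_.smul_apply, ContinuousLinearMap.comp_apply,
      ContinuousLinearMap.proj_apply, smul_eq_mul, hL] at c
    linarith
  have h3 := (nrm_pos y).ne'
  simp only [lor, h1]
  rw [← h2, ← h2]
  rw [← sec_sq] at h3 ⊢
  have h4 := left_ne_zero_of_mul h3
  field_simp

theorem curvature' (s : (Fin n → ℝ) → Hyp n) (hs : ∀ y i, (s y).1 (Fin.succ i) = y i)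
    (G : (Fin n → ℝ) → (Fin n → ℝ) → (Fin n → ℝ) → ℝ)
    (hG : ∀ y u v,
      G y u v = lor (fderiv ℝ (fun y => (s y).1) y u) (fderiv ℝ (fun y => (s y).1) y v)) :
    ∃ C : (Fin n → ℝ) → (Fin n → ℝ) →ₗ[ℝ] (Fin n → ℝ) →ₗ[ℝ] (Fin n → ℝ),
      (∀ y u v, C y u v = -G y u v • y) ∧ (∀ y u v, C y u v = C y v u) ∧
      (∀ u v, Differentiable ℝ (fun y => G y u v) ∧ Differentiable ℝ (fun y => C y u v)) ∧
      (∀ y u v w, fderiv ℝ (fun y => G y v w) y u = G y (C y u v) w + G y v (C y u w)) ∧
      ∀ y u v w, fderiv ℝ (fun y => C y v w) y u - fderiv ℝ (fun y => C y u w) y v +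
        C y u (C y v w) - C y v (C y u w) = -(G y v w • u - G y u w • v) := by
  have e : s = (chi ev).symm := funext fun y => by
    rw [Homeomorph.eq_symm_apply]
    exact funext fun i => (chi_ev _ i).trans (hs y i)
  subst e
  simp only [met_eq] at hG
  have sym : ∀ y u v, G y u v = G y v u := fun y u v => by
    rw [hG, hG, mul_comm (∑ i, y i * u i)]
    simp only [mul_comm (u _)]
  have add : ∀ y u u' v, G y (u + u') v = G y u v + G y u' v := fun y u u' v => by
    simp only [hG, Pi.add_apply, add_mul, mul_add, Finset.sum_add_distrib]; ring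
  have smul : ∀ y (c : ℝ) u v, G y (c • u) v = c * G y u v := fun y c u v => by
    have a1 : ∑ i, c * u i * v i = c * ∑ i, u i * v i := by
      simp only [Finset.mul_sum, mul_assoc]
    have a2 : ∑ i, y i * (c * u i) = c * ∑ i, y i * u i := by
      simp only [Finset.mul_sum, mul_left_comm]
    simp only [hG, Pi.smul_apply, smul_eq_mul, a1, a2]; ring
  have der : ∀ y v w, ∃ L : E n →L[ℝ] ℝ, HasFDerivAt (fun y => G y v w) L y ∧
      ∀ u, L u = -G y u v * G y y w + -G y u w * G y y v := fun y v w => by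
    obtain ⟨La, a1, a2⟩ := exists_dot v y
    obtain ⟨Lb, b1, b2⟩ := exists_dot w y
    obtain ⟨Lr, r1, r2⟩ := exists_nrm y
    have h0 := (nrm_pos y).ne'
    have r3 := (hasDerivAt_inv h0).comp_hasFDerivAt y r1
    have h := ((a1.mul b1).mul r3).const_sub (∑ i, v i * w i)
    refine ⟨_, h.congr_of_eventuallyEq (.of_forall fun z => hG z v w), fun u => ?_⟩
    simp only [_root_.add_apply, _root_.smul_apply, _root_.neg_apply, smul_eq_mul, a2, b2, r2,
      hG, comp_apply, Pi.mul_apply]
    field_simp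
    ring
  let C : E n → E n →ₗ[ℝ] E n →ₗ[ℝ] E n := fun y => LinearMap.mk₂ ℝ (fun u v => -G y u v • y)
    (fun u u' v => by rw [add, neg_add, add_smul])
    (fun c u v => by rw [smul, smul_smul, mul_neg])
    (fun u v v' => by rw [sym, add, neg_add, add_smul, sym y v, sym y v'])
    (fun c u v => by rw [sym, smul, smul_smul, mul_neg, sym])
  have hC : ∀ y u v, C y u v = -G y u v • y := fun _ _ _ => rfl
  have derC : ∀ y v w, ∃ L : E n →L[ℝ] E n, HasFDerivAt (fun y => C y v w) L y ∧
      ∀ u, L u = -G y v w • u - (-G y u v * G y y w + -G y u w * G y y v) • y := fun y v w => by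
    obtain ⟨L, h1, h2⟩ := der y v w
    refine ⟨_, h1.neg.smul (hasFDerivAt_id y), fun u => ?_⟩
    simp [h2, sub_eq_add_neg]
    module
  refine ⟨C, hC, fun y u v => by rw [hC, hC, sym], fun u v => ⟨fun y => ?_, fun y => ?_⟩,
    fun y u v w => ?_, fun y u v w => ?_⟩
  · exact (der y u v).choose_spec.1.differentiableAt
  · exact (derC y u v).choose_spec.1.differentiableAt
  · obtain ⟨L, h1, h2⟩ := der y v w
    rw [h1.fderiv, h2, hC, hC, smul, sym y v (_ • _), smul]
  · obtain ⟨L, h1, h2⟩ := derC y v w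
    obtain ⟨L', k1, k2⟩ := derC y u w
    rw [h1.fderiv, k1.fderiv, h2, k2, hC y u, hC y v (C y u w), hC, hC, sym y u (_ • _),
      sym y v (_ • _), smul, smul, sym y v u]
    module

end Pool.Agent.URC.Ctl
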