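import Pool.Agent.P.MP_797ab1_gt.CtlB
import Pool.Agent.P.MP_797ab1_gt.CtlC

/-! Controls for the statement, part D: the same facts in elementary words. -/

open Set Function Topology Filter

namespace Pool.Agent.URC.Ctl

universe u

variable {n : ℕ}

theorem quotient_plain (Γ : Subgroup (Equiv.Perm (Hyp n))) (h1 : ∀ g ∈ Γ, IsIsom g)
    (h2 : ∀ g ∈ Γ, ∀ x : Hyp n, g x = x → g = 1) (h3 : ProperlyDiscontinuousSMul Γ (Hyp n)) :
    (∀ a b : MulAction.orbitRel.Quotient Γ (Hyp n), a ≠ b → ∃ U ∈ 𝓝 a, ∃ W ∈ 𝓝 b, U ∩ W = ∅) ∧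
      PathConnectedSpace (MulAction.orbitRel.Quotient Γ (Hyp n)) ∧
      IsCoveringMap (Quotient.mk (MulAction.orbitRel Γ (Hyp n))) ∧
      ∀ (σ τ : MulAction.orbitRel.Quotient Γ (Hyp n) → Hyp n)
        (a : MulAction.orbitRel.Quotient Γ (Hyp n)),
        (∀ U ∈ 𝓝 (σ a), σ ⁻¹' U ∈ 𝓝 a) → (∀ U ∈ 𝓝 (τ a), τ ⁻¹' U ∈ 𝓝 a) →
        (∀ᶠ b in 𝓝 a, Quotient.mk (MulAction.orbitRel Γ (Hyp n)) (σ b) = b ∧
          Quotient.mk (MulAction.orbitRel Γ (Hyp n)) (τ b) = b) →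
        ∃ g ∈ Γ, ∀ᶠ b in 𝓝 a, τ b = g (σ b) := by
  obtain ⟨a1, -, a3, a4, -⟩ := closed_manifold Γ h1 h2 h3
  refine ⟨fun a b hab => ?_, a3, a4, fun σ τ a k1 k2 k3 => ?_⟩
  · obtain ⟨U, W, b1, b2, b3, b4, b5⟩ := t2_separation hab
    exact ⟨U, b1.mem_nhds b3, W, b2.mem_nhds b4, disjoint_iff_inter_eq_empty.1 b5⟩
  obtain ⟨e1, e2⟩ := k3.self_of_nhds
  obtain ⟨g, hg⟩ : ∃ g : Γ, g • σ a = τ a :=
    MulAction.orbitRel_apply.1 (Quotient.exact (e2.trans e1.symm))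
  have hg' : g.1 (σ a) = τ a := hg
  obtain ⟨U, hU, hx, hi⟩ := a4.isLocalHomeomorph.isLocallyInjective (τ a)
  have c1 : ContinuousAt (fun b => g.1 (σ b)) a :=
    (continuous_of_isIsom (h1 g.1 g.2)).continuousAt.comp (f := σ) k1
  refine ⟨g.1, g.2, ?_⟩
  filter_upwards [k3, k2 U (hU.mem_nhds hx), c1 (hU.mem_nhds (hg' ▸ hx : g.1 (σ a) ∈ U))] with b b1 b2 b3
  refine hi b2 b3 (b1.2.trans (b1.1.symm.trans ?_))
  exact (Quotient.sound (MulAction.orbitRel_apply.2 ⟨g, rfl⟩)).symm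

lemma dir_of_hasFDerivAt {f : E n → ℝ} {L : E n →L[ℝ] ℝ} {y : E n} (h : HasFDerivAt f L y)
    (u : E n) (ε : ℝ) (hε : 0 < ε) :
    ∀ᶠ t : ℝ in 𝓝 0, |f (y + t • u) - f y - t * L u| ≤ ε * |t| := by
  have h1 : HasDerivAt (fun t : ℝ => f (y + t • u)) (L u) 0 := h.hasLineDerivAt u
  simpa using Asymptotics.isLittleO_iff.1 (hasDerivAt_iff_isLittleO_nhds_zero.1 h1) hε

theorem metric_plain (D : ((Fin n → ℝ) → ℝ) → (Fin n → ℝ) → (Fin n → ℝ) → ℝ → Prop)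
    (hD : ∀ f y u a, D f y u a ↔
      ∀ ε : ℝ, 0 < ε → ∀ᶠ t : ℝ in 𝓝 0, |f (y + t • u) - f y - t * a| ≤ ε * |t|) :
    ∃ (s : (Fin n → ℝ) → Hyp n) (T : (Fin n → ℝ) → (Fin n → ℝ) → V n)
      (G : (Fin n → ℝ) → (Fin n → ℝ) → (Fin n → ℝ) → ℝ)
      (C : (Fin n → ℝ) → (Fin n → ℝ) → (Fin n → ℝ) → Fin n → ℝ)
      (A : (Fin n → ℝ) → (Fin n → ℝ) → (Fin n → ℝ) → (Fin n → ℝ) → Fin n → ℝ),
      Continuous s ∧ Function.Surjective s ∧ (∀ y i, (s y).1 (Fin.succ i) = y i) ∧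
      (∀ y, (s y).1 0 = √(1 + ∑ i, y i * y i)) ∧
      (∀ y u j, D (fun y => (s y).1 j) y u (T y u j)) ∧
      (∀ y u v, G y u v = lor (T y u) (T y v)) ∧
      (∀ y u v, G y u v =
        ∑ i, u i * v i - (∑ i, y i * u i) * (∑ i, y i * v i) / (1 + ∑ i, y i * y i)) ∧
      (∀ y u, u ≠ 0 → 0 < G y u u) ∧
      (∀ g, IsIsom g → ∀ y u v, ∃ u' v' : Fin n → ℝ,
        (∀ i, D (fun y => (g (s y)).1 (Fin.succ i)) y u (u' i)) ∧
        (∀ i, D (fun y => (g (s y)).1 (Fin.succ i)) y v (v' i)) ∧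
        G (fun i => (g (s y)).1 (Fin.succ i)) u' v' = G y u v) ∧
      (∀ y u v, C y u v = -G y u v • y) ∧ (∀ y u v, C y u v = C y v u) ∧
      (∀ y u v w, D (fun y => G y v w) y u (G y (C y u v) w + G y v (C y u w))) ∧
      (∀ y u v w i, D (fun y => C y v w i) y u (A y u v w i)) ∧
      ∀ y u v w, A y u v w - A y v u w + C y u (C y v w) - C y v (C y u w) =
        -(G y v w • u - G y u w • v) := by
  obtain ⟨C, c0, c1, c2, c3, c4⟩ := curvature' (chi ev).symm chi_symm_succ _ fun _ _ _ => rfl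
  have hs := fun z : E n => ((contDiff_sec (n := n)).differentiable (by simp) z).hasFDerivAt
  refine ⟨(chi ev).symm, fun y u => fderiv ℝ (fun y : E n => ((chi ev).symm y).1) y u, _,
    fun y u v => C y u v, fun y u v w => fderiv ℝ (fun y => C y v w) y u,
    (chi ev).symm.continuous, (chi ev).symm.surjective, chi_symm_succ,
    fun y => by simp only [chi_symm_zero, sq], fun y u j => ?_,
    fun _ _ _ => rfl, fun y u v => ?_, lor_sec_pos, fun g hg y u v => ?_, c0, c1,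
    fun y u v w => ?_, fun y u v w i => ?_, c4⟩
  · exact (hD _ _ _ _).2 (dir_of_hasFDerivAt (hasFDerivAt_pi'.1 (hs y) j) u)
  · rw [met_eq, div_eq_mul_inv]
  · have hG := ((contDiff_crd hg).differentiable (by simp) y).hasFDerivAt
    have e : ∀ z : E n, (fun i => (g ((chi ev).symm z)).1 (Fin.succ i)) =
        chi ev (g ((chi ev).symm z)) := fun z => funext fun i => (chi_ev _ i).symm
    have key : ∀ (u : E n) (i : Fin n), D (fun y => (g ((chi ev).symm y)).1 (Fin.succ i)) y u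
        (fderiv ℝ (fun y : E n => chi ev (g ((chi ev).symm y))) y u i) := fun u i => by
      have := dir_of_hasFDerivAt (hasFDerivAt_pi'.1 hG i) u
      simp only [chi_ev] at this
      exact (hD _ _ _ _).2 this
    refine ⟨_, _, key u, key v, ?_⟩
    rw [e]
    exact lor_crd hg y u v
  · rw [← c3]
    exact (hD _ _ _ _).2 (dir_of_hasFDerivAt ((c2 v w).1 y).hasFDerivAt u)
  · exact (hD _ _ _ _).2 (dir_of_hasFDerivAt (hasFDerivAt_pi'.1 ((c2 v w).2 y).hasFDerivAt i) u)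

theorem finite_index_plain (hn : 0 < n) : ∃ Γ : Subgroup (Equiv.Perm (Hyp n)),
    (∀ g ∈ Γ, IsIsom g) ∧ (∀ g ∈ Γ, ∀ x : Hyp n, g x = x → g = 1) ∧
      ProperlyDiscontinuousSMul Γ (Hyp n) ∧
      CompactSpace (MulAction.orbitRel.Quotient Γ (Hyp n)) ∧
      (∃ ν : Ch (MulAction.orbitRel.Quotient Γ (Hyp n)) (n + 1), IsFundCycle n ν) ∧
      ∀ (X : Type u) [TopologicalSpace X] [PathConnectedSpace X] (z : Ch X (n + 1)),
        boundary z = 0 → ∃ Γ' ≤ Γ,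
          (∃ T : Finset (Equiv.Perm (Hyp n)), ∀ g ∈ Γ, ∃ t ∈ T, t⁻¹ * g ∈ Γ') ∧
          ProperlyDiscontinuousSMul Γ' (Hyp n) ∧
          CompactSpace (MulAction.orbitRel.Quotient Γ' (Hyp n)) ∧
          ∃ (μ : Ch (MulAction.orbitRel.Quotient Γ' (Hyp n)) (n + 1))
            (f : ContinuousMap (MulAction.orbitRel.Quotient Γ' (Hyp n)) X) (q : ℤ),
            IsFundCycle n μ ∧ q ≠ 0 ∧
              ∃ w : Ch X (n + 2), induced f μ - q • z = boundary w := by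
  obtain ⟨Γ, a1, a2, a3, a4, a5, h⟩ := finite_index.{u} hn
  refine ⟨Γ, a1, a2, a3, a4, a5, fun X _ _ z hz => ?_⟩
  obtain ⟨Γ', b1, b2, b3⟩ := h X z hz
  exact ⟨Γ', b1, cosets b2, b3⟩

end Pool.Agent.URC.Ctl
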