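import Pool.Agent.P.MP_797ab1_gt.CtlD

/-! Controls for the statement, part E: the sphere has a fundamental cycle. -/

open Set Function Topology Filter

namespace Pool.Agent.URC.Ctl

variable {n k : ℕ}

lemma acyc_E (c : Ch (E n) (k + 2)) (hc : bd c = 0) : ∃ d : Ch (E n) (k + 3), bd d = c := by
  have hb : bd c ∈ ChIn (∅ : Set (E n)) (k + 1) := mem_ChIn_empty.2 hc
  let H : C(E n × unitInterval, E n) := ⟨fun t => (1 - (t.2 : ℝ)) • t.1, by fun_prop⟩
  let a : C(E n, Unit) := ContinuousMap.const _ ()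
  let b : C(Unit, E n) := ContinuousMap.const _ 0
  have e := HH.map_homotopy (ContinuousMap.id (E n)) (b.comp a) H (fun x => by simp [H])
    (fun x => by simp [H, b]) (A := ∅) (B := ∅) (fun _ h => h.elim) (mapsTo_empty _ _)
    (mapsTo_empty _ _) (HH.mk c hb)
  have h1 : MapsTo b ({()}ᶜ : Set Unit) ∅ := fun _ h => h rfl
  rw [← HH.map_map b a h1 (mapsTo_empty _ _), vanish_subsingleton () (HH.map a _ _), map_zero,
    HH.map_id', HH.mk_eq_zero] at e
  obtain ⟨d, hd⟩ := mem_Bd.1 e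
  exact ⟨d, (sub_eq_zero.1 (mem_ChIn_empty.1 hd)).symm⟩

lemma acyc_range {S : Type*} [TopologicalSpace S] (j : C(E n, S)) (hj : IsOpenEmbedding j) :
    Acyc (range j) (k + 1) := by
  intro c hc h0
  obtain ⟨c', rfl⟩ := exists_push j hj.isInducing hc
  have h1 : bd c' = 0 := by
    have : push j (bd c') ∈ ChIn (∅ : Set S) (k + 1) := by
      rw [← bd_push, h0]; exact Submodule.zero_mem _
    exact mem_ChIn_empty.1 (mem_ChIn_of_push j hj.injective this)
  obtain ⟨d, rfl⟩ := acyc_E c' h1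
  exact ⟨push j d, push_mem_ChIn (A := univ) j (fun x _ => mem_range_self x) (mem_ChIn_univ d),
    bd_push _ _⟩

lemma res_bij_of_acyc {S : Type*} [TopologicalSpace S] {A : Set S} (h1 : Acyc A (k + 1))
    (h2 : Acyc A (k + 2)) :
    Bijective (HH.res (empty_subset A) : HH (∅ : Set S) (k + 2) → HH A (k + 2)) := by
  constructor
  · rw [injective_iff_map_eq_zero]
    intro α h
    obtain ⟨c, hc, rfl⟩ := HH.exists_mk α
    rw [HH.res_mk, HH.mk_eq_zero] at h
    obtain ⟨d, hd⟩ := mem_Bd.1 h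
    obtain ⟨e, -, he⟩ := h2 _ hd (by rw [map_sub, bd_bd, mem_ChIn_empty.1 hc, sub_zero])
    refine HH.mk_eq_zero.2 (mem_Bd.2 ⟨d + e, ?_⟩)
    rw [map_add, he]
    simp
  · intro α
    obtain ⟨c, hc, rfl⟩ := HH.exists_mk α
    obtain ⟨d, hd, e⟩ := h1 _ hc (bd_bd c)
    refine ⟨HH.mk (c - d) (mem_ChIn_empty.2 (by rw [map_sub, e, sub_self])), ?_⟩
    rw [HH.res_mk, HH.mk_eq_mk]
    exact mem_Bd_of_ChIn (by simpa using hd)

lemma fund_of_charts (hn : 2 ≤ n) {S : Type*} [TopologicalSpace S] [T2Space S] [Nonempty S]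
    (h : ∀ x : S, ∃ j : C(E n, S), IsOpenEmbedding j ∧ range j = {x}ᶜ) :
    ∃ μ : Ch S (n + 1), IsFund n μ := by
  obtain ⟨k, rfl⟩ : ∃ k, n = k + 2 := ⟨n - 2, by omega⟩
  have hb : ∀ x : S, Bijective
      (HH.res (empty_subset _) : HH (∅ : Set S) (k + 2) → HH ({x}ᶜ : Set S) (k + 2)) := fun x => by
    obtain ⟨j, h1, h2⟩ := h x
    exact res_bij_of_acyc (h2 ▸ acyc_range j h1) (h2 ▸ acyc_range j h1)
  obtain ⟨x₀⟩ : Nonempty S := inferInstance
  obtain ⟨j, h1, -⟩ := h x₀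
  have g1 := (gen_oc_pt 0).map _ (bij_pt j h1 rfl (mapsTo_pt h1.injective 0))
  obtain ⟨α, hα⟩ := (hb (j 0)).2 (HH.map j (mapsTo_pt h1.injective 0) (oc {0}))
  rw [← hα] at g1
  have g2 := Gen.of_map _ (hb _) g1
  obtain ⟨c, hc, rfl⟩ := HH.exists_mk α
  refine ⟨c, mem_ChIn_empty.1 hc, fun x => ?_⟩
  have hg := g2.map _ (hb x)
  rw [HH.res_mk] at hg
  refine ⟨fun c' hc' => ?_, fun m h => hg.1 ?_⟩
  · obtain ⟨m, h⟩ := hg.2 (HH.mk c' hc')
    exact ⟨m, HH.mk_eq_mk.1 (h.symm.trans (HH.mk_zsmul _ _))⟩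
  · simp only [zero_smul]
    exact (HH.mk_zsmul _ _).trans (HH.mk_eq_zero.2 h)

theorem sphere_fund (hn : 2 ≤ n) :
    ∃ μ : Ch {x : V n // ∑ i, x i * x i = 1} (n + 1), IsFundCycle n μ := by
  have e : Metric.sphere (0 : EuclideanSpace ℝ (Fin (n + 1))) 1 ≃ₜ
      {x : V n // ∑ i, x i * x i = 1} :=
    (EuclideanSpace.equiv (Fin (n + 1)) ℝ).toHomeomorph.subtype fun x => by
      rw [mem_sphere_zero_iff_norm, EuclideanSpace.norm_eq, Real.sqrt_eq_one]
      simp [sq]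
  have : Nonempty {x : V n // ∑ i, x i * x i = 1} :=
    ⟨⟨Pi.single 0 1, by simp [Pi.single_apply]⟩⟩
  have : Fact (Module.finrank ℝ (EuclideanSpace ℝ (Fin (n + 1))) = n + 1) := ⟨by simp⟩
  simp only [isFundCycle_iff]
  refine fund_of_charts hn fun x => ?_
  have h1 := (stereographic' n (e.symm x)).symm.isOpenEmbedding (by simp)
  have h2 := e.isOpenEmbedding.comp
    (h1.comp (EuclideanSpace.equiv (Fin n) ℝ).symm.toHomeomorph.isOpenEmbedding)
  refine ⟨⟨_, h2.continuous⟩, h2, ?_⟩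
  have h3 : range (stereographic' n (e.symm x)).symm = {e.symm x}ᶜ := by
    rw [← image_univ, ← stereographic'_target (n := n) (e.symm x),
      (stereographic' n (e.symm x)).symm_image_target_eq_source, stereographic'_source]
  change range (e ∘ (stereographic' n (e.symm x)).symm ∘
    (EuclideanSpace.equiv (Fin n) ℝ).symm.toHomeomorph) = _
  rw [range_comp, (Homeomorph.surjective _).range_comp, h3, e.image_compl, image_singleton,
    Homeomorph.apply_symm_apply]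

end Pool.Agent.URC.Ctl
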