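import Pool.Agent.P.MP_797ab1_gt.Stmt

/-! Linear versions of the chain operators and the isometry group, for the proofs. -/

open Set

namespace Pool.Agent.URC

noncomputable section

variable {X Y : Type*} [TopologicalSpace X] [TopologicalSpace Y]

/-- The singular boundary: the alternating sum of the faces. -/
def bd {k : ℕ} : Ch X (k + 1) →ₗ[ℤ] Ch X k :=
  ∑ i : Fin (k + 1), (-1 : ℤ) ^ (i : ℕ) • Finsupp.lmapDomain ℤ ℤ fun σ => σ.comp (face i)

/-- The chain map induced by a continuous map. -/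
def push {k : ℕ} (f : C(X, Y)) : Ch X k →ₗ[ℤ] Ch Y k :=
  Finsupp.lmapDomain ℤ ℤ fun σ => f.comp σ

/-- Chains all of whose simplices lie in `A`. -/
def ChIn (A : Set X) (k : ℕ) : Submodule ℤ (Ch X k) :=
  Finsupp.supported ℤ ℤ {σ | range σ ⊆ A}

/-- Relative boundaries of the pair `(X, A)`: boundaries plus chains in `A`. -/
def Bd (A : Set X) (k : ℕ) : Submodule ℤ (Ch X k) :=
  LinearMap.range (bd : Ch X (k + 1) →ₗ[ℤ] Ch X k) ⊔ ChIn A k

/-- `μ` is a fundamental cycle in dimension `n`: a cycle whose class in the local homology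
`H_n(M, M - {x})` generates that group and has infinite order, for every point `x`. -/
def IsFund {M : Type*} [TopologicalSpace M] (n : ℕ) (μ : Ch M (n + 1)) : Prop :=
  bd μ = 0 ∧ ∀ x : M,
    (∀ c : Ch M (n + 1), bd c ∈ ChIn {x}ᶜ n → ∃ m : ℤ, c - m • μ ∈ Bd {x}ᶜ (n + 1)) ∧
    (∀ m : ℤ, m • μ ∈ Bd {x}ᶜ (n + 1) → m = 0)

/-- Universal realisation of cycles in dimension `n`: for every singular `n`-cycle `z` of every
nonempty space `X` there are a finite-sheeted covering `N` of `M`, connected if `X` is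
path-connected, a fundamental cycle `μ` of `N`, a map `f : N → X` and an integer `q ≠ 0` with
`f_* μ` homologous to `q z`. -/
def IsURC.{u} (n : ℕ) (M : Type) [TopologicalSpace M] : Prop :=
  ∀ (X : Type u) [TopologicalSpace X] [Nonempty X] (z : Ch X (n + 1)), bd z = 0 →
    ∃ (N : Type) (_ : TopologicalSpace N) (p : N → M), IsCoveringMap p ∧ Function.Surjective p ∧
      (∀ y, (p ⁻¹' {y}).Finite) ∧ (PathConnectedSpace X → ConnectedSpace N) ∧
      ∃ (μ : Ch N (n + 1)) (f : C(N, X)) (q : ℤ), IsFund n μ ∧ q ≠ 0 ∧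
        ∃ w : Ch X (n + 2), push f μ - q • z = bd w

/-- The group `SO⁺(n, 1)` of orientation-preserving isometries of hyperbolic `n`-space. -/
def Isom (n : ℕ) : Subgroup (V n ≃ₗ[ℝ] V n) where
  carrier := {g | LinearEquiv.det g = 1 ∧ (∀ x y, lor (g x) (g y) = lor x y) ∧
    ∀ x, IsH (g x) ↔ IsH x}
  mul_mem' := by
    rintro a b ⟨h1, h2, h3⟩ ⟨k1, k2, k3⟩
    refine ⟨by rw [map_mul, h1, k1, one_mul], fun x y => ?_, fun x => ?_⟩
    · exact (h2 (b x) (b y)).trans (k2 x y)
    · exact (h3 (b x)).trans (k3 x)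
  one_mem' := ⟨map_one _, fun _ _ => rfl, fun _ => Iff.rfl⟩
  inv_mem' := by
    rintro a ⟨h1, h2, h3⟩
    refine ⟨by rw [map_inv, h1, inv_one], fun x y => ?_, fun x => ?_⟩
    · rw [← h2]; simp
    · rw [← h3]; simp

instance isomAction (n : ℕ) : MulAction (Isom n) (Hyp n) where
  smul g x := ⟨g.1 x.1, (g.2.2.2 x.1).2 x.2⟩
  one_smul _ := rfl
  mul_smul _ _ _ := rfl

/-- The orbit space of hyperbolic space by a group of isometries, with the quotient topology. -/
abbrev Quo {n : ℕ} (Γ : Subgroup (Isom n)) : Type := MulAction.orbitRel.Quotient Γ (Hyp n)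

end

end Pool.Agent.URC
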