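import Pool.Agent.P.MP_797ab1_gt.Main

/-! Translation to the plain definitions of the statement. -/

open Set Function

namespace Pool.Agent.URC

universe u

variable {X Y : Type*} [TopologicalSpace X] [TopologicalSpace Y]

lemma boundary_eq {k : ℕ} (c : Ch X (k + 1)) : boundary c = bd c := by
  conv_rhs => rw [← Finsupp.sum_single c, map_finsuppSum]
  refine Finsupp.sum_congr fun σ _ => ?_
  rw [bd_single]
  simp

lemma induced_eq {k : ℕ} (f : C(X, Y)) (c : Ch X k) : induced f c = push f c := rfl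

lemma liesIn_iff {A : Set X} {k : ℕ} (c : Ch X k) : LiesIn A c ↔ c ∈ ChIn A k := Iff.rfl

lemma isRelBdry_iff {A : Set X} {k : ℕ} (c : Ch X k) : IsRelBdry A c ↔ c ∈ Bd A k := by
  simp only [IsRelBdry, mem_Bd, boundary_eq, liesIn_iff]

lemma isFundCycle_iff {n : ℕ} (μ : Ch X (n + 1)) : IsFundCycle n μ ↔ IsFund n μ := by
  simp only [IsFundCycle, IsFund, boundary_eq, liesIn_iff, isRelBdry_iff]

lemma isURCSpace_iff {n : ℕ} {M : Type} [TopologicalSpace M] :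
    IsURCSpace.{u} n M ↔ IsURC.{u} n M := by
  simp only [IsURCSpace, IsURC, boundary_eq, induced_eq, isFundCycle_iff]

theorem final {n : ℕ} (hn : 0 < n) : ∃ Γ : Subgroup (Equiv.Perm (Hyp n)), (∀ g ∈ Γ, IsIsom g) ∧
    (∀ g ∈ Γ, ∀ x : Hyp n, g x = x → g = 1) ∧ ProperlyDiscontinuousSMul Γ (Hyp n) ∧
      CompactSpace (MulAction.orbitRel.Quotient Γ (Hyp n)) ∧
      IsURCSpace.{u} n (MulAction.orbitRel.Quotient Γ (Hyp n)) := by
  obtain ⟨Γ, h1, h2, h3, h4⟩ := main.{u} hn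
  let φ := MulAction.toPermHom (Isom n) (Hyp n)
  have e : MulAction.orbitRel Γ (Hyp n) = MulAction.orbitRel (Γ.map φ) (Hyp n) := by
    ext x y
    simp only [MulAction.orbitRel_apply, MulAction.mem_orbit_iff]
    constructor
    · rintro ⟨g, rfl⟩
      exact ⟨⟨φ g.1, g.1, g.2, rfl⟩, rfl⟩
    · rintro ⟨⟨_, g, hg, rfl⟩, rfl⟩
      exact ⟨⟨g, hg⟩, rfl⟩
  have key : ∀ s : Setoid (Hyp n), MulAction.orbitRel Γ (Hyp n) = s →
      CompactSpace (Quotient s) ∧ IsURCSpace.{u} n (Quotient s) := by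
    rintro _ rfl
    exact ⟨h3, isURCSpace_iff.2 h4⟩
  refine ⟨Γ.map φ, ?_, ?_, ⟨fun {K L} hK hL => ?_⟩, key _ e⟩
  · rintro _ ⟨g, -, rfl⟩
    refine ⟨LinearMap.toMatrix' g.1.toLinearMap, ?_, fun x y => ?_, fun x => ?_⟩
    · rw [LinearMap.det_toMatrix', ← LinearEquiv.coe_det, g.2.1, Units.val_one]
    · rw [LinearMap.toMatrix'_mulVec, LinearMap.toMatrix'_mulVec]
      exact g.2.2.1 x y
    · rw [LinearMap.toMatrix'_mulVec]; rfl
  · rintro _ ⟨g, hg, rfl⟩ x hx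
    rw [h1 g hg x hx, map_one]
  · refine ((h2.finite_disjoint_inter_image hK hL).image
      fun g : Γ => (⟨φ g.1, g.1, g.2, rfl⟩ : Γ.map φ)).subset ?_
    rintro ⟨_, g, hg, rfl⟩ h
    exact ⟨⟨g, hg⟩, h, rfl⟩

end Pool.Agent.URC
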