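import Pool.Agent.P.MP_797ab1_gt.Chart
import Pool.Agent.P.MP_797ab1_gt.Colour

/-! TASK S: orientations adjacent to signed frames, the sign of a vertex, Gaifullin states. -/

open Set Function Pointwise

namespace Pool.Agent.URC

variable {n : ℕ} {F : Fin n → Set (V n)} {B : ℝ}

/-- the orientation `o` is the one of the orthant of the signed frame `w` -/
def Adj (F : Fin n → Set (V n)) (w : Fin n → V n) (o : Set (V n)) : Prop :=
  IsOri (sym F) o ∧ (∀ k, w k ∈ o) ∧ ∀ x : Hyp n, (∀ k, lor x.1 (w k) = 0) → At x o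

namespace FrAux

lemma near (hF : Fam F B) {w : Fin n → V n} (hw : SFrame F w) {p : Hyp n}
    (hp : ∀ k, lor p.1 (w k) = 0) {a : V n} (ha : a ∈ sym F) (h : |lor p.1 a| ≤ n + 1) :
    ∃ l, a = w l ∨ a = -w l := by
  obtain ⟨l, hl⟩ := ha
  have h1 : |lor a (w l)| ≤ B := by
    have h2 := abs_lor_lor_le p (hF.walls.unit a ⟨l, hl⟩) ((hw.on hF).1 l) h (b := 0)
      (by simp [hp l])
    have h3 : (0 : ℝ) ≤ n := Nat.cast_nonneg n
    linarith [hF.big]
  refine ⟨l, ?_⟩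
  rcases hl with hl | hl <;> rcases hw.1 l with hl' | hl'
  · exact Or.inl (hF.same l _ hl _ hl' h1)
  · exact Or.inr (hF.same l _ hl _ hl' (by simpa using h1))
  · exact Or.inr (neg_eq_iff_eq_neg.1 (hF.same l _ hl _ hl' (by simpa using h1)))
  · exact Or.inl (neg_injective (hF.same l _ hl _ hl' (by simpa using h1)))

lemma exists_vertex {w : Fin n → V n} (hw : ON w) : ∃ p : Hyp n, ∀ k, lor p.1 (w k) = 0 := by
  obtain ⟨p, hp, -⟩ := exists_proj Finset.univ w (fun k _ => hw.1 k)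
    (fun k _ l _ h => hw.2 k l h) e0
  exact ⟨p, fun k => hp k (Finset.mem_univ k)⟩

end FrAux

open FrAux

theorem adj_of_at (hF : Fam F B) {w : Fin n → V n} (hw : SFrame F w) {x : Hyp n}
    (hx : ∀ k, 0 < lor x.1 (w k) ∧ lor x.1 (w k) < 1) {o : Set (V n)} (ho : IsOri (sym F) o)
    (h : At x o) : Adj F w o := by
  refine ⟨ho, fun k => ?_, fun p hp a ha => ?_⟩
  · refine (ho.tot _ ⟨k, hw.1 k⟩).resolve_right fun h1 => ?_
    have := h _ h1
    rw [lor_neg_right] at this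
    linarith [(hx k).1]
  · by_contra hneg
    push Not at hneg
    have h1 := dd_sq_of_perp (hw.on hF) x p hp
    have h2 : ∑ k, lor x.1 (w k) ^ 2 ≤ n := by
      refine (Finset.sum_le_sum (g := fun _ => (1 : ℝ)) fun k _ => ?_).trans (by simp)
      nlinarith [(hx k).1, (hx k).2]
    have h3 := one_le_dd x p
    have h4 := neg_lor_le_dd p x (hF.walls.unit a (ho.sub a ha)) (h a ha)
    rw [dd_comm] at h4
    obtain ⟨l, rfl | rfl⟩ := near hF hw hp (ho.sub a ha) (by rw [abs_of_neg hneg]; nlinarith)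
    · exact hneg.ne (hp l)
    · exact hneg.ne (by simp [hp l])

theorem adj_unique (hF : Fam F B) {w : Fin n → V n} (hw : SFrame F w) {o o' : Set (V n)}
    (h : Adj F w o) (h' : Adj F w o') : o = o' := by
  obtain ⟨p, hp⟩ := exists_vertex (hw.on hF)
  refine h.1.eq_of_subset hF.walls h'.1 fun a ha => ?_
  by_contra hn
  have h1 := h.2.2 p hp a ha
  have h2 := h'.2.2 p hp _ (h'.1.neg_mem (h.1.sub a ha) hn)
  rw [lor_neg_right] at h2
  have h3 : lor p.1 a = 0 := by linarith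
  obtain ⟨l, rfl | rfl⟩ := near hF hw hp (h.1.sub a ha) (by rw [h3, abs_zero]; positivity)
  · exact hn (h'.2.1 l)
  · exact h.1.neg_notMem (h.2.1 l) ha

theorem SFrame.update {w : Fin n → V n} (hw : SFrame F w) (k : Fin n) :
    SFrame F (update w k (-w k)) := by
  refine ⟨fun j => ?_, fun j l hjl => ?_⟩
  · by_cases e : j = k
    · subst e
      simpa [or_comm] using hw.1 j
    · simpa [update_of_ne e] using hw.1 j
  · have := hw.2 j l hjl
    by_cases e : j = k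
    · subst e
      simp [update_of_ne hjl.symm, this]
    · by_cases e' : l = k
      · subst e'
        simp [update_of_ne e, this]
      · simp [update_of_ne e, update_of_ne e', this]

theorem adj_flip (hF : Fam F B) {w : Fin n → V n} (hw : SFrame F w) {o : Set (V n)}
    (h : Adj F w o) (k : Fin n) : Adj F (update w k (-w k)) (flip o (w k)) := by
  obtain ⟨p, hp⟩ := exists_vertex (hw.on hF)
  refine ⟨h.1.flip hF.walls (h.2.1 k) fun a ha hne hd => hne ?_, fun j => ?_, fun x hx => ?_⟩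
  · have := hd.eq_neg (x := p) (by simpa [hp k] using h.2.2 p hp a ha)
    exact (neg_injective this).symm
  · by_cases e : j = k
    · subst e
      exact Or.inl (by simp)
    · rw [update_of_ne e]
      refine Or.inr ⟨h.2.1 j, fun e' => ?_⟩
      have h1 := hw.2 j k e
      rw [e', (hw.on hF).1 k] at h1
      exact one_ne_zero h1
  · have hx' : ∀ j, lor x.1 (w j) = 0 := by
      intro j
      by_cases e : j = k
      · subst e
        simpa using hx j
      · simpa [update_of_ne e] using hx j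
    rintro a (rfl | ⟨ha, -⟩)
    · simp [hx' k]
    · exact h.2.2 x hx' a ha

namespace FrAux

lemma exists_adj (hF : Fam F B) {w : Fin n → V n} (hw : SFrame F w) : ∃ o, Adj F w o := by
  obtain ⟨p, hp⟩ := exists_vertex (hw.on hF)
  obtain ⟨χ, hχ⟩ := exists_chart (hw.on hF)
  obtain ⟨o, ho, h⟩ := exists_ori_at hF.walls (χ.symm fun _ => 1 / 2)
  refine ⟨o, adj_of_at hF hw (fun k => ?_) ho h⟩
  rw [← hχ, χ.apply_symm_apply]
  norm_num

lemma sframe {p : Fin n → V n} (h : Frame F p) : SFrame F p := ⟨fun k => Or.inl (h.1 k), h.2⟩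

lemma frame_smul {Γ : Subgroup (Isom n)} (hI : ∀ k, Invt Γ (F k)) {γ : Isom n} (hγ : γ ∈ Γ)
    {p : Fin n → V n} (h : Frame F p) : Frame F (γ • p) :=
  ⟨fun k => hI k γ hγ _ (h.1 k), fun k l hkl => by simpa using h.2 k l hkl⟩

lemma adj_smul (hF : Fam F B) {Γ : Subgroup (Isom n)} (hI : ∀ k, Invt Γ (F k)) {γ : Isom n}
    (hγ : γ ∈ Γ) {p : Fin n → V n} {o : Set (V n)} (h : Adj F p o) : Adj F (γ • p) (γ • o) := by
  refine ⟨h.1.smul hF.walls (invt_sym hI) hγ, fun k => smul_mem_smul_set (h.2.1 k),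
    fun x hx => ?_⟩
  have := (h.2.2 (γ⁻¹ • x) fun k => by
    rw [smul_val, lor_smul_eq, inv_inv]; exact hx k).smul γ
  rwa [smul_inv_smul] at this

end FrAux

theorem exists_eps (hF : Fam F B) {Γ : Subgroup (Isom n)} (hI : ∀ k, Invt Γ (F k)) :
    ∃ Γ' ≤ Γ, Γ'.relIndex Γ ≠ 0 ∧ (∀ γ ∈ Γ', osg γ = 1) ∧
      ∃ (P : Set (V n) → ℤˣ) (ε : (Fin n → V n) → ℤˣ),
        (∀ o w, IsOri (sym F) o → w ∈ o → IsOri (sym F) (flip o w) → P (flip o w) = -P o) ∧
        (∀ γ ∈ Γ', ∀ p, Frame F p → ε (γ • p) = ε p) ∧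
        ∀ w o, SFrame F w → Adj F w o →
          ∃ p, Frame F p ∧ (∀ k, w k = p k ∨ w k = -p k) ∧ del w * P o = ε p := by
  classical
  obtain ⟨P, hP, Γ₁, hle₁, hi₁, hP'⟩ := exists_transport' hF.walls (invt_sym hI)
    (fun _ => (-1 : ℤˣ)) (fun _ _ => by simp) (fun _ _ => rfl) (fun _ _ _ _ _ => rfl)
    (fun _ _ _ _ => rfl)
  obtain ⟨Γ₂, hle₂, hi₂, hk⟩ := exists_ker Γ₁
    (MonoidHom.mk' (fun γ : Γ₁ => osg γ.1) fun a b => osg_mul a.1 b.1)
  have hflip : ∀ o w, IsOri (sym F) o → w ∈ o → IsOri (sym F) (flip o w) →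
      P (flip o w) = -P o := fun o w h1 h2 h3 => by rw [hP o w h1 h2 h3, mul_neg_one]
  let ε : (Fin n → V n) → ℤˣ := fun p => if h : ∃ o, Adj F p o then del p * P h.choose else 1
  have hε : ∀ p o, SFrame F p → Adj F p o → ε p = del p * P o := by
    intro p o hp ho
    have h : ∃ o, Adj F p o := ⟨o, ho⟩
    simp only [ε, dif_pos h]
    rw [adj_unique hF hp h.choose_spec ho]
  refine ⟨Γ₂, hle₂.trans hle₁, Subgroup.relIndex_ne_zero_trans hi₂ hi₁,
    fun γ hγ => hk γ hγ (hle₂ hγ), P, ε, hflip, fun γ hγ p hp => ?_, fun w o hw ho => ?_⟩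
  · obtain ⟨o, ho⟩ := exists_adj hF (sframe hp)
    have hγ' := hle₁ (hle₂ hγ)
    have h1 : osg γ = 1 := hk γ hγ (hle₂ hγ)
    rw [hε _ _ (sframe (frame_smul hI hγ' hp)) (adj_smul hF hI hγ' ho), hε _ _ (sframe hp) ho,
      del_smul ((sframe hp).on hF), h1, one_mul, hP' γ (hle₂ hγ) o ho.1]
  · have key : ∀ (S : Finset (Fin n)) (w : Fin n → V n) (o : Set (V n)), SFrame F w →
        Adj F w o → (∀ k, k ∉ S → w k ∈ F k) →
        ∃ p, Frame F p ∧ (∀ k, w k = p k ∨ w k = -p k) ∧ del w * P o = ε p := by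
      intro S
      induction S using Finset.induction_on with
      | empty =>
        intro w o hw ho h
        exact ⟨w, ⟨fun k => h k (by simp), hw.2⟩, fun k => Or.inl rfl, (hε w o hw ho).symm⟩
      | insert k S _ ih =>
        intro w o hw ho h
        by_cases hk : w k ∈ F k
        · refine ih w o hw ho fun j hj => ?_
          by_cases e : j = k
          · rwa [e]
          · exact h j (by simp [e, hj])
        · have ho' := adj_flip hF hw ho k
          obtain ⟨p, h1, h2, h3⟩ := ih _ _ (hw.update k) ho' fun j hj => by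
            by_cases e : j = k
            · subst e
              simpa using (hw.1 j).resolve_left hk
            · rw [update_of_ne e]
              exact h j (by simp [e, hj])
          refine ⟨p, h1, fun j => ?_, ?_⟩
          · by_cases e : j = k
            · subst e
              rcases h2 j with h4 | h4 <;> rw [update_self] at h4
              · exact Or.inr (neg_eq_iff_eq_neg.1 h4)
              · exact Or.inl (neg_injective h4)
            · simpa [update_of_ne e] using h2 j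
          · rw [← h3, del_update (hw.on hF), hflip o _ ho.1 (ho.2.1 k) ho'.1, neg_mul_neg]
    exact key Finset.univ w o hw ho fun k hk => absurd (Finset.mem_univ k) hk

universe u

namespace FrAux

variable {X : Type u} [TopologicalSpace X] {U : Type u}

/-- admissible families of involutions -/
structure Adm (C : Col X n U) (Λ : Finset (Fin (n + 1)) → Equiv.Perm U) : Prop where
  inv : ∀ ω, ω ≠ Finset.univ → Λ ω * Λ ω = 1
  sg : ∀ ω, ω ≠ Finset.univ → ∀ u, C.sg (Λ ω u) = -C.sg u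
  s : ∀ ω, ω ≠ Finset.univ → ∀ u (t : Dl (n + 1)), (∀ i, i ∉ ω → t i = 0) →
    C.s (Λ ω u) t = C.s u t
  lam : ∀ i, Λ {i}ᶜ = C.lam i

/-- conjugation of the involutions below `ω` -/
def cj (ω : Finset (Fin (n + 1))) (Λ : Finset (Fin (n + 1)) → Equiv.Perm U) :
    Finset (Fin (n + 1)) → Equiv.Perm U :=
  fun γ => if γ ⊆ ω then Λ ω * Λ γ * Λ ω else Λ γ

lemma cj_self {ω : Finset (Fin (n + 1))} {Λ : Finset (Fin (n + 1)) → Equiv.Perm U}
    (h : Λ ω * Λ ω = 1) : cj ω Λ ω = Λ ω := by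
  rw [cj, if_pos subset_rfl, h, one_mul]

lemma cj_cj {ω : Finset (Fin (n + 1))} {Λ : Finset (Fin (n + 1)) → Equiv.Perm U}
    (h : Λ ω * Λ ω = 1) : cj ω (cj ω Λ) = Λ := by
  funext γ
  rw [cj, cj_self h]
  split_ifs with h1
  · rw [cj, if_pos h1]
    calc Λ ω * (Λ ω * Λ γ * Λ ω) * Λ ω = (Λ ω * Λ ω) * Λ γ * (Λ ω * Λ ω) := by
          simp only [mul_assoc]
      _ = Λ γ := by rw [h, one_mul, mul_one]
  · rw [cj, if_neg h1]

lemma cj_comm {ω ω' : Finset (Fin (n + 1))} {Λ : Finset (Fin (n + 1)) → Equiv.Perm U}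
    (h : Λ ω' * Λ ω' = 1) (hs : ω ⊆ ω') (hn : ¬ ω' ⊆ ω) : cj ω (cj ω' Λ) = cj ω' (cj ω Λ) := by
  funext γ
  by_cases h1 : γ ⊆ ω
  · simp only [cj, if_pos h1, if_pos hs, if_pos (h1.trans hs), if_neg hn]
    calc Λ ω' * Λ ω * Λ ω' * (Λ ω' * Λ γ * Λ ω') * (Λ ω' * Λ ω * Λ ω')
        = Λ ω' * Λ ω * (Λ ω' * Λ ω') * Λ γ * (Λ ω' * Λ ω') * Λ ω * Λ ω' := by
          simp only [mul_assoc]
      _ = Λ ω' * (Λ ω * Λ γ * Λ ω) * Λ ω' := by
          rw [h]; simp only [mul_one, mul_assoc]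
  · simp only [cj, if_neg h1, if_neg hn]

lemma Adm.cj {C : Col X n U} {Λ : Finset (Fin (n + 1)) → Equiv.Perm U} (h : Adm C Λ)
    {ω : Finset (Fin (n + 1))} (hω : ω ≠ Finset.univ) : Adm C (cj ω Λ) where
  inv γ hγ := by
    rw [FrAux.cj]
    split_ifs with h1
    · calc Λ ω * Λ γ * Λ ω * (Λ ω * Λ γ * Λ ω)
          = Λ ω * (Λ γ * (Λ ω * Λ ω) * Λ γ) * Λ ω := by simp only [mul_assoc]
        _ = 1 := by rw [h.inv ω hω, mul_one, h.inv γ hγ, mul_one, h.inv ω hω]
    · exact h.inv γ hγ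
  sg γ hγ u := by
    rw [FrAux.cj]
    split_ifs with h1
    · simp only [Equiv.Perm.mul_apply, h.sg ω hω, h.sg γ hγ, neg_neg]
    · exact h.sg γ hγ u
  s γ hγ u t ht := by
    rw [FrAux.cj]
    split_ifs with h1
    · have ht' : ∀ i, i ∉ ω → t i = 0 := fun i hi => ht i fun hi' => hi (h1 hi')
      simp only [Equiv.Perm.mul_apply, h.s ω hω _ t ht', h.s γ hγ _ t ht]
    · exact h.s γ hγ u t ht
  lam i := by
    by_cases h1 : {i}ᶜ ⊆ ω
    · have e : ω = {i}ᶜ := by
        refine Finset.Subset.antisymm (fun j hj => ?_) h1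
        rw [Finset.mem_compl, Finset.mem_singleton]
        rintro rfl
        refine hω (Finset.eq_univ_of_forall fun l => ?_)
        by_cases e : l = j
        · rwa [e]
        · exact h1 (by simpa using e)
      rw [← e, cj_self (h.inv ω hω), e, h.lam]
    · rw [FrAux.cj, if_neg h1, h.lam]

lemma exists_adm (C : Col X n U) : ∃ Λ, Adm C Λ := by
  have hex : ∀ ω : Finset (Fin (n + 1)), ∃ i, ω ≠ Finset.univ → i ∉ ω := by
    intro ω
    by_cases h : ω = Finset.univ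
    · exact ⟨0, fun h' => absurd h h'⟩
    · obtain ⟨i, hi⟩ := not_forall.1 fun h' => h (Finset.eq_univ_of_forall h')
      exact ⟨i, fun _ => hi⟩
  choose f hf using hex
  refine ⟨fun ω => C.lam (f ω), fun ω _ => Equiv.ext fun u => C.lam_lam _ u,
    fun ω _ u => C.sg_lam _ u, fun ω hω u t ht => C.s_lam _ u t (ht _ (hf ω hω)), fun i => ?_⟩
  have h1 : ({i}ᶜ : Finset (Fin (n + 1))) ≠ Finset.univ := fun h => by
    have : i ∈ ({i}ᶜ : Finset (Fin (n + 1))) := h ▸ Finset.mem_univ i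
    simp at this
  have h2 := hf _ h1
  simp only [Finset.mem_compl, Finset.mem_singleton, not_not] at h2
  simp only [h2]

/-- states -/
abbrev St (C : Col X n U) : Type u := U × {Λ // Adm C Λ}

/-- the moves -/
def mv (C : Col X n U) (ω : Finset (Fin (n + 1))) (v : St C) : St C :=
  if h : ω = Finset.univ then v else (v.2.1 ω v.1, ⟨cj ω v.2.1, v.2.2.cj h⟩)

lemma mv_mv (C : Col X n U) (ω : Finset (Fin (n + 1))) : Involutive (mv C ω) := by
  intro v
  by_cases h : ω = Finset.univ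
  · simp only [mv, dif_pos h]
  · simp only [mv, dif_neg h]
    refine Prod.ext ?_ (Subtype.ext (cj_cj (v.2.2.inv ω h)))
    change cj ω v.2.1 ω (v.2.1 ω v.1) = v.1
    rw [cj_self (v.2.2.inv ω h), ← Equiv.Perm.mul_apply, v.2.2.inv ω h, Equiv.Perm.one_apply]

lemma mv_comm (C : Col X n U) {ω ω' : Finset (Fin (n + 1))} (hs : ω ⊆ ω') (v : St C) :
    mv C ω (mv C ω' v) = mv C ω' (mv C ω v) := by
  by_cases hn : ω' ⊆ ω
  · rw [Finset.Subset.antisymm hs hn]
  by_cases h' : ω' = Finset.univ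
  · simp only [mv, dif_pos h']
  have h : ω ≠ Finset.univ := fun h => hn (h ▸ Finset.subset_univ _)
  simp only [mv, dif_neg h, dif_neg h']
  refine Prod.ext ?_ (Subtype.ext (cj_comm (v.2.2.inv ω' h') hs hn))
  change cj ω' v.2.1 ω (v.2.1 ω' v.1) = cj ω v.2.1 ω' (v.2.1 ω v.1)
  rw [cj, if_pos hs, cj, if_neg hn, ← Equiv.Perm.mul_apply, mul_assoc, v.2.2.inv ω' h', mul_one,
    Equiv.Perm.mul_apply]

end FrAux

theorem exists_states {X : Type u} [TopologicalSpace X] {U : Type u} [Finite U] [Nonempty U]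
    (C : Col X n U) {W : Set (V n)} (hW : Walls W) {Γ : Subgroup (Isom n)} (hI : Invt Γ W)
    (ℓ : V n → Finset (Fin (n + 1))) (hneg : ∀ w ∈ W, ℓ (-w) = ℓ w)
    (hγ : ∀ γ ∈ Γ, ∀ w ∈ W, ℓ (γ • w) = ℓ w) (hne : ∀ w ∈ W, ℓ w ≠ Finset.univ)
    (hnest : ∀ a ∈ W, ∀ b ∈ W, |lor a b| < 1 → ℓ a ⊆ ℓ b ∨ ℓ b ⊆ ℓ a) :
    ∃ st : Set (V n) → U,
      (∀ o w, IsOri W o → w ∈ o → IsOri W (flip o w) →
        C.sg (st (flip o w)) = -C.sg (st o) ∧
        (∀ t : Dl (n + 1), (∀ i, i ∉ ℓ w → t i = 0) → C.s (st (flip o w)) t = C.s (st o) t) ∧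
        ∀ i, ℓ w = {i}ᶜ → st (flip o w) = C.lam i (st o)) ∧
      ∃ Γ' ≤ Γ, Γ'.relIndex Γ ≠ 0 ∧ ∀ γ ∈ Γ', ∀ o, IsOri W o → st (γ • o) = st o := by
  obtain ⟨Λ₀, hΛ₀⟩ := exists_adm C
  let v₀ : St C := (Classical.arbitrary U, ⟨Λ₀, hΛ₀⟩)
  let τ : V n → Equiv.Perm (St C) := fun w => (mv_mv C (ℓ w)).toPerm
  have h2 : ∀ w, τ w * τ w = 1 := fun w => Equiv.ext fun v => mv_mv C (ℓ w) v
  obtain ⟨T, hT, Γ', hle, hi, hT'⟩ := exists_transport' hW hI τ (fun w _ => h2 w)
    (fun w hw => by simp only [τ, hneg w hw])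
    (fun a ha b hb hab => Equiv.ext fun v => by
      rcases hnest a ha b hb hab with h | h
      exacts [mv_comm C h v, (mv_comm C h v).symm])
    (fun γ hγ' w hw => by simp only [τ, hγ γ hγ' w hw])
  refine ⟨fun o => ((T o)⁻¹ v₀).1, fun o w ho hw ho' => ?_, Γ', hle, hi,
    fun γ hγ' o ho => by simp only [hT' γ hγ' o ho]⟩
  have hω := hne w (ho.sub w hw)
  have e : ((T (flip o w))⁻¹ v₀).1 = ((T o)⁻¹ v₀).2.1 (ℓ w) ((T o)⁻¹ v₀).1 := by
    rw [hT o w ho hw ho', mul_inv_rev, inv_eq_of_mul_eq_one_right (h2 w), Equiv.Perm.mul_apply]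
    change (mv C (ℓ w) _).1 = _
    rw [mv, dif_neg hω]
  simp only [e]
  have hA := ((T o)⁻¹ v₀).2.2
  exact ⟨hA.sg _ hω _, fun t ht => hA.s _ hω _ t ht, fun i hi => by rw [hi, hA.lam]⟩

end Pool.Agent.URC
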