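import Pool.Agent.P.MP_797ab1_gt.MV

/-! From path-connected targets to arbitrary targets. -/

open Set Function Topology

namespace Pool.Agent.URC

universe u

variable {n : ℕ}

lemma IsFund.neg {N : Type*} [TopologicalSpace N] {μ : Ch N (n + 1)} (h : IsFund n μ) :
    IsFund n (-μ) := by
  refine ⟨by rw [map_neg, h.1, neg_zero], fun x => ⟨fun c hc => ?_, fun m hm => ?_⟩⟩
  · obtain ⟨m, hm⟩ := (h.2 x).1 c hc
    exact ⟨-m, by simpa using hm⟩
  · have := (h.2 x).2 (-m) (by simpa using hm)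
    omega

lemma IsFund.at_emb {N N' : Type*} [TopologicalSpace N] [TopologicalSpace N'] [T1Space N']
    {μ : Ch N (n + 1)} (h : IsFund n μ) (j : C(N, N')) (hj : IsOpenEmbedding j) (y : N)
    {ν : Ch N' (n + 1)} (hν : ν - push j μ ∈ ChIn {j y}ᶜ (n + 1)) :
    (∀ c : Ch N' (n + 1), bd c ∈ ChIn {j y}ᶜ n → ∃ m : ℤ, c - m • ν ∈ Bd {j y}ᶜ (n + 1)) ∧
      ∀ m : ℤ, m • ν ∈ Bd {j y}ᶜ (n + 1) → m = 0 := by
  have hm : MapsTo j {y}ᶜ {j y}ᶜ := fun _ hz e => hz (hj.injective e)
  have hb := excision (k := n) j hj (A := {y}ᶜ) (T := {j y}ᶜ) isOpen_compl_singleton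
    (fun z => by
      by_cases e : z = j y
      exacts [Or.inl ⟨y, e.symm⟩, Or.inr e])
    (fun x hx e => hx (congrArg j e)) hm
  have h0 : bd μ ∈ ChIn ({y}ᶜ : Set N) n := by rw [h.1]; exact Submodule.zero_mem _
  have hk : ∀ m : ℤ, m • ν - m • push j μ ∈ Bd {j y}ᶜ (n + 1) := fun m => by
    rw [← smul_sub]; exact mem_Bd_of_ChIn (Submodule.smul_mem _ _ hν)
  refine ⟨fun c hc => ?_, fun m hm' => (h.2 y).2 m ?_⟩
  · obtain ⟨α, hα⟩ := hb.2 (HH.mk c hc)
    obtain ⟨c', hc', rfl⟩ := HH.exists_mk α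
    obtain ⟨m, hm1⟩ := (h.2 y).1 c' hc'
    rw [HH.map_mk, HH.mk_eq_mk] at hα
    refine ⟨m, ?_⟩
    have h2 := push_mem_Bd j hm hm1
    rw [map_sub, map_smul] at h2
    convert Submodule.sub_mem _ (Submodule.sub_mem _ h2 hα) (hk m) using 1
    abel
  · have h1 : HH.map j hm (m • HH.mk μ h0) = 0 := by
      rw [HH.mk_zsmul, HH.map_mk, HH.mk_eq_zero, map_smul]
      convert Submodule.sub_mem _ hm' (hk m) using 1
      abel
    have := hb.1 (h1.trans (map_zero _).symm)
    rwa [HH.mk_zsmul, HH.mk_eq_zero] at this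

variable (n) in
/-- the chain `c` is realised by a compact space locally homeomorphic to `M` -/
def Rz (M : Type) [TopologicalSpace M] {X : Type u} [TopologicalSpace X] (s : Prop)
    (c : Ch X (n + 1)) : Prop :=
  ∃ (N : Type) (_ : TopologicalSpace N) (p : N → M), (s → Nonempty N) ∧ CompactSpace N ∧
    T2Space N ∧ IsLocalHomeomorph p ∧ ∃ (μ : Ch N (n + 1)) (f : C(N, X)), IsFund n μ ∧
      ∃ w : Ch X (n + 2), push f μ - c = bd w

variable {M : Type} [TopologicalSpace M] {X : Type u} [TopologicalSpace X]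

lemma Rz.zero : Rz n M False (0 : Ch X (n + 1)) :=
  ⟨Empty, inferInstance, Empty.elim, False.elim, inferInstance, inferInstance, fun x => x.elim, 0,
    ⟨Empty.elim, continuous_of_discreteTopology⟩, ⟨map_zero _, fun x => x.elim⟩, 0, by simp⟩

lemma Rz.neg {s : Prop} {c : Ch X (n + 1)} (h : Rz n M s c) : Rz n M s (-c) := by
  obtain ⟨N, _, p, h0, h1, h2, h3, μ, f, h4, w, h5⟩ := h
  refine ⟨N, _, p, h0, h1, h2, h3, -μ, f, h4.neg, -w, ?_⟩
  rw [map_neg, map_neg, ← h5]; abel

lemma Rz.add {s s' : Prop} {c c' : Ch X (n + 1)} (h : Rz n M s c) (h' : Rz n M s' c') :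
    Rz n M s (c + c') := by
  obtain ⟨N, _, p, h0, h1, h2, h3, μ, f, h4, w, h5⟩ := h
  obtain ⟨N', _, p', -, k1, k2, k3, μ', f', k4, w', k5⟩ := h'
  let jl : C(N, N ⊕ N') := ⟨Sum.inl, continuous_inl⟩
  let jr : C(N', N ⊕ N') := ⟨Sum.inr, continuous_inr⟩
  refine ⟨N ⊕ N', inferInstance, Sum.elim p p', fun hs => (h0 hs).map Sum.inl, inferInstance,
    inferInstance, ?_, push jl μ + push jr μ',
    ⟨Sum.elim f f', f.continuous.sumElim f'.continuous⟩, ⟨?_, ?_⟩, w + w', ?_⟩
  · rintro (x | x)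
    · exact IsLocalHomeomorphOn.of_comp_right (g := Sum.elim p p') (f := Sum.inl) (s := univ)
        h3.isLocalHomeomorphOn IsOpenEmbedding.inl.isLocalHomeomorph.isLocalHomeomorphOn _
        ⟨x, trivial, rfl⟩
    · exact IsLocalHomeomorphOn.of_comp_right (g := Sum.elim p p') (f := Sum.inr) (s := univ)
        k3.isLocalHomeomorphOn IsOpenEmbedding.inr.isLocalHomeomorph.isLocalHomeomorphOn _
        ⟨x, trivial, rfl⟩
  · rw [map_add, bd_push, bd_push, h4.1, k4.1, map_zero, map_zero, add_zero]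
  · rintro (x | x)
    · refine h4.at_emb jl IsOpenEmbedding.inl x ?_
      rw [add_sub_cancel_left]
      exact push_mem_ChIn jr (A := univ) (fun _ _ => Sum.inr_ne_inl) (mem_ChIn_univ _)
    · refine k4.at_emb jr IsOpenEmbedding.inr x ?_
      rw [add_sub_cancel_right]
      exact push_mem_ChIn jl (A := univ) (fun _ _ => Sum.inl_ne_inr) (mem_ChIn_univ _)
  · rw [map_add, map_add, push_push, push_push, ← h5, ← k5]
    change push f μ + push f' μ' - _ = _
    abel

lemma Rz.zsmul {c : Ch X (n + 1)} (h : Rz n M False c) (m : ℤ) : Rz n M False (m • c) := by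
  induction m using Int.induction_on with
  | zero => simpa using Rz.zero
  | succ m ih => rw [add_smul, one_smul]; exact ih.add h
  | pred m ih => rw [sub_smul, one_smul, sub_eq_add_neg]; exact ih.add h.neg

lemma Rz.push {Y : Type u} [TopologicalSpace Y] {s : Prop} {c : Ch X (n + 1)} (h : Rz n M s c)
    (g : C(X, Y)) : Rz n M s (push g c) := by
  obtain ⟨N, _, p, h0, h1, h2, h3, μ, f, h4, w, h5⟩ := h
  refine ⟨N, _, p, h0, h1, h2, h3, μ, g.comp f, h4, URC.push g w, ?_⟩
  rw [bd_push, ← h5, map_sub, push_push]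

lemma pc_eq {k : ℕ} (σ : C(Dl (k + 1), X)) (t t' : Dl (k + 1)) :
    pathComponent (σ t) = pathComponent (σ t') :=
  pathComponent_congr ((PathConnectedSpace.joined t' t).map σ.continuous)

open Classical in
lemma bd_filter {k : ℕ} (A : Set X) (c : Ch X (k + 2)) :
    bd (c.filter fun σ => pathComponent (σ (stdSimplex.vertex 0)) = A) =
      (bd c).filter fun σ => pathComponent (σ (stdSimplex.vertex 0)) = A := by
  induction c using Finsupp.induction_linear with
  | zero => rw [Finsupp.filter_zero, map_zero, Finsupp.filter_zero]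
  | add a b ha hb => simp only [Finsupp.filter_add, map_add, ha, hb]
  | single σ m =>
    rw [bd_single, Finsupp.filter_sum]
    by_cases h : pathComponent (σ (stdSimplex.vertex 0)) = A
    · rw [Finsupp.filter_single_of_pos (a := σ) _ h, bd_single]
      refine Finset.sum_congr rfl fun i _ => ?_
      rw [Finsupp.filter_smul, Finsupp.filter_single_of_pos]
      exact (pc_eq σ _ _).trans h
    · rw [Finsupp.filter_single_of_neg (a := σ) _ h, map_zero, eq_comm]
      refine Finset.sum_eq_zero fun i _ => ?_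
      rw [Finsupp.filter_smul, Finsupp.filter_single_of_neg, smul_zero]
      exact fun e => h ((pc_eq σ _ _).trans e)

theorem isURC_of [T2Space M] [ConnectedSpace M] (hn : 0 < n)
    (h : ∀ (X : Type u) [TopologicalSpace X] [PathConnectedSpace X] (z : Ch X (n + 1)), bd z = 0 →
      ∃ (N : Type) (_ : TopologicalSpace N) (p : N → M), ConnectedSpace N ∧ CompactSpace N ∧
        T2Space N ∧ IsLocalHomeomorph p ∧ ∃ (μ : Ch N (n + 1)) (f : C(N, X)) (q : ℤ),
          IsFund n μ ∧ q ≠ 0 ∧ ∃ w : Ch X (n + 2), push f μ - q • z = bd w) :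
    IsURC.{u} n M := by
  classical
  have cov : ∀ (N : Type) [TopologicalSpace N] [CompactSpace N] [T2Space N] [Nonempty N]
      (p : N → M), IsLocalHomeomorph p →
      IsCoveringMap p ∧ Surjective p ∧ ∀ y, (p ⁻¹' {y}).Finite := by
    intro N _ _ _ _ p h1
    refine ⟨isLocalHomeomorph_iff_isCoveringMap.1 h1, ?_, fun y => ?_⟩
    · rw [← range_eq_univ]
      exact IsClopen.eq_univ ⟨(isCompact_range h1.continuous).isClosed,
        h1.isOpenMap.isOpen_range⟩ (range_nonempty p)
    · refine (isClosed_singleton.preimage h1.continuous).isCompact.finite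
        (.of_openPartialHomeomorph p subset_rfl fun e _ => ?_)
      obtain ⟨φ, h2, h3⟩ := h1 e
      exact ⟨φ, h2, h3.symm⟩
  intro X _ hX z hz
  by_cases hp : PathConnectedSpace X
  · obtain ⟨N, _, p, h1, h2, h3, h4, h5⟩ := h X z hz
    obtain ⟨k1, k2, k3⟩ := cov N p h4
    exact ⟨N, _, p, k1, k2, k3, fun _ => h1, h5⟩
  obtain ⟨m, rfl⟩ : ∃ m, n = m + 1 := ⟨n - 1, by omega⟩
  have comp : ∀ (x : X) (c : Ch X (m + 2)), bd c = 0 → c ∈ ChIn (pathComponent x) (m + 2) →
      ∃ q : ℤ, q ≠ 0 ∧ ∀ s, Rz (m + 1) M s (q • c) := by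
    intro x c h1 h2
    have : PathConnectedSpace (pathComponent x) :=
      isPathConnected_iff_pathConnectedSpace.1 isPathConnected_pathComponent
    let j : C(pathComponent x, X) := ⟨Subtype.val, continuous_subtype_val⟩
    obtain ⟨c', rfl⟩ := exists_push j IsInducing.subtypeVal (c := c) (by
      rwa [show range j = pathComponent x from Subtype.range_coe])
    have h3 : bd c' = 0 := by
      rw [bd_push] at h1
      refine Finsupp.mapDomain_injective (f := fun σ : C(Dl (m + 1), pathComponent x) => j.comp σ)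
        (fun σ τ e => ?_) (h1.trans Finsupp.mapDomain_zero.symm)
      ext t
      exact DFunLike.congr_fun e t
    obtain ⟨N, _, p, k1, k2, k3, k4, μ, f, q, k5, k6, k7⟩ := h _ c' h3
    refine ⟨q, k6, fun s => ?_⟩
    rw [← map_smul]
    exact Rz.push ⟨N, _, p, fun _ => inferInstance, k2, k3, k4, μ, f, k5, k7⟩ j
  let cp : C(Dl (m + 2), X) → Set X := fun σ => pathComponent (σ (stdSimplex.vertex 0))
  have part : ∀ A : Set X, ∃ q : ℤ, q ≠ 0 ∧
      Rz (m + 1) M False (q • z.filter fun σ => cp σ = A) := by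
    intro A
    by_cases hA : ∃ x, A = pathComponent x
    · obtain ⟨x, rfl⟩ := hA
      obtain ⟨q, h1, h2⟩ := comp x (z.filter fun σ => cp σ = pathComponent x)
        (by rw [bd_filter, hz, Finsupp.filter_zero]) (by
          rintro σ hσ _ ⟨t, rfl⟩
          simp only [Finsupp.support_filter, Finset.coe_filter, mem_setOf_eq] at hσ
          rw [← hσ.2, show cp σ = _ from pc_eq σ _ t]
          exact mem_pathComponent_self _)
      exact ⟨q, h1, h2 _⟩
    · refine ⟨1, one_ne_zero, ?_⟩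
      rw [(Finsupp.filter_eq_zero_iff _ _).2 fun σ e => absurd ⟨_, e.symm⟩ hA, smul_zero]
      exact Rz.zero
  choose q hq hq' using part
  set S := z.support.image cp
  have hsum : z = ∑ A ∈ S, z.filter fun σ => cp σ = A := by
    ext σ
    rw [Finsupp.finset_sum_apply]
    simp only [Finsupp.filter_apply]
    rw [Finset.sum_ite_eq]
    split_ifs with h1
    · rfl
    · by_contra h2
      exact h1 (Finset.mem_image_of_mem _ (Finsupp.mem_support_iff.2 h2))
  have h1 : Rz (m + 1) M False ((∏ A ∈ S, q A) • z) := by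
    rw [hsum, Finset.smul_sum]
    refine Finset.sum_induction _ _ (fun a b ha hb => ha.add hb) Rz.zero fun A hA => ?_
    rw [← Finset.prod_erase_mul _ _ hA, mul_smul]
    exact (hq' A).zsmul _
  obtain ⟨q0, -, h2⟩ := comp (Classical.arbitrary X) 0 (map_zero _) (Submodule.zero_mem _)
  obtain ⟨N, _, p, h0, h3, h4, h5, μ, f, h6, h7⟩ := (h2 True).add h1
  have := h0 trivial
  obtain ⟨k1, k2, k3⟩ := cov N p h5
  refine ⟨N, _, p, k1, k2, k3, fun h => absurd h hp, μ, f, ∏ A ∈ S, q A, h6,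
    Finset.prod_ne_zero_iff.2 fun A _ => hq A, ?_⟩
  simpa only [smul_zero, zero_add] using h7

end Pool.Agent.URC
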