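import Pool.Agent.P.MP_797ab1_gt.Good
import Pool.Agent.P.MP_797ab1_gt.Local

/-! TASK T: the map from hyperbolic space to the simplex defined by a labelled family. -/

open Set Function Topology

namespace Pool.Agent.URC

noncomputable section

variable {n : ℕ}

/-- unnormalised barycentric coordinates near a vertex of flag `π` -/
def kapa (π : Equiv.Perm (Fin (n + 1))) (y : E n) (i : Fin (n + 1)) : ℝ :=
  ∏ l ∈ Finset.univ.filter fun l : Fin n => l.castSucc < π.symm i, min 1 |y l|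

lemma kapa_nonneg (π : Equiv.Perm (Fin (n + 1))) (y : E n) (i : Fin (n + 1)) : 0 ≤ kapa π y i :=
  Finset.prod_nonneg fun _ _ => le_min zero_le_one (abs_nonneg _)

lemma sum_kapa_pos (π : Equiv.Perm (Fin (n + 1))) (y : E n) : 0 < ∑ i, kapa π y i := by
  refine Finset.sum_pos' (fun i _ => kapa_nonneg π y i) ⟨π 0, Finset.mem_univ _, ?_⟩
  simp [kapa]

/-- the local model of the map to the simplex -/
def kap (π : Equiv.Perm (Fin (n + 1))) : C(E n, Dl (n + 1)) where
  toFun y := ⟨fun i => kapa π y i / ∑ j, kapa π y j,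
    fun i => div_nonneg (kapa_nonneg π y i) (sum_kapa_pos π y).le, by
      rw [← Finset.sum_div, div_self (sum_kapa_pos π y).ne']⟩
  continuous_toFun := by
    refine Continuous.subtype_mk (continuous_pi fun i => Continuous.div ?_ ?_
      fun y => (sum_kapa_pos π y).ne') _ <;> unfold kapa <;> fun_prop

lemma kap_apply (π : Equiv.Perm (Fin (n + 1))) (y : E n) (i : Fin (n + 1)) :
    kap π y i = kapa π y i / ∑ j, kapa π y j := rfl

/-- the point `(1/2, ..., 1/2)` -/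
def half : E n := fun _ => 1 / 2

theorem kap_pos (π : Equiv.Perm (Fin (n + 1))) {y : E n} (hy : ∀ l, y l ≠ 0) (i : Fin (n + 1)) :
    0 < kap π y i := by
  rw [kap_apply]
  exact div_pos (Finset.prod_pos fun l _ => lt_min one_pos (abs_pos.2 (hy l))) (sum_kapa_pos π y)

namespace Tm

lemma kap_succ (π : Equiv.Perm (Fin (n + 1))) (y : E n) (k : Fin n) :
    kap π y (π k.succ) = kap π y (π k.castSucc) * min 1 |y k| := by
  have h : (Finset.univ.filter fun l : Fin n => l.castSucc < π.symm (π k.succ)) =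
      insert k (Finset.univ.filter fun l : Fin n => l.castSucc < π.symm (π k.castSucc)) := by
    ext l
    simp only [Equiv.symm_apply_apply, Finset.mem_filter, Finset.mem_univ, true_and,
      Finset.mem_insert, Fin.lt_def, Fin.val_castSucc, Fin.val_succ, Fin.ext_iff]
    omega
  rw [kap_apply, kap_apply, kapa, h, Finset.prod_insert (by simp), kapa]
  ring

/-- the open simplex -/
abbrev Op (n : ℕ) : Set (Dl (n + 1)) := {t | ∀ i, 0 < t i}

/-- ratios of consecutive coordinates -/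
def rat (π : Equiv.Perm (Fin (n + 1))) : C(Op n, E n) where
  toFun t k := t.1 (π k.succ) / t.1 (π k.castSucc)
  continuous_toFun := by
    have h : ∀ i, Continuous fun t : Op n => t.1 i := fun i =>
      (continuous_apply i).comp (continuous_subtype_val.comp continuous_subtype_val)
    exact continuous_pi fun k => (h _).div (h _) fun t => (t.2 _).ne'

lemma rat_inj (π : Equiv.Perm (Fin (n + 1))) : Injective (rat π) := by
  intro t s h
  have h1 : ∀ j : Fin (n + 1), t.1 (π j) * s.1 (π 0) = s.1 (π j) * t.1 (π 0) := by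
    intro j
    induction j using Fin.induction with
    | zero => ring
    | succ k ih =>
      have h2 : t.1 (π k.succ) / t.1 (π k.castSucc) = s.1 (π k.succ) / s.1 (π k.castSucc) :=
        congrFun h k
      have a1 := t.2 (π k.castSucc)
      have a2 := s.2 (π k.castSucc)
      rw [div_eq_div_iff a1.ne' a2.ne'] at h2
      refine mul_left_cancel₀ a2.ne' ?_
      linear_combination s.1 (π 0) * h2 + s.1 (π k.succ) * ih
  have h2 : ∀ i, t.1 i * s.1 (π 0) = s.1 i * t.1 (π 0) := fun i => by simpa using h1 (π.symm i)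
  have h3 : s.1 (π 0) = t.1 (π 0) := by
    have := Finset.sum_congr (s₁ := Finset.univ) rfl fun i _ => h2 i
    rw [← Finset.sum_mul, ← Finset.sum_mul] at this
    have e1 : ∑ i, t.1 i = 1 := t.1.2.2
    have e2 : ∑ i, s.1 i = 1 := s.1.2.2
    rwa [e1, e2, one_mul, one_mul] at this
  refine Subtype.ext (Subtype.ext (funext fun i => ?_))
  have := h2 i
  rw [h3] at this
  exact mul_right_cancel₀ (t.2 (π 0)).ne' this

lemma rat_kap (π : Equiv.Perm (Fin (n + 1))) {y : E n} (hy : ∀ l, 0 < y l ∧ y l < 1) :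
    rat π ⟨kap π y, kap_pos π fun l => (hy l).1.ne'⟩ = y := by
  funext k
  change kap π y (π k.succ) / kap π y (π k.castSucc) = y k
  rw [kap_succ, mul_div_cancel_left₀ _ (kap_pos π (fun l => (hy l).1.ne') _).ne',
    abs_of_pos (hy k).1, min_eq_right (hy k).2.le]

end Tm

theorem kap_inj (π : Equiv.Perm (Fin (n + 1))) {y y' : E n} (hy : ∀ l, 0 < y l ∧ y l < 1)
    (hy' : ∀ l, 0 < y' l ∧ y' l < 1) (h : kap π y = kap π y') : y = y' := by
  rw [← Tm.rat_kap π hy, ← Tm.rat_kap π hy']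
  simp only [h]

theorem kap_deg (π : Equiv.Perm (Fin (n + 1))) (β : C(E n, E n)) (hβ : IsOpenEmbedding β)
    (h : ∀ z l, 0 < β z l ∧ β z l < 1) (z : E n)
    (hm : MapsTo ((kap π).comp β) {z}ᶜ {kap π (β z)}ᶜ) :
    HH.map ((kap π).comp β) hm (oc {z}) ≠ 0 := by
  intro h0
  let f : C(E n, Tm.Op n) := ⟨fun x => ⟨kap π (β x), kap_pos π fun l => (h x l).1.ne'⟩,
    ((kap π).comp β).continuous.subtype_mk _⟩
  let j : C(Tm.Op n, Dl (n + 1)) := ⟨Subtype.val, continuous_subtype_val⟩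
  have hj : IsOpenEmbedding j := isOpen_int.isOpenEmbedding_subtypeVal
  have hf : MapsTo f {z}ᶜ {f z}ᶜ := fun x hx e => hm hx (congrArg Subtype.val e)
  have hj' : MapsTo j {f z}ᶜ {kap π (β z)}ᶜ := mapsTo_pt hj.injective (f z)
  have h1 := excision (k := n) j hj (A := {f z}ᶜ) (T := {kap π (β z)}ᶜ) isOpen_compl_singleton
    (fun y => by
      by_cases e : y = kap π (β z)
      · exact Or.inl ⟨f z, e.symm⟩
      · exact Or.inr e) (fun x hx e => hx (congrArg Subtype.val e)) hj'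
  have h2 : HH.map f hf (oc {z}) = 0 := by
    apply h1.1
    rw [HH.map_map, map_zero]
    exact h0
  have e : (Tm.rat π).comp f = β := ContinuousMap.ext fun x => Tm.rat_kap π (h x)
  have hr : MapsTo (Tm.rat π) {f z}ᶜ {β z}ᶜ := by
    have := mapsTo_pt (Tm.rat_inj π) (f z)
    rwa [show Tm.rat π (f z) = β z from Tm.rat_kap π (h z)] at this
  have h3 := congrArg (HH.map (Tm.rat π) hr) h2
  rw [HH.map_map, map_zero, HH.map_congr e _ (mapsTo_pt hβ.injective z), sgn_spec hβ] at h3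
  have := (gen_oc_pt (β z)).1 (a₁ := (sgn β : ℤ)) (a₂ := 0) (by simpa using h3)
  exact (sgn β).ne_zero this

namespace Tm

variable {F : Fin n → Set (V n)} {B : ℝ} {ℓ : V n → Finset (Fin (n + 1))}

open Classical in
/-- the factor of the wall `v` -/
def fac (F : Fin n → Set (V n)) (ℓ : V n → Finset (Fin (n + 1))) (i : Fin (n + 1)) (v : V n)
    (x : Hyp n) : ℝ :=
  if (∃ k, v ∈ F k) ∧ i ∉ ℓ v then min 1 |lor x.1 v| else 1

/-- unnormalised coordinates -/
def co (F : Fin n → Set (V n)) (ℓ : V n → Finset (Fin (n + 1))) (x : Hyp n) (i : Fin (n + 1)) :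
    ℝ := ∏ᶠ v, fac F ℓ i v x

lemma fac_ne {i : Fin (n + 1)} {v : V n} {x : Hyp n} (h : fac F ℓ i v x ≠ 1) :
    (∃ k, v ∈ F k) ∧ i ∉ ℓ v ∧ |lor x.1 v| < 1 := by
  unfold fac at h
  split_ifs at h with h1
  · exact ⟨h1.1, h1.2, by
      by_contra h2
      exact h (min_eq_left (not_lt.1 h2))⟩
  · exact absurd rfl h

lemma continuous_co (hF : Fam F B) (i : Fin (n + 1)) : Continuous fun x => co F ℓ x i := by
  refine continuous_finprod (fun v => ?_) fun x => ?_
  · unfold fac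
    split_ifs
    · fun_prop
    · fun_prop
  · refine ⟨{y | dd x y < 2}, (isOpen_lt (by fun_prop) continuous_const).mem_nhds (by simp), ?_⟩
    refine (hF.walls.fin' x 6).subset ?_
    rintro v ⟨y, hy, hy'⟩
    obtain ⟨⟨k, hk⟩, -, h2⟩ := fac_ne hy
    refine ⟨⟨k, Or.inl hk⟩, (abs_lor_transfer x y (hF.unit k v hk)).trans ?_⟩
    have h3 : dd x y < 2 := hy'
    have := dd_pos x y
    have := abs_nonneg (lor y.1 v)
    nlinarith

lemma fin_near (hF : Fam F B) (x : Hyp n) : {v | (∃ k, v ∈ F k) ∧ |lor x.1 v| < 1}.Finite :=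
  (hF.walls.fin' x 1).subset fun _ ⟨⟨k, hk⟩, h⟩ => ⟨⟨k, Or.inl hk⟩, h.le⟩

/-- the walls near `x` -/
def near (hF : Fam F B) (x : Hyp n) : Finset (V n) := (fin_near hF x).toFinset

lemma mem_near (hF : Fam F B) {x : Hyp n} {v : V n} :
    v ∈ near hF x ↔ (∃ k, v ∈ F k) ∧ |lor x.1 v| < 1 := by simp [near]

lemma co_eq (hF : Fam F B) (x : Hyp n) (i : Fin (n + 1)) :
    co F ℓ x i = ∏ v ∈ (near hF x).filter fun v => i ∉ ℓ v, |lor x.1 v| := by
  rw [co, finprod_eq_prod_of_mulSupport_subset (s := (near hF x).filter fun v => i ∉ ℓ v)]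
  · refine Finset.prod_congr rfl fun v hv => ?_
    obtain ⟨h1, h2⟩ := Finset.mem_filter.1 hv
    obtain ⟨h3, h4⟩ := (mem_near hF).1 h1
    rw [fac, if_pos ⟨h3, h2⟩, min_eq_right h4.le]
  · intro v hv
    obtain ⟨h1, h2, h3⟩ := fac_ne hv
    simpa [mem_near] using ⟨⟨h1, h3⟩, h2⟩

lemma near_le (hF : Fam F B) {x : Hyp n} {v v' : V n} (hv : v ∈ near hF x) (hv' : v' ∈ near hF x) :
    |lor v v'| ≤ B := by
  obtain ⟨⟨k, hk⟩, h1⟩ := (mem_near hF).1 hv
  obtain ⟨⟨l, hl⟩, h2⟩ := (mem_near hF).1 hv'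
  have := abs_lor_lor_le x (hF.unit k v hk) (hF.unit l v' hl) h1.le h2.le
  linarith [hF.le_B]

lemma near_sub (hF : Fam F B) (hℓ : Lab F ℓ) {x : Hyp n} {v v' : V n} (hv : v ∈ near hF x)
    (hv' : v' ∈ near hF x) {k l : Fin n} (hk : v ∈ F k) (hl : v' ∈ F l) (h : k ≤ l) :
    ℓ v ⊆ ℓ v' := by
  rcases h.eq_or_lt with rfl | h
  · rw [hF.same k v hk v' hl (near_le hF hv hv')]
  · exact hℓ.nest k l h v hk v' hl (hF.orth k l h.ne v hk v' hl (near_le hF hv hv'))

lemma co_nonneg (hF : Fam F B) (x : Hyp n) (i : Fin (n + 1)) : 0 ≤ co F ℓ x i := by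
  rw [co_eq hF]
  exact Finset.prod_nonneg fun _ _ => abs_nonneg _

lemma sum_co_pos (hF : Fam F B) (hℓ : Lab F ℓ) (x : Hyp n) : 0 < ∑ i, co F ℓ x i := by
  refine Finset.sum_pos' (fun i _ => co_nonneg hF x i) ?_
  obtain ⟨i, hi⟩ : ∃ i, ∀ v ∈ near hF x, i ∈ ℓ v := by
    by_cases h : ∃ k, ∃ v ∈ near hF x, v ∈ F k
    · obtain ⟨k, ⟨v, hv, hk⟩, hmin⟩ :=
        WellFounded.has_min (wellFounded_lt (α := Fin n)) {k | ∃ v ∈ near hF x, v ∈ F k} h
      obtain ⟨i, hi⟩ : (ℓ v).Nonempty := Finset.card_pos.1 (by rw [hℓ.card k v hk]; omega)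
      refine ⟨i, fun v' hv' => ?_⟩
      obtain ⟨l, hl⟩ := ((mem_near hF).1 hv').1
      exact near_sub hF hℓ hv hv' hk hl (not_lt.1 (hmin l ⟨v', hv', hl⟩)) hi
    · refine ⟨0, fun v hv => ?_⟩
      obtain ⟨l, hl⟩ := ((mem_near hF).1 hv).1
      exact absurd ⟨l, v, hv, hl⟩ h
  refine ⟨i, Finset.mem_univ _, ?_⟩
  rw [co_eq hF, Finset.filter_false_of_mem fun v hv h => h (hi v hv)]
  simp

/-- the map to the simplex -/
def tm (hF : Fam F B) (hℓ : Lab F ℓ) : C(Hyp n, Dl (n + 1)) where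
  toFun x := ⟨fun i => co F ℓ x i / ∑ j, co F ℓ x j,
    fun i => div_nonneg (co_nonneg hF x i) (sum_co_pos hF hℓ x).le, by
      rw [← Finset.sum_div, div_self (sum_co_pos hF hℓ x).ne']⟩
  continuous_toFun :=
    Continuous.subtype_mk (continuous_pi fun i => (continuous_co hF i).div
      (continuous_finsetSum _ fun j _ => continuous_co hF j)
      fun x => (sum_co_pos hF hℓ x).ne') _

lemma tm_apply (hF : Fam F B) (hℓ : Lab F ℓ) (x : Hyp n) (i : Fin (n + 1)) :
    tm hF hℓ x i = co F ℓ x i / ∑ j, co F ℓ x j := rfl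

lemma co_smul (γ : Isom n) (h1 : ∀ k v, γ • v ∈ F k ↔ v ∈ F k)
    (h2 : ∀ w ∈ sym F, ℓ (γ • w) = ℓ w) (x : Hyp n) (i : Fin (n + 1)) :
    co F ℓ (γ • x) i = co F ℓ x i := by
  rw [co, ← finprod_comp_equiv (MulAction.toPerm γ)]
  refine finprod_congr fun v => ?_
  change fac F ℓ i (γ • v) (γ • x) = fac F ℓ i v x
  have e : ((∃ k, γ • v ∈ F k) ∧ i ∉ ℓ (γ • v)) ↔ ((∃ k, v ∈ F k) ∧ i ∉ ℓ v) := by
    simp only [h1]
    exact and_congr_right fun ⟨k, hk⟩ => by rw [h2 v ⟨k, Or.inl hk⟩]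
  unfold fac
  by_cases h : (∃ k, v ∈ F k) ∧ i ∉ ℓ v
  · rw [if_pos h, if_pos (e.2 h), smul_val, lor_smul_smul]
  · rw [if_neg h, if_neg (mt e.1 h)]

lemma exists_pos (hℓ : Lab F ℓ) {k : Fin n} {w : V n} (h : w ∈ F k ∨ -w ∈ F k) (x : Hyp n) :
    ∃ v ∈ F k, ℓ v = ℓ w ∧ |lor x.1 v| = |lor x.1 w| := by
  rcases h with h | h
  · exact ⟨w, h, rfl, rfl⟩
  · exact ⟨-w, h, hℓ.neg w, by simp⟩

lemma tm_frame (hF : Fam F B) (hℓ : Lab F ℓ) {w : Fin n → V n} {π : Equiv.Perm (Fin (n + 1))}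
    (hw : SFrame F w) (hπ : Flg ℓ w π) (x : Hyp n) (hx : ∀ k, |lor x.1 (w k)| < 1) :
    tm hF hℓ x = kap π fun k => lor x.1 (w k) := by
  classical
  choose p hp1 hp2 hp3 using fun k => exists_pos hℓ (hw.1 k) x
  have hn : ∀ k, p k ∈ near hF x := fun k => (mem_near hF).2 ⟨⟨k, hp1 k⟩, by rw [hp3]; exact hx k⟩
  have hi : Injective p := fun k l e => hF.type_eq (hp1 k) (e ▸ hp1 l)
  have key : ∀ i, co F ℓ x i = kapa π (fun k => lor x.1 (w k)) i := by
    intro i
    rw [co_eq hF, kapa]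
    symm
    refine Finset.prod_bij (fun k _ => p k) (fun k hk => ?_) (fun k _ l _ e => hi e)
      (fun v hv => ?_) (fun k _ => ?_)
    · refine Finset.mem_filter.2 ⟨hn k, ?_⟩
      rw [hp2, hπ k]
      simpa [Ik] using hk
    · obtain ⟨h1, h2⟩ := Finset.mem_filter.1 hv
      obtain ⟨k, hk⟩ := ((mem_near hF).1 h1).1
      obtain rfl : v = p k := hF.same k v hk _ (hp1 k) (near_le hF h1 (hn k))
      refine ⟨k, ?_, rfl⟩
      rw [hp2, hπ k] at h2
      simpa [Ik] using h2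
    · rw [hp3, min_eq_right (hx k).le]
  refine Subtype.ext (funext fun i => ?_)
  change tm hF hℓ x i = kap π _ i
  simp only [tm_apply, kap_apply, key]

lemma lower_eq {D : Finset (Fin (n + 1))} (hD : ∀ i j, i < j → j ∈ D → i ∈ D) {k : Fin n}
    (hc : D.card = k + 1) : D = Ik k := by
  ext j
  simp only [Ik, Finset.mem_Iic, Fin.le_def, Fin.val_castSucc]
  constructor
  · intro hj
    have : Finset.Iic j ⊆ D := fun i hi => by
      rcases (Finset.mem_Iic.1 hi).eq_or_lt with rfl | h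
      exacts [hj, hD i j h hj]
    have := Finset.card_le_card this
    rw [Fin.card_Iic, hc] at this
    omega
  · intro hj
    by_contra h
    have : D ⊆ Finset.Iio j := fun i hi => by
      rw [Finset.mem_Iio]
      by_contra h'
      rcases (not_lt.1 h').eq_or_lt with rfl | h'
      exacts [h hi, h (hD j i h' hi)]
    have := Finset.card_le_card this
    rw [Fin.card_Iio, hc] at this
    omega

lemma tm_half (hF : Fam F B) (hℓ : Lab F ℓ) (x : Hyp n) (π : Equiv.Perm (Fin (n + 1)))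
    (h : tm hF hℓ x = kap π half) :
    ∃ w, SFrame F w ∧ Flg ℓ w π ∧ ∀ k, lor x.1 (w k) = 1 / 2 := by
  classical
  have hp : ∀ i, 0 < kap π half i := kap_pos π fun l => by norm_num [half]
  have hh : ∀ k : Fin n, min 1 |(half : E n) k| = 1 / 2 := fun k => by
    norm_num [half, abs_of_pos]
  have hS := sum_co_pos hF hℓ x
  have h1 : ∀ k : Fin n, co F ℓ x (π k.succ) < co F ℓ x (π k.castSucc) := by
    intro k
    have a1 := kap_succ π half k
    have a2 := hp (π k.castSucc)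
    rw [hh, ← h, tm_apply, tm_apply] at a1
    rw [← h, tm_apply] at a2
    rw [← div_lt_div_iff_of_pos_right hS]
    linarith
  have h2 : StrictAnti fun j => co F ℓ x (π j) := Fin.strictAnti_iff_succ_lt.2 h1
  have h3 : ∀ i j, co F ℓ x j < co F ℓ x i → ∃ v ∈ near hF x, i ∈ ℓ v ∧ j ∉ ℓ v := by
    intro i j hij
    by_contra hc
    push Not at hc
    refine hij.not_ge ?_
    rw [co_eq hF, co_eq hF]
    refine Finset.prod_le_prod_of_subset_of_le_one (fun v hv => ?_) (fun _ _ => abs_nonneg _)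
      fun v hv _ => ((mem_near hF).1 (Finset.mem_filter.1 hv).1).2.le
    obtain ⟨a1, a2⟩ := Finset.mem_filter.1 hv
    exact Finset.mem_filter.2 ⟨a1, fun a3 => a2 (hc v a1 a3)⟩
  have h4 : ∀ v ∈ near hF x, ∀ k, v ∈ F k → ℓ v = (Ik k).map π.toEmbedding := by
    intro v hv k hk
    have : (ℓ v).map π.symm.toEmbedding = Ik k := by
      refine lower_eq (fun i j hij hj => ?_) (by rw [Finset.card_map, hℓ.card k v hk])
      simp only [Finset.mem_map_equiv, Equiv.symm_symm] at hj ⊢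
      obtain ⟨v', hv', a1, a2⟩ := h3 _ _ (h2 hij)
      obtain ⟨l, hl⟩ := ((mem_near hF).1 hv').1
      rcases le_total k l with e | e
      · exact absurd (near_sub hF hℓ hv hv' hk hl e hj) a2
      · exact near_sub hF hℓ hv' hv hl hk e a1
    rw [← this, Finset.map_map]
    simp
  have h5 : ∀ k : Fin n, ∃ v ∈ near hF x, v ∈ F k := by
    intro k
    obtain ⟨v, hv, a1, a2⟩ := h3 _ _ (h1 k)
    obtain ⟨l, hl⟩ := ((mem_near hF).1 hv).1
    rw [h4 v hv l hl] at a1 a2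
    simp only [Finset.mem_map_equiv, Equiv.symm_apply_apply, Ik, Finset.mem_Iic, Fin.le_def,
      Fin.val_castSucc, Fin.val_succ] at a1 a2
    obtain rfl : l = k := Fin.ext (by omega)
    exact ⟨v, hv, hl⟩
  choose p hp1 hp2 using h5
  have ho : ∀ k l, k ≠ l → lor (p k) (p l) = 0 := fun k l e =>
    hF.orth k l e _ (hp2 k) _ (hp2 l) (near_le hF (hp1 k) (hp1 l))
  have hlt : ∀ k, |lor x.1 (p k)| < 1 := fun k => ((mem_near hF).1 (hp1 k)).2
  have h6 := tm_frame hF hℓ (w := p) ⟨fun k => Or.inl (hp2 k), ho⟩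
    (fun k => h4 _ (hp1 k) k (hp2 k)) x hlt
  have h7 : ∀ k, |lor x.1 (p k)| = 1 / 2 := by
    intro k
    have a1 := kap_succ π (fun k => lor x.1 (p k)) k
    rw [← h6, h, kap_succ, hh, min_eq_right (hlt k).le] at a1
    exact (mul_left_cancel₀ (hp _).ne' a1).symm
  refine ⟨fun k => if lor x.1 (p k) = 1 / 2 then p k else -p k, ⟨fun k => ?_, fun k l e => ?_⟩,
    fun k => ?_, fun k => ?_⟩
  · dsimp only
    split_ifs
    exacts [Or.inl (hp2 k), Or.inr (by simpa using hp2 k)]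
  · dsimp only
    split_ifs <;> simp [ho k l e]
  · dsimp only
    split_ifs
    exacts [h4 _ (hp1 k) k (hp2 k), by rw [hℓ.neg]; exact h4 _ (hp1 k) k (hp2 k)]
  · dsimp only
    split_ifs with e
    · exact e
    · rcases (abs_eq (by norm_num)).1 (h7 k) with e' | e'
      · exact absurd e' e
      · rw [lor_neg_right, e', neg_neg]

end Tm

theorem exists_tm {F : Fin n → Set (V n)} {B : ℝ} (hF : Fam F B)
    {ℓ : V n → Finset (Fin (n + 1))} (hℓ : Lab F ℓ) : ∃ t : C(Hyp n, Dl (n + 1)),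
      (∀ γ : Isom n, (∀ k v, γ • v ∈ F k ↔ v ∈ F k) → (∀ w ∈ sym F, ℓ (γ • w) = ℓ w) →
        ∀ x, t (γ • x) = t x) ∧
      (∀ x : Hyp n, ∀ w ∈ sym F, lor x.1 w = 0 → ∀ i, i ∉ ℓ w → t x i = 0) ∧
      (∀ w π, SFrame F w → Flg ℓ w π → ∀ x : Hyp n, (∀ k, |lor x.1 (w k)| < 1) →
        t x = kap π fun k => lor x.1 (w k)) ∧
      ∀ (x : Hyp n) π, t x = kap π half →
        ∃ w, SFrame F w ∧ Flg ℓ w π ∧ ∀ k, lor x.1 (w k) = 1 / 2 := by
  refine ⟨Tm.tm hF hℓ, fun γ h1 h2 x => ?_, ?_, fun w π hw hπ => Tm.tm_frame hF hℓ hw hπ,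
    Tm.tm_half hF hℓ⟩
  · refine Subtype.ext (funext fun i => ?_)
    change Tm.tm hF hℓ _ i = Tm.tm hF hℓ _ i
    simp only [Tm.tm_apply, Tm.co_smul γ h1 h2]
  · rintro x w ⟨k, hk⟩ h0 i hi
    obtain ⟨v, hv, a1, a2⟩ := Tm.exists_pos hℓ hk x
    rw [h0, abs_zero] at a2
    rw [Tm.tm_apply, Tm.co_eq hF, Finset.prod_eq_zero (i := v) _ a2, zero_div]
    exact Finset.mem_filter.2 ⟨(Tm.mem_near hF).2 ⟨⟨k, hv⟩, by rw [a2]; exact one_pos⟩, a1 ▸ hi⟩

end

end Pool.Agent.URC
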