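import Pool.Agent.P.MP_797ab1_gt.Cover
import Pool.Agent.P.MP_797ab1_gt.TMap
import Pool.Agent.P.MP_797ab1_gt.Frames

/-! Auxiliary lemmas for the final assembly. -/

open Set Function Topology Pointwise

namespace Pool.Agent.URC

variable {n : ℕ}

lemma exists_G {W : Set (V n)} (hW : Walls W) {U Q : Type*} [TopologicalSpace Q]
    (ι : U → C(Dl (n + 1), Q)) (st : Set (V n) → U) (t : C(Hyp n, Dl (n + 1)))
    (h : ∀ o w (x : Hyp n), IsOri W o → w ∈ o → IsOri W (flip o w) → lor x.1 w = 0 →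
      ι (st (flip o w)) (t x) = ι (st o) (t x)) :
    ∃ G : C(Hyp n, Q), ∀ x o, IsOri W o → At x o → G x = ι (st o) (t x) := by
  have wd : ∀ x o o', IsOri W o → IsOri W o' → At x o → At x o' →
      ι (st o) (t x) = ι (st o') (t x) := by
    intro x o o' ho ho' h1 h2
    refine ori_induction hW ho' (P := fun o => At x o → ι (st o) (t x) = ι (st o') (t x))
      (fun _ => rfl) ?_ ho h1
    intro o w ho hw hw' hf ih h1
    have h3 : lor x.1 w = 0 :=
      le_antisymm (by simpa using h2 _ (ho'.neg_mem (ho.sub w hw) hw')) (h1 w hw)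
    rw [← h o w x ho hw hf h3]
    refine ih ?_
    rintro a (rfl | ⟨ha, -⟩)
    · simp [h3]
    · exact h1 a ha
  choose O hO1 hO2 using exists_ori_at hW
  refine ⟨⟨fun x => ι (st (O x)) (t x), ?_⟩, fun x o ho h1 => wd x _ _ (hO1 x) ho (hO2 x) h1⟩
  refine LocallyFinite.continuous (f := fun o : {o // IsOri W o} => {x | At x o.1}) ?_ ?_ ?_ ?_
  · intro x
    refine ⟨{y | dd e0 y < dd e0 x + 1}, (isOpen_lt (by fun_prop) continuous_const).mem_nhds
      (by simp), ?_⟩
    refine Finite.subset ((finite_ori hW (dd e0 x + 1) 0 le_rfl).preimage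
      Subtype.val_injective.injOn) ?_
    rintro o ⟨y, h1, h2⟩
    exact ⟨o.2, y, le_of_lt h2, fun w hw => by simpa using h1 w hw⟩
  · exact eq_univ_of_forall fun x => mem_iUnion.2 ⟨⟨O x, hO1 x⟩, hO2 x⟩
  · intro o
    have : {x : Hyp n | At x o.1} = ⋂ w ∈ o.1, {x | 0 ≤ lor x.1 w} := by
      ext x; simp [At]
    rw [this]
    exact isClosed_biInter fun w _ => isClosed_le continuous_const (by fun_prop)
  · intro o
    exact ((ι (st o.1)).continuous.comp t.continuous).continuousOn.congr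
      fun x hx => wd x _ _ (hO1 x) o.2 (hO2 x) hx

lemma flg_unique {ℓ : V n → Finset (Fin (n + 1))} {w : Fin n → V n}
    {π π' : Equiv.Perm (Fin (n + 1))} (h : Flg ℓ w π) (h' : Flg ℓ w π') : π = π' := by
  have h1 : ∀ i, π'.symm (π i) ≤ i := by
    intro i
    refine Fin.lastCases (Fin.le_last _) (fun k => ?_) i
    have : π k.castSucc ∈ (Ik k).map π'.toEmbedding := by
      rw [← h' k, h k]
      exact Finset.mem_map_of_mem _ (by simp [Ik])
    simpa [Ik] using this
  have h2 : ∀ i, π'.symm (π i) = i := by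
    intro i
    induction i using WellFoundedLT.induction with
    | ind i ih =>
      rcases (h1 i).lt_or_eq with h3 | h3
      · have := ih _ h3
        exact π.injective (π'.symm.injective this)
      · exact h3
  ext i
  rw [← (π'.symm_apply_eq.1 (h2 i))]

variable {F : Fin n → Set (V n)} {B : ℝ}

lemma Fam.eq_or_neg (hF : Fam F B) {k : Fin n} {a b : V n} (ha : a ∈ F k ∨ -a ∈ F k)
    (hb : b ∈ F k ∨ -b ∈ F k) (h : |lor a b| ≤ B) : a = b ∨ a = -b := by
  rcases ha with ha | ha <;> rcases hb with hb | hb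
  · exact Or.inl (hF.same k _ ha _ hb h)
  · exact Or.inr (hF.same k _ ha _ hb (by simpa using h))
  · exact Or.inr (neg_eq_iff_eq_neg.1 (hF.same k _ ha _ hb (by simpa using h)))
  · exact Or.inl (neg_injective (hF.same k _ ha _ hb (by simpa using h)))

lemma sframe_unique (hF : Fam F B) {w w' : Fin n → V n} (hw : SFrame F w) (hw' : SFrame F w')
    {x : Hyp n} (h : ∀ k, lor x.1 (w k) = 1 / 2) (h' : ∀ k, lor x.1 (w' k) = 1 / 2) : w = w' := by
  funext k
  have := abs_lor_lor_le x ((hw.on hF).1 k) ((hw'.on hF).1 k) (a := 1) (b := 1)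
    (by rw [h]; norm_num [abs_le]) (by rw [h']; norm_num [abs_le])
  rcases hF.eq_or_neg (hw.1 k) (hw'.1 k) (by linarith [hF.le_B]) with e | e
  · exact e
  · have h1 := h k
    rw [e, lor_neg_right, h'] at h1
    norm_num at h1

lemma SFrame.smul {Γ : Subgroup (Isom n)} (hI : ∀ k, Invt Γ (F k)) {γ : Isom n} (hγ : γ ∈ Γ)
    {w : Fin n → V n} (hw : SFrame F w) : SFrame F (γ • w) :=
  ⟨fun k => (hw.1 k).imp (hI k γ hγ _) fun h => by
    simpa [← smul_neg] using hI k γ hγ _ h, fun k l hkl => by simpa using hw.2 k l hkl⟩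

lemma lor_chi_symm {w : Fin n → V n} (hw : ON w) (y : E n) (k : Fin n) :
    lor ((chi w).symm y).1 (w k) = y k := by
  rw [← chi_apply hw, Homeomorph.apply_symm_apply]

lemma eq_chi_symm {w : Fin n → V n} (hw : ON w) {x : Hyp n} {y : E n}
    (h : ∀ k, lor x.1 (w k) = y k) : x = (chi w).symm y := by
  rw [Homeomorph.eq_symm_apply]
  funext k
  rw [chi_apply hw, h]

lemma Lab.ne_univ (hF : Fam F B) {ℓ : V n → Finset (Fin (n + 1))} (hℓ : Lab F ℓ) {w : V n}
    (hw : w ∈ sym F) : ℓ w ≠ Finset.univ := by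
  intro e
  obtain ⟨k, hk⟩ := hw
  have : (ℓ w).card = k + 1 := hk.elim (hℓ.card k w) fun h => by
    rw [← hℓ.neg]; exact hℓ.card k _ h
  rw [e] at this
  have := k.2
  simp at *
  omega

lemma Lab.nested (hF : Fam F B) {ℓ : V n → Finset (Fin (n + 1))} (hℓ : Lab F ℓ) {a b : V n}
    (ha : a ∈ sym F) (hb : b ∈ sym F) (h : |lor a b| < 1) : ℓ a ⊆ ℓ b ∨ ℓ b ⊆ ℓ a := by
  have key : ∀ k l, ∀ a ∈ F k, ∀ b ∈ F l, |lor a b| < 1 → ℓ a ⊆ ℓ b ∨ ℓ b ⊆ ℓ a := by
    intro k l a ha b hb h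
    have hB : |lor a b| ≤ B := by linarith [hF.le_B]
    rcases lt_trichotomy k l with e | e | e
    · exact Or.inl (hℓ.nest k l e a ha b hb (hF.orth k l e.ne a ha b hb hB))
    · subst e
      rw [hF.same k a ha b hb hB]
      exact Or.inl subset_rfl
    · exact Or.inr (hℓ.nest l k e b hb a ha (by
        rw [lor_comm]; exact hF.orth k l e.ne' a ha b hb hB))
  obtain ⟨k, ha | ha⟩ := ha <;> obtain ⟨l, hb | hb⟩ := hb
  · exact key k l a ha b hb h
  · simpa [hℓ.neg] using key k l a ha _ hb (by simpa using h)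
  · simpa [hℓ.neg] using key k l _ ha _ hb (by simpa using h)
  · simpa [hℓ.neg] using key k l _ ha _ hb (by simpa using h)

lemma bary_pos (i : Fin (n + 1)) : 0 < (stdSimplex.barycenter : Dl (n + 1)) i := by
  change 0 < (stdSimplex.barycenter : Dl (n + 1)).1 i
  rw [stdSimplex.barycenter_apply]; positivity

section Q

variable {U Q : Type*} [TopologicalSpace Q] {ι : U → C(Dl (n + 1), Q)}

lemma bd_iota_mem (hi : ∀ u, Injective (ι u)) (u : U) {K : Set (Dl (n + 1))} {L : Set Q}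
    (hK : ∀ t ∈ K, ∀ i, 0 < t i) (hL : L ⊆ ι u '' K) :
    bd (Finsupp.single (ι u) (1 : ℤ)) ∈ ChIn Lᶜ n := by
  rw [bd_single]
  refine Submodule.sum_mem _ fun i _ => Submodule.smul_mem _ _ (single_mem_ChIn _ fun t ht => ?_)
  obtain ⟨s, hs, e⟩ := hL ht
  have := hK s hs i
  rw [hi u e] at this
  simp at this

/-- the class of the simplex `ι u` at an interior point -/
noncomputable def cls (hi : ∀ u, Injective (ι u)) (u : U) (t : Dl (n + 1)) (ht : ∀ i, 0 < t i) :
    HH ({ι u t}ᶜ : Set Q) n :=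
  HH.mk (Finsupp.single (ι u) 1) (bd_iota_mem hi u (K := {t}) (by simpa using ht) (by simp))

variable (hi : ∀ u, Injective (ι u))
  (hb : ∀ u (K : Set (Dl (n + 1))), IsClosed K → (∀ t ∈ K, ∀ i, 0 < t i) →
    ∀ h : MapsTo (ι u) Kᶜ (ι u '' K)ᶜ, Bijective (HH.map (ι u) h : HH Kᶜ n → HH (ι u '' K)ᶜ n))

include hb in
lemma gen_iota (u : U) {K : Set (Dl (n + 1))} {L : Set Q} (hL : L = ι u '' K) (hK : IsClosed K)
    (hc : Convex ℝ (Subtype.val '' K)) (hne : K.Nonempty) (hp : ∀ t ∈ K, ∀ i, 0 < t i) :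
    Gen (HH.mk (Finsupp.single (ι u) 1) (bd_iota_mem hi u hp hL.le) : HH Lᶜ n) := by
  subst hL
  have hm : MapsTo (ι u) Kᶜ (ι u '' K)ᶜ := fun t ht ⟨s, hs, e⟩ => ht (hi u e ▸ hs)
  have := (gen_simplex hK hc hne hp).map _ (hb u K hK hp hm)
  simpa only [HH.map_mk, push_single, ContinuousMap.comp_id] using this

include hb in
lemma gen_cls (u : U) (t : Dl (n + 1)) (ht : ∀ i, 0 < t i) : Gen (cls hi u t ht) :=
  gen_iota hi hb u (K := {t}) (by simp) isClosed_singleton (by simp) (by simp) (by simpa using ht)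

include hb in
lemma exists_deg (α : HH (∅ : Set Q) n) (u : U) : ∃ d : ℤ, ∀ (t : Dl (n + 1)) (ht : ∀ i, 0 < t i),
    HH.res (empty_subset _) α = d • cls hi u t ht := by
  have hb0 := bary_pos (n := n)
  obtain ⟨d, hd⟩ := (gen_cls hi hb u _ hb0).2 (HH.res (empty_subset _) α)
  refine ⟨d, fun t ht => ?_⟩
  set b : Dl (n + 1) := stdSimplex.barycenter
  set K : Set (Dl (n + 1)) := Subtype.val ⁻¹' segment ℝ b.1 t.1 with hK
  have hsub : segment ℝ b.1 t.1 ⊆ stdSimplex ℝ (Fin (n + 1)) :=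
    (convex_stdSimplex ℝ _).segment_subset b.2 t.2
  have hcl : IsClosed K := by
    refine IsClosed.preimage continuous_subtype_val ?_
    rw [segment_eq_image]
    exact (isCompact_Icc.image (by fun_prop)).isClosed
  have hp : ∀ s ∈ K, ∀ i, 0 < s i := by
    rintro s ⟨a, c, ha, hc, hac, e⟩ i
    have h1 : s i = a * b i + c * t i := (congrFun e i).symm
    have h2 := hb0 i
    have h3 := ht i
    rw [h1]
    rcases ha.lt_or_eq with ha | rfl
    · positivity
    · rw [zero_add] at hac; rw [hac]; simpa using h3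
  have hbK : b ∈ K := left_mem_segment ℝ b.1 t.1
  have htK : t ∈ K := right_mem_segment ℝ b.1 t.1
  obtain ⟨a, ha⟩ := (gen_iota hi hb u (K := K) rfl hcl (by
    rw [hK, image_preimage_eq_of_subset (by simpa using hsub)]
    exact convex_segment _ _) ⟨b, hbK⟩ hp).2 (HH.res (empty_subset _) α)
  have key : ∀ s (hs : s ∈ K), HH.res (empty_subset _) α = a • cls hi u s (hp s hs) := by
    intro s hs
    have h1 : (ι u '' K)ᶜ ⊆ {ι u s}ᶜ := sub_compl (singleton_subset_iff.2 ⟨s, hs, rfl⟩)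
    have := congrArg (HH.res h1) ha
    simp only [map_zsmul, HH.res_res, HH.res_mk] at this
    exact this.symm
  have : a = d := (gen_cls hi hb u _ hb0).1 ((key b hbK).symm.trans hd.symm)
  rw [← this]
  exact key t htK

end Q

end Pool.Agent.URC
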