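import Pool.Agent.P.MP_797ab1_gt.Ori

/-! Shared definitions for the geometric part. -/

open Set Pointwise

namespace Pool.Agent.URC

noncomputable section

variable {n : ℕ}

/-- far away points are robustly separated by a wall -/
def Sep (W : Set (V n)) (κ : ℝ) : Prop :=
  ∀ x x' : Hyp n, κ ≤ dd x x' → ∃ c ∈ W, (∀ p : Hyp n, κ * dd p x ≤ dd p x' → 0 < lor p.1 c) ∧
    ∀ p : Hyp n, κ * dd p x' ≤ dd p x → lor p.1 c < 0

/-- a cocompact group acting specially on a family of walls -/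
structure Good (Γ : Subgroup (Isom n)) (W : Set (V n)) (κ B : ℝ) : Prop where
  walls : Walls W
  invt : Invt Γ W
  cocpt : Cocpt Γ
  sep : Sep W κ
  one_le : 1 ≤ κ
  rigid : Rigid Γ W B
  displ : Displ Γ B
  big : 1000 * κ ≤ B

lemma Cocpt.mono {Γ Γ' : Subgroup (Isom n)} (h : Cocpt Γ) (hi : Γ'.relIndex Γ ≠ 0) :
    Cocpt Γ' := by
  obtain ⟨R, hR⟩ := h
  have : (Γ'.subgroupOf Γ).FiniteIndex := ⟨hi⟩
  obtain ⟨M, hM⟩ := (finite_range fun q : Γ ⧸ Γ'.subgroupOf Γ =>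
    dd (e0 : Hyp n) ((q.out : Γ).1⁻¹ • e0)).bddAbove
  refine ⟨2 * M * R, fun x => ?_⟩
  obtain ⟨γ, hγ, h1⟩ := hR x
  obtain ⟨δ, hδ⟩ := QuotientGroup.mk_out_eq_mul (Γ'.subgroupOf Γ) (⟨γ, hγ⟩ : Γ)
  set q : Γ ⧸ Γ'.subgroupOf Γ := QuotientGroup.mk ⟨γ, hγ⟩
  have h2 : dd (e0 : Hyp n) ((q.out : Γ).1⁻¹ • e0) ≤ M := hM ⟨q, rfl⟩
  refine ⟨(δ.1.1)⁻¹, inv_mem δ.2, ?_⟩
  have h3 : (δ.1.1)⁻¹ • x = (q.out : Γ).1⁻¹ • γ • x := by
    rw [hδ, smul_smul]; simp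
  rw [h3]
  refine (dd_tri _ ((q.out : Γ).1⁻¹ • e0) _).trans ?_
  rw [dd_smul_smul]
  have := dd_pos (e0 : Hyp n) (γ • x)
  have := (dd_pos _ _).trans_le h2
  gcongr

lemma Good.mono {Γ Γ' : Subgroup (Isom n)} {W : Set (V n)} {κ B : ℝ} (h : Good Γ W κ B)
    (hle : Γ' ≤ Γ) (hi : Γ'.relIndex Γ ≠ 0) : Good Γ' W κ B :=
  { h with
    invt := fun γ hγ => h.invt γ (hle hγ)
    cocpt := h.cocpt.mono hi
    rigid := ⟨fun γ hγ => h.rigid.1 γ (hle hγ), fun γ hγ => h.rigid.2 γ (hle hγ)⟩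
    displ := fun γ hγ => h.displ γ (hle hγ) }

/-- a sparse typed family of walls: two members are equal, orthogonal or far apart -/
structure Fam (F : Fin n → Set (V n)) (B : ℝ) : Prop where
  unit : ∀ k, ∀ v ∈ F k, lor v v = 1
  fin : ∀ k (R : ℝ), {v | v ∈ F k ∧ |lor (e0 : Hyp n).1 v| ≤ R}.Finite
  same : ∀ k, ∀ v ∈ F k, ∀ v' ∈ F k, |lor v v'| ≤ B → v = v'
  orth : ∀ k l, k ≠ l → ∀ v ∈ F k, ∀ v' ∈ F l, |lor v v'| ≤ B → lor v v' = 0
  big : 4 * (n : ℝ) + 100 ≤ B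

lemma Good.fam {Γ : Subgroup (Isom n)} {W : Set (V n)} {κ B : ℝ} (h : Good Γ W κ B)
    (he : ∀ k, ev k ∈ W) (hB : 4 * (n : ℝ) + 100 ≤ B) :
    Fam (fun k : Fin n => {v : V n | ∃ γ ∈ Γ, γ • ev k = v}) B where
  unit := by
    rintro k _ ⟨γ, -, rfl⟩
    simp [lor_ev_ev]
  fin k R := (h.walls.fin R).subset (by
    rintro _ ⟨⟨γ, hγ, rfl⟩, h2⟩
    exact ⟨h.invt γ hγ _ (he k), h2⟩)
  same := by
    rintro k _ ⟨γ, hγ, rfl⟩ _ ⟨γ', hγ', rfl⟩ h1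
    rw [lor_smul_eq, smul_smul] at h1
    have := h.rigid.2 _ (mul_mem (inv_mem hγ) hγ') _ (he k) h1
    rw [mul_smul, inv_smul_eq_iff] at this
    exact this.symm
  orth := by
    rintro k l hkl _ ⟨γ, hγ, rfl⟩ _ ⟨γ', hγ', rfl⟩ h1
    rw [lor_smul_eq, smul_smul] at h1 ⊢
    have h0 : lor (ev k : V n) (ev l) = 0 := by simp [lor_ev_ev, hkl]
    rw [h.rigid.1 _ (mul_mem (inv_mem hγ) hγ') _ (he k) _ (he l) _ h1, h0]
    rw [h0, abs_zero]
    have : (0 : ℝ) ≤ n := Nat.cast_nonneg n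
    linarith
  big := hB

variable {F : Fin n → Set (V n)} {B : ℝ}

lemma Fam.le_B (h : Fam F B) : 100 ≤ B := by
  have : (0 : ℝ) ≤ n := Nat.cast_nonneg n
  linarith [h.big]

lemma Fam.type_eq (h : Fam F B) {k l : Fin n} {v : V n} (hk : v ∈ F k) (hl : v ∈ F l) : k = l := by
  by_contra hne
  have h1 := h.unit k v hk
  have := h.orth k l hne v hk v hl (by rw [h1]; linarith [h.le_B, abs_one (α := ℝ)])
  linarith

lemma Fam.neg_notMem (h : Fam F B) {k l : Fin n} {v : V n} (hk : v ∈ F k) : -v ∉ F l := by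
  intro hl
  have h1 := h.unit k v hk
  have hb : |lor v (-v)| ≤ B := by simp [h1]; linarith [h.le_B]
  by_cases e : k = l
  · subst e
    have h2 := h.same k v hk _ hl hb
    have : lor v v = -lor v v := by conv_lhs => rw [h2, lor_neg_left, ← h2]
    linarith
  · have := h.orth k l e v hk _ hl hb
    simp [h1] at this

/-- the symmetric family of walls -/
def sym (F : Fin n → Set (V n)) : Set (V n) := {w | ∃ k, w ∈ F k ∨ -w ∈ F k}

lemma Fam.walls (h : Fam F B) : Walls (sym F) where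
  unit := by
    rintro w ⟨k, hw | hw⟩
    exacts [h.unit k w hw, by simpa using h.unit k _ hw]
  neg := by
    rintro w ⟨k, hw | hw⟩
    exacts [⟨k, Or.inr (by simpa using hw)⟩, ⟨k, Or.inl hw⟩]
  fin R := by
    refine (finite_iUnion fun k => (h.fin k R).union ((h.fin k R).image Neg.neg)).subset ?_
    rintro w ⟨⟨k, hw | hw⟩, h2⟩
    · exact mem_iUnion.2 ⟨k, Or.inl ⟨hw, h2⟩⟩
    · exact mem_iUnion.2 ⟨k, Or.inr ⟨-w, ⟨hw, by simpa using h2⟩, neg_neg w⟩⟩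

lemma invt_sym {Γ : Subgroup (Isom n)} (h : ∀ k, Invt Γ (F k)) : Invt Γ (sym F) := by
  rintro γ hγ w ⟨k, hw | hw⟩
  exacts [⟨k, Or.inl (h k γ hγ w hw)⟩, ⟨k, Or.inr (by rw [← smul_neg]; exact h k γ hγ _ hw)⟩]

/-- cliques: finite sets of pairwise orthogonal members of the family -/
def Clq (F : Fin n → Set (V n)) (σ : Finset (V n)) : Prop :=
  (∀ v ∈ σ, ∃ k, v ∈ F k) ∧ ∀ v ∈ σ, ∀ v' ∈ σ, v ≠ v' → lor v v' = 0

/-- neighbouring cliques of size `m` -/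
def Nb (F : Fin n → Set (V n)) (m : ℕ) (σ σ' : Finset (V n)) : Prop :=
  σ.card = m ∧ σ'.card = m ∧ Clq F (σ ∪ σ')

/-- the union of the subspaces in the component of `σ₀` -/
def YY (F : Fin n → Set (V n)) (m : ℕ) (σ₀ : Finset (V n)) : Set (Hyp n) :=
  {z | ∃ σ, Relation.ReflTransGen (Nb F m) σ₀ σ ∧ ∀ v ∈ σ, lor z.1 v = 0}

/-- frames: one member of each type, pairwise orthogonal -/
def Frame (F : Fin n → Set (V n)) (p : Fin n → V n) : Prop :=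
  (∀ k, p k ∈ F k) ∧ ∀ k l, k ≠ l → lor (p k) (p l) = 0

/-- signed frames -/
def SFrame (F : Fin n → Set (V n)) (w : Fin n → V n) : Prop :=
  (∀ k, w k ∈ F k ∨ -w k ∈ F k) ∧ ∀ k l, k ≠ l → lor (w k) (w l) = 0

/-- the standard flag -/
def Ik (k : Fin n) : Finset (Fin (n + 1)) := Finset.Iic k.castSucc

/-- a labelling of the symmetric family by nested subsets -/
structure Lab (F : Fin n → Set (V n)) (ℓ : V n → Finset (Fin (n + 1))) : Prop where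
  neg : ∀ w, ℓ (-w) = ℓ w
  card : ∀ k, ∀ v ∈ F k, (ℓ v).card = k + 1
  nest : ∀ k l, k < l → ∀ v ∈ F k, ∀ v' ∈ F l, lor v v' = 0 → ℓ v ⊆ ℓ v'

/-- the signed frame `w` has flag `π` -/
def Flg (ℓ : V n → Finset (Fin (n + 1))) (w : Fin n → V n) (π : Equiv.Perm (Fin (n + 1))) : Prop :=
  ∀ k, ℓ (w k) = (Ik k).map π.toEmbedding

end

end Pool.Agent.URC
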