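import Pool.Agent.P.MP_797ab1_gt.Defs

/-! Basic facts on singular chains, and relative homology groups `HH A k = H_k(X, A)`. -/

open Set

namespace Pool.Agent.URC

noncomputable section

variable {X Y Z : Type*} [TopologicalSpace X] [TopologicalSpace Y] [TopologicalSpace Z]

@[simp] lemma face_same {k : ℕ} (i : Fin (k + 1)) (t : Dl k) : (face i t) i = 0 := by
  change FunOnFinite.linearMap ℝ ℝ i.succAbove t i = 0
  rw [FunOnFinite.linearMap_apply_apply]
  refine Finset.sum_eq_zero fun j hj => ?_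
  simp at hj

@[simp] lemma face_succAbove {k : ℕ} (i : Fin (k + 1)) (t : Dl k) (j : Fin k) :
    (face i t) (i.succAbove j) = t j := by
  change FunOnFinite.linearMap ℝ ℝ i.succAbove t (i.succAbove j) = t j
  rw [FunOnFinite.linearMap_apply_apply]
  have : (Finset.univ.filter fun x : Fin k => i.succAbove x = i.succAbove j) = {j} := by
    ext x; simp
  rw [this, Finset.sum_singleton]

lemma exists_face {k : ℕ} (i : Fin (k + 1)) (t : Dl (k + 1)) (h : t i = 0) :
    ∃ s : Dl k, face i s = t := by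
  refine ⟨⟨fun j => t (i.succAbove j), fun j => t.2.1 _, ?_⟩, ?_⟩
  · have := t.2.2
    rw [Fin.sum_univ_succAbove _ i] at this
    have h' : t.1 i = 0 := h
    rw [h', zero_add] at this
    exact this
  · ext j
    refine Fin.succAboveCases i ?_ (fun j => ?_) j
    · rw [face_same, h]
    · rw [face_succAbove]; rfl

lemma face_comp_face {k : ℕ} (i : Fin (k + 2)) (j : Fin (k + 1)) :
    (face (i.succAbove j)).comp (face (j.predAbove i)) = (face i).comp (face j) := by
  ext1 t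
  change stdSimplex.map _ (stdSimplex.map _ t) = stdSimplex.map _ (stdSimplex.map _ t)
  rw [stdSimplex.map_comp_apply, stdSimplex.map_comp_apply]
  congr 1
  funext l
  exact Fin.succAbove_succAbove_succAbove_predAbove i j l

/-- the `i`-th face operator -/
def bdi {k : ℕ} (i : Fin (k + 1)) : Ch X (k + 1) →ₗ[ℤ] Ch X k :=
  Finsupp.lmapDomain ℤ ℤ fun σ => σ.comp (face i)

@[simp] lemma bdi_single {k : ℕ} (i : Fin (k + 1)) (σ : C(Dl (k + 1), X)) (m : ℤ) :
    bdi i (Finsupp.single σ m) = Finsupp.single (σ.comp (face i)) m := by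
  simp [bdi, Finsupp.mapDomain_single]

lemma bd_eq {k : ℕ} (c : Ch X (k + 1)) :
    bd c = ∑ i : Fin (k + 1), (-1 : ℤ) ^ (i : ℕ) • bdi i c := by
  simp [bd, bdi, LinearMap.sum_apply]

lemma bd_single {k : ℕ} (σ : C(Dl (k + 1), X)) (m : ℤ) :
    bd (Finsupp.single σ m) =
      ∑ i : Fin (k + 1), (-1 : ℤ) ^ (i : ℕ) • Finsupp.single (σ.comp (face i)) m := by
  simp only [bd_eq, bdi_single]

@[simp] lemma push_single {k : ℕ} (f : C(X, Y)) (σ : C(Dl k, X)) (m : ℤ) :
    push f (Finsupp.single σ m) = Finsupp.single (f.comp σ) m := by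
  simp [push, Finsupp.mapDomain_single]

lemma push_push {k : ℕ} (g : C(Y, Z)) (f : C(X, Y)) (c : Ch X k) :
    push g (push f c) = push (g.comp f) c := by
  induction c using Finsupp.induction_linear with
  | zero => simp
  | add a b ha hb => simp [ha, hb]
  | single σ m => simp [ContinuousMap.comp_assoc]

@[simp] lemma push_id {k : ℕ} (c : Ch X k) : push (ContinuousMap.id X) c = c := by
  induction c using Finsupp.induction_linear with
  | zero => simp
  | add a b ha hb => simp [ha, hb]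
  | single σ m => simp

lemma bdi_push {k : ℕ} (i : Fin (k + 1)) (f : C(X, Y)) (c : Ch X (k + 1)) :
    bdi i (push f c) = push f (bdi i c) := by
  induction c using Finsupp.induction_linear with
  | zero => simp
  | add a b ha hb => simp [ha, hb]
  | single σ m => simp [ContinuousMap.comp_assoc]

lemma bd_push {k : ℕ} (f : C(X, Y)) (c : Ch X (k + 1)) : bd (push f c) = push f (bd c) := by
  simp only [bd_eq, bdi_push, map_sum, map_smul]

@[simp] lemma bd_bd {k : ℕ} (c : Ch X (k + 2)) : bd (bd c) = 0 := by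
  induction c using Finsupp.induction_linear with
  | zero => simp
  | add a b ha hb => simp [ha, hb]
  | single σ m =>
    rw [bd_single, map_sum]
    simp only [map_smul, bd_single, Finset.smul_sum]
    rw [← Finset.sum_product']
    refine Finset.sum_involution (fun p _ => (p.1.succAbove p.2, p.2.predAbove p.1)) ?_ ?_ ?_ ?_
    · rintro ⟨i, j⟩ _
      simp only [smul_smul, ← pow_add, ContinuousMap.comp_assoc, face_comp_face]
      rw [Fin.neg_one_pow_succAbove_add_predAbove, neg_smul, add_neg_cancel]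
    · rintro ⟨i, j⟩ _ _ h
      exact Fin.succAbove_ne i j (congrArg Prod.fst h)
    · simp
    · rintro ⟨i, j⟩ _
      simp [Fin.succAbove_succAbove_predAbove, Fin.predAbove_predAbove_succAbove]

lemma mem_ChIn {A : Set X} {k : ℕ} {c : Ch X k} :
    c ∈ ChIn A k ↔ ∀ σ ∈ c.support, range σ ⊆ A := Iff.rfl

lemma single_mem_ChIn {A : Set X} {k : ℕ} {σ : C(Dl k, X)} (m : ℤ) (h : ∀ t, σ t ∈ A) :
    Finsupp.single σ m ∈ ChIn A k :=
  Finsupp.single_mem_supported ℤ m (range_subset_iff.2 h)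

lemma ChIn_mono {A B : Set X} (h : A ⊆ B) (k : ℕ) : ChIn A k ≤ ChIn B k :=
  fun _ hc σ hσ => (mem_ChIn.1 hc σ hσ).trans h

@[simp] lemma mem_ChIn_univ {k : ℕ} (c : Ch X k) : c ∈ ChIn univ k :=
  fun _ _ => subset_univ _

lemma mem_ChIn_inter {A B : Set X} {k : ℕ} {c : Ch X k} :
    c ∈ ChIn (A ∩ B) k ↔ c ∈ ChIn A k ∧ c ∈ ChIn B k := by
  simp only [mem_ChIn, subset_inter_iff]
  exact ⟨fun h => ⟨fun σ hσ => (h σ hσ).1, fun σ hσ => (h σ hσ).2⟩,
    fun h σ hσ => ⟨h.1 σ hσ, h.2 σ hσ⟩⟩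

lemma mem_ChIn_empty {k : ℕ} {c : Ch X (k + 1)} : c ∈ ChIn (∅ : Set X) (k + 1) ↔ c = 0 := by
  constructor
  · intro h
    by_contra hc
    obtain ⟨σ, hσ⟩ := Finsupp.support_nonempty_iff.2 hc
    exact (mem_ChIn.1 h σ hσ ⟨stdSimplex.vertex 0, rfl⟩)
  · rintro rfl; exact Submodule.zero_mem _

/-- every chain without vertices lies in every set -/
@[simp] lemma mem_ChIn_zero (A : Set X) (c : Ch X 0) : c ∈ ChIn A 0 := by
  rintro σ - _ ⟨t, rfl⟩
  have := t.2.2
  simp at this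

/-- induction principle for chains in a set -/
lemma ChIn_induction {A : Set X} {k : ℕ} {P : Ch X k → Prop} {c : Ch X k} (hc : c ∈ ChIn A k)
    (h0 : P 0) (hadd : ∀ a b, P a → P b → P (a + b))
    (hs : ∀ (σ : C(Dl k, X)) (m : ℤ), (∀ t, σ t ∈ A) → P (Finsupp.single σ m)) : P c := by
  rw [← Finsupp.sum_single c, Finsupp.sum]
  refine Finset.sum_induction _ P hadd h0 fun σ hσ => hs σ _ fun t => ?_
  exact mem_ChIn.1 hc σ hσ ⟨t, rfl⟩

/-- a linear map sending the simplices in `A` to `S` sends `ChIn A` to `S` -/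
lemma map_mem_of_ChIn {A : Set X} {k : ℕ} {M : Type*} [AddCommGroup M]
    (φ : Ch X k →ₗ[ℤ] M) (S : Submodule ℤ M)
    (h : ∀ σ : C(Dl k, X), (∀ t, σ t ∈ A) → φ (Finsupp.single σ 1) ∈ S) {c : Ch X k}
    (hc : c ∈ ChIn A k) : φ c ∈ S := by
  refine ChIn_induction (P := fun c => φ c ∈ S) hc (by simp)
    (fun a b ha hb => by simpa using S.add_mem ha hb) ?_
  intro σ m hσ
  have : Finsupp.single σ m = m • Finsupp.single σ (1 : ℤ) := by simp
  rw [this, map_smul]
  exact S.smul_mem _ (h σ hσ)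

lemma bdi_mem_ChIn {A : Set X} {k : ℕ} (i : Fin (k + 1)) {c : Ch X (k + 1)}
    (hc : c ∈ ChIn A (k + 1)) : bdi i c ∈ ChIn A k :=
  map_mem_of_ChIn (bdi i) _ (fun σ hσ => by
    rw [bdi_single]; exact single_mem_ChIn _ fun t => hσ _) hc

lemma bd_mem_ChIn {A : Set X} {k : ℕ} {c : Ch X (k + 1)} (hc : c ∈ ChIn A (k + 1)) :
    bd c ∈ ChIn A k := by
  rw [bd_eq]
  exact Submodule.sum_mem _ fun i _ => Submodule.smul_mem _ _ (bdi_mem_ChIn i hc)

lemma push_mem_ChIn {A : Set X} {B : Set Y} {k : ℕ} (f : C(X, Y)) (h : MapsTo f A B)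
    {c : Ch X k} (hc : c ∈ ChIn A k) : push f c ∈ ChIn B k :=
  map_mem_of_ChIn (push f) _ (fun σ hσ => by
    rw [push_single]; exact single_mem_ChIn _ fun t => h (hσ t)) hc

lemma push_congr {A : Set X} {k : ℕ} {f g : C(X, Y)} (h : EqOn f g A) {c : Ch X k}
    (hc : c ∈ ChIn A k) : push f c = push g c := by
  refine ChIn_induction (P := fun c => push f c = push g c) hc (by simp)
    (fun a b ha hb => by simp [ha, hb]) ?_
  intro σ m hσ
  rw [push_single, push_single]
  congr 1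
  ext t
  exact h (hσ t)

/-- the carrier of a chain -/
def car {k : ℕ} (c : Ch X k) : Set X := ⋃ σ ∈ c.support, range σ

lemma isCompact_car {k : ℕ} (c : Ch X k) : IsCompact (car c) :=
  c.support.isCompact_biUnion fun σ _ => isCompact_range σ.continuous

lemma mem_ChIn_iff_car {A : Set X} {k : ℕ} {c : Ch X k} : c ∈ ChIn A k ↔ car c ⊆ A := by
  simp [mem_ChIn, car]

lemma mem_Bd {A : Set X} {k : ℕ} {c : Ch X k} :
    c ∈ Bd A k ↔ ∃ d : Ch X (k + 1), c - bd d ∈ ChIn A k := by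
  rw [Bd, Submodule.mem_sup]
  constructor
  · rintro ⟨_, ⟨d, rfl⟩, e, he, rfl⟩
    exact ⟨d, by simpa using he⟩
  · rintro ⟨d, hd⟩
    exact ⟨_, ⟨d, rfl⟩, _, hd, by abel⟩

lemma bd_mem_Bd (A : Set X) {k : ℕ} (d : Ch X (k + 1)) : bd d ∈ Bd A k :=
  mem_Bd.2 ⟨d, by simp⟩

lemma mem_Bd_of_ChIn {A : Set X} {k : ℕ} {c : Ch X k} (h : c ∈ ChIn A k) : c ∈ Bd A k :=
  mem_Bd.2 ⟨0, by simpa using h⟩

lemma Bd_mono {A B : Set X} (h : A ⊆ B) (k : ℕ) : Bd A k ≤ Bd B k := fun _ hc => by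
  obtain ⟨d, hd⟩ := mem_Bd.1 hc
  exact mem_Bd.2 ⟨d, ChIn_mono h k hd⟩

lemma push_mem_Bd {A : Set X} {B : Set Y} {k : ℕ} (f : C(X, Y)) (h : MapsTo f A B)
    {c : Ch X k} (hc : c ∈ Bd A k) : push f c ∈ Bd B k := by
  obtain ⟨d, hd⟩ := mem_Bd.1 hc
  refine mem_Bd.2 ⟨push f d, ?_⟩
  rw [bd_push, ← map_sub]
  exact push_mem_ChIn f h hd

/-- relative cycles -/
def Zc (A : Set X) (k : ℕ) : Submodule ℤ (Ch X (k + 1)) := (ChIn A k).comap bd

lemma mem_Zc {A : Set X} {k : ℕ} {c : Ch X (k + 1)} : c ∈ Zc A k ↔ bd c ∈ ChIn A k := Iff.rfl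

/-- relative singular homology `H_k(X, A)` -/
def HH (A : Set X) (k : ℕ) : Type _ := Zc A k ⧸ (Bd A (k + 1)).submoduleOf (Zc A k)

instance (A : Set X) (k : ℕ) : AddCommGroup (HH A k) :=
  inferInstanceAs (AddCommGroup (Zc A k ⧸ (Bd A (k + 1)).submoduleOf (Zc A k)))

namespace HH

variable {A : Set X} {B : Set Y} {D : Set Z} {k : ℕ}

/-- the class of a relative cycle -/
def mk (c : Ch X (k + 1)) (h : bd c ∈ ChIn A k) : HH A k :=
  Submodule.Quotient.mk (p := (Bd A (k + 1)).submoduleOf (Zc A k)) ⟨c, h⟩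

lemma exists_mk (α : HH A k) : ∃ c h, mk c h = α := by
  obtain ⟨⟨c, h⟩, rfl⟩ := Submodule.Quotient.mk_surjective _ α
  exact ⟨c, h, rfl⟩

lemma mk_eq_mk {c c' : Ch X (k + 1)} {h : bd c ∈ ChIn A k} {h' : bd c' ∈ ChIn A k} :
    mk c h = mk c' h' ↔ c - c' ∈ Bd A (k + 1) :=
  Submodule.Quotient.eq _

lemma mk_eq_zero {c : Ch X (k + 1)} {h : bd c ∈ ChIn A k} :
    mk c h = 0 ↔ c ∈ Bd A (k + 1) :=
  Submodule.Quotient.mk_eq_zero _

lemma mk_add {c c' : Ch X (k + 1)} (h : bd c ∈ ChIn A k) (h' : bd c' ∈ ChIn A k) :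
    mk c h + mk c' h' = mk (c + c') (by rw [map_add]; exact Submodule.add_mem _ h h') := rfl

lemma mk_sub {c c' : Ch X (k + 1)} (h : bd c ∈ ChIn A k) (h' : bd c' ∈ ChIn A k) :
    mk c h - mk c' h' = mk (c - c') (by rw [map_sub]; exact Submodule.sub_mem _ h h') := rfl

lemma mk_neg {c : Ch X (k + 1)} (h : bd c ∈ ChIn A k) :
    -mk c h = mk (-c) (by rw [map_neg]; exact Submodule.neg_mem _ h) := rfl

lemma mk_zsmul (m : ℤ) {c : Ch X (k + 1)} (h : bd c ∈ ChIn A k) :
    m • mk c h = mk (m • c) (by rw [map_smul]; exact Submodule.smul_mem _ _ h) := rfl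

lemma mk_zero : (0 : HH A k) = mk 0 (by simp) := rfl

lemma mk_sum {ι : Type*} (s : Finset ι) (c : ι → Ch X (k + 1)) (h : ∀ i, bd (c i) ∈ ChIn A k) :
    ∑ i ∈ s, mk (c i) (h i) =
      mk (∑ i ∈ s, c i) (by rw [map_sum]; exact Submodule.sum_mem _ fun i _ => h i) := by
  classical
  induction s using Finset.induction_on with
  | empty => simp only [Finset.sum_empty]; rfl
  | insert a s ha ih => simp only [Finset.sum_insert ha, ih, mk_add]

/-- the map induced by a map of pairs -/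
def map (f : C(X, Y)) (h : MapsTo f A B) : HH A k →+ HH B k :=
  (Submodule.mapQ ((Bd A (k + 1)).submoduleOf (Zc A k)) ((Bd B (k + 1)).submoduleOf (Zc B k))
    ((push f).restrict (p := Zc A k) (q := Zc B k) fun c hc => by
      rw [mem_Zc, bd_push]; exact push_mem_ChIn f h hc)
    fun c hc => push_mem_Bd f h hc).toAddMonoidHom

lemma map_mk (f : C(X, Y)) (h : MapsTo f A B) (c : Ch X (k + 1)) (hc : bd c ∈ ChIn A k) :
    map f h (mk c hc) = mk (push f c) (by rw [bd_push]; exact push_mem_ChIn f h hc) := rfl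

lemma map_map (g : C(Y, Z)) (f : C(X, Y)) (hg : MapsTo g B D) (hf : MapsTo f A B)
    (α : HH A k) : map g hg (map f hf α) = map (g.comp f) (hg.comp hf) α := by
  obtain ⟨c, hc, rfl⟩ := exists_mk α
  simp only [map_mk, push_push]

lemma map_congr {f g : C(X, Y)} (e : f = g) (hf : MapsTo f A B) (hg : MapsTo g A B)
    (α : HH A k) : map f hf α = map g hg α := by subst e; rfl

lemma map_eq_zero (f : C(X, Y)) (h : MapsTo f A B) (hf : ∀ x, f x ∈ B) (α : HH A k) :
    map f h α = 0 := by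
  obtain ⟨c, hc, rfl⟩ := exists_mk α
  rw [map_mk, mk_eq_zero]
  exact mem_Bd_of_ChIn (push_mem_ChIn f (A := univ) (fun x _ => hf x) (mem_ChIn_univ c))

/-- the map induced by an inclusion of pairs `(X, A) → (X, A')` -/
def res {A A' : Set X} (h : A ⊆ A') : HH A k →+ HH A' k :=
  map (ContinuousMap.id X) h

lemma res_mk {A A' : Set X} (h : A ⊆ A') (c : Ch X (k + 1)) (hc : bd c ∈ ChIn A k) :
    res h (mk c hc) = mk c (ChIn_mono h k hc) := by
  simp only [res, map_mk, push_id]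

@[simp] lemma res_self (h : A ⊆ A) (α : HH A k) : res h α = α := by
  obtain ⟨c, hc, rfl⟩ := exists_mk α
  rw [res_mk]

lemma res_res {A A' A'' : Set X} (h : A ⊆ A') (h' : A' ⊆ A'') (α : HH A k) :
    res h' (res h α) = res (h.trans h') α := by
  obtain ⟨c, hc, rfl⟩ := exists_mk α
  simp only [res_mk]

lemma res_map {B' : Set Y} (f : C(X, Y)) (h : MapsTo f A B) (h' : B ⊆ B') (α : HH A k) :
    res h' (map f h α) = map f (h.mono_right h') α := by
  obtain ⟨c, hc, rfl⟩ := exists_mk α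
  simp only [res_mk, map_mk]

lemma map_res {A' : Set X} (f : C(X, Y)) (h : MapsTo f A' B) (h' : A ⊆ A') (α : HH A k) :
    map f h (res h' α) = map f (h.mono_left h') α := by
  obtain ⟨c, hc, rfl⟩ := exists_mk α
  simp only [res_mk, map_mk]

lemma eq_zero_univ (α : HH (univ : Set X) k) : α = 0 := by
  obtain ⟨c, hc, rfl⟩ := exists_mk α
  exact mk_eq_zero.2 (mem_Bd_of_ChIn (mem_ChIn_univ c))

end HH

/-- `α` generates an infinite cyclic group which is everything -/
def Gen {G : Type*} [AddCommGroup G] (α : G) : Prop := Function.Bijective fun m : ℤ => m • α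

lemma Gen.map {G H : Type*} [AddCommGroup G] [AddCommGroup H] {α : G} (h : Gen α) (φ : G →+ H)
    (hφ : Function.Bijective φ) : Gen (φ α) := by
  have : (fun m : ℤ => m • φ α) = φ ∘ fun m : ℤ => m • α := by
    funext m; simp
  unfold Gen
  rw [this]
  exact hφ.comp h

lemma Gen.of_map {G H : Type*} [AddCommGroup G] [AddCommGroup H] {α : G} (φ : G →+ H)
    (hφ : Function.Bijective φ) (h : Gen (φ α)) : Gen α := by
  have : (fun m : ℤ => m • φ α) = φ ∘ fun m : ℤ => m • α := by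
    funext m; simp
  unfold Gen at h
  rw [this] at h
  exact (Function.Bijective.of_comp_iff' hφ _).1 h

lemma Gen.neg {G : Type*} [AddCommGroup G] {α : G} (h : Gen α) : Gen (-α) :=
  h.map (negAddMonoidHom) neg_involutive.bijective

lemma Gen.units_smul {G : Type*} [AddCommGroup G] {α : G} (h : Gen α) (s : ℤˣ) :
    Gen ((s : ℤ) • α) := by
  rcases Int.units_eq_one_or s with rfl | rfl
  · simpa using h
  · simpa using h.neg

lemma Gen.exists_units {G : Type*} [AddCommGroup G] {α β : G} (h : Gen α) (h' : Gen β) :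
    ∃ s : ℤˣ, β = (s : ℤ) • α := by
  obtain ⟨a, ha⟩ := h.2 β
  obtain ⟨b, hb⟩ := h'.2 α
  have : b * a = 1 := h.1 (by
    simp only at ha hb ⊢
    rw [mul_smul, ha, hb, one_smul])
  exact ⟨⟨a, b, by rw [mul_comm, this], this⟩, ha.symm⟩

end

end Pool.Agent.URC
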