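import Pool.Agent.P.MP_797ab1_gt.Good
import Pool.Agent.P.MP_797ab1_gt.Arith

/-! TASK K: separator, coarse Helly property, canonical completion. -/

open Set Pointwise

namespace Pool.Agent.URC

variable {n : ℕ}

namespace KeyAux

lemma sep_aux {x x' yp ym pp pm p : Hyp n} {s R : ℝ} (hs : 0 < s) (hR : 1 ≤ R)
    (hyp : yp.1 = s⁻¹ • ((3 * R) • x.1 + (3 * R)⁻¹ • x'.1))
    (hym : ym.1 = s⁻¹ • ((3 * R)⁻¹ • x.1 + (3 * R) • x'.1)) (h1 : dd yp pp ≤ R)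
    (h2 : dd ym pm ≤ R) (h : (3 * R) ^ 2 * dd p x ≤ dd p x') : dd p pp < dd p pm := by
  have hT : 0 < 3 * R := by linarith
  have a0 := dd_pos p x
  have a1 := dd_pos p x'
  have e1 : s * dd p yp = 3 * R * dd p x + (3 * R)⁻¹ * dd p x' := by
    simp only [dd, hyp, lor_smul_right, lor_add_right]
    field_simp
    ring
  have e2 : s * dd p ym = (3 * R)⁻¹ * dd p x + 3 * R * dd p x' := by
    simp only [dd, hym, lor_smul_right, lor_add_right]
    field_simp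
    ring
  have b1 : 3 * R * (s * dd p yp) ≤ 2 * dd p x' := by
    rw [e1, mul_add, mul_inv_cancel_left₀ hT.ne']
    nlinarith
  have b2 : 3 * R * dd p x' ≤ s * dd p ym := by
    rw [e2]
    have : 0 ≤ (3 * R)⁻¹ * dd p x := by positivity
    linarith
  have c1 : dd p pp ≤ 2 * dd p yp * R := by
    refine (dd_tri p yp pp).trans ?_
    have := dd_pos p yp
    gcongr
  have c2 : dd p ym ≤ 2 * dd p pm * R := by
    refine (dd_tri p pm ym).trans ?_
    have := dd_pos p pm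
    rw [dd_comm pm ym]
    gcongr
  have d1 : 3 * (s * dd p pp) ≤ 4 * dd p x' := by
    have : s * dd p pp ≤ s * (2 * dd p yp * R) := by gcongr
    nlinarith
  have d2 : 3 * dd p x' ≤ 2 * (s * dd p pm) := by
    have h3 : s * dd p ym ≤ s * (2 * dd p pm * R) := by gcongr
    have h4 : R * (3 * dd p x') ≤ R * (2 * (s * dd p pm)) := by nlinarith
    exact le_of_mul_le_mul_left h4 (by linarith)
  have : s * dd p pp < s * dd p pm := by linarith
  exact lt_of_mul_lt_mul_left this hs.le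

lemma exists_mid (x x' : Hyp n) {T : ℝ} (hT : 0 < T) :
    ∃ y : Hyp n, y.1 = (√(T ^ 2 + T⁻¹ ^ 2 + 2 * dd x x'))⁻¹ • (T • x.1 + T⁻¹ • x'.1) := by
  have a1 := dd_pos x x'
  have hS : 0 < T ^ 2 + T⁻¹ ^ 2 + 2 * dd x x' := by positivity
  refine exists_norm x (Real.sqrt_pos.2 hS) ?_ ?_
  · rw [Real.sq_sqrt hS.le]
    simp only [lor_add_left, lor_add_right, lor_smul_left, lor_smul_right, lor_self,
      lor_eq_neg_dd, dd_comm x' x]
    field_simp
    ring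
  · simp only [lor_add_right, lor_smul_right, lor_self, lor_eq_neg_dd]
    have : 0 < T⁻¹ * dd x x' := by positivity
    linarith

lemma mid_le {x x' yp ym : Hyp n} {T s : ℝ} (hT : 1 ≤ T) (hs : 0 < s)
    (hs2 : s ^ 2 = T ^ 2 + T⁻¹ ^ 2 + 2 * dd x x') (hyp : yp.1 = s⁻¹ • (T • x.1 + T⁻¹ • x'.1))
    (hym : ym.1 = s⁻¹ • (T • x'.1 + T⁻¹ • x.1)) : dd yp ym ≤ 1 + T ^ 2 := by
  have e : s ^ 2 * dd yp ym = 2 + (T ^ 2 + T⁻¹ ^ 2) * dd x x' := by
    simp only [dd, hyp, hym, lor_add_left, lor_add_right, lor_smul_left, lor_smul_right,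
      lor_self, lor_comm x'.1 x.1]
    field_simp
    ring
  have h0 : 0 ≤ T⁻¹ := by positivity
  have h3 : T⁻¹ ^ 2 ≤ 1 := pow_le_one₀ h0 (inv_le_one_of_one_le₀ hT)
  have h4 : 0 ≤ T⁻¹ ^ 2 := by positivity
  have h5 : s ^ 2 * dd yp ym ≤ s ^ 2 * (1 + T ^ 2) := by
    rw [e, hs2]
    have h1 := one_le_dd x x'
    have h6 : 1 ≤ T ^ 2 := one_le_pow₀ hT
    generalize T⁻¹ ^ 2 = u at *
    generalize T ^ 2 = v at *
    generalize dd x x' = K at *
    nlinarith [mul_nonneg h4 (sub_nonneg.2 h6), mul_nonneg (sub_nonneg.2 h3) (sub_nonneg.2 h1),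
      mul_nonneg (sub_nonneg.2 h6) (sub_nonneg.2 h1)]
  exact le_of_mul_le_mul_left h5 (by positivity)

lemma sep_pts {x x' : Hyp n} {R : ℝ} (hR : 1 ≤ R) {O : Set (Hyp n)}
    (near : ∀ y : Hyp n, ∃ p ∈ O, dd y p ≤ R) : ∃ pp ∈ O, ∃ pm ∈ O,
      dd pp pm ≤ 4 * R ^ 2 * (1 + (3 * R) ^ 2) ∧
      (∀ p : Hyp n, (3 * R) ^ 2 * dd p x ≤ dd p x' → dd p pp < dd p pm) ∧
      ∀ p : Hyp n, (3 * R) ^ 2 * dd p x' ≤ dd p x → dd p pm < dd p pp := by
  have hT : 0 < 3 * R := by linarith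
  have a1 := dd_pos x x'
  obtain ⟨yp, hyp⟩ := exists_mid x x' hT
  obtain ⟨ym, hym⟩ := exists_mid x' x hT
  rw [dd_comm x' x] at hym
  have hS : 0 < (3 * R) ^ 2 + (3 * R)⁻¹ ^ 2 + 2 * dd x x' := by positivity
  have hs := Real.sqrt_pos.2 hS
  have hs2 := Real.sq_sqrt hS.le
  obtain ⟨pp, hp, h1⟩ := near yp
  obtain ⟨pm, hm, h2⟩ := near ym
  have hy : dd yp ym ≤ 1 + (3 * R) ^ 2 := mid_le (by linarith) hs hs2 hyp hym
  refine ⟨pp, hp, pm, hm, ?_,
    fun p hp => sep_aux hs hR hyp (hym.trans (congrArg _ (add_comm _ _))) h1 h2 hp,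
    fun p hp => sep_aux hs hR hym (hyp.trans (congrArg _ (add_comm _ _))) h2 h1 hp⟩
  clear hyp hym hs hs2 hS
  have h3 := dd_tri yp ym pm
  have h4 := dd_tri pp yp pm
  rw [dd_comm pp yp] at h4
  have b1 := dd_pos yp ym
  have b2 := dd_pos yp pm
  have b3 := dd_pos ym pm
  calc dd pp pm ≤ 2 * dd yp pp * dd yp pm := h4
    _ ≤ 2 * R * (2 * dd yp ym * dd ym pm) := by gcongr
    _ ≤ 2 * R * (2 * (1 + (3 * R) ^ 2) * R) := by gcongr
    _ = _ := by ring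

lemma sep_of {Γ : Subgroup (Isom n)} {W : Set (V n)} {R : ℝ} (hR : 1 ≤ R)
    (hc : ∀ x : Hyp n, ∃ γ ∈ Γ, dd e0 (γ • x) ≤ R)
    (hW : ∀ γ ∈ Γ, ∀ γ' ∈ Γ, γ • (e0 : Hyp n) ≠ γ' • e0 →
        dd (γ • (e0 : Hyp n)) (γ' • e0) ≤ 4 * R ^ 2 * (1 + (3 * R) ^ 2) →
        ∃ t : ℝ, 0 < t ∧ t • ((γ • (e0 : Hyp n)).1 - (γ' • (e0 : Hyp n)).1) ∈ W) :
    Sep W ((3 * R) ^ 2) := by
  intro x x' hK
  obtain ⟨_, ⟨γ, hγ, rfl⟩, _, ⟨γ', hγ', rfl⟩, k0, k1, k2⟩ := sep_pts (x := x) (x' := x') hR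
    (O := {p | ∃ γ ∈ Γ, γ • e0 = p}) fun y => by
      obtain ⟨γ, h1, h2⟩ := hc y
      refine ⟨_, ⟨γ⁻¹, inv_mem h1, rfl⟩, ?_⟩
      rwa [← dd_smul_smul γ, smul_inv_smul, dd_comm]
  obtain ⟨t, ht, hc⟩ := hW γ hγ γ' hγ' (fun e => by
    have := k1 x (by rwa [dd_self, mul_one])
    rw [e] at this
    exact lt_irrefl _ this) k0
  refine ⟨_, hc, fun p hp => ?_, fun p hp => ?_⟩
  · rw [lor_smul_right, lor_sub_right, lor_eq_neg_dd, lor_eq_neg_dd]
    exact mul_pos ht (by linarith [k1 p hp])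
  · rw [lor_smul_right, lor_sub_right, lor_eq_neg_dd, lor_eq_neg_dd]
    exact mul_neg_of_pos_of_neg ht (by linarith [k2 p hp])

/-- coarse Helly property -/
lemma helly {ι : Type*} (S : ι → Set (Hyp n)) {l : ℝ} (hl : 1 ≤ l) (hP : ∀ i, Proj l (S i))
    (hm : ∀ i j, ∃ z, z ∈ S i ∧ z ∈ S j) (b : Hyp n) (hb : {i | b ∉ S i}.Finite) :
    ∃ x : Hyp n, ∀ i, ∃ z ∈ S i, dd x z ≤ 4 * l ^ 2 := by
  have hp : ∀ i, ∃ p ∈ S i, (∀ z ∈ S i, dd b p * dd p z ≤ l * dd b z) ∧ (b ∈ S i → p = b) := by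
    intro i
    by_cases h : b ∈ S i
    · refine ⟨b, h, fun z _ => ?_, fun _ => rfl⟩
      have := dd_pos b z
      rw [dd_self]
      gcongr
    · obtain ⟨p, h1, h2⟩ := hP i b
      exact ⟨p, h1, h2, fun h' => absurd h' h⟩
  choose p hp1 hp2 hp3 using hp
  rcases {i | b ∉ S i}.eq_empty_or_nonempty with h0 | h0
  · refine ⟨b, fun i => ⟨b, ?_, by rw [dd_self]; nlinarith⟩⟩
    by_contra h
    exact (h0 ▸ (h : i ∈ {i | b ∉ S i}) : i ∈ (∅ : Set ι))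
  obtain ⟨i0, -, h1⟩ := exists_max_image _ (fun i => dd b (p i)) hb h0
  have h2 : ∀ i, dd b (p i) ≤ dd b (p i0) := fun i => by
    by_cases h : b ∈ S i
    · rw [hp3 i h, dd_self]; exact one_le_dd _ _
    · exact h1 i h
  refine ⟨p i0, fun i => ?_⟩
  obtain ⟨z, z1, z2⟩ := hm i i0
  have f := four_point b (p i0) z (p i)
  have g := hp2 i0 z z2
  have := h2 i
  set x := p i0
  set z' := p i
  have a1 := dd_pos b x
  have a2 := dd_pos b z
  have a3 := dd_pos x z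
  have a4 := dd_pos z z'
  have a5 := dd_pos x z'
  have a6 := dd_pos b z'
  have k : dd x z' * dd x z ≤ 2 * l * (dd x z + dd z z') := by
    have k1 : dd x z' * dd b z ≤ 2 * (dd x z + dd z z') * dd b x := by nlinarith
    have k2 : dd b x * (dd x z' * dd x z) ≤ dd b x * (2 * l * (dd x z + dd z z')) :=
      calc dd b x * (dd x z' * dd x z) = dd x z' * (dd b x * dd x z) := by ring
        _ ≤ dd x z' * (l * dd b z) := by gcongr
        _ = l * (dd x z' * dd b z) := by ring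
        _ ≤ l * (2 * (dd x z + dd z z') * dd b x) := by gcongr
        _ = _ := by ring
    exact le_of_mul_le_mul_left k2 a1
  rcases le_total (dd z z') (dd x z) with h | h
  · refine ⟨z', hp1 i, ?_⟩
    have k2 : dd x z * dd x z' ≤ dd x z * (4 * l) := by nlinarith
    have := le_of_mul_le_mul_left k2 a3
    nlinarith
  · obtain ⟨q, q1, q2⟩ := hP i x
    refine ⟨q, q1, ?_⟩
    have r1 := q2 z z1
    have r2 := q2 z' (hp1 i)
    have r3 := dd_tri z q z'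
    rw [dd_comm z q] at r3
    have b1 := dd_pos x q
    have b2 := dd_pos q z
    have b3 := dd_pos q z'
    have k2 : dd z z' * dd x q ^ 2 ≤ dd z z' * (8 * l ^ 3) :=
      calc dd z z' * dd x q ^ 2 ≤ 2 * dd q z * dd q z' * dd x q ^ 2 := by gcongr
        _ = 2 * ((dd x q * dd q z') * (dd x q * dd q z)) := by ring
        _ ≤ 2 * ((l * dd x z') * (l * dd x z)) := by gcongr
        _ = 2 * l ^ 2 * (dd x z' * dd x z) := by ring
        _ ≤ 2 * l ^ 2 * (2 * l * (dd z z' + dd z z')) := by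
          refine mul_le_mul_of_nonneg_left (k.trans ?_) (by positivity)
          gcongr
        _ = _ := by ring
    have k3 := le_of_mul_le_mul_left k2 a4
    refine (abs_le_of_sq_le_sq' (k3.trans ?_) (by positivity)).2
    have : 0 < l ^ 3 := by positivity
    nlinarith

variable {Γ : Subgroup (Isom n)} {W : Set (V n)} {κ B : ℝ}

lemma exists_on {w : V n} (hw : lor w w = 1) : ∃ p : Hyp n, lor p.1 w = 0 := by
  obtain ⟨p, h1, -⟩ := exists_proj (Finset.univ : Finset Unit) (fun _ => w) (by simpa using hw)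
    (by simp) e0
  exact ⟨p, h1 () (Finset.mem_univ _)⟩

lemma meet_flip (hW : Walls W) {o : Set (V n)} (h : IsOri W o) {w c : V n} (hw : w ∈ o)
    (hc : c ∈ o) (h1 : IsOri W (flip o w)) : ∃ z, z ∈ hs c ∧ z ∈ hs (-w) := by
  have u := hW.unit _ (h.sub _ hw)
  by_cases e : c = w
  · obtain ⟨p, hp⟩ := exists_on u
    exact ⟨p, by simp [hs, e, hp], by simp [hs, hp]⟩
  · exact exists_mem_hs_of_not_dis (hW.unit _ (h.sub _ hc)) (by simpa using u)
      (h1.cons _ (Or.inr ⟨hc, e⟩) _ (Or.inl rfl))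

/-- two flippable walls are close -/
lemma close (hG : Good Γ W κ B) {o : Set (V n)} (h : IsOri W o) {w w' : V n} (hw : w ∈ o)
    (hw' : w' ∈ o) (h1 : IsOri W (flip o w)) (h2 : IsOri W (flip o w')) : |lor w w'| ≤ κ := by
  have hW := hG.walls
  have u := hW.unit _ (h.sub _ hw)
  have u' := hW.unit _ (h.sub _ hw')
  have hκ := hG.one_le
  by_cases e : w = w'
  · rw [← e, u, abs_one]; exact hκ
  rw [abs_le]
  constructor
  · by_contra hK
    push Not at hK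
    rcases dis_or u u' (by linarith) with hd | hd
    · exact h.cons _ hw _ hw' hd
    obtain ⟨x, x', d1, -, -, d2, d3⟩ := hd.exists_feet (by simpa using u) (by simpa using u')
      (by simp; linarith)
    simp only [lor_neg_left, lor_neg_right, neg_neg] at d1
    have hk : κ ≤ dd x x' := by linarith
    obtain ⟨c, hc, c1, c2⟩ := hG.sep x x' hk
    rcases h.tot c hc with hc | hc
    · obtain ⟨z, z1, z2⟩ := meet_flip hW h hw' hc h2
      have := c2 z (le_trans (by have := dd_pos z x'; gcongr) (d3 z z2))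
      exact absurd z1 (not_le.2 this)
    · obtain ⟨z, z1, z2⟩ := meet_flip hW h hw hc h1
      have := c1 z (le_trans (by have := dd_pos z x; gcongr) (d2 z z2))
      have z3 : 0 ≤ lor z.1 (-c) := z1
      rw [lor_neg_right] at z3
      linarith
  · by_contra hK
    push Not at hK
    rcases dis_or (a := -w) (b := w') (by simpa using u) u' (by simp; linarith) with hd | hd
    · exact h1.cons _ (Or.inl rfl) _ (Or.inr ⟨hw', Ne.symm e⟩) hd
    · exact h2.cons _ (Or.inr ⟨hw, e⟩) _ (Or.inl rfl) (by simpa using hd)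

/-- stabilisers of orientations are trivial -/
lemma stab (hG : Good Γ W κ B) {o : Set (V n)} (h : IsOri W o) {γ : Isom n} (hγ : γ ∈ Γ)
    (e : γ • o = o) : γ = 1 := by
  have hW := hG.walls
  have hκ := hG.one_le
  obtain ⟨x, hx⟩ := helly (fun w : o => hs w.1) le_rfl
    (fun w => proj_hs (hW.unit _ (h.sub _ w.2)))
    (fun w w' => exists_mem_hs_of_not_dis (hW.unit _ (h.sub _ w.2)) (hW.unit _ (h.sub _ w'.2))
      (h.cons _ w.2 _ w'.2)) e0
    ((h.fin.preimage Subtype.val_injective.injOn).subset fun w hw => ⟨w.2, not_le.1 hw⟩)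
  have hx' : ∀ w ∈ o, ∃ z ∈ hs w, dd (γ • x) z ≤ 4 * 1 ^ 2 := by
    intro w hw
    rw [← e] at hw
    obtain ⟨v, hv, rfl⟩ := hw
    obtain ⟨z, z1, z2⟩ := hx ⟨v, hv⟩
    exact ⟨γ • z, by simpa [hs, smul_val] using z1, by simpa using z2⟩
  refine hG.displ γ hγ x (le_trans ?_ hG.big)
  by_contra hK
  push Not at hK
  obtain ⟨c, hc, c1, c2⟩ := hG.sep x (γ • x) (by linarith)
  rcases h.tot c hc with hc | hc
  · obtain ⟨z, z1, z2⟩ := hx' c hc
    have h1 : dd z x < κ * dd z (γ • x) := not_le.1 fun h' => not_le.2 (c2 z h') z1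
    have h2 := dd_tri x z (γ • x)
    rw [dd_comm] at z2
    rw [dd_comm x z] at h2
    have := dd_pos z (γ • x)
    have := dd_pos z x
    have h3 : dd z x ≤ κ * 4 := by nlinarith
    nlinarith
  · obtain ⟨z, z1, z2⟩ := hx ⟨_, hc⟩
    have z3 : 0 ≤ lor z.1 (-c) := z1
    rw [lor_neg_right] at z3
    have h1 : dd z (γ • x) < κ * dd z x := not_le.1 fun h' => by linarith [c1 z h']
    have h2 := dd_tri x z (γ • x)
    rw [dd_comm] at z2
    rw [dd_comm x z] at h2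
    have := dd_pos z (γ • x)
    have := dd_pos z x
    have h3 : dd z (γ • x) ≤ κ * 4 := by nlinarith
    nlinarith

section states

variable {Ω : Type*}

/-- states of the canonical completion -/
structure IsSt (W : Set (V n)) (S : Set Ω) (Y : Ω → Set (Hyp n)) (s : Ω × Set (V n)) : Prop where
  mem : s.1 ∈ S
  ori : IsOri W s.2
  meet : ∀ w ∈ s.2, ∃ z ∈ Y s.1, z ∈ hs w

/-- the signed orbit of a wall -/
def Orb (Γ : Subgroup (Isom n)) (c w : V n) : Prop := ∃ γ ∈ Γ, w = γ • c ∨ w = -(γ • c)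

lemma Orb.refl (c : V n) : Orb Γ c c := ⟨1, one_mem _, Or.inl (one_smul _ _).symm⟩

lemma Orb.neg {c w : V n} (h : Orb Γ c w) : Orb Γ c (-w) := by
  obtain ⟨γ, h1, rfl | rfl⟩ := h
  exacts [⟨γ, h1, Or.inr rfl⟩, ⟨γ, h1, Or.inl (neg_neg _)⟩]

lemma Orb.smul {c w : V n} (h : Orb Γ c w) {g : Isom n} (hg : g ∈ Γ) : Orb Γ c (g • w) := by
  obtain ⟨γ, h1, rfl | rfl⟩ := h
  exacts [⟨g * γ, mul_mem hg h1, Or.inl (mul_smul _ _ _).symm⟩,
    ⟨g * γ, mul_mem hg h1, Or.inr (by rw [smul_neg, mul_smul])⟩]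

lemma Orb.symm {c w : V n} (h : Orb Γ c w) : Orb Γ w c := by
  obtain ⟨γ, h1, rfl | rfl⟩ := h
  exacts [⟨γ⁻¹, inv_mem h1, Or.inl (by simp)⟩, ⟨γ⁻¹, inv_mem h1, Or.inr (by simp)⟩]

lemma Orb.trans {a b c : V n} (h : Orb Γ a b) (h' : Orb Γ b c) : Orb Γ a c := by
  obtain ⟨γ, h1, rfl | rfl⟩ := h'
  exacts [h.smul h1, (h.smul h1).neg]

/-- `w` is a flippable wall of the state `s` in the signed orbit of `c` -/
structure Fl (Γ : Subgroup (Isom n)) (W : Set (V n)) (Y : Ω → Set (Hyp n)) (c : V n)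
    (s : Ω × Set (V n)) (w : V n) : Prop where
  mem : w ∈ s.2
  orb : Orb Γ c w
  ori : IsOri W (flip s.2 w)
  meet : ∃ z ∈ Y s.1, z ∈ hs (-w)

variable {S : Set Ω} {Y : Ω → Set (Hyp n)} {s : Ω × Set (V n)} {a b c w w' : V n}

lemma Fl.unique (hG : Good Γ W κ B) (hs : IsOri W s.2) (h : Fl Γ W Y c s w)
    (h' : Fl Γ W Y c s w') : w = w' := by
  have hκ : |lor w w'| ≤ B := by
    linarith [close hG hs h.mem h'.mem h.ori h'.ori, hG.big, hG.one_le]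
  obtain ⟨γ, h1, e | e⟩ := h.orb.symm.trans h'.orb
  · rw [e, hG.rigid.2 γ h1 w (hs.sub _ h.mem) (e ▸ hκ)]
  · rw [e, lor_neg_right, abs_neg] at hκ
    rw [hG.rigid.2 γ h1 w (hs.sub _ h.mem) hκ] at e
    exact absurd e (hs.ne_neg h'.mem h.mem)

lemma Fl.isSt (hs : IsSt W S Y s) (h : Fl Γ W Y c s w) : IsSt W S Y (s.1, flip s.2 w) where
  mem := hs.mem
  ori := h.ori
  meet := by
    rintro v (rfl | ⟨hv, -⟩)
    exacts [h.meet, hs.meet v hv]

lemma Fl.back (hs : IsSt W S Y s) (h : Fl Γ W Y c s w) : Fl Γ W Y c (s.1, flip s.2 w) (-w) where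
  mem := Or.inl rfl
  orb := h.orb.neg
  ori := by simpa only [hs.ori.flip_flip h.mem] using hs.ori
  meet := by simpa only [neg_neg] using hs.meet w h.mem

lemma Fl.cross (hG : Good Γ W κ B) (hs : IsOri W s.2) (ha : a ∈ W) (hb : b ∈ W)
    (hab : |lor a b| < 1) (h : Fl Γ W Y a s w) (h' : Fl Γ W Y b s w') (hne : w ≠ w') :
    Fl Γ W Y b (s.1, flip s.2 w) w' := by
  have hB : 1 ≤ B := by linarith [hG.big, hG.one_le]
  have hκ : |lor w w'| ≤ B := by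
    linarith [close hG hs h.mem h'.mem h.ori h'.ori, hG.big, hG.one_le]
  have h1 : |lor w w'| < 1 := by
    obtain ⟨γ, k1, e⟩ := h.orb
    obtain ⟨γ', k2, e'⟩ := h'.orb
    have e2 : |lor w w'| = |lor a ((γ⁻¹ * γ') • b)| := by
      rw [mul_smul, ← lor_smul_eq]
      rcases e with rfl | rfl <;> rcases e' with rfl | rfl <;> simp
    rw [e2] at hκ ⊢
    rwa [hG.rigid.1 _ (mul_mem (inv_mem k1) k2) a ha b hb (by linarith) hκ]
  refine ⟨Or.inr ⟨h'.mem, hne.symm⟩, h'.orb,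
    IsOri.diamond hG.walls h'.mem hne h.ori h'.ori fun hd => ?_, h'.meet⟩
  have := hd.lor_le (by simpa using hG.walls.unit _ (hs.sub _ h.mem))
    (by simpa using hG.walls.unit _ (hs.sub _ h'.mem))
  simp only [lor_neg_left, lor_neg_right, neg_neg] at this
  linarith [(abs_lt.1 h1).1]

open Classical in
/-- the move of a state along the signed orbit of `c` -/
noncomputable def move (Γ : Subgroup (Isom n)) (W : Set (V n)) (Y : Ω → Set (Hyp n)) (c : V n)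
    (s : Ω × Set (V n)) : Ω × Set (V n) :=
  if h : ∃ w, Fl Γ W Y c s w then (s.1, flip s.2 h.choose) else s

lemma move_pos (hG : Good Γ W κ B) (hs : IsOri W s.2) (h : Fl Γ W Y c s w) :
    move Γ W Y c s = (s.1, flip s.2 w) := by
  have hex : ∃ w, Fl Γ W Y c s w := ⟨w, h⟩
  rw [move, dif_pos hex, hex.choose_spec.unique hG hs h]

lemma move_neg (h : ¬∃ w, Fl Γ W Y c s w) : move Γ W Y c s = s := dif_neg h

lemma move_isSt (hG : Good Γ W κ B) (hs : IsSt W S Y s) : IsSt W S Y (move Γ W Y c s) := by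
  by_cases h : ∃ w, Fl Γ W Y c s w
  · obtain ⟨w, h⟩ := h
    rw [move_pos hG hs.ori h]
    exact h.isSt hs
  · rwa [move_neg h]

lemma move_move (hG : Good Γ W κ B) (hs : IsSt W S Y s) :
    move Γ W Y c (move Γ W Y c s) = s := by
  by_cases h : ∃ w, Fl Γ W Y c s w
  · obtain ⟨w, h⟩ := h
    rw [move_pos hG hs.ori h, move_pos hG h.ori (h.back hs), hs.ori.flip_flip h.mem]
  · rw [move_neg h, move_neg h]

lemma move_congr (h : Orb Γ a b) : move Γ W Y a = move Γ W Y b := by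
  have : Fl Γ W Y a = Fl Γ W Y b := by
    ext s w
    exact ⟨fun k => ⟨k.mem, h.symm.trans k.orb, k.ori, k.meet⟩,
      fun k => ⟨k.mem, h.trans k.orb, k.ori, k.meet⟩⟩
  funext s
  unfold move
  rw [this]

lemma move_comm_aux (hG : Good Γ W κ B) (hs : IsSt W S Y s) (ha : a ∈ W) (hb : b ∈ W)
    (hab : |lor a b| < 1) (hn : ¬Orb Γ a b) (h : Fl Γ W Y a s w) :
    move Γ W Y a (move Γ W Y b s) = move Γ W Y b (move Γ W Y a s) := by
  have hba : |lor b a| < 1 := by rwa [lor_comm]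
  by_cases h' : ∃ w, Fl Γ W Y b s w
  · obtain ⟨w', h'⟩ := h'
    have hne : w ≠ w' := fun e => hn (h.orb.trans (e ▸ h'.orb.symm))
    rw [move_pos hG hs.ori h, move_pos hG hs.ori h',
      move_pos hG h.ori (h.cross hG hs.ori ha hb hab h' hne),
      move_pos hG h'.ori (h'.cross hG hs.ori hb ha hba h hne.symm),
      flip_comm (hs.ori.ne_neg h.mem h'.mem)]
  · rw [move_neg h', move_pos hG hs.ori h, move_neg]
    rintro ⟨w', k⟩
    have hne : -w ≠ w' := fun e => hn (h.orb.neg.trans (e ▸ k.orb.symm))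
    have := (h.back hs).cross hG h.ori ha hb hab k hne
    simp only [hs.ori.flip_flip h.mem] at this
    exact h' ⟨w', this⟩

lemma move_comm (hG : Good Γ W κ B) (hs : IsSt W S Y s) (ha : a ∈ W) (hb : b ∈ W)
    (hab : |lor a b| < 1) :
    move Γ W Y a (move Γ W Y b s) = move Γ W Y b (move Γ W Y a s) := by
  by_cases hn : Orb Γ a b
  · rw [move_congr hn]
  by_cases h : ∃ w, Fl Γ W Y a s w
  · exact move_comm_aux hG hs ha hb hab hn h.choose_spec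
  by_cases h' : ∃ w, Fl Γ W Y b s w
  · exact (move_comm_aux hG hs hb ha (by rwa [lor_comm]) (fun k => hn k.symm) h'.choose_spec).symm
  rw [move_neg h', move_neg h, move_neg h']

lemma mem_hs_smul (γ : Isom n) {z : Hyp n} (h : z ∈ hs w) : γ • z ∈ hs (γ • w) := by
  simpa [hs, smul_val] using h

variable [MulAction (Isom n) Ω]

lemma IsSt.smul (hG : Good Γ W κ B) (hS : ∀ γ ∈ Γ, ∀ f ∈ S, γ • f ∈ S)
    (hY : ∀ γ ∈ Γ, ∀ f ∈ S, ∀ x ∈ Y f, γ • x ∈ Y (γ • f)) (hs : IsSt W S Y s) {γ : Isom n}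
    (hγ : γ ∈ Γ) : IsSt W S Y (γ • s) where
  mem := hS γ hγ _ hs.mem
  ori := hs.ori.smul hG.walls hG.invt hγ
  meet := by
    rintro _ ⟨w, hw, rfl⟩
    obtain ⟨z, z1, z2⟩ := hs.meet w hw
    exact ⟨γ • z, hY γ hγ _ hs.mem z z1, mem_hs_smul γ z2⟩

lemma Fl.smul (hG : Good Γ W κ B) (hY : ∀ γ ∈ Γ, ∀ f ∈ S, ∀ x ∈ Y f, γ • x ∈ Y (γ • f))
    (hs : s.1 ∈ S) (h : Fl Γ W Y c s w) {γ : Isom n} (hγ : γ ∈ Γ) :
    Fl Γ W Y c (γ • s) (γ • w) where
  mem := smul_mem_smul_set h.mem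
  orb := h.orb.smul hγ
  ori := by
    rw [Prod.smul_snd, ← smul_flip]
    exact h.ori.smul hG.walls hG.invt hγ
  meet := by
    obtain ⟨z, z1, z2⟩ := h.meet
    exact ⟨γ • z, hY γ hγ _ hs z z1, smul_neg γ w ▸ mem_hs_smul γ z2⟩

lemma move_smul (hG : Good Γ W κ B) (hS : ∀ γ ∈ Γ, ∀ f ∈ S, γ • f ∈ S)
    (hY : ∀ γ ∈ Γ, ∀ f ∈ S, ∀ x ∈ Y f, γ • x ∈ Y (γ • f)) (hs : IsSt W S Y s) {γ : Isom n}
    (hγ : γ ∈ Γ) : γ • move Γ W Y c s = move Γ W Y c (γ • s) := by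
  have hs' := hs.smul hG hS hY hγ
  by_cases h : ∃ w, Fl Γ W Y c s w
  · obtain ⟨w, h⟩ := h
    rw [move_pos hG hs.ori h, move_pos hG hs'.ori (h.smul hG hY hs.mem hγ), Prod.smul_mk,
      smul_flip]
    rfl
  · rw [move_neg h, move_neg]
    rintro ⟨w, k⟩
    exact h ⟨_, by simpa using k.smul hG hY hs'.mem (inv_mem hγ)⟩

/-- orbit relation on states -/
def rel (Γ : Subgroup (Isom n)) (W : Set (V n)) (S : Set Ω) (Y : Ω → Set (Hyp n)) :
    Setoid {s : Ω × Set (V n) // IsSt W S Y s} where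
  r s t := ∃ γ ∈ Γ, γ • s.1 = t.1
  iseqv := ⟨fun s => ⟨1, one_mem _, one_smul _ _⟩,
    fun ⟨γ, h1, h2⟩ => ⟨γ⁻¹, inv_mem h1, by rw [← h2, inv_smul_smul]⟩,
    fun ⟨γ, h1, h2⟩ ⟨γ', k1, k2⟩ => ⟨γ' * γ, mul_mem k1 h1, by rw [mul_smul, h2, k2]⟩⟩

lemma finite_quot (hG : Good Γ W κ B) (hS : ∀ γ ∈ Γ, ∀ f ∈ S, γ • f ∈ S)
    (hY : ∀ γ ∈ Γ, ∀ f ∈ S, ∀ x ∈ Y f, γ • x ∈ Y (γ • f)) {l : ℝ} (hl : 1 ≤ l)
    (hP : ∀ f ∈ S, Proj l (Y f))
    (hfin : ∀ R : ℝ, {f | f ∈ S ∧ ∃ x ∈ Y f, dd e0 x ≤ R}.Finite) :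
    Finite (Quotient (rel Γ W S Y)) := by
  have hW := hG.walls
  obtain ⟨R, hR⟩ := hG.cocpt
  have hF := ((hfin (2 * R * (4 * l ^ 2))).prod
    (finite_ori hW R (4 * l ^ 2) (by positivity))).preimage
    (f := (Subtype.val : {s : Ω × Set (V n) // IsSt W S Y s} → _)) Subtype.val_injective.injOn
  refine finite_univ_iff.1 ((hF.image (Quotient.mk (rel Γ W S Y))).subset fun q _ => ?_)
  obtain ⟨⟨s, h⟩, rfl⟩ := Quotient.exists_rep q
  obtain ⟨x, hx⟩ := helly (ι := Option s.2) (fun i => i.elim (Y s.1) fun w => hs w.1) hl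
    (by
      rintro (_ | w)
      exacts [hP _ h.mem, (proj_hs (hW.unit _ (h.ori.sub _ w.2))).mono hl])
    (by
      rintro (_ | w) (_ | w')
      · obtain ⟨p, hp, -⟩ := hP _ h.mem e0
        exact ⟨p, hp, hp⟩
      · exact h.meet _ w'.2
      · obtain ⟨z, z1, z2⟩ := h.meet _ w.2
        exact ⟨z, z2, z1⟩
      · exact exists_mem_hs_of_not_dis (hW.unit _ (h.ori.sub _ w.2))
          (hW.unit _ (h.ori.sub _ w'.2)) (h.ori.cons _ w.2 _ w'.2)) e0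
    (by
      refine (((h.ori.fin.preimage (f := (Subtype.val : s.2 → _))
        Subtype.val_injective.injOn).image some).insert none).subset ?_
      rintro (_ | w) hw
      exacts [Or.inl rfl, Or.inr ⟨w, ⟨w.2, not_le.1 hw⟩, rfl⟩])
  obtain ⟨γ, hγ, h1⟩ := hR x
  have h' := h.smul hG hS hY hγ
  refine ⟨⟨γ • s, h'⟩, ⟨⟨h'.mem, ?_⟩, h'.ori, γ • x, h1, ?_⟩,
    Quotient.sound ⟨γ⁻¹, inv_mem hγ, inv_smul_smul _ _⟩⟩
  · obtain ⟨z, z1, z2⟩ := hx none
    refine ⟨γ • z, hY γ hγ _ h.mem z z1, (dd_tri _ (γ • x) _).trans ?_⟩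
    rw [dd_smul_smul]
    have := dd_pos x z
    have := (dd_pos _ _).trans_le h1
    gcongr
  · rintro _ ⟨w, hw, rfl⟩
    obtain ⟨z, z1, z2⟩ := hx (some ⟨w, hw⟩)
    have := neg_lor_le_dd x z (hW.unit _ (h.ori.sub _ hw)) z1
    rw [smul_val, lor_smul_smul]
    linarith

end states

end KeyAux

theorem exists_good (hn : 0 < n) (B₀ : ℝ) : ∃ (Γ : Subgroup (Isom n)) (W : Set (V n)) (κ B : ℝ),
    Good Γ W κ B ∧ B₀ ≤ B ∧ ∀ k, ev k ∈ W := by
  obtain ⟨R, hR⟩ := cocpt_G0 hn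
  have hR1 : 1 ≤ R := by
    obtain ⟨γ, -, h⟩ := hR e0
    exact (one_le_dd _ _).trans h
  obtain ⟨W, h1, h2, h3, h4, h5⟩ := arith hn (4 * R ^ 2 * (1 + (3 * R) ^ 2))
  obtain ⟨Γ, k1, k2, k3, k4⟩ := h5 (max B₀ (1000 * (3 * R) ^ 2))
  exact ⟨Γ, W, (3 * R) ^ 2, _, ⟨h1, fun γ hγ => h2 γ (k1 hγ), Cocpt.mono ⟨R, hR⟩ k2,
    KeyAux.sep_of hR1 hR h4, by nlinarith, k3, k4, le_max_right _ _⟩, le_max_left _ _, h3⟩

open KeyAux in
theorem key {Γ : Subgroup (Isom n)} {W : Set (V n)} {κ B : ℝ} (hG : Good Γ W κ B) {Ω : Type*}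
    [MulAction (Isom n) Ω] (S : Set Ω) (hS : ∀ γ ∈ Γ, ∀ f ∈ S, γ • f ∈ S) (Y : Ω → Set (Hyp n))
    (hY : ∀ γ ∈ Γ, ∀ f ∈ S, ∀ x ∈ Y f, γ • x ∈ Y (γ • f)) {l : ℝ} (hl : 1 ≤ l)
    (hP : ∀ f ∈ S, Proj l (Y f))
    (hfin : ∀ R : ℝ, {f | f ∈ S ∧ ∃ x ∈ Y f, dd e0 x ≤ R}.Finite) :
    ∃ Γ' ≤ Γ, Γ'.relIndex Γ ≠ 0 ∧ ∀ h ∈ Γ', ∀ f ∈ S, Y (h • f) = Y f → h • f = f := by
  have hW := hG.walls
  have := finite_quot hG hS hY hl hP hfin
  let mv : V n → Quotient (rel Γ W S Y) → Quotient (rel Γ W S Y) := fun c =>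
    Quotient.map (fun s => ⟨move Γ W Y c s.1, move_isSt hG s.2⟩) (by
      rintro s t ⟨γ, h1, h2⟩
      exact ⟨γ, h1, (move_smul hG hS hY s.2 h1).trans (congrArg _ h2)⟩)
  have hmv : ∀ c s, mv c (Quotient.mk _ s) = Quotient.mk _ ⟨move Γ W Y c s.1, move_isSt hG s.2⟩ :=
    fun _ _ => rfl
  have hinv : ∀ c, Function.Involutive (mv c) := fun c q => by
    obtain ⟨s, rfl⟩ := Quotient.exists_rep q
    simp only [hmv, move_move hG s.2]
  let τ : V n → Equiv.Perm (Quotient (rel Γ W S Y)) := fun c => (hinv c).toPerm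
  have hτ : ∀ c q, τ c q = mv c q := fun _ _ => rfl
  have horb : ∀ a b, Orb Γ a b → τ a = τ b := fun a b h => by
    ext q
    obtain ⟨s, rfl⟩ := Quotient.exists_rep q
    simp only [hτ, hmv, move_congr h]
  obtain ⟨T, hT, Γ', h1, h2, h3⟩ := exists_transport' hW hG.invt τ
    (fun w _ => Equiv.ext fun q => hinv w q) (fun w _ => (horb _ _ (Orb.refl w).neg).symm)
    (fun a ha b hb hab => by
      ext q
      obtain ⟨s, rfl⟩ := Quotient.exists_rep q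
      simp only [Equiv.Perm.mul_apply, hτ, hmv, move_comm hG s.2 ha hb hab])
    (fun γ hγ w _ => (horb _ _ ((Orb.refl w).smul hγ)).symm)
  refine ⟨Γ', h1, h2, fun h hh f hf e => ?_⟩
  have const : ∀ o' (h' : IsSt W S Y (f, o')) o (h0 : IsSt W S Y (f, o)),
      T o (Quotient.mk _ ⟨_, h0⟩) = T o' (Quotient.mk _ ⟨_, h'⟩) := by
    intro o' h' o h0
    refine ori_induction hW h'.ori (P := fun o => ∀ h0 : IsSt W S Y (f, o),
      T o (Quotient.mk _ ⟨_, h0⟩) = T o' (Quotient.mk _ ⟨_, h'⟩)) (fun _ => rfl) ?_ h0.ori h0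
    intro o w k0 k1 k2 k3 ih h0
    have fl : Fl Γ W Y w (f, o) w :=
      ⟨k1, Orb.refl w, k3, h'.meet _ (h'.ori.neg_mem (k0.sub _ k1) k2)⟩
    rw [← ih (fl.isSt h0), hT o w k0 k1 k3, Equiv.Perm.mul_apply, hτ]
    congr 1
    rw [← hinv w (Quotient.mk _ ⟨_, h0⟩), hmv]
    simp only [move_pos hG h0.ori fl]
  obtain ⟨x, hx, -⟩ := hP f hf e0
  obtain ⟨o, o1, o2⟩ := exists_ori_at hW x
  have s1 : IsSt W S Y (f, o) := ⟨hf, o1, fun w hw => ⟨x, hx, o2 w hw⟩⟩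
  have s2 := s1.smul hG hS hY (h1 hh)
  have s3 : IsSt W S Y (f, h • o) := ⟨hf, s2.ori, fun w hw => e ▸ s2.meet w hw⟩
  have k1 := const _ s1 _ s3
  rw [h3 h hh o o1] at k1
  obtain ⟨γ, hγ, k2⟩ := Quotient.exact ((T o).injective k1)
  obtain ⟨k3, k4⟩ := Prod.mk.inj k2
  have k5 : γ * h = 1 := stab hG o1 (mul_mem hγ (h1 hh)) (by rw [mul_smul]; exact k4)
  have k6 : γ • f = f := k3
  rw [← k6, smul_smul, mul_eq_one_comm.1 k5, one_smul]
  exact k6.symm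

end Pool.Agent.URC
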