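import Pool.Agent.P.MP_797ab1_gt.LabelA

/-! TASK L: invariant trivialisations and the labelling. -/

open Set Pointwise

namespace Pool.Agent.URC

variable {n : ℕ} {Γ : Subgroup (Isom n)} {W : Set (V n)} {κ B B' : ℝ} {F : Fin n → Set (V n)}

theorem triv (hG : Good Γ W κ B) (hF : Fam F B') (hI : ∀ k, Invt Γ (F k)) (m : ℕ) {A : Type*}
    [Group A] [Finite A] (g : Finset (V n) → Finset (V n) → A)
    (hg : ∀ σ₁ σ₂ σ₃ : Finset (V n), σ₁.card = m → σ₂.card = m → σ₃.card = m →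
      Clq F (σ₁ ∪ σ₂ ∪ σ₃) → g σ₁ σ₂ * g σ₂ σ₃ = g σ₁ σ₃)
    (hγ : ∀ γ ∈ Γ, ∀ σ σ', Nb F m σ σ' → g (γ • σ) (γ • σ') = g σ σ') :
    ∃ Γ' ≤ Γ, Γ'.relIndex Γ ≠ 0 ∧ ∃ a : Finset (V n) → A,
      (∀ σ σ', Nb F m σ σ' → a σ' = a σ * g σ σ') ∧
      ∀ γ ∈ Γ', ∀ σ, Clq F σ → σ.card = m → a (γ • σ) = a σ :=
  LabAux.triv hG hF hI m g hg hγ

namespace LabAux

open ClqAux Equiv

/-- the types occurring in a finite set -/
def TT (F : Fin n → Set (V n)) (σ : Finset (V n)) : Set (Fin n) := {k | ∃ v ∈ σ, v ∈ F k}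

lemma TT_smul (hI : ∀ k, Invt Γ (F k)) {γ : Isom n} (hγ : γ ∈ Γ) (σ : Finset (V n)) :
    TT F (γ • σ) = TT F σ := by
  ext k
  constructor
  · rintro ⟨v, hv, h⟩
    obtain ⟨u, hu, rfl⟩ := Finset.mem_smul_finset.1 hv
    exact ⟨u, hu, by simpa using hI k _ (inv_mem hγ) _ h⟩
  · rintro ⟨v, hv, h⟩
    exact ⟨γ • v, Finset.smul_mem_smul_finset hv, hI k γ hγ v h⟩

lemma exists_notMem_TT (hF : Fam F B') {σ : Finset (V n)} (h : σ.card < n) : ∃ j, j ∉ TT F σ := by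
  by_contra h'
  push Not at h'
  choose p hp1 hp2 using h'
  have := Finset.card_le_card_of_injOn (s := Finset.univ) (t := σ) p (fun k _ => hp1 k)
    fun k _ l _ e => hF.type_eq (hp2 k) (e ▸ hp2 l)
  simp at this
  omega

lemma card_le (hF : Fam F B') {σ : Finset (V n)} (h : Clq F σ) : σ.card ≤ n := by
  choose t ht using h.1
  have := Finset.card_le_card_of_injective (f := fun v : σ => (⟨t v.1 v.2, Finset.mem_univ _⟩ :
    (Finset.univ : Finset (Fin n)))) (by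
      rintro ⟨v, hv⟩ ⟨v', hv'⟩ e
      have e' : t v hv = t v' hv' := congrArg Subtype.val e
      by_contra hne
      have hne' : v ≠ v' := fun e => hne (Subtype.ext e)
      refine hne' (hF.same _ v (ht v hv) v' (e' ▸ ht v' hv') ?_)
      rw [h.2 v hv v' hv' hne', abs_zero]
      linarith [hF.le_B])
  simpa using this

lemma frame_clq {p : Fin n → V n} (hp : Frame F p) : Clq F (Finset.univ.image p) := by
  constructor
  · intro v hv
    obtain ⟨k, -, rfl⟩ := Finset.mem_image.1 hv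
    exact ⟨k, hp.1 k⟩
  · intro v hv v' hv' hne
    obtain ⟨k, -, rfl⟩ := Finset.mem_image.1 hv
    obtain ⟨l, -, rfl⟩ := Finset.mem_image.1 hv'
    exact hp.2 k l fun e => hne (by rw [e])

lemma frame_card (hF : Fam F B') {p : Fin n → V n} (hp : Frame F p) :
    (Finset.univ.image p).card = n := by
  have : Function.Injective p := fun k l e => hF.type_eq (hp.1 k) (e ▸ hp.1 l)
  rw [Finset.card_image_of_injective _ this]
  simp

lemma frame_ext (hF : Fam F B') {p q : Fin n → V n} (hp : Frame F p) (hq : Frame F q)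
    (h : Finset.univ.image p = Finset.univ.image q) : p = q := by
  funext k
  obtain ⟨l, -, e⟩ := Finset.mem_image.1 (h ▸ Finset.mem_image_of_mem p (Finset.mem_univ k))
  rw [← e, hF.type_eq (hp.1 k) (e ▸ hq.1 l)]

lemma frame_smul (hI : ∀ k, Invt Γ (F k)) {γ : Isom n} (hγ : γ ∈ Γ) {p : Fin n → V n}
    (hp : Frame F p) : Frame F (γ • p) :=
  ⟨fun k => hI k γ hγ _ (hp.1 k), fun k l h => (lor_smul_smul γ _ _).trans (hp.2 k l h)⟩

lemma image_smul (γ : Isom n) (p : Fin n → V n) :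
    Finset.univ.image (γ • p) = γ • Finset.univ.image p := by
  rw [Finset.smul_finset_def, Finset.image_image]
  rfl

lemma swap_Ik {j k : Fin n} (h : k ≠ j) : swap j.castSucc j.succ • Ik k = Ik k := by
  ext i
  rw [Finset.mem_smul_finset]
  have key : ∀ i, i ∈ Ik k → swap j.castSucc j.succ i ∈ Ik k := by
    intro i
    have : k.val ≠ j.val := fun e => h (Fin.ext e)
    simp only [Ik, Finset.mem_Iic, swap_apply_def, Fin.le_def, Fin.ext_iff]
    split_ifs <;> simp_all <;> omega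
  constructor
  · rintro ⟨i, hi, rfl⟩
    exact key i hi
  · intro hi
    exact ⟨_, key i hi, swap_apply_self _ _ _⟩

/-- an even permutation normalising an incomplete flag -/
noncomputable def Th (T : Set (Fin n)) (π : Perm (Fin (n + 1))) : alternatingGroup (Fin (n + 1)) :=
  Classical.epsilon fun θ => ∀ k ∈ T, θ.1 • π • Ik k = Ik k

lemma Th_congr {T : Set (Fin n)} {π π' : Perm (Fin (n + 1))} (h : ∀ k ∈ T, π • Ik k = π' • Ik k) :
    Th T π = Th T π' := by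
  unfold Th
  congr 1
  funext θ
  exact propext (forall₂_congr fun k hk => by rw [h k hk])

lemma Th_spec {T : Set (Fin n)} (h : ∃ j, j ∉ T) (π : Perm (Fin (n + 1))) :
    ∀ k ∈ T, (Th T π).1 • π • Ik k = Ik k := by
  obtain ⟨j, hj⟩ := h
  refine Classical.epsilon_spec (p := fun θ : alternatingGroup (Fin (n + 1)) =>
    ∀ k ∈ T, θ.1 • π • Ik k = Ik k) ?_
  rcases Int.units_eq_one_or (Perm.sign π) with h | h
  · exact ⟨⟨π⁻¹, by simp [h]⟩, fun k _ => inv_smul_smul _ _⟩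
  · refine ⟨⟨swap j.castSucc j.succ * π⁻¹, by simp [h, j.castSucc_lt_succ.ne]⟩, fun k hk => ?_⟩
    rw [mul_smul, inv_smul_smul]
    exact swap_Ik fun e => hj (e ▸ hk)

/-- invariant compatible flags on all cliques with at least `m` members -/
structure PP (Γ : Subgroup (Isom n)) (F : Fin n → Set (V n)) (ε : (Fin n → V n) → ℤˣ) (m : ℕ)
    (w : Finset (V n) → Perm (Fin (n + 1))) : Prop where
  inv : ∀ γ ∈ Γ, ∀ σ, Clq F σ → m ≤ σ.card → w (γ • σ) = w σ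
  comp : ∀ σ σ', σ ⊆ σ' → Clq F σ' → m ≤ σ.card → ∀ k ∈ TT F σ, w σ • Ik k = w σ' • Ik k
  sign : ∀ p, Frame F p → Perm.sign (w (Finset.univ.image p)) = ε p

lemma base (hn : 0 < n) (hF : Fam F B') (hI : ∀ k, Invt Γ (F k))
    (ε : (Fin n → V n) → ℤˣ) (hε : ∀ γ ∈ Γ, ∀ p, Frame F p → ε (γ • p) = ε p) :
    ∃ w, PP Γ F ε n w := by
  let Q : Finset (V n) → Prop := fun σ => ∃ p, Frame F p ∧ Finset.univ.image p = σ ∧ ε p = -1
  have hQ : ∀ γ ∈ Γ, ∀ σ, Q σ → Q (γ • σ) := by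
    rintro γ hγ _ ⟨p, h1, rfl, h2⟩
    exact ⟨γ • p, frame_smul hI hγ h1, image_smul γ p, (hε γ hγ p h1).trans h2⟩
  classical
  refine ⟨fun σ => if Q σ then swap 0 (Fin.last n) else 1, fun γ hγ σ _ _ => ?_,
    fun σ σ' h1 h2 h3 k _ => ?_, fun p hp => ?_⟩
  · exact if_congr ⟨fun h => by simpa using hQ _ (inv_mem hγ) _ h, hQ γ hγ σ⟩ rfl rfl
  · rw [Finset.eq_of_subset_of_card_le h1 ((card_le hF h2).trans h3)]
  · split_ifs with h
    · obtain ⟨q, h1, h2, h3⟩ := h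
      rw [← frame_ext hF h1 hp h2, h3, Perm.sign_swap]
      exact fun e => by simp [Fin.ext_iff] at e; omega
    · rcases Int.units_eq_one_or (ε p) with h' | h'
      · simp [h']
      · exact absurd ⟨p, hp, rfl, h'⟩ h

lemma step (hG : Good Γ W κ B) (hF : Fam F B') (hI : ∀ k, Invt Γ (F k))
    {ε : (Fin n → V n) → ℤˣ} {m : ℕ} (hm : m < n) {w : Finset (V n) → Perm (Fin (n + 1))}
    (hw : PP Γ F ε (m + 1) w) : ∃ Γ' ≤ Γ, Γ'.relIndex Γ ≠ 0 ∧ ∃ w', PP Γ' F ε m w' := by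
  let θ : Finset (V n) → Finset (V n) → alternatingGroup (Fin (n + 1)) :=
    fun s t => Th (TT F s) (w t)
  have hθ : ∀ s t t', s ⊆ t → t ⊆ t' → Clq F t' → m + 1 ≤ t.card → θ s t = θ s t' :=
    fun s t t' h1 h2 h3 h4 => Th_congr fun k ⟨v, hv, hk⟩ => hw.comp t t' h2 h3 h4 k ⟨v, h1 hv, hk⟩
  have hθγ : ∀ γ ∈ Γ, ∀ s t, Clq F t → m + 1 ≤ t.card → θ (γ • s) (γ • t) = θ s t := by
    intro γ hγ s t h1 h2
    simp only [θ, TT_smul hI hγ, hw.inv γ hγ t h1 h2]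
  have hU : ∀ s s' : Finset (V n), s.card = m → s'.card = m → s ≠ s' → m + 1 ≤ (s ∪ s').card := by
    intro s s' h1 h2 h3
    by_contra h
    exact h3 ((Finset.eq_of_subset_of_card_le Finset.subset_union_left (by omega)).trans
      (Finset.eq_of_subset_of_card_le Finset.subset_union_right (by omega)).symm)
  let g : Finset (V n) → Finset (V n) → alternatingGroup (Fin (n + 1)) :=
    fun s s' => θ s (s ∪ s') * (θ s' (s ∪ s'))⁻¹
  have hg : ∀ s s' t, s ⊆ t → s' ⊆ t → s.card = m → s'.card = m → Clq F t →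
      g s s' = θ s t * (θ s' t)⁻¹ := by
    intro s s' t h1 h2 h3 h4 h5
    by_cases e : s = s'
    · simp [g, e]
    · simp only [g]
      rw [hθ s _ t Finset.subset_union_left (Finset.union_subset h1 h2) h5 (hU s s' h3 h4 e),
        hθ s' _ t Finset.subset_union_right (Finset.union_subset h1 h2) h5 (hU s s' h3 h4 e)]
  obtain ⟨Γ', hle, hi, a, ha1, ha2⟩ := triv hG hF hI m g
    (by
      intro s₁ s₂ s₃ h1 h2 h3 h
      have e1 : s₁ ⊆ s₁ ∪ s₂ ∪ s₃ := Finset.subset_union_left.trans Finset.subset_union_left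
      have e2 : s₂ ⊆ s₁ ∪ s₂ ∪ s₃ := Finset.subset_union_right.trans Finset.subset_union_left
      have e3 : s₃ ⊆ s₁ ∪ s₂ ∪ s₃ := Finset.subset_union_right
      rw [hg _ _ _ e1 e2 h1 h2 h, hg _ _ _ e2 e3 h2 h3 h, hg _ _ _ e1 e3 h1 h3 h]
      group)
    (by
      intro γ hγ s s' h
      by_cases e : s = s'
      · simp [g, e]
      · simp only [g]
        rw [← Finset.smul_finset_union, hθγ γ hγ _ _ h.2.2 (hU s s' h.1 h.2.1 e),
          hθγ γ hγ _ _ h.2.2 (hU s s' h.1 h.2.1 e)])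
  let c : Finset (V n) → Finset (V n) := fun t => Classical.epsilon fun s => s ⊆ t ∧ s.card = m
  let b : Finset (V n) → alternatingGroup (Fin (n + 1)) := fun t => a (c t) * θ (c t) t
  have hb : ∀ s t, s ⊆ t → s.card = m → Clq F t → b t = a s * θ s t := by
    intro s t h1 h2 h3
    obtain ⟨h4, h5⟩ : c t ⊆ t ∧ (c t).card = m :=
      Classical.epsilon_spec (p := fun s => s ⊆ t ∧ s.card = m) ⟨s, h1, h2⟩
    rw [ha1 (c t) s ⟨h5, h2, mono h3 (Finset.union_subset h4 h1)⟩, hg _ _ t h4 h1 h5 h2 h3]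
    simp [b, mul_assoc]
  refine ⟨Γ', hle, hi, fun t => if m + 1 ≤ t.card then (b t).1 * w t else (a t).1,
    fun γ hγ σ h1 h2 => ?_, fun σ σ' h1 h2 h3 k hk => ?_, fun p hp => ?_⟩
  · rw [Finset.card_smul_finset]
    split_ifs with h
    · obtain ⟨s, h3, h4⟩ := Finset.exists_subset_card_eq h2
      rw [hw.inv γ (hle hγ) σ h1 h, hb s σ h3 h4 h1, hb (γ • s) (γ • σ)
        (Finset.smul_finset_subset_smul_finset h3) (by rw [Finset.card_smul_finset, h4])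
        (clq_smul hI (hle hγ) h1), ha2 γ hγ s (mono h1 h3) h4, hθγ γ (hle hγ) s σ h1 h]
    · rw [ha2 γ hγ σ h1 (by omega)]
  · have h4 := Finset.card_le_card h1
    split_ifs with h h' h'
    · obtain ⟨s, h5, h6⟩ := Finset.exists_subset_card_eq h3
      rw [mul_smul, mul_smul, hw.comp σ σ' h1 h2 h k hk, hb s σ h5 h6 (mono h2 h1),
        hb s σ' (h5.trans h1) h6 h2, hθ s σ σ' h5 h1 h2 h]
    · omega
    · rw [hb σ σ' h1 (by omega) h2, Subgroup.coe_mul, mul_smul, mul_smul,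
        Th_spec (exists_notMem_TT hF (by omega)) _ k hk]
    · rw [Finset.eq_of_subset_of_card_le h1 (by omega)]
  · rw [if_pos (by rw [frame_card hF hp]; omega), map_mul, Perm.mem_alternatingGroup.1 (b _).2,
      one_mul, hw.sign p hp]

end LabAux

open LabAux in
theorem label (hn : 0 < n) (hG : Good Γ W κ B) (hF : Fam F B') (hI : ∀ k, Invt Γ (F k))
    (ε : (Fin n → V n) → ℤˣ) (hε : ∀ γ ∈ Γ, ∀ p, Frame F p → ε (γ • p) = ε p) :
    ∃ Γ' ≤ Γ, Γ'.relIndex Γ ≠ 0 ∧ ∃ ℓ : V n → Finset (Fin (n + 1)), Lab F ℓ ∧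
      (∀ γ ∈ Γ', ∀ w ∈ sym F, ℓ (γ • w) = ℓ w) ∧
      ∀ p, Frame F p → ∃ π, Flg ℓ p π ∧ Equiv.Perm.sign π = ε p := by
  obtain ⟨Γ', hle, hi, w, hw⟩ : ∃ Γ' ≤ Γ, Γ'.relIndex Γ ≠ 0 ∧ ∃ w, PP Γ' F ε 0 w := by
    refine Nat.decreasingInduction (n := n)
      (motive := fun m _ => ∃ Γ' ≤ Γ, Γ'.relIndex Γ ≠ 0 ∧ ∃ w, PP Γ' F ε m w) ?_
      ⟨Γ, le_rfl, by simp, base hn hF hI ε hε⟩ hn.le
    rintro m hm ⟨Γ₁, hle, hi, w, hw⟩
    obtain ⟨Γ₂, hle', hi', h⟩ := step (hG.mono hle hi) hF (fun k γ hγ => hI k γ (hle hγ)) hm hw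
    exact ⟨Γ₂, hle'.trans hle, Subgroup.relIndex_ne_zero_trans hi' hi, h⟩
  have : Nonempty (Fin n) := ⟨⟨0, hn⟩⟩
  let ℓ₀ : V n → Finset (Fin (n + 1)) := fun v => w {v} • Ik (Classical.epsilon fun k => v ∈ F k)
  classical
  let ℓ : V n → Finset (Fin (n + 1)) := fun v =>
    if ∃ k, v ∈ F k then ℓ₀ v else if ∃ k, -v ∈ F k then ℓ₀ (-v) else ∅
  have h0 : ∀ k, ∀ v ∈ F k, ℓ v = w {v} • Ik k := by
    intro k v hv
    simp only [ℓ, ℓ₀]
    rw [if_pos ⟨k, hv⟩, hF.type_eq (Classical.epsilon_spec (p := fun k => v ∈ F k) ⟨k, hv⟩) hv]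
  have h1 : ∀ k, ∀ v ∈ F k, ∀ σ, v ∈ σ → Clq F σ → ℓ v = w σ • Ik k := by
    intro k v hv σ h2 h3
    rw [h0 k v hv, hw.comp {v} σ (by simpa using h2) h3 (Nat.zero_le _) k ⟨v, by simp, hv⟩]
  have hneg : ∀ v, ℓ (-v) = ℓ v := by
    intro v
    simp only [ℓ, neg_neg]
    by_cases h : ∃ k, v ∈ F k
    · obtain ⟨k, hk⟩ := h
      rw [if_neg fun ⟨l, hl⟩ => hF.neg_notMem hk hl, if_pos ⟨k, hk⟩, if_pos ⟨k, hk⟩]
    · simp only [if_neg h]
  have hinv : ∀ γ ∈ Γ', ∀ k, ∀ v ∈ F k, ℓ (γ • v) = ℓ v := by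
    intro γ hγ k v hv
    rw [h0 k v hv, h0 k _ (hI k γ (hle hγ) v hv), ← Finset.smul_finset_singleton,
      hw.inv γ hγ {v} ⟨by simpa using ⟨k, hv⟩, by simp⟩ (Nat.zero_le _)]
  refine ⟨Γ', hle, hi, ℓ, ⟨hneg, fun k v hv => ?_, fun k l hkl v hv v' hv' h => ?_⟩, ?_,
    fun p hp => ⟨w (Finset.univ.image p), fun k => ?_, hw.sign p hp⟩⟩
  · rw [h0 k v hv, Finset.card_smul_finset]
    simp [Ik]
  · have hc : Clq F {v, v'} := by
      refine ⟨by simpa using ⟨⟨k, hv⟩, l, hv'⟩, ?_⟩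
      simp [h, lor_comm v' v]
    rw [h1 k v hv _ (by simp) hc, h1 l v' hv' _ (by simp) hc]
    exact Finset.smul_finset_subset_smul_finset
      (Finset.Iic_subset_Iic.2 (Fin.castSucc_le_castSucc_iff.2 hkl.le))
  · rintro γ hγ v ⟨k, hv | hv⟩
    · exact hinv γ hγ k v hv
    · rw [← hneg, ← smul_neg, hinv γ hγ k _ hv, hneg]
  · rw [h1 k _ (hp.1 k) _ (Finset.mem_image_of_mem p (Finset.mem_univ k)) (frame_clq hp),
      Finset.map_eq_image]
    rfl

end Pool.Agent.URC
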