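import Pool.Agent.P.MP_797ab1_gt.Key
import Pool.Agent.P.MP_797ab1_gt.Clq

/-! Invariant trivialisations. -/

open Set Pointwise

namespace Pool.Agent.URC

namespace LabAux

open ClqAux

variable {n : ℕ} {Γ : Subgroup (Isom n)} {W : Set (V n)} {κ B B' : ℝ} {F : Fin n → Set (V n)}

lemma clq_smul (hI : ∀ k, Invt Γ (F k)) {γ : Isom n} (hγ : γ ∈ Γ) {σ : Finset (V n)}
    (h : Clq F σ) : Clq F (γ • σ) := by
  constructor
  · intro v hv
    obtain ⟨u, hu, rfl⟩ := Finset.mem_smul_finset.1 hv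
    obtain ⟨k, hk⟩ := h.1 u hu
    exact ⟨k, hI k γ hγ u hk⟩
  · intro v hv v' hv' hne
    obtain ⟨u, hu, rfl⟩ := Finset.mem_smul_finset.1 hv
    obtain ⟨u', hu', rfl⟩ := Finset.mem_smul_finset.1 hv'
    rw [lor_smul_smul]
    exact h.2 u hu u' hu' fun e => hne (by rw [e])

lemma nb_smul (hI : ∀ k, Invt Γ (F k)) {γ : Isom n} (hγ : γ ∈ Γ) {m : ℕ} {σ τ : Finset (V n)}
    (h : Nb F m σ τ) : Nb F m (γ • σ) (γ • τ) :=
  ⟨by rw [Finset.card_smul_finset]; exact h.1, by rw [Finset.card_smul_finset]; exact h.2.1,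
    by rw [← Finset.smul_finset_union]; exact clq_smul hI hγ h.2.2⟩

/-- being in the same component -/
abbrev RR (F : Fin n → Set (V n)) (m : ℕ) := Relation.ReflTransGen (Nb F m)

lemma rr_symm {m : ℕ} {σ τ : Finset (V n)} (h : RR F m σ τ) : RR F m τ σ := by
  induction h with
  | refl => exact .refl
  | tail _ h ih => exact .head (nb_symm h) ih

lemma rr_smul (hI : ∀ k, Invt Γ (F k)) {γ : Isom n} (hγ : γ ∈ Γ) {m : ℕ} {σ τ : Finset (V n)}
    (h : RR F m σ τ) : RR F m (γ • σ) (γ • τ) := by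
  induction h with
  | refl => exact .refl
  | tail _ h ih => exact ih.tail (nb_smul hI hγ h)

lemma rr_clq {m : ℕ} {σ τ : Finset (V n)} (h : RR F m σ τ) (h1 : Clq F σ) (h2 : σ.card = m) :
    Clq F τ ∧ τ.card = m := by
  induction h with
  | refl => exact ⟨h1, h2⟩
  | tail _ h _ => exact ⟨nb_right h, h.2.1⟩

lemma a_smul (hI : ∀ k, Invt Γ (F k)) {m : ℕ} {A : Type*} [Group A]
    {g : Finset (V n) → Finset (V n) → A}
    (hγ : ∀ γ ∈ Γ, ∀ σ σ', Nb F m σ σ' → g (γ • σ) (γ • σ') = g σ σ') {a : Finset (V n) → A}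
    (ha : ∀ σ σ', Nb F m σ σ' → a σ' = a σ * g σ σ') {γ : Isom n} (h : γ ∈ Γ)
    {σ₀ σ : Finset (V n)} (hr : RR F m σ₀ σ) : a (γ • σ) = a (γ • σ₀) * (a σ₀)⁻¹ * a σ := by
  induction hr with
  | refl => simp
  | tail _ h2 ih => rw [ha _ _ (nb_smul hI h h2), ih, hγ γ h _ _ h2, ha _ _ h2, mul_assoc]

open Classical in
/-- sections over one component -/
noncomputable def fS (F : Fin n → Set (V n)) (m : ℕ) {A : Type*} [Group A] (a : Finset (V n) → A)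
    (σ₀ : Finset (V n)) (α : A) : Finset (V n) → Option A :=
  fun σ => if RR F m σ₀ σ then some (α * a σ) else none

lemma fS_pos {m : ℕ} {A : Type*} [Group A] (a : Finset (V n) → A) {σ₀ σ : Finset (V n)} (α : A)
    (h : RR F m σ₀ σ) : fS F m a σ₀ α σ = some (α * a σ) := if_pos h

lemma fS_neg {m : ℕ} {A : Type*} [Group A] (a : Finset (V n) → A) {σ₀ σ : Finset (V n)} (α : A)
    (h : ¬RR F m σ₀ σ) : fS F m a σ₀ α σ = none := if_neg h

lemma fS_ne {m : ℕ} {A : Type*} [Group A] (a : Finset (V n) → A) {σ₀ σ : Finset (V n)} (α : A) :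
    fS F m a σ₀ α σ ≠ none ↔ RR F m σ₀ σ := by
  by_cases h : RR F m σ₀ σ
  · simp [fS_pos a α h, h]
  · simp [fS_neg a α h, h]

lemma fS_congr {m : ℕ} {A : Type*} [Group A] (a : Finset (V n) → A) {σ₀ σ : Finset (V n)} (α : A)
    (h : RR F m σ₀ σ) : fS F m a σ₀ α = fS F m a σ α := by
  funext τ
  by_cases h' : RR F m σ τ
  · rw [fS_pos a α h', fS_pos a α (h.trans h')]
  · rw [fS_neg a α h', fS_neg a α fun h'' => h' ((rr_symm h).trans h'')]

theorem keyK (hG : Good Γ W κ B) (hF : Fam F B') (hI : ∀ k, Invt Γ (F k)) {m : ℕ} {A : Type*}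
    [Group A] [Finite A] {g : Finset (V n) → Finset (V n) → A}
    (hγ : ∀ γ ∈ Γ, ∀ σ σ', Nb F m σ σ' → g (γ • σ) (γ • σ') = g σ σ') {a : Finset (V n) → A}
    (ha : ∀ σ σ', Nb F m σ σ' → a σ' = a σ * g σ σ') :
    ∃ Γ' ≤ Γ, Γ'.relIndex Γ ≠ 0 ∧ ∀ h ∈ Γ', ∀ σ, Clq F σ → σ.card = m → RR F m σ (h • σ) →
      a (h • σ) = a σ := by
  let _ : MulAction (Isom n) (Finset (V n) → Option A) := arrowAction
  have hsm : ∀ (γ : Isom n) (f : Finset (V n) → Option A) σ, (γ • f) σ = f (γ⁻¹ • σ) :=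
    fun _ _ _ => rfl
  have hact : ∀ γ ∈ Γ, ∀ σ₀ α,
      γ • fS F m a σ₀ α = fS F m a (γ • σ₀) (α * a σ₀ * (a (γ • σ₀))⁻¹) := by
    intro γ h σ₀ α
    funext σ
    rw [hsm]
    by_cases hr : RR F m (γ • σ₀) σ
    · have hr' : RR F m σ₀ (γ⁻¹ • σ) := by simpa using rr_smul hI (inv_mem h) hr
      rw [fS_pos a _ hr, fS_pos a _ hr', a_smul hI hγ ha (inv_mem h) hr]
      simp [mul_assoc]
    · rw [fS_neg a _ hr, fS_neg a _ fun hr' => hr (by simpa using rr_smul hI h hr')]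
  let Y : (Finset (V n) → Option A) → Set (Hyp n) :=
    fun f => {z | ∃ σ, f σ ≠ none ∧ ∀ v ∈ σ, lor z.1 v = 0}
  have hYY : ∀ σ₀ α, Y (fS F m a σ₀ α) = YY F m σ₀ := by
    intro σ₀ α
    simp only [Y, YY, fS_ne]
  obtain ⟨Γ', hle, hi, hK⟩ := key hG {f | ∃ σ₀ α, Clq F σ₀ ∧ σ₀.card = m ∧ f = fS F m a σ₀ α}
    (by
      rintro γ h _ ⟨σ₀, α, h1, h2, rfl⟩
      exact ⟨γ • σ₀, _, clq_smul hI h h1, by rw [Finset.card_smul_finset, h2], hact γ h σ₀ α⟩)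
    Y (by
      rintro γ - f - x ⟨σ, h1, h2⟩
      refine ⟨γ • σ, by rwa [hsm, inv_smul_smul], fun v hv => ?_⟩
      obtain ⟨u, hu, rfl⟩ := Finset.mem_smul_finset.1 hv
      rw [smul_val, lor_smul_smul]
      exact h2 u hu) (l := 200) (by norm_num)
    (by
      rintro _ ⟨σ₀, α, h1, h2, rfl⟩
      rw [hYY]
      exact proj_YY hF h1 h2)
    (by
      intro R
      have hT : (⋃ k, {v | v ∈ F k ∧ |lor (e0 : Hyp n).1 v| ≤ R}).Finite :=
        finite_iUnion fun k => hF.fin k R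
      refine (((hT.toFinset.powerset.finite_toSet).prod (finite_univ (α := A))).image
        fun p => fS F m a p.1 p.2).subset ?_
      rintro _ ⟨⟨σ₀, α, h1, h2, rfl⟩, x, ⟨σ, h3, h4⟩, h5⟩
      rw [fS_ne] at h3
      refine ⟨(σ, α), ⟨?_, mem_univ _⟩, (fS_congr a α h3).symm⟩
      simp only [Finset.coe_powerset, mem_preimage, mem_powerset_iff, Finite.coe_toFinset]
      intro v hv
      obtain ⟨k, hk⟩ := (rr_clq h3 h1 h2).1.1 v hv
      exact mem_iUnion.2 ⟨k, hk, (abs_lor_le_dd e0 x (hF.unit k v hk) (h4 v hv)).trans h5⟩)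
  refine ⟨Γ', hle, hi, fun h hh σ h1 h2 h3 => ?_⟩
  have h4 := hK h hh (fS F m a σ 1) ⟨σ, 1, h1, h2, rfl⟩ (by
    rw [hact h (hle hh), ← fS_congr a _ h3, hYY, hYY])
  rw [hact h (hle hh), ← fS_congr a _ h3] at h4
  have h5 := congrFun h4 σ
  rw [fS_pos a _ .refl, fS_pos a _ .refl, Option.some.injEq, mul_left_inj, one_mul,
    mul_inv_eq_one] at h5
  exact h5.symm

theorem triv (hG : Good Γ W κ B) (hF : Fam F B') (hI : ∀ k, Invt Γ (F k)) (m : ℕ) {A : Type*}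
    [Group A] [Finite A] (g : Finset (V n) → Finset (V n) → A)
    (hg : ∀ σ₁ σ₂ σ₃ : Finset (V n), σ₁.card = m → σ₂.card = m → σ₃.card = m →
      Clq F (σ₁ ∪ σ₂ ∪ σ₃) → g σ₁ σ₂ * g σ₂ σ₃ = g σ₁ σ₃)
    (hγ : ∀ γ ∈ Γ, ∀ σ σ', Nb F m σ σ' → g (γ • σ) (γ • σ') = g σ σ') :
    ∃ Γ' ≤ Γ, Γ'.relIndex Γ ≠ 0 ∧ ∃ a : Finset (V n) → A,
      (∀ σ σ', Nb F m σ σ' → a σ' = a σ * g σ σ') ∧
      ∀ γ ∈ Γ', ∀ σ, Clq F σ → σ.card = m → a (γ • σ) = a σ := by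
  obtain ⟨a, ha⟩ := exists_triv hF m g hg
  obtain ⟨Γ', hle, hi, hK⟩ := keyK hG hF hI hγ ha
  let E : Setoid (Finset (V n)) :=
    { r := fun σ τ => ∃ h ∈ Γ', RR F m σ (h • τ)
      iseqv :=
        { refl := fun σ => ⟨1, one_mem _, by rw [one_smul]⟩
          symm := by
            rintro σ τ ⟨h, hh, hr⟩
            exact ⟨h⁻¹, inv_mem hh, by simpa using rr_symm (rr_smul hI (inv_mem (hle hh)) hr)⟩
          trans := by
            rintro σ τ ρ ⟨h, hh, hr⟩ ⟨h', hh', hr'⟩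
            exact ⟨h * h', mul_mem hh hh', hr.trans (by
              rw [mul_smul]; exact rr_smul hI (hle hh) hr')⟩ } }
  let rep : Finset (V n) → Finset (V n) := fun σ => (Quotient.mk E σ).out
  have hrep : ∀ σ, ∃ h ∈ Γ', RR F m (rep σ) (h • σ) := fun σ => Quotient.mk_out (s := E) σ
  have hrep' : ∀ σ τ, (∃ h ∈ Γ', RR F m σ (h • τ)) → rep σ = rep τ := fun σ τ h =>
    congrArg Quotient.out (Quotient.sound (s := E) h)
  choose η hη1 hη2 using hrep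
  have hwd : ∀ σ, Clq F σ → σ.card = m → ∀ h ∈ Γ', RR F m (rep σ) (h • σ) →
      a (η σ • σ) = a (h • σ) := by
    intro σ h1 h2 h hh hr
    have := hK (η σ * h⁻¹) (mul_mem (hη1 σ) (inv_mem hh)) (h • σ) (clq_smul hI (hle hh) h1)
      (by rw [Finset.card_smul_finset, h2])
      (by rw [mul_smul, inv_smul_smul]; exact (rr_symm hr).trans (hη2 σ))
    rwa [mul_smul, inv_smul_smul] at this
  refine ⟨Γ', hle, hi, fun σ => a (η σ • σ), fun σ σ' h => ?_, fun γ hγ' σ h1 h2 => ?_⟩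
  · have h3 := nb_smul hI (hle (hη1 σ)) h
    have h4 : rep σ = rep σ' := hrep' _ _ ⟨1, one_mem _, by rw [one_smul]; exact .single h⟩
    change a (η σ' • σ') = a (η σ • σ) * g σ σ'
    rw [hwd σ' (nb_right h) h.2.1 (η σ) (hη1 σ) (h4 ▸ (hη2 σ).tail h3), ha _ _ h3,
      hγ _ (hle (hη1 σ)) _ _ h]
  · have h4 : rep σ = rep (γ • σ) := hrep' _ _ ⟨γ⁻¹, inv_mem hγ', by rw [inv_smul_smul]⟩
    change a (η (γ • σ) • γ • σ) = a (η σ • σ)
    rw [hwd σ h1 h2 (η (γ • σ) * γ) (mul_mem (hη1 _) hγ') (by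
      rw [mul_smul, h4]; exact hη2 _), mul_smul]

end LabAux

end Pool.Agent.URC
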