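import Pool.Agent.P.MP_797ab1_gt.Defs

/-! Elementary Lorentz geometry. -/

open Set

namespace Pool.Agent.URC

noncomputable section

variable {n : ℕ}

lemma lor_comm (x y : V n) : lor x y = lor y x := by
  simp only [lor, mul_comm]

@[simp] lemma lor_add_left (x y z : V n) : lor (x + y) z = lor x z + lor y z := by
  simp only [lor, Pi.add_apply, add_mul, Finset.sum_add_distrib]; ring

@[simp] lemma lor_smul_left (c : ℝ) (x y : V n) : lor (c • x) y = c * lor x y := by
  simp only [lor, Pi.smul_apply, smul_eq_mul, mul_assoc, mul_sub, Finset.mul_sum]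

@[simp] lemma lor_add_right (x y z : V n) : lor x (y + z) = lor x y + lor x z := by
  rw [lor_comm, lor_add_left, lor_comm y, lor_comm z]

@[simp] lemma lor_smul_right (c : ℝ) (x y : V n) : lor x (c • y) = c * lor x y := by
  rw [lor_comm, lor_smul_left, lor_comm]

@[simp] lemma lor_neg_left (x y : V n) : lor (-x) y = -lor x y := by
  rw [← neg_one_smul ℝ x, lor_smul_left]; ring

@[simp] lemma lor_neg_right (x y : V n) : lor x (-y) = -lor x y := by
  rw [← neg_one_smul ℝ y, lor_smul_right]; ring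

@[simp] lemma lor_sub_left (x y z : V n) : lor (x - y) z = lor x z - lor y z := by
  rw [sub_eq_add_neg, lor_add_left, lor_neg_left]; ring

@[simp] lemma lor_sub_right (x y z : V n) : lor x (y - z) = lor x y - lor x z := by
  rw [sub_eq_add_neg, lor_add_right, lor_neg_right]; ring

@[simp] lemma lor_zero_left (y : V n) : lor 0 y = 0 := by simp [lor]

@[simp] lemma lor_zero_right (y : V n) : lor y 0 = 0 := by simp [lor]

lemma lor_sum_left {ι : Type*} (s : Finset ι) (f : ι → V n) (y : V n) :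
    lor (∑ i ∈ s, f i) y = ∑ i ∈ s, lor (f i) y := by
  classical
  induction s using Finset.induction_on with
  | empty => simp
  | insert a s ha ih => simp [Finset.sum_insert ha, ih]

lemma lor_sum_right {ι : Type*} (s : Finset ι) (f : ι → V n) (y : V n) :
    lor y (∑ i ∈ s, f i) = ∑ i ∈ s, lor y (f i) := by
  rw [lor_comm, lor_sum_left]; simp only [lor_comm y]

@[fun_prop] lemma continuous_lor {X : Type*} [TopologicalSpace X] {f g : X → V n}
    (hf : Continuous f) (hg : Continuous g) : Continuous fun x => lor (f x) (g x) := by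
  unfold lor
  fun_prop

/-- the base point -/
def e0 : Hyp n := ⟨Pi.single 0 1, by
  constructor
  · simp [lor, Fin.succ_ne_zero]
  · simp⟩

/-- the standard spacelike unit vectors -/
def ev (k : Fin n) : V n := Pi.single k.succ 1

lemma lor_e0 (y : V n) : lor (e0 : Hyp n).1 y = -y 0 := by
  simp [lor, e0, Fin.succ_ne_zero]

lemma lor_ev (k : Fin n) (y : V n) : lor (ev k) y = y k.succ := by
  simp [lor, ev, Pi.single_apply, (Fin.succ_ne_zero _).symm]

lemma lor_ev_ev (k l : Fin n) : lor (ev k) (ev l) = if k = l then 1 else 0 := by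
  rw [lor_ev]; simp [ev, Pi.single_apply]

lemma eq_zero_of_lor {y : V n} (h : ∀ x, lor x y = 0) : y = 0 := by
  funext i
  refine Fin.cases ?_ (fun k => ?_) i
  · have := h (e0 : Hyp n).1
    rw [lor_e0] at this
    simpa using this
  · have := h (ev k)
    rwa [lor_ev] at this

@[simp] lemma lor_self (x : Hyp n) : lor x.1 x.1 = -1 := x.2.1

private lemma cs (x y : V n) : (∑ i : Fin n, x i.succ * y i.succ) ^ 2 ≤
    (lor x x + x 0 ^ 2) * (lor y y + y 0 ^ 2) := by
  have := Finset.sum_mul_sq_le_sq_mul_sq Finset.univ (fun i : Fin n => x i.succ)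
    (fun i : Fin n => y i.succ)
  simpa only [lor, sq, sub_add_cancel] using this

private lemma sq_nn (y : V n) : 0 ≤ lor y y + y 0 ^ 2 := by
  have : lor y y + y 0 ^ 2 = ∑ i : Fin n, y i.succ ^ 2 := by simp only [lor, sq]; ring
  rw [this]; positivity

lemma perp_nonneg (x : Hyp n) {y : V n} (h : lor x.1 y = 0) : 0 ≤ lor y y := by
  have h1 := cs x.1 y
  have h2 := sq_nn y
  have h3 : ∑ i : Fin n, x.1 i.succ * y i.succ = x.1 0 * y 0 := by
    unfold lor at h; linarith
  rw [h3, lor_self] at h1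
  have h4 := x.2.2
  by_contra h5
  push Not at h5
  nlinarith [mul_pos (pow_pos h4 2) (neg_pos.2 h5)]

lemma perp_eq_zero (x : Hyp n) {y : V n} (h : lor x.1 y = 0) (h' : lor y y ≤ 0) : y = 0 := by
  have h1 := cs x.1 y
  have h2 := sq_nn y
  have h3 : ∑ i : Fin n, x.1 i.succ * y i.succ = x.1 0 * y 0 := by
    unfold lor at h; linarith
  rw [h3, lor_self] at h1
  have h4 := x.2.2
  have h0 := le_antisymm h' (perp_nonneg x h)
  rw [h0] at h1
  have h5 : y 0 = 0 := by nlinarith [sq_nonneg (y 0)]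
  have h6 : ∑ i : Fin n, y i.succ ^ 2 = 0 := by
    unfold lor at h0; rw [h5] at h0; simpa [sq] using h0
  rw [Finset.sum_eq_zero_iff_of_nonneg fun _ _ => sq_nonneg _] at h6
  funext i
  refine Fin.cases h5 (fun k => ?_) i
  simpa using h6 k (Finset.mem_univ _)

lemma maj_nonneg (x : Hyp n) (y : V n) : 0 ≤ lor y y + lor x.1 y ^ 2 := by
  have := perp_nonneg x (y := y + lor x.1 y • x.1) (by simp)
  simp only [lor_add_left, lor_add_right, lor_smul_left, lor_smul_right, lor_self,
    lor_comm y x.1] at this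
  nlinarith

/-- Cauchy-Schwarz for the majorant at `x` -/
lemma maj_cs (x : Hyp n) (y z : V n) : (lor y z + lor x.1 y * lor x.1 z) ^ 2 ≤
    (lor y y + lor x.1 y ^ 2) * (lor z z + lor x.1 z ^ 2) := by
  have := discrim_le_zero (a := lor z z + lor x.1 z ^ 2) (b := 2 * (lor y z + lor x.1 y * lor x.1 z))
    (c := lor y y + lor x.1 y ^ 2) fun t => by
      have := maj_nonneg x (y + t • z)
      simp only [lor_add_left, lor_add_right, lor_smul_left, lor_smul_right, lor_comm z y] at this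
      nlinarith
  unfold discrim at this
  nlinarith

lemma causal_nonpos {y : V n} (h : lor y y ≤ 0) (h0 : 0 ≤ y 0) (p : Hyp n) : lor p.1 y ≤ 0 := by
  have h1 := cs p.1 y
  have h2 := sq_nn y
  rw [lor_self] at h1
  have h4 := p.2.2
  have : ∑ i : Fin n, p.1 i.succ * y i.succ ≤ p.1 0 * y 0 := by
    refine abs_le_of_sq_le_sq' ?_ (by positivity) |>.2
    nlinarith [mul_nonneg (sq_nonneg (p.1 0)) (neg_nonneg.2 h)]
  unfold lor; linarith

/-- the hyperbolic cosine of the distance -/
def dd (x y : Hyp n) : ℝ := -lor x.1 y.1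

lemma lor_eq_neg_dd (x y : Hyp n) : lor x.1 y.1 = -dd x y := by simp [dd]

lemma dd_comm (x y : Hyp n) : dd x y = dd y x := by simp only [dd, lor_comm]

@[simp] lemma dd_self (x : Hyp n) : dd x x = 1 := by simp [dd]

lemma one_le_dd (x y : Hyp n) : 1 ≤ dd x y := by
  have h1 := causal_nonpos (y := y.1) (by simp) y.2.2.le x
  have h2 := maj_nonneg x y.1
  rw [lor_self] at h2
  unfold dd
  nlinarith

lemma dd_pos (x y : Hyp n) : 0 < dd x y := lt_of_lt_of_le one_pos (one_le_dd x y)

lemma eq_of_dd_le_one {x y : Hyp n} (h : dd x y ≤ 1) : x = y := by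
  have h1 := le_antisymm h (one_le_dd x y)
  have : x.1 - y.1 = 0 := perp_eq_zero x (by simp [lor_eq_neg_dd, h1])
    (by simp [lor_eq_neg_dd, h1, dd_comm y x])
  exact Subtype.ext (sub_eq_zero.1 this)

@[fun_prop] lemma continuous_dd {X : Type*} [TopologicalSpace X] {f g : X → Hyp n}
    (hf : Continuous f) (hg : Continuous g) : Continuous fun x => dd (f x) (g x) := by
  unfold dd
  fun_prop

lemma isH_of (x : Hyp n) {y : V n} (h : lor y y = -1) (h' : lor x.1 y < 0) : IsH y := by
  refine ⟨h, ?_⟩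
  by_contra h0
  push Not at h0
  have := causal_nonpos (y := -y) (by simp [h]) (by simpa using h0) x
  simp at this
  linarith

/-- normalisation of a forward timelike vector -/
lemma exists_norm (x : Hyp n) {y : V n} {s : ℝ} (hs : 0 < s) (h : lor y y = -s ^ 2)
    (h' : lor x.1 y < 0) : ∃ p : Hyp n, p.1 = s⁻¹ • y := by
  refine ⟨⟨s⁻¹ • y, isH_of x ?_ ?_⟩, rfl⟩
  · simp only [lor_smul_left, lor_smul_right, h]; field_simp
  · rw [lor_smul_right]; exact mul_neg_of_pos_of_neg (inv_pos.2 hs) h'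

lemma causal_or {y : V n} (h : lor y y ≤ 0) :
    (∀ p : Hyp n, lor p.1 y ≤ 0) ∨ ∀ p : Hyp n, 0 ≤ lor p.1 y := by
  rcases le_total 0 (y 0) with h0 | h0
  · exact Or.inl (causal_nonpos h h0)
  · refine Or.inr fun p => ?_
    have := causal_nonpos (y := -y) (by simpa using h) (by simpa using h0) p
    simpa using this

lemma dd_tri (x b z : Hyp n) : dd x z ≤ 2 * dd x b * dd b z := by
  have := maj_cs b x.1 z.1
  simp only [lor_self, lor_eq_neg_dd, dd_comm b x] at this
  have h1 := one_le_dd x b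
  have h2 := one_le_dd b z
  have h3 : |-dd x z + -dd x b * -dd b z| ≤ dd x b * dd b z := by
    refine abs_le_of_sq_le_sq' ?_ (by positivity) |> abs_le.2
    nlinarith
  have := (abs_le.1 h3).1
  linarith

lemma abs_lor_transfer (b z : Hyp n) {w : V n} (hw : lor w w = 1) :
    |lor b.1 w| ≤ dd b z * (1 + 2 * |lor z.1 w|) := by
  have := maj_cs z b.1 w
  simp only [lor_self, lor_eq_neg_dd, hw, dd_comm z b] at this
  have h1 := one_le_dd b z
  have h2 := abs_nonneg (lor z.1 w)
  have h3 : |lor b.1 w + -dd b z * lor z.1 w| ≤ dd b z * (1 + |lor z.1 w|) := by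
    refine abs_le_of_sq_le_sq' ?_ (by positivity) |> abs_le.2
    have := sq_abs (lor z.1 w)
    nlinarith [mul_nonneg (sq_nonneg (dd b z)) h2]
  have h4 : |dd b z * lor z.1 w| = dd b z * |lor z.1 w| := by
    rw [abs_mul, abs_of_pos (dd_pos _ _)]
  have h5 := abs_add_le (lor b.1 w + -dd b z * lor z.1 w) (dd b z * lor z.1 w)
  rw [show lor b.1 w + -dd b z * lor z.1 w + dd b z * lor z.1 w = lor b.1 w by ring] at h5
  linarith

lemma abs_lor_le_dd (b z : Hyp n) {w : V n} (hw : lor w w = 1) (h : lor z.1 w = 0) :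
    |lor b.1 w| ≤ dd b z := by
  simpa [h] using abs_lor_transfer b z hw

lemma neg_lor_le_dd (b z : Hyp n) {w : V n} (hw : lor w w = 1) (h : 0 ≤ lor z.1 w) :
    -lor b.1 w ≤ dd b z := by
  have := maj_cs z b.1 w
  simp only [lor_self, lor_eq_neg_dd, hw, dd_comm z b] at this
  have h1 := one_le_dd b z
  have h3 : |lor b.1 w + -dd b z * lor z.1 w| ≤ dd b z * (1 + lor z.1 w) := by
    refine abs_le_of_sq_le_sq' ?_ (by positivity) |> abs_le.2
    nlinarith [mul_nonneg (sq_nonneg (dd b z)) h]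
  have := (abs_le.1 h3).1
  linarith

lemma abs_lor_lor_le (x : Hyp n) {v w : V n} (hv : lor v v = 1) (hw : lor w w = 1) {a b : ℝ}
    (ha : |lor x.1 v| ≤ a) (hb : |lor x.1 w| ≤ b) : |lor v w| ≤ (1 + a) * (1 + b) + a * b := by
  have := maj_cs x v w
  rw [hv, hw] at this
  have ha0 := (abs_nonneg _).trans ha
  have hb0 := (abs_nonneg _).trans hb
  have h1 : lor x.1 v ^ 2 ≤ a ^ 2 := by rw [← sq_abs]; gcongr
  have h2 : lor x.1 w ^ 2 ≤ b ^ 2 := by rw [← sq_abs]; gcongr
  have h3 : |lor v w + lor x.1 v * lor x.1 w| ≤ (1 + a) * (1 + b) := by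
    refine abs_le_of_sq_le_sq' (this.trans ?_) (by positivity) |> abs_le.2
    rw [mul_pow]
    gcongr <;> nlinarith
  have h4 : |lor x.1 v * lor x.1 w| ≤ a * b := by rw [abs_mul]; gcongr
  have h5 := abs_sub (lor v w + lor x.1 v * lor x.1 w) (lor x.1 v * lor x.1 w)
  rw [add_sub_cancel_right] at h5
  linarith

/-- the visual quasi-metric based at `b` -/
def rho (b x y : Hyp n) : ℝ := √(dd x y / (dd b x * dd b y))

lemma rho_sq (b x y : Hyp n) : rho b x y ^ 2 = dd x y / (dd b x * dd b y) :=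
  Real.sq_sqrt (by have := dd_pos x y; have := dd_pos b x; have := dd_pos b y; positivity)

lemma rho_nonneg (b x y : Hyp n) : 0 ≤ rho b x y := Real.sqrt_nonneg _

private lemma rho_aux (b x y : Hyp n) :
    2 * rho b x y ^ 2 = lor ((dd b x)⁻¹ • x.1 - (dd b y)⁻¹ • y.1)
      ((dd b x)⁻¹ • x.1 - (dd b y)⁻¹ • y.1) + (dd b x)⁻¹ ^ 2 + (dd b y)⁻¹ ^ 2 := by
  have := dd_pos b x
  have := dd_pos b y
  simp only [rho_sq, lor_sub_left, lor_sub_right, lor_smul_left, lor_smul_right, lor_self,
    lor_eq_neg_dd, dd_comm y x]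
  field_simp
  ring

/-- Ptolemy inequality -/
lemma rho_tri (b x y z : Hyp n) : rho b x z ≤ rho b x y + rho b y z := by
  have h1 := rho_aux b x y
  have h2 := rho_aux b y z
  have h3 := rho_aux b x z
  set u := (dd b x)⁻¹ • x.1 - (dd b y)⁻¹ • y.1 with hu
  set v := (dd b y)⁻¹ • y.1 - (dd b z)⁻¹ • z.1 with hv
  have huv : (dd b x)⁻¹ • x.1 - (dd b z)⁻¹ • z.1 = u + v := by rw [hu, hv]; abel
  rw [huv] at h3
  have hp : ∀ p q : Hyp n, lor b.1 ((dd b p)⁻¹ • p.1 - (dd b q)⁻¹ • q.1) = 0 := by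
    intro p q
    have := dd_pos b p
    have := dd_pos b q
    simp only [lor_sub_right, lor_smul_right, lor_eq_neg_dd]
    field_simp
    ring
  have hcs := maj_cs b u v
  rw [hp x y, hp y z] at hcs
  have hu0 := perp_nonneg b (hp x y)
  have hv0 := perp_nonneg b (hp y z)
  rw [← hu] at hu0
  rw [← hv] at hv0
  simp only [lor_add_left, lor_add_right, lor_comm v u] at h3
  have r1 := rho_nonneg b x y
  have r2 := rho_nonneg b y z
  have h4 : lor u v ≤ 2 * (rho b x y * rho b y z) := by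
    refine (abs_le_of_sq_le_sq' ?_ (by positivity)).2
    have a1 : lor u u ≤ 2 * rho b x y ^ 2 := by
      nlinarith [sq_nonneg (dd b x)⁻¹, sq_nonneg (dd b y)⁻¹]
    have a2 : lor v v ≤ 2 * rho b y z ^ 2 := by
      nlinarith [sq_nonneg (dd b z)⁻¹, sq_nonneg (dd b y)⁻¹]
    have := mul_le_mul a1 a2 hv0 (by positivity)
    nlinarith
  refine (abs_le_of_sq_le_sq' ?_ (by positivity)).2
  nlinarith [sq_nonneg (dd b y)⁻¹]

lemma four_point (b x y z : Hyp n) :
    dd x z * dd b y ≤ 2 * (dd x y * dd b z + dd y z * dd b x) := by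
  have h := rho_tri b x y z
  have h1 : rho b x z ^ 2 ≤ 2 * (rho b x y ^ 2 + rho b y z ^ 2) := by
    have := rho_nonneg b x z
    nlinarith [sq_nonneg (rho b x y - rho b y z)]
  simp only [rho_sq] at h1
  have := dd_pos b x
  have := dd_pos b y
  have := dd_pos b z
  rw [div_le_iff₀ (by positivity)] at h1
  have h2 := mul_le_mul_of_nonneg_right h1 (dd_pos b y).le
  refine h2.trans (le_of_eq ?_)
  field_simp

/-- orthogonal projection onto the intersection of orthogonal walls -/
lemma exists_proj {ι : Type*} (s : Finset ι) (v : ι → V n) (h1 : ∀ i ∈ s, lor (v i) (v i) = 1)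
    (h0 : ∀ i ∈ s, ∀ j ∈ s, i ≠ j → lor (v i) (v j) = 0) (b : Hyp n) :
    ∃ p : Hyp n, (∀ i ∈ s, lor p.1 (v i) = 0) ∧ dd b p ^ 2 = 1 + ∑ i ∈ s, lor b.1 (v i) ^ 2 ∧
      b.1 = dd b p • p.1 + ∑ i ∈ s, lor b.1 (v i) • v i := by
  set y := b.1 - ∑ i ∈ s, lor b.1 (v i) • v i with hy
  have hS : 0 < 1 + ∑ i ∈ s, lor b.1 (v i) ^ 2 := by positivity
  have hv : ∀ j ∈ s, lor y (v j) = 0 := by
    intro j hj
    rw [hy, lor_sub_left, lor_sum_left, Finset.sum_eq_single j]
    · simp [h1 j hj]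
    · intro i hi hij; simp [h0 i hi j hj hij]
    · exact fun h => absurd hj h
  have hb : lor b.1 y = -(1 + ∑ i ∈ s, lor b.1 (v i) ^ 2) := by
    rw [hy, lor_sub_right, lor_sum_right]; simp [sq]; ring
  have hyy : lor y y = -(1 + ∑ i ∈ s, lor b.1 (v i) ^ 2) := by
    conv_lhs => rw [lor_comm, hy, lor_sub_left, ← hy, lor_sum_left]
    rw [hb, Finset.sum_eq_zero (f := fun i => lor (lor b.1 (v i) • v i) y), sub_zero]
    intro i hi
    rw [lor_smul_left, lor_comm (v i), hv i hi, mul_zero]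
  have hs := Real.sqrt_pos.2 hS
  obtain ⟨p, hp⟩ := exists_norm b hs (y := y) (by rw [hyy, Real.sq_sqrt hS.le])
    (by rw [hb]; linarith)
  have hd : dd b p = √(1 + ∑ i ∈ s, lor b.1 (v i) ^ 2) := by
    rw [dd, hp, lor_smul_right, hb]
    field_simp
    rw [Real.sq_sqrt hS.le]
  refine ⟨p, fun i hi => by rw [hp, lor_smul_left, hv i hi, mul_zero], ?_, ?_⟩
  · rw [hd, Real.sq_sqrt hS.le]
  · rw [hd, hp, smul_smul, mul_inv_cancel₀ hs.ne', one_smul, hy]; abel

/-- sets with a coarse nearest point projection -/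
def Proj (l : ℝ) (S : Set (Hyp n)) : Prop :=
  ∀ b : Hyp n, ∃ p ∈ S, ∀ z ∈ S, dd b p * dd p z ≤ l * dd b z

/-- closed half-space -/
def hs (w : V n) : Set (Hyp n) := {x | 0 ≤ lor x.1 w}

lemma proj_hs {w : V n} (hw : lor w w = 1) : Proj 1 (hs w) := by
  intro b
  by_cases hb : 0 ≤ lor b.1 w
  · exact ⟨b, hb, fun z _ => by simp⟩
  obtain ⟨p, h1, -, h3⟩ := exists_proj (Finset.univ : Finset Unit) (fun _ => w) (by simpa using hw)
    (by simp) b
  simp only [Finset.univ_unique, Finset.sum_singleton] at h3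
  refine ⟨p, (h1 () (Finset.mem_univ _)).ge, fun z hz => ?_⟩
  have := congrArg (fun y => lor y z.1) h3
  simp only [lor_add_left, lor_smul_left, lor_eq_neg_dd, lor_comm w] at this
  have hz' : 0 ≤ lor z.1 w := hz
  nlinarith [mul_nonneg (neg_nonneg.2 (not_le.1 hb).le) hz']

lemma Proj.mono {l l' : ℝ} {S : Set (Hyp n)} (h : Proj l S) (hl : l ≤ l') : Proj l' S := by
  intro b
  obtain ⟨p, hp, h⟩ := h b
  exact ⟨p, hp, fun z hz => (h z hz).trans (by have := dd_pos b z; gcongr)⟩

/-- disjointness of the open half-spaces of `a` and `b`, in algebraic form -/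
def Dis (a b : V n) : Prop := ∀ p : Hyp n, lor p.1 a + lor p.1 b ≤ 0

lemma Dis.symm {a b : V n} (h : Dis a b) : Dis b a := fun p => by linarith [h p]

lemma exists_pos_of_spacelike (x : Hyp n) {y : V n} (h : lor x.1 y = 0) (hy : y ≠ 0) :
    ∃ p : Hyp n, 0 < lor p.1 y := by
  have h1 : 0 < lor y y := by
    by_contra h1
    exact hy (perp_eq_zero x h (not_lt.1 h1))
  have hs : 0 < √(1 + lor y y) := Real.sqrt_pos.2 (by linarith)
  refine ⟨⟨√(1 + lor y y) • x.1 + y, isH_of x ?_ ?_⟩, ?_⟩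
  · simp only [lor_add_left, lor_add_right, lor_smul_left, lor_smul_right, lor_self, h,
      lor_comm y x.1]
    have := Real.mul_self_sqrt (show 0 ≤ 1 + lor y y by linarith)
    linarith
  · simp [h, hs]
  · simp [h, h1]

lemma Dis.eq_neg {a b : V n} (h : Dis a b) {x : Hyp n} (hx : 0 ≤ lor x.1 a + lor x.1 b) :
    b = -a := by
  by_contra hne
  obtain ⟨p, hp⟩ := exists_pos_of_spacelike x (y := a + b) (by simpa using le_antisymm (h x) hx)
    fun h0 => hne (eq_neg_of_add_eq_zero_right h0)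
  have := h p
  simp at hp
  linarith

lemma Dis.causal {a b : V n} (h : Dis a b) : lor (a + b) (a + b) ≤ 0 := by
  by_contra h1
  push Not at h1
  set y := a + b with hy
  have hs := Real.sqrt_pos.2 h1
  obtain ⟨p, hp, -, -⟩ := exists_proj (Finset.univ : Finset Unit) (fun _ => (√(lor y y))⁻¹ • y)
    (by
      intro _ _
      simp only [lor_smul_left, lor_smul_right]
      field_simp
      rw [Real.sq_sqrt h1.le]) (by simp) (e0 : Hyp n)
  have h2 : lor p.1 y = 0 := by simpa [hs.ne'] using hp () (Finset.mem_univ _)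
  have := h.eq_neg (x := p) (by rw [← lor_add_right, ← hy, h2])
  rw [hy, this] at h1
  simp at h1

lemma Dis.lor_le {a b : V n} (h : Dis a b) (ha : lor a a = 1) (hb : lor b b = 1) :
    lor a b ≤ -1 := by
  have := h.causal
  simp only [lor_add_left, lor_add_right, ha, hb, lor_comm b a] at this
  linarith

lemma dis_or {a b : V n} (ha : lor a a = 1) (hb : lor b b = 1) (h : lor a b ≤ -1) :
    Dis a b ∨ Dis (-a) (-b) := by
  rcases causal_or (y := a + b) (by
    simp only [lor_add_left, lor_add_right, ha, hb, lor_comm b a]; linarith) with h | h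
  · exact Or.inl fun p => by simpa using h p
  · exact Or.inr fun p => by have := h p; simp at this ⊢; linarith

lemma abs_lt_one_of_not_dis {a b : V n} (ha : lor a a = 1) (hb : lor b b = 1) (h1 : ¬Dis a b)
    (h2 : ¬Dis (-a) b) (h3 : ¬Dis a (-b)) (h4 : ¬Dis (-a) (-b)) : |lor a b| < 1 := by
  rw [abs_lt]
  constructor
  · by_contra h
    rcases dis_or ha hb (not_lt.1 h) with h | h
    exacts [h1 h, h4 h]
  · by_contra h
    rcases dis_or (a := -a) (b := b) (by simpa using ha) hb (by simpa using h) with h | h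
    · exact h2 h
    · exact h3 (by simpa using h)

/-- the feet of the common perpendicular of two disjoint walls -/
lemma Dis.exists_feet {a b : V n} (h : Dis a b) (ha : lor a a = 1) (hb : lor b b = 1)
    (hK : lor a b < -1) : ∃ x x' : Hyp n, dd x x' = -lor a b ∧ lor x.1 a = 0 ∧ lor x.1 b < 0 ∧
      (∀ p ∈ hs a, dd x x' * dd p x ≤ dd p x') ∧ ∀ p ∈ hs b, dd x x' * dd p x' ≤ dd p x := by
  set K := -lor a b with hKd
  have hab : lor a b = -K := by rw [hKd]; ring
  have hK1 : 1 < K := by linarith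
  have hS : 0 < K ^ 2 - 1 := by nlinarith
  have hs := Real.sqrt_pos.2 hS
  have hs2 := Real.sq_sqrt hS.le
  set s := √(K ^ 2 - 1)
  obtain ⟨m, hm⟩ : ∃ m : Hyp n, m.1 = (√(2 * K - 2))⁻¹ • (a + b) := by
    refine exists_norm (e0 : Hyp n) (Real.sqrt_pos.2 (by linarith)) ?_ ?_
    · rw [Real.sq_sqrt (by linarith)]
      simp only [lor_add_left, lor_add_right, ha, hb, lor_comm b a, hab]; ring
    · rcases (h e0).lt_or_eq with h' | h'
      · simpa using h'
      · have := h.eq_neg h'.ge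
        rw [this] at hK
        simp [ha] at hK
  have hpos : 0 < (√(2 * K - 2))⁻¹ := inv_pos.2 (Real.sqrt_pos.2 (by linarith))
  obtain ⟨x, hx⟩ := exists_norm m hs (y := b + K • a) (by
    simp only [lor_add_left, lor_add_right, lor_smul_left, lor_smul_right, ha, hb, lor_comm b a,
      hab, hs2]; ring) (by
    rw [hm, lor_smul_left]
    refine mul_neg_of_pos_of_neg hpos ?_
    simp only [lor_add_left, lor_add_right, lor_smul_right, ha, hb, lor_comm b a, hab]
    nlinarith)
  obtain ⟨x', hx'⟩ := exists_norm m hs (y := a + K • b) (by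
    simp only [lor_add_left, lor_add_right, lor_smul_left, lor_smul_right, ha, hb, lor_comm b a,
      hab, hs2]; ring) (by
    rw [hm, lor_smul_left]
    refine mul_neg_of_pos_of_neg hpos ?_
    simp only [lor_add_left, lor_add_right, lor_smul_right, ha, hb, lor_comm b a, hab]
    nlinarith)
  have hd : dd x x' = K := by
    simp only [dd, hx, hx', lor_add_left, lor_add_right, lor_smul_left, lor_smul_right, ha, hb,
      lor_comm b a, hab]
    field_simp
    rw [hs2]; ring
  refine ⟨x, x', hd, ?_, ?_, fun p hp => ?_, fun p hp => ?_⟩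
  · simp [hx, ha, lor_comm b a, hab]
  · rw [hx, lor_smul_left]
    refine mul_neg_of_pos_of_neg (inv_pos.2 hs) ?_
    simp only [lor_add_left, lor_smul_left, hb, hab]
    nlinarith
  · have hp' : 0 ≤ lor p.1 a := hp
    rw [hd]
    simp only [dd, hx, hx', lor_add_right, lor_smul_right]
    nlinarith [mul_nonneg (mul_nonneg (inv_pos.2 hs).le hS.le) hp']
  · have hp' : 0 ≤ lor p.1 b := hp
    rw [hd]
    simp only [dd, hx, hx', lor_add_right, lor_smul_right]
    nlinarith [mul_nonneg (mul_nonneg (inv_pos.2 hs).le hS.le) hp']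

lemma exists_mem_hs_of_not_dis {a b : V n} (ha : lor a a = 1) (hb : lor b b = 1)
    (h : ¬Dis a b) : ∃ z, z ∈ hs a ∧ z ∈ hs b := by
  by_cases hK : lor a b < -1
  · rcases dis_or ha hb hK.le with h' | h'
    · exact absurd h' h
    · obtain ⟨x, -, -, h1, h2, -⟩ := h'.exists_feet (by simpa using ha) (by simpa using hb)
        (by simpa using hK)
      exact ⟨x, by simpa [hs] using h1.le, by simpa [hs] using h2.le⟩
  unfold Dis at h
  push Not at h hK
  obtain ⟨p, hp⟩ := h
  wlog hpb : lor p.1 b ≤ lor p.1 a generalizing a b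
  · obtain ⟨z, h1, h2⟩ := this hb ha (by rwa [lor_comm]) (by linarith) (not_le.1 hpb).le
    exact ⟨z, h2, h1⟩
  by_cases h0 : 0 ≤ lor p.1 b
  · exact ⟨p, h0.trans hpb, h0⟩
  obtain ⟨q, h1, -, h3⟩ := exists_proj (Finset.univ : Finset Unit) (fun _ => b)
    (by simpa using hb) (by simp) p
  simp only [Finset.univ_unique, Finset.sum_singleton] at h3
  refine ⟨q, ?_, (h1 () (Finset.mem_univ _)).ge⟩
  have := congrArg (fun y => lor y a) h3
  simp only [lor_add_left, lor_smul_left, lor_comm b a] at this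
  have h4 : 0 ≤ dd p q * lor q.1 a := by nlinarith
  exact le_of_mul_le_mul_left (by simpa using h4) (dd_pos p q)

/-! isometries -/

lemma smul_val (g : Isom n) (x : Hyp n) : (g • x).1 = g • x.1 := rfl

@[simp] lemma lor_smul_smul (g : Isom n) (x y : V n) : lor (g • x) (g • y) = lor x y :=
  g.2.2.1 x y

lemma lor_smul_eq (g : Isom n) (x y : V n) : lor (g • x) y = lor x (g⁻¹ • y) := by
  rw [← lor_smul_smul g x, smul_inv_smul]

@[simp] lemma dd_smul_smul (g : Isom n) (x y : Hyp n) : dd (g • x) (g • y) = dd x y := by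
  simp only [dd, smul_val, lor_smul_smul]

lemma isom_smul_comm (g : Isom n) (c : ℝ) (x : V n) : g • c • x = c • g • x :=
  map_smul g.1 c x

instance : ContinuousConstSMul (Isom n) (Hyp n) where
  continuous_const_smul g :=
    Continuous.subtype_mk (g.1.toLinearMap.continuous_of_finiteDimensional.comp
      continuous_subtype_val) _

lemma Dis.smul {a b : V n} (h : Dis a b) (g : Isom n) : Dis (g • a) (g • b) := fun p => by
  have := h (g⁻¹ • p)
  simpa only [smul_val, lor_smul_eq, inv_inv] using this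

/-! walls and groups -/

/-- a symmetric locally finite family of unit spacelike vectors -/
structure Walls (W : Set (V n)) : Prop where
  unit : ∀ w ∈ W, lor w w = 1
  neg : ∀ w ∈ W, -w ∈ W
  fin : ∀ R : ℝ, {w | w ∈ W ∧ |lor (e0 : Hyp n).1 w| ≤ R}.Finite

lemma Walls.fin' {W : Set (V n)} (h : Walls W) (x : Hyp n) (R : ℝ) :
    {w | w ∈ W ∧ |lor x.1 w| ≤ R}.Finite := by
  refine (h.fin (dd e0 x * (1 + 2 * R))).subset fun w hw => ⟨hw.1, ?_⟩
  refine (abs_lor_transfer e0 x (h.unit w hw.1)).trans ?_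
  have := dd_pos e0 x
  have := hw.2
  gcongr

def Cocpt (Γ : Subgroup (Isom n)) : Prop := ∃ R : ℝ, ∀ x : Hyp n, ∃ γ ∈ Γ, dd e0 (γ • x) ≤ R

def Invt (Γ : Subgroup (Isom n)) (W : Set (V n)) : Prop := ∀ γ ∈ Γ, ∀ w ∈ W, γ • w ∈ W

def Rigid (Γ : Subgroup (Isom n)) (W : Set (V n)) (B : ℝ) : Prop :=
  (∀ γ ∈ Γ, ∀ a ∈ W, ∀ b ∈ W, |lor a b| ≤ B → |lor a (γ • b)| ≤ B → lor a (γ • b) = lor a b) ∧
    ∀ γ ∈ Γ, ∀ a ∈ W, |lor a (γ • a)| ≤ B → γ • a = a

def Displ (Γ : Subgroup (Isom n)) (B : ℝ) : Prop :=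
  ∀ γ ∈ Γ, ∀ x : Hyp n, dd x (γ • x) ≤ B → γ = 1

end

end Pool.Agent.URC
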