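import Pool.Agent.P.MP_797ab1_gt.Sd

/-! TASK B1: homotopy invariance, Mayer-Vietoris lemmas, excision. -/

open Set Topology Function

namespace Pool.Agent.URC

variable {X Y : Type*} [TopologicalSpace X] [TopologicalSpace Y] {k : ℕ}

theorem HH.eq_zero_of_forall {A : Set X} (h : ∀ x, x ∈ A) (α : HH A k) : α = 0 := by
  obtain ⟨c, hc, rfl⟩ := HH.exists_mk α
  exact HH.mk_eq_zero.2 (mem_Bd_of_ChIn (ChIn_mono (fun x _ => h x) _ (mem_ChIn_univ c)))

/-- chains in the range of an embedding lift -/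
theorem exists_push (j : C(X, Y)) (hj : IsInducing j) {c : Ch Y k} (hc : c ∈ ChIn (range j) k) :
    ∃ c' : Ch X k, push j c' = c := by
  refine ChIn_induction (P := fun c => ∃ c' : Ch X k, push j c' = c) hc ⟨0, map_zero _⟩ ?_ ?_
  · rintro _ _ ⟨a, rfl⟩ ⟨b, rfl⟩
    exact ⟨a + b, map_add _ _ _⟩
  · intro σ m hσ
    choose τ hτ using hσ
    refine ⟨Finsupp.single ⟨τ, hj.continuous_iff.2 ?_⟩ m, ?_⟩
    · exact σ.continuous.congr fun t => (hτ t).symm
    · rw [push_single]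
      congr 1
      ext t
      exact hτ t

theorem mem_ChIn_of_push (j : C(X, Y)) (hj : Injective j) {T : Set Y} {c : Ch X k}
    (h : push j c ∈ ChIn T k) : c ∈ ChIn (j ⁻¹' T) k := by
  rintro σ hσ _ ⟨t, rfl⟩
  have hi : Injective fun σ : C(Dl k, X) => j.comp σ := fun σ τ e =>
    ContinuousMap.ext fun t => hj (ContinuousMap.congr_fun e t)
  refine mem_ChIn.1 h (j.comp σ) (Finsupp.mem_support_iff.2 ?_) ⟨t, rfl⟩
  rw [push, Finsupp.lmapDomain_apply, Finsupp.mapDomain_apply hi]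
  exact Finsupp.mem_support_iff.1 hσ

theorem HH.map_homotopy (f g : C(X, Y)) (H : C(X × unitInterval, Y))
    (h0 : ∀ x, H (x, 0) = f x) (h1 : ∀ x, H (x, 1) = g x) {A : Set X} {B : Set Y}
    (hA : ∀ x ∈ A, ∀ t, H (x, t) ∈ B) (hf : MapsTo f A B) (hg : MapsTo g A B) (α : HH A k) :
    HH.map f hf α = HH.map g hg α := by
  obtain ⟨c, hc, rfl⟩ := HH.exists_mk α
  obtain ⟨d, -, hd⟩ := homotopic_chain f g H h0 h1 (S := univ) (S' := univ) (fun _ _ _ => trivial)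
    hA (mem_ChIn_univ c) hc
  rw [HH.map_mk, HH.map_mk, HH.mk_eq_mk]
  refine mem_Bd.2 ⟨-d, ?_⟩
  convert Submodule.neg_mem _ hd using 1
  rw [map_neg]; abel

theorem mv_inj {S T U : Set X} (hS : IsOpen S) (hT : IsOpen T) (hU : S ∩ T ⊆ U) (hUS : U ⊆ S)
    (hUT : U ⊆ T) (h0 : ∀ γ : HH (S ∪ T) (k + 1), γ = 0) (α : HH U k)
    (h1 : HH.res hUS α = 0) (h2 : HH.res hUT α = 0) : α = 0 := by
  obtain ⟨c, hc, rfl⟩ := HH.exists_mk α
  rw [HH.res_mk, HH.mk_eq_zero, mem_Bd] at h1 h2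
  obtain ⟨d1, h1⟩ := h1
  obtain ⟨d2, h2⟩ := h2
  have e : bd (d1 - d2) = (c - bd d2) - (c - bd d1) := by rw [map_sub]; abel
  have h3 : bd (d1 - d2) ∈ ChIn (S ∪ T) (k + 1) := e ▸ Submodule.sub_mem _
    (ChIn_mono subset_union_right _ h2) (ChIn_mono subset_union_left _ h1)
  obtain ⟨f, hf⟩ := mem_Bd.1 (HH.mk_eq_zero.1 (h0 (HH.mk _ h3)))
  have e2 : bd (d1 - d2 - bd f) = (c - bd d2) - (c - bd d1) := by rw [map_sub, bd_bd, sub_zero, e]
  obtain ⟨h, -, a, ha, b, hb, e3⟩ := small hS hT hf (e2 ▸ Submodule.sub_mem _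
    (Submodule.mem_sup_right h2) (Submodule.mem_sup_left h1))
  rw [e3, map_add, map_add, bd_bd, zero_add] at e2
  refine HH.mk_eq_zero.2 (mem_Bd.2 ⟨d1 - a, ChIn_mono hU _ (mem_ChIn_inter.2 ⟨?_, ?_⟩)⟩)
  · convert Submodule.add_mem _ h1 (bd_mem_ChIn ha) using 1
    rw [map_sub]; abel
  · convert Submodule.sub_mem _ h2 (bd_mem_ChIn hb) using 1
    rw [map_sub, eq_sub_of_add_eq e2]; abel

theorem mv_glue {S T : Set X} (hS : IsOpen S) (hT : IsOpen T) (α : HH S k) (β : HH T k)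
    (h : HH.res subset_union_left α = HH.res subset_union_right β) :
    ∃ γ : HH (S ∩ T) k, HH.res inter_subset_left γ = α ∧ HH.res inter_subset_right γ = β := by
  obtain ⟨c1, h1, rfl⟩ := HH.exists_mk α
  obtain ⟨c2, h2, rfl⟩ := HH.exists_mk β
  rw [HH.res_mk, HH.res_mk, HH.mk_eq_mk, mem_Bd] at h
  obtain ⟨d, hd⟩ := h
  have e : bd (c1 - c2 - bd d) = bd c1 - bd c2 := by rw [map_sub, bd_bd, sub_zero, map_sub]
  obtain ⟨h, -, a, ha, b, hb, e3⟩ := small hS hT hd (e ▸ Submodule.sub_mem _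
    (Submodule.mem_sup_left h1) (Submodule.mem_sup_right h2))
  rw [e3, map_add, map_add, bd_bd, zero_add] at e
  refine ⟨HH.mk (c1 - a) (mem_ChIn_inter.2 ⟨?_, ?_⟩), ?_, ?_⟩
  · rw [map_sub]
    exact Submodule.sub_mem _ h1 (bd_mem_ChIn ha)
  · convert Submodule.add_mem _ h2 (bd_mem_ChIn hb) using 1
    rw [map_sub, eq_sub_of_add_eq e]; abel
  · rw [HH.res_mk, HH.mk_eq_mk]
    refine mem_Bd_of_ChIn ?_
    convert Submodule.neg_mem _ ha using 1
    abel
  · rw [HH.res_mk, HH.mk_eq_mk]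
    refine mem_Bd.2 ⟨d + h, ?_⟩
    convert hb using 1
    rw [map_add, ← sub_eq_iff_eq_add'.2 e3]; abel

theorem delta_inj {S T : Set X} (hS0 : ∀ γ : HH S (k + 1), γ = 0)
    (hT0 : ∀ γ : HH T (k + 1), γ = 0) {c : Ch X (k + 2)} {a b : Ch X (k + 1)}
    (ha : a ∈ ChIn S (k + 1)) (hb : b ∈ ChIn T (k + 1)) (h : bd c = a + b)
    (h0 : a ∈ Bd (S ∩ T) (k + 1)) : c ∈ Bd (S ∪ T) (k + 2) := by
  obtain ⟨e, he⟩ := mem_Bd.1 h0
  obtain ⟨h1, h2⟩ := mem_ChIn_inter.1 he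
  have k1 : bd e ∈ ChIn S (k + 1) := by
    convert Submodule.sub_mem _ ha h1 using 1
    abel
  have k2 : bd (c - e) ∈ ChIn T (k + 1) := by
    convert Submodule.add_mem _ hb h2 using 1
    rw [map_sub, h]; abel
  have := Submodule.add_mem _
    (Bd_mono subset_union_right _ (HH.mk_eq_zero.1 (hT0 (HH.mk _ k2))))
    (Bd_mono (subset_union_left (t := T)) _ (HH.mk_eq_zero.1 (hS0 (HH.mk _ k1))))
  rwa [sub_add_cancel] at this

theorem delta_wd {S T : Set X} (hS : IsOpen S) (hT : IsOpen T) {c : Ch X (k + 2)}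
    {a b : Ch X (k + 1)} (ha : a ∈ ChIn S (k + 1)) (hb : b ∈ ChIn T (k + 1)) (h : bd c = a + b)
    (hc : c ∈ Bd (S ∪ T) (k + 2)) : a ∈ Bd (S ∩ T) (k + 1) := by
  obtain ⟨d, hd⟩ := mem_Bd.1 hc
  have e : bd (c - bd d) = a + b := by rw [map_sub, bd_bd, sub_zero, h]
  obtain ⟨h, -, a', ha', b', hb', e3⟩ := small hS hT hd (e ▸ Submodule.add_mem _
    (Submodule.mem_sup_left ha) (Submodule.mem_sup_right hb))
  rw [e3, map_add, map_add, bd_bd, zero_add] at e
  refine mem_Bd.2 ⟨a', mem_ChIn_inter.2 ⟨Submodule.sub_mem _ ha (bd_mem_ChIn ha'), ?_⟩⟩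
  convert Submodule.sub_mem _ (bd_mem_ChIn hb') hb using 1
  rw [eq_sub_of_add_eq e]; abel

/-- every relative cycle of `(X, S ∪ T)` is homologous to one whose boundary splits -/
theorem delta_exists {S T : Set X} (hS : IsOpen S) (hT : IsOpen T) {c : Ch X (k + 2)}
    (hc : bd c ∈ ChIn (S ∪ T) (k + 1)) :
    ∃ c' : Ch X (k + 2), ∃ a ∈ ChIn S (k + 1), ∃ b ∈ ChIn T (k + 1),
      c - c' ∈ ChIn (S ∪ T) (k + 2) ∧ bd c' = a + b := by
  obtain ⟨d, hd, a, ha, b, hb, e⟩ := small hS hT hc (by simp)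
  exact ⟨c - d, a, ha, b, hb, by simpa using hd, by rw [map_sub, e]; abel⟩

theorem excision (j : C(X, Y)) (hj : IsOpenEmbedding j) {A : Set X} {T : Set Y} (hT : IsOpen T)
    (hc : ∀ y, y ∈ range j ∨ y ∈ T) (hA : ∀ x, j x ∈ T → x ∈ A) (h : MapsTo j A T) :
    Bijective (HH.map j h : HH A k → HH T k) := by
  have hu : ∀ {m : ℕ} (c : Ch Y m), c ∈ ChIn (range j ∪ T) m := fun c =>
    ChIn_mono (fun y _ => hc y) _ (mem_ChIn_univ c)
  have hp : ∀ {m : ℕ} (c : Ch X m), push j c ∈ ChIn T m → c ∈ ChIn A m := fun c h =>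
    ChIn_mono hA _ (mem_ChIn_of_push j hj.injective h)
  constructor
  · refine (injective_iff_map_eq_zero _).2 fun α hα => ?_
    obtain ⟨c, hc, rfl⟩ := HH.exists_mk α
    rw [HH.map_mk, HH.mk_eq_zero, mem_Bd] at hα
    obtain ⟨d, hd⟩ := hα
    have e : bd d = push j c - (push j c - bd d) := by abel
    obtain ⟨h, -, a, ha, b, hb, e3⟩ := small hj.isOpen_range hT (hu d) (e ▸ Submodule.sub_mem _
      (Submodule.mem_sup_left (push_mem_ChIn j (mapsTo_range _ univ) (mem_ChIn_univ c)))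
      (Submodule.mem_sup_right hd))
    obtain ⟨a', rfl⟩ := exists_push j hj.isInducing ha
    refine HH.mk_eq_zero.2 (mem_Bd.2 ⟨a', hp _ ?_⟩)
    convert Submodule.add_mem _ hd (bd_mem_ChIn hb) using 1
    rw [e3, map_add, map_add, bd_bd, map_sub, bd_push]; abel
  · intro β
    obtain ⟨c, hc, rfl⟩ := HH.exists_mk β
    obtain ⟨h, -, a, ha, b, hb, e3⟩ := small hj.isOpen_range hT (hu c) (Submodule.mem_sup_right hc)
    obtain ⟨a', rfl⟩ := exists_push j hj.isInducing ha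
    refine ⟨HH.mk a' (hp _ ?_), ?_⟩
    · convert Submodule.sub_mem _ hc (bd_mem_ChIn hb) using 1
      rw [e3, map_add, map_add, bd_bd, bd_push]; abel
    · rw [HH.map_mk, HH.mk_eq_mk]
      refine mem_Bd.2 ⟨-h, ?_⟩
      convert Submodule.neg_mem _ hb using 1
      rw [e3, map_neg]; abel

/-- excision for a map which is an open embedding near a closed set `K` -/
theorem excision' (f : C(X, Y)) {U : Set X} (hU : IsOpen U)
    (hf : IsOpenEmbedding fun x : U => f x) {K : Set X} (hKU : K ⊆ U) (hK : IsClosed K)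
    (hL : IsClosed (f '' K)) (h : MapsTo f Kᶜ (f '' K)ᶜ) :
    Bijective (HH.map f h : HH Kᶜ k → HH (f '' K)ᶜ k) := by
  let i : C(U, X) := ⟨Subtype.val, continuous_subtype_val⟩
  have h1 : MapsTo i (i ⁻¹' Kᶜ) Kᶜ := mapsTo_preimage _ _
  have b1 := excision (k := k) i hU.isOpenEmbedding_subtypeVal hK.isOpen_compl (fun y => by
    by_cases hy : y ∈ K
    · exact Or.inl ⟨⟨y, hKU hy⟩, rfl⟩
    · exact Or.inr hy) (fun x hx => hx) h1
  have b2 := excision (k := k) (f.comp i) hf hL.isOpen_compl (fun y => by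
    by_cases hy : y ∈ f '' K
    · obtain ⟨x, hx, rfl⟩ := hy
      exact Or.inl ⟨⟨x, hKU hx⟩, rfl⟩
    · exact Or.inr hy) (fun x hx hx' => hx ⟨_, hx', rfl⟩) (h.comp h1)
  refine (Bijective.of_comp_iff _ b1).1 ?_
  convert b2 using 1
  funext α
  exact HH.map_map f i h h1 α

theorem fin_inj [T1Space X] {F : Set X} (hF : F.Finite) (α : HH Fᶜ k)
    (h : ∀ x (hx : Fᶜ ⊆ {x}ᶜ), HH.res hx α = 0) : α = 0 := by
  induction F, hF using Set.Finite.induction_on with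
  | empty => exact HH.eq_zero_of_forall (by simp) α
  | @insert x F hx hF ih =>
    have k1 : (insert x F)ᶜ ⊆ {x}ᶜ := compl_subset_compl.2 (by simp)
    have k2 : (insert x F)ᶜ ⊆ Fᶜ := compl_subset_compl.2 (subset_insert _ _)
    refine mv_inj isOpen_compl_singleton hF.isClosed.isOpen_compl (fun y hy => ?_) k1 k2
      (HH.eq_zero_of_forall fun y => ?_) α (h x k1) (ih _ fun y hy => ?_)
    · rintro (h | h)
      · exact hy.1 h
      · exact hy.2 h
    · by_cases hy : y = x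
      · exact Or.inr (hy ▸ hx)
      · exact Or.inl hy
    · rw [HH.res_res]
      exact h y _

/-- the reduced homology of the subspace `A` vanishes in degree `k` -/
def Acyc (A : Set X) (k : ℕ) : Prop :=
  ∀ c ∈ ChIn A (k + 1), bd c = 0 → ∃ d ∈ ChIn A (k + 2), bd d = c

theorem acyc_union {S T : Set X} (hS : IsOpen S) (hT : IsOpen T) (h1 : Acyc S (k + 1))
    (h2 : Acyc T (k + 1)) (h3 : Acyc (S ∩ T) k) : Acyc (S ∪ T) (k + 1) := by
  intro c hc h0
  obtain ⟨d, hd, a, ha, b, hb, e⟩ := small hS hT hc (by simp [h0])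
  rw [e, map_add, map_add, bd_bd, zero_add] at h0
  obtain ⟨u, hu, e1⟩ := h3 (bd a) (mem_ChIn_inter.2 ⟨bd_mem_ChIn ha, by
    rw [eq_neg_of_add_eq_zero_left h0]
    exact Submodule.neg_mem _ (bd_mem_ChIn hb)⟩) (bd_bd a)
  obtain ⟨u1, u2⟩ := mem_ChIn_inter.1 hu
  obtain ⟨f1, hf1, e2⟩ := h1 (a - u) (Submodule.sub_mem _ ha u1) (by rw [map_sub, e1, sub_self])
  obtain ⟨f2, hf2, e3⟩ := h2 (b + u) (Submodule.add_mem _ hb u2)
    (by rw [map_add, e1, add_comm (bd b), h0])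
  refine ⟨d + f1 + f2, Submodule.add_mem _ (Submodule.add_mem _ hd
    (ChIn_mono subset_union_left _ hf1)) (ChIn_mono subset_union_right _ hf2), ?_⟩
  rw [map_add, map_add, e2, e3, e]; abel

/-- degree as a sum of local degrees over a finite fibre -/
theorem deg_sum {W Q ι : Type*} [TopologicalSpace W] [TopologicalSpace Q] [T1Space X]
    [Fintype ι] (g : C(X, Q)) (y : Q) (x : ι → X) (hx : Injective x)
    (hg : ∀ a, g a = y → a ∈ range x) (j : ι → C(W, X)) (z : W)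
    (hz : ∀ i, j i z = x i) (h1 : ∀ i, MapsTo (j i) {z}ᶜ (range x)ᶜ)
    (h2 : ∀ i, MapsTo (j i) {z}ᶜ {x i}ᶜ) (h3 : ∀ i, MapsTo (g.comp (j i)) {z}ᶜ {y}ᶜ)
    (ω : ι → HH ({z}ᶜ : Set W) k) (μ : HH (∅ : Set X) k)
    (hω : ∀ i, HH.res (empty_subset _) μ = HH.map (j i) (h2 i) (ω i)) :
    HH.map g (mapsTo_empty _ _) μ = ∑ i, HH.map (g.comp (j i)) (h3 i) (ω i) := by
  have hg' : MapsTo g (range x)ᶜ {y}ᶜ := fun a ha h => ha (hg a h)
  have key : HH.res (empty_subset _) μ - ∑ i, HH.map (j i) (h1 i) (ω i) = 0 := by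
    refine fin_inj (finite_range x) _ fun a ha => ?_
    obtain ⟨i₀, rfl⟩ : a ∈ range x := by
      by_contra h
      exact ha h rfl
    rw [map_sub, map_sum, HH.res_res, hω i₀, Finset.sum_eq_single i₀, HH.res_map, sub_self]
    · intro i _ hi
      rw [HH.res_map]
      refine HH.map_eq_zero _ _ (fun w => ?_) _
      by_cases hw : w = z
      · rw [hw, hz]
        exact fun h => hi (hx h)
      · exact ha (h1 i hw)
    · simp
  have := congrArg (HH.map g hg') (sub_eq_zero.1 key)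
  rw [HH.map_res, map_sum] at this
  simpa only [HH.map_map] using this

end Pool.Agent.URC
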