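import Pool.Agent.P.MP_797ab1_gt.MV

/-! TASK E: the space obtained by gluing finitely many simplices along the faces on which given
singular simplices agree. -/

open Set Function Topology

namespace Pool.Agent.URC

universe u

namespace QSp

noncomputable section

section Fin

variable {X : Type*} [TopologicalSpace X]

/-- replace a simplex by the constant simplex at its first vertex, with one more vertex -/
def cst {k : ℕ} : Ch X (k + 1) →ₗ[ℤ] Ch X (k + 2) :=
  Finsupp.lmapDomain ℤ ℤ fun σ => ContinuousMap.const _ (σ (stdSimplex.vertex 0))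

lemma cst_single {k : ℕ} (σ : C(Dl (k + 1), X)) (m : ℤ) :
    cst (Finsupp.single σ m) =
      Finsupp.single (ContinuousMap.const _ (σ (stdSimplex.vertex 0))) m := by
  simp [cst, Finsupp.mapDomain_single]

lemma bd_const {k : ℕ} (x : X) (m : ℤ) :
    bd (Finsupp.single (ContinuousMap.const (Dl (k + 1)) x) m) =
      (∑ i : Fin (k + 1), (-1 : ℤ) ^ (i : ℕ)) • Finsupp.single (ContinuousMap.const (Dl k) x) m := by
  rw [bd_single, Finset.sum_smul]
  rfl

lemma eps_add (k : ℕ) : (∑ i : Fin (k + 1 + 1), (-1 : ℤ) ^ (i : ℕ)) +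
    ∑ i : Fin (k + 1), (-1 : ℤ) ^ (i : ℕ) = 1 := by
  rw [Fin.sum_univ_succ, add_assoc, ← Finset.sum_add_distrib]
  simp [pow_succ]

lemma acyc_finite [T1Space X] {F : Set X} (hF : F.Finite) (k : ℕ) : Acyc F (k + 1) := by
  intro c hc h0
  refine ⟨cst c, map_mem_of_ChIn cst _ (fun σ hσ => ?_) hc, ?_⟩
  · rw [cst_single]
    exact single_mem_ChIn _ fun _ => hσ _
  have key : bd (cst c) + cst (bd c) = c := by
    refine ChIn_induction (P := fun c => bd (cst c) + cst (bd c) = c) hc (by simp) ?_ ?_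
    · intro a b ha hb
      simp only [map_add]
      calc _ = (bd (cst a) + cst (bd a)) + (bd (cst b) + cst (bd b)) := by abel
        _ = _ := by rw [ha, hb]
    · intro σ m hσ
      have hs : (range σ).Subsingleton := by
        by_contra h
        exact (isPreconnected_range σ.continuous).infinite_of_nontrivial
          (not_subsingleton_iff.1 h) (hF.subset (range_subset_iff.2 hσ))
      obtain ⟨x, rfl⟩ : ∃ x, σ = ContinuousMap.const _ x :=
        ⟨σ (stdSimplex.vertex 0), ContinuousMap.ext fun t => hs ⟨t, rfl⟩ ⟨_, rfl⟩⟩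
      rw [cst_single, bd_const, bd_const, map_smul, cst_single]
      simp only [ContinuousMap.const_apply]
      rw [← add_smul, eps_add, one_smul]
  rwa [h0, map_zero, add_zero] at key

lemma acyc_empty (k : ℕ) : Acyc (∅ : Set X) k := by
  intro c hc _
  rw [mem_ChIn_empty.1 hc]
  exact ⟨0, Submodule.zero_mem _, map_zero _⟩

/-- unions of open sets with acyclic intersections -/
lemma acyc_cover {ι : Type*} [Fintype ι] [DecidableEq ι] (V : ι → Set X) (hV : ∀ i, IsOpen (V i))
    (h1 : ∀ I : Finset ι, I.Nonempty → ∀ k, Acyc (⋂ i ∈ I, V i) (k + 1))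
    (h0 : (⋂ i ∈ (Finset.univ : Finset ι), V i) = ∅) (J : Finset ι) :
    ∀ (I : Finset ι) (k : ℕ), (J.card ≤ k ∨ (I ∪ J = Finset.univ ∧ J.card ≤ k + 1)) →
      Acyc ((⋂ i ∈ I, V i) ∩ ⋃ j ∈ J, V j) k := by
  induction J using Finset.induction_on with
  | empty => intro I k _; simpa using acyc_empty k
  | insert a J ha ih =>
    intro I k hk
    rw [Finset.card_insert_of_notMem ha] at hk
    have e1 : (⋂ i ∈ I, V i) ∩ V a = ⋂ i ∈ insert a I, V i := by
      rw [Finset.set_biInter_insert, inter_comm]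
    rw [Finset.set_biUnion_insert, inter_union_distrib_left, e1]
    have o1 : ∀ I : Finset ι, IsOpen (⋂ i ∈ I, V i) := fun I =>
      isOpen_biInter_finset fun i _ => hV i
    cases k with
    | zero =>
      rcases hk with hk | ⟨hk, hk'⟩
      · omega
      obtain rfl : J = ∅ := Finset.card_eq_zero.1 (by omega)
      have : insert a I = Finset.univ := by
        rw [← hk]; ext x; simp
      rw [this, h0]
      simpa using acyc_empty 0
    | succ k =>
      refine acyc_union (o1 _) ((o1 _).inter (isOpen_biUnion fun j _ => hV j))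
        (h1 _ (Finset.insert_nonempty _ _) k) (ih I _ (Or.inl (by omega))) ?_
      have e2 : (⋂ i ∈ insert a I, V i) ∩ ((⋂ i ∈ I, V i) ∩ ⋃ j ∈ J, V j) =
          (⋂ i ∈ insert a I, V i) ∩ ⋃ j ∈ J, V j := by
        rw [← e1, ← inter_assoc, inter_right_comm _ (V a), inter_self]
      rw [e2]
      refine ih _ _ ?_
      rcases hk with hk | ⟨hk, hk'⟩
      · exact Or.inl (by omega)
      · refine Or.inr ⟨?_, by omega⟩
        rw [← hk]; ext x; simp

end Fin

variable {X : Type u} [TopologicalSpace X] {n : ℕ} {U : Type u}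

/-- the gluing relation -/
def st (s : U → C(Dl (n + 1), X)) : Setoid (U × Dl (n + 1)) where
  r p q := p.2 = q.2 ∧ (p.1 = q.1 ∨ ((∃ i, p.2 i = 0) ∧
    ∀ t'' : Dl (n + 1), (∀ i, p.2 i = 0 → t'' i = 0) → s p.1 t'' = s q.1 t''))
  iseqv := by
    refine ⟨fun p => ⟨rfl, Or.inl rfl⟩, ?_, ?_⟩
    · rintro ⟨u, t⟩ ⟨u', t'⟩ ⟨h1, h2⟩
      obtain rfl : t = t' := h1
      refine ⟨rfl, ?_⟩
      rcases h2 with h2 | ⟨h2, h3⟩
      exacts [Or.inl h2.symm, Or.inr ⟨h2, fun t'' h => (h3 t'' h).symm⟩]
    · rintro ⟨u, t⟩ ⟨u', t'⟩ ⟨u'', t''⟩ ⟨h1, h2⟩ ⟨k1, k2⟩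
      obtain rfl : t = t' := h1
      obtain rfl : t = t'' := k1
      refine ⟨rfl, ?_⟩
      rcases h2 with h2 | ⟨h2, h3⟩
      · obtain rfl : u = u' := h2
        exact k2
      rcases k2 with k2 | ⟨-, k3⟩
      · obtain rfl : u' = u'' := k2
        exact Or.inr ⟨h2, h3⟩
      exact Or.inr ⟨h2, fun r h => (h3 r h).trans (k3 r h)⟩

/-- barycentre of the face spanned by `I` -/
def bI (I : Finset (Fin (n + 1))) (hI : I.Nonempty) : Dl (n + 1) :=
  ⟨fun i => if i ∈ I then (I.card : ℝ)⁻¹ else 0, fun i => by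
    dsimp only; split_ifs <;> positivity, by
    have : (I.card : ℝ) ≠ 0 := Nat.cast_ne_zero.2 hI.card_pos.ne'
    simp [Finset.sum_ite_mem, this]⟩

/-- cut-off function -/
def psi (I : Finset (Fin (n + 1))) (t : Dl (n + 1)) : ℝ := ∏ i ∈ I, min 1 ((n + 1) * t i)

lemma coord_nonneg (t : Dl (n + 1)) (i : Fin (n + 1)) : 0 ≤ t i := t.2.1 i

lemma continuous_coord (i : Fin (n + 1)) : Continuous fun t : Dl (n + 1) => t i :=
  (continuous_apply i).comp continuous_subtype_val

lemma psi_mem (I : Finset (Fin (n + 1))) (t : Dl (n + 1)) : 0 ≤ psi I t ∧ psi I t ≤ 1 := by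
  have h : ∀ i ∈ I, 0 ≤ min 1 (((n : ℝ) + 1) * t i) := fun i _ =>
    le_min zero_le_one (mul_nonneg (by positivity) (coord_nonneg t i))
  exact ⟨Finset.prod_nonneg h, Finset.prod_le_one h fun i _ => min_le_left _ _⟩

lemma continuous_psi (I : Finset (Fin (n + 1))) : Continuous (psi I) :=
  continuous_finsetProd _ fun i _ => continuous_const.min (continuous_const.mul (continuous_coord i))

lemma psi_zero {I : Finset (Fin (n + 1))} {t : Dl (n + 1)} {i : Fin (n + 1)} (hi : i ∈ I)
    (h : t i = 0) : psi I t = 0 :=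
  Finset.prod_eq_zero hi (by simp [h])

lemma psi_one {I : Finset (Fin (n + 1))} {t : Dl (n + 1)}
    (h : ∀ i ∈ I, ((n : ℝ) + 1)⁻¹ < t i) : psi I t = 1 :=
  Finset.prod_eq_one fun i hi => min_eq_left (by
    have := h i hi
    rw [inv_lt_iff_one_lt_mul₀' (by positivity)] at this
    exact this.le)

/-- the deformation towards the barycentre of a face -/
def mv (I : Finset (Fin (n + 1))) (hI : I.Nonempty) (t : Dl (n + 1)) (r : unitInterval) :
    Dl (n + 1) :=
  ⟨(1 - r * psi I t) • t.1 + (r * psi I t) • (bI I hI).1,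
    convex_stdSimplex ℝ _ t.2 (bI I hI).2
      (sub_nonneg.2 (mul_le_one₀ r.2.2 (psi_mem I t).1 (psi_mem I t).2))
      (mul_nonneg r.2.1 (psi_mem I t).1) (by ring)⟩

lemma mv_apply (I : Finset (Fin (n + 1))) (hI : I.Nonempty) (t : Dl (n + 1)) (r : unitInterval)
    (i : Fin (n + 1)) : mv I hI t r i = (1 - r * psi I t) * t i +
      (r * psi I t) * if i ∈ I then (I.card : ℝ)⁻¹ else 0 := rfl

lemma continuous_mv (I : Finset (Fin (n + 1))) (hI : I.Nonempty) :
    Continuous fun p : Dl (n + 1) × unitInterval => mv I hI p.1 p.2 := by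
  have h : Continuous fun p : Dl (n + 1) × unitInterval => (p.2 : ℝ) * psi I p.1 :=
    (continuous_subtype_val.comp continuous_snd).mul ((continuous_psi I).comp continuous_fst)
  exact (((continuous_const.sub h).smul (continuous_subtype_val.comp continuous_fst)).add
    (h.smul continuous_const)).subtype_mk _

lemma mv_zero {I : Finset (Fin (n + 1))} (hI : I.Nonempty) {t : Dl (n + 1)} (r : unitInterval)
    {i : Fin (n + 1)} (h : t i = 0) : mv I hI t r i = 0 := by
  rw [mv_apply, h]
  split_ifs with hi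
  · simp [psi_zero hi h]
  · simp

variable [TopologicalSpace U] [DiscreteTopology U] (s : U → C(Dl (n + 1), X))

/-- the inclusion of a simplex -/
def io (u : U) : C(Dl (n + 1), Quotient (st s)) :=
  ⟨fun t => Quotient.mk (st s) (u, t), continuous_quot_mk.comp (by fun_prop)⟩

/-- barycentric coordinates -/
def tau : C(Quotient (st s), Dl (n + 1)) :=
  ⟨Quotient.lift Prod.snd fun _ _ h => h.1, continuous_snd.quotient_lift _⟩

/-- the map to `X` -/
def rr : C(Quotient (st s), X) :=
  ⟨Quotient.lift (fun p => s p.1 p.2) (by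
    rintro ⟨u, t⟩ ⟨u', t'⟩ ⟨h1, h2⟩
    obtain rfl : t = t' := h1
    rcases h2 with h2 | ⟨-, h3⟩
    · obtain rfl : u = u' := h2
      rfl
    · exact h3 t fun _ h => h),
    (continuous_prod_of_discrete_left.2 fun u => (s u).continuous).quotient_lift _⟩

/-- the deformation on the glued space -/
def hmt (I : Finset (Fin (n + 1))) (hI : I.Nonempty) :
    C(Quotient (st s) × unitInterval, Quotient (st s)) :=
  ⟨fun p => Quotient.lift (s := st s) (fun q => io s q.1 (mv I hI q.2 p.2)) (by
      rintro ⟨u, t⟩ ⟨u', t'⟩ ⟨h1, h2⟩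
      obtain rfl : t = t' := h1
      refine Quotient.sound ⟨rfl, ?_⟩
      rcases h2 with h2 | ⟨⟨i, hi⟩, h3⟩
      · exact Or.inl h2
      · exact Or.inr ⟨⟨i, mv_zero hI _ hi⟩, fun t'' h => h3 t'' fun j hj =>
          h j (mv_zero hI _ hj)⟩) p.1, by
    refine IsQuotientMap.continuous_lift_prod_left isQuotientMap_quotient_mk' ?_
    exact continuous_quot_mk.comp ((continuous_fst.comp continuous_fst).prodMk
      ((continuous_mv I hI).comp ((continuous_snd.comp continuous_fst).prodMk continuous_snd)))⟩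

omit [DiscreteTopology U] in
lemma pre_image (u : U) {K : Set (Dl (n + 1))} (hK : ∀ t ∈ K, ∀ i, 0 < t i) :
    Quotient.mk (st s) ⁻¹' (io s u '' K) = {u} ×ˢ K := by
  ext ⟨u', t'⟩
  constructor
  · rintro ⟨t, ht, h⟩
    obtain ⟨h1, h2⟩ := Quotient.exact h
    obtain rfl : t = t' := h1
    rcases h2 with h2 | ⟨⟨i, hi⟩, -⟩
    · exact ⟨h2.symm, ht⟩
    · exact absurd hi (hK t ht i).ne'
  · rintro ⟨h1, h2⟩
    obtain rfl : u' = u := h1
    exact ⟨t', h2, rfl⟩

lemma t1 [Finite U] : T1Space (Quotient (st s)) := by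
  refine ⟨fun q => ?_⟩
  rw [← isQuotientMap_quotient_mk'.isClosed_preimage]
  refine (((finite_univ (α := U)).prod (finite_singleton (tau s q))).subset ?_).isClosed
  rintro ⟨u, t⟩ h
  obtain rfl : Quotient.mk (st s) (u, t) = q := h
  exact ⟨trivial, rfl⟩

lemma acyc_inter [Finite U] (I : Finset (Fin (n + 1))) (hI : I.Nonempty) (k : ℕ) :
    Acyc (⋂ i ∈ I, {q | ((n : ℝ) + 1)⁻¹ < tau s q i}) (k + 1) := by
  have := t1 s
  set S := ⋂ i ∈ I, {q | ((n : ℝ) + 1)⁻¹ < tau s q i} with hS
  have hmem : ∀ u t, io s u t ∈ S ↔ ∀ i ∈ I, ((n : ℝ) + 1)⁻¹ < t i := fun u t => by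
    simp only [hS, mem_iInter, mem_ofPred_eq]; rfl
  intro c hc h0
  by_cases hI' : I.card < n + 1
  swap
  · have : S = ∅ := by
      refine eq_empty_of_forall_notMem fun q hq => ?_
      obtain ⟨⟨u, t⟩, rfl⟩ := Quotient.exists_rep q
      have h := (hmem u t).1 hq
      have hu : I = Finset.univ := Finset.eq_univ_of_card _ (by
        have := I.card_le_univ; simp only [Fintype.card_fin] at this ⊢; omega)
      have := Finset.sum_lt_sum_of_nonempty Finset.univ_nonempty fun i _ =>
        h i (hu ▸ Finset.mem_univ i)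
      have h1 : ∑ i, t i = 1 := t.2.2
      rw [h1] at this
      simp only [Finset.sum_const, Finset.card_univ, Fintype.card_fin, nsmul_eq_mul] at this
      push_cast at this
      rw [mul_inv_cancel₀ (by positivity)] at this
      exact lt_irrefl _ this
    rw [this] at hc ⊢
    exact acyc_empty _ c hc h0
  have hlt : ((n : ℝ) + 1)⁻¹ < (I.card : ℝ)⁻¹ :=
    inv_strictAnti₀ (Nat.cast_pos.2 hI.card_pos) (by exact_mod_cast hI')
  let g : C(Quotient (st s), Quotient (st s)) :=
    (hmt s I hI).comp ⟨fun q => (q, 1), by fun_prop⟩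
  have hb : ∀ u, io s u (bI I hI) ∈ S := fun u => (hmem u _).2 fun i hi => by
    show _ < if i ∈ I then _ else _
    rwa [if_pos hi]
  obtain ⟨d, hd, he⟩ := homotopic_chain (ContinuousMap.id _) g (hmt s I hI) (by
      intro q
      obtain ⟨⟨u, t⟩, rfl⟩ := Quotient.exists_rep q
      show io s u (mv I hI t 0) = io s u t
      congr 1
      ext i
      rw [mv_apply]; simp) (fun _ => rfl) (S := S) (S' := S) (T := ∅) (T' := ∅) (by
      intro q hq r
      obtain ⟨⟨u, t⟩, rfl⟩ := Quotient.exists_rep q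
      have h := (hmem u t).1 hq
      refine (hmem u (mv I hI t r)).2 fun i hi => ?_
      rw [mv_apply, psi_one h, if_pos hi, mul_one]
      have h1 := h i hi
      have h2 := r.2.1
      have h3 := r.2.2
      rcases h2.eq_or_lt with h2 | h2
      · rw [← h2]; simpa using h1
      · nlinarith [mul_nonneg (sub_nonneg.2 h3) (sub_nonneg.2 h1.le), mul_pos h2 (sub_pos.2 hlt)])
    (fun _ h => h.elim) hc (by rw [h0]; exact Submodule.zero_mem _)
  rw [mem_ChIn_empty, push_id] at he
  have hg : MapsTo g S (range fun u => io s u (bI I hI)) := by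
    intro q hq
    obtain ⟨⟨u, t⟩, rfl⟩ := Quotient.exists_rep q
    refine ⟨u, ?_⟩
    show io s u _ = io s u (mv I hI t 1)
    congr 1
    ext i
    rw [mv_apply, psi_one ((hmem u t).1 hq)]
    simp only [Icc.coe_one, mul_one, sub_self, zero_mul, one_mul, zero_add]
    rfl
  obtain ⟨d', hd', he'⟩ := acyc_finite (finite_range _) k _ (push_mem_ChIn g hg hc)
    (by rw [bd_push, h0, map_zero])
  refine ⟨d' - d, Submodule.sub_mem _ (ChIn_mono (range_subset_iff.2 hb) _ hd') hd, ?_⟩
  rw [map_sub, he']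
  rw [← sub_eq_zero, ← he]; abel

lemma acyc_compl [Finite U] :
    Acyc (range fun u => io s u stdSimplex.barycenter)ᶜ n := by
  have h := acyc_cover (fun i : Fin (n + 1) => {q | ((n : ℝ) + 1)⁻¹ < tau s q i})
    (fun i => isOpen_lt continuous_const ((continuous_coord i).comp (tau s).continuous))
    (acyc_inter s) (by
      refine eq_empty_of_forall_notMem fun q hq => ?_
      simp only [mem_iInter, mem_ofPred_eq] at hq
      have := Finset.sum_lt_sum_of_nonempty Finset.univ_nonempty hq
      have h1 : ∑ i, tau s q i = 1 := (tau s q).2.2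
      rw [h1] at this
      simp only [Finset.sum_const, Finset.card_univ, Fintype.card_fin, nsmul_eq_mul] at this
      push_cast at this
      rw [mul_inv_cancel₀ (by positivity)] at this
      exact lt_irrefl _ this) Finset.univ ∅ n (Or.inr ⟨by simp, by simp⟩)
  convert h using 1
  ext q
  obtain ⟨⟨u, t⟩, rfl⟩ := Quotient.exists_rep q
  have hb : ∀ i, (stdSimplex.barycenter : Dl (n + 1)) i = ((n : ℝ) + 1)⁻¹ := fun i => by
    show ((Fintype.card (Fin (n + 1)) : ℕ) : ℝ)⁻¹ = _
    simp
  simp only [mem_compl_iff, mem_range, not_exists, Finset.notMem_empty, iInter_of_empty,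
    iInter_univ, univ_inter, Finset.mem_univ, iUnion_true, mem_iUnion, mem_ofPred_eq]
  show _ ↔ ∃ i, _ < t i
  constructor
  · intro h
    by_contra hc
    push Not at hc
    refine h u ?_
    have h1 : ∑ i, t i = ∑ i, (stdSimplex.barycenter : Dl (n + 1)) i :=
      t.2.2.trans (stdSimplex.barycenter : Dl (n + 1)).2.2.symm
    have h2 := (Finset.sum_eq_sum_iff_of_le fun i _ => (hb i).symm ▸ hc i).1 h1
    have : t = stdSimplex.barycenter := by
      ext i; exact h2 i (Finset.mem_univ i)
    rw [this]; rfl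
  · rintro ⟨i, hi⟩ u' h
    have h1 : stdSimplex.barycenter = t := (Quotient.exact h).1
    rw [← h1, hb] at hi
    exact lt_irrefl _ hi

end

end QSp

open QSp in
theorem exists_Q {X : Type u} [TopologicalSpace X] {n : ℕ} (hn : 0 < n) {U : Type u} [Finite U]
    (s : U → C(Dl (n + 1), X)) :
    ∃ (Q : Type u) (_ : TopologicalSpace Q) (ι : U → C(Dl (n + 1), Q)) (r : C(Q, X)),
      (∀ u t, r (ι u t) = s u t) ∧
      (∀ u u' t t', ι u t = ι u' t' ↔ t = t' ∧ (u = u' ∨ ((∃ i, t i = 0) ∧
        ∀ t'' : Dl (n + 1), (∀ i, t i = 0 → t'' i = 0) → s u t'' = s u' t''))) ∧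
      (∀ u (K : Set (Dl (n + 1))), IsClosed K → (∀ t ∈ K, ∀ i, 0 < t i) →
        ∀ h : MapsTo (ι u) Kᶜ (ι u '' K)ᶜ,
          Bijective (HH.map (ι u) h : HH Kᶜ n → HH (ι u '' K)ᶜ n)) ∧
      ∀ α : HH (∅ : Set Q) n,
        (∀ u, HH.res (empty_subset {ι u stdSimplex.barycenter}ᶜ) α = 0) → α = 0 := by
  let : TopologicalSpace U := ⊥
  have : DiscreteTopology U := ⟨rfl⟩
  have := t1 s
  refine ⟨Quotient (st s), inferInstance, QSp.io s, QSp.rr s, fun _ _ => rfl,
    fun u u' t t' => Quotient.eq (r := st s), fun u K hK hK' h => ?_, fun α hα => ?_⟩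
  · have hO : IsOpen {t : Dl (n + 1) | ∀ i, 0 < t i} := by
      rw [ofPred_forall]
      exact isOpen_iInter_of_finite fun i => isOpen_lt continuous_const (continuous_coord i)
    refine excision' (QSp.io s u) hO ?_ hK' hK ?_ h
    · refine IsOpenEmbedding.of_continuous_injective_isOpenMap
        ((QSp.io s u).continuous.comp continuous_subtype_val)
        (fun a b e => Subtype.ext (Quotient.exact e).1) fun V hV => ?_
      rw [show (fun x : {t : Dl (n + 1) | ∀ i, 0 < t i} => QSp.io s u x) '' V =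
        QSp.io s u '' (Subtype.val '' V) from (image_image _ _ _).symm,
        ← isQuotientMap_quotient_mk'.isOpen_preimage]
      have := pre_image s u (K := Subtype.val '' V) (by rintro _ ⟨x, -, rfl⟩; exact x.2)
      exact this ▸ (isOpen_discrete _).prod (hO.isOpenMap_subtype_val V hV)
    · rw [← isQuotientMap_quotient_mk'.isClosed_preimage]
      exact pre_image s u hK' ▸ (isClosed_discrete _).prod hK
  · have h1 := fin_inj (finite_range fun u => QSp.io s u stdSimplex.barycenter)
      (HH.res (empty_subset _) α) (by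
        intro x hx
        obtain ⟨u, rfl⟩ : x ∈ range fun u => QSp.io s u stdSimplex.barycenter := by
          by_contra h
          exact hx h rfl
        rw [HH.res_res]
        exact hα u)
    obtain ⟨c, hc, rfl⟩ := HH.exists_mk α
    obtain ⟨m, rfl⟩ : ∃ m, n = m + 1 := ⟨n - 1, by omega⟩
    have h0 : bd c = 0 := mem_ChIn_empty.1 hc
    rw [HH.res_mk, HH.mk_eq_zero, mem_Bd] at h1
    obtain ⟨d, hd⟩ := h1
    obtain ⟨d', -, hd'⟩ := acyc_compl s _ hd (by rw [map_sub, h0, bd_bd, sub_zero])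
    rw [HH.mk_eq_zero]
    have : c = bd (d + d') := by rw [map_add, hd']; abel
    rw [this]
    exact bd_mem_Bd _ _

end Pool.Agent.URC
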