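import Pool.Agent.P.MP_797ab1_gt.Glue
import Pool.Agent.P.MP_797ab1_gt.Label
import Pool.Agent.P.MP_797ab1_gt.QSp
import Pool.Agent.P.MP_797ab1_gt.General

/-! The degree computation and the main theorem. -/

open Set Function Topology Pointwise

namespace Pool.Agent.URC

universe u

variable {n : ℕ} {F : Fin n → Set (V n)} {B : ℝ}

/-- the data entering the degree computation -/
structure Dat (F : Fin n → Set (V n)) (Γ : Subgroup (Isom n)) (U Q : Type u)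
    [TopologicalSpace Q] where
  ℓ : V n → Finset (Fin (n + 1))
  st : Set (V n) → U
  ι : U → C(Dl (n + 1), Q)
  g : C(Quo Γ, Q)
  β : C(E n, E n)
  inj : ∀ u u' t t', (∀ i, 0 < t' i) → ι u t = ι u' t' → u = u' ∧ t = t'
  inj' : ∀ u, Injective (ι u)
  emb : IsOpenEmbedding β
  zero : β 0 = half
  rng : ∀ z l, 0 < β z l ∧ β z l < 1
  fib : ∀ u π m, g m = ι u (kap π half) →
    ∃ w o, SFrame F w ∧ Flg ℓ w π ∧ Adj F w o ∧ st o = u ∧ cht Γ w β 0 = m
  loc : ∀ w o π, SFrame F w → Flg ℓ w π → Adj F w o → ∀ z,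
    g (cht Γ w β z) = ι (st o) (kap π (β z))

variable {Γ : Subgroup (Isom n)} {U Q : Type u} [TopologicalSpace Q]

lemma half_pos (π : Equiv.Perm (Fin (n + 1))) (i : Fin (n + 1)) : 0 < kap π half i :=
  kap_pos π (fun _ => by norm_num [half]) i

namespace Dat

variable (D : Dat F Γ U Q)

/-- the fibre over the distinguished point of flag `π` in the simplex `u` -/
def Fb (u : U) (π : Equiv.Perm (Fin (n + 1))) : Set (Quo Γ) := {m | D.g m = D.ι u (kap π half)}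

lemma kb_inj (π : Equiv.Perm (Fin (n + 1))) : Injective ((kap π).comp D.β) :=
  fun z z' h => D.emb.injective (kap_inj π (D.rng z) (D.rng z') h)

lemma cht_zero_eq (hF : Fam F B) (hI : ∀ k, Invt Γ (F k)) {w w' : Fin n → V n} (hw : SFrame F w)
    (hw' : SFrame F w') : cht Γ w D.β 0 = cht Γ w' D.β 0 ↔ ∃ γ ∈ Γ, γ • w = w' := by
  have key : ∀ γ ∈ Γ, ∀ k, lor (γ • (chi w).symm half).1 ((γ • w) k) = 1 / 2 := by
    intro γ _ k
    rw [smul_val, Pi.smul_apply, lor_smul_smul, lor_chi_symm (hw.on hF)]; rfl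
  rw [cht_apply, cht_apply, pr_eq_iff, D.zero]
  constructor
  · rintro ⟨γ, hγ, h⟩
    refine ⟨γ, hγ, sframe_unique hF (hw.smul hI hγ) hw' (key γ hγ) fun k => ?_⟩
    rw [h, lor_chi_symm (hw'.on hF)]; rfl
  · rintro ⟨γ, hγ, rfl⟩
    exact ⟨γ, hγ, eq_chi_symm (hw'.on hF) (key γ hγ)⟩

lemma finite_Fb (hF : Fam F B) (hI : ∀ k, Invt Γ (F k)) (hC : Cocpt Γ) (u : U)
    (π : Equiv.Perm (Fin (n + 1))) : (D.Fb u π).Finite := by
  obtain ⟨R, hR⟩ := hC
  refine ((Finite.pi' fun _ : Fin n => hF.walls.fin (2 * R)).image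
    fun w => cht Γ w D.β 0).subset fun m hm => ?_
  obtain ⟨w, o, h1, -, -, -, rfl⟩ := D.fib u π m hm
  obtain ⟨γ, hγ, h2⟩ := hR ((chi w).symm half)
  refine ⟨γ • w, fun k => ⟨⟨k, (h1.smul hI hγ).1 k⟩, ?_⟩,
    ((D.cht_zero_eq hF hI h1 (h1.smul hI hγ)).2 ⟨γ, hγ, rfl⟩).symm⟩
  refine (abs_lor_transfer e0 (γ • (chi w).symm half) (((h1.smul hI hγ).on hF).1 k)).trans ?_
  rw [smul_val, Pi.smul_apply, lor_smul_smul, lor_chi_symm (h1.on hF)]
  norm_num [half, abs_of_pos]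
  linarith

lemma deg_at (hF : Fam F B) (hI : ∀ k, Invt Γ (F k)) (hC : Cocpt Γ) [T1Space (Quo Γ)]
    (μ : HH (∅ : Set (Quo Γ)) n)
    (hμ : ∀ (w : Fin n → V n) (hi : Injective (cht Γ w D.β)) (z : E n),
      HH.res (empty_subset _) μ =
        ((del w * sgn D.β : ℤˣ) : ℤ) • HH.map (cht Γ w D.β) (mapsTo_pt hi z) (oc {z}))
    (u : U) (π : Equiv.Perm (Fin (n + 1))) (s : ℤˣ)
    (hs : ∀ w o, SFrame F w → Flg D.ℓ w π → Adj F w o → D.st o = u → del w = s)
    (hm : MapsTo ((D.ι u).comp ((kap π).comp D.β)) {0}ᶜ {D.ι u (kap π half)}ᶜ) :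
    HH.map D.g (mapsTo_empty _ _) μ = (((D.Fb u π).ncard : ℤ) * (s * sgn D.β : ℤˣ)) •
      HH.map ((D.ι u).comp ((kap π).comp D.β)) hm (oc {0}) := by
  have hfin := D.finite_Fb hF hI hC u π
  have := hfin.fintype
  choose w o h1 h2 h3 h4 h5 using fun m : D.Fb u π => D.fib u π m.1 m.2
  have hg : ∀ m, D.g.comp (cht Γ (w m) D.β) = (D.ι u).comp ((kap π).comp D.β) := by
    intro m
    ext z
    simpa [h4] using D.loc _ _ _ (h1 m) (h2 m) (h3 m) z
  have hg' : ∀ m z, D.g (cht Γ (w m) D.β z) = D.ι u (kap π (D.β z)) :=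
    fun m z => DFunLike.congr_fun (hg m) z
  have hinj : ∀ m, Injective (cht Γ (w m) D.β) := by
    intro m z z' h
    refine D.kb_inj π (D.inj' u ?_)
    exact (hg' m z).symm.trans ((congrArg D.g h).trans (hg' m z'))
  have k1 : ∀ m, MapsTo (cht Γ (w m) D.β) {0}ᶜ (range (Subtype.val : D.Fb u π → Quo Γ))ᶜ := by
    rintro m z hz ⟨m', e⟩
    refine hm hz ?_
    have := m'.2
    rw [e] at this
    exact (hg' m z).symm.trans this
  have k2 : ∀ m, MapsTo (cht Γ (w m) D.β) {0}ᶜ {m.1}ᶜ :=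
    fun m z hz e => k1 m hz ⟨m, (mem_singleton_iff.1 e).symm⟩
  have k3 : ∀ m, MapsTo (D.g.comp (cht Γ (w m) D.β)) {0}ᶜ {D.ι u (kap π half)}ᶜ :=
    fun m => (hg m).symm ▸ hm
  rw [deg_sum D.g _ (Subtype.val : D.Fb u π → Quo Γ) Subtype.val_injective
    (fun a ha => ⟨⟨a, ha⟩, rfl⟩) (fun m => cht Γ (w m) D.β) 0 h5 k1 k2 k3
    (fun _ => ((s * sgn D.β : ℤˣ) : ℤ) • oc {0}) μ]
  · simp only [map_zsmul]
    rw [Finset.sum_congr rfl fun m _ => congrArg _ (HH.map_congr (hg m) (k3 m) hm _),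
      Finset.sum_const, Finset.card_univ, mul_smul, natCast_zsmul,
      Set.ncard_eq_toFinset_card', Set.toFinset_card]
  · intro m
    have key : ∀ (y : Quo Γ) (_ : cht Γ (w m) D.β 0 = y) (k : MapsTo (cht Γ (w m) D.β) {0}ᶜ {y}ᶜ),
        HH.res (empty_subset _) μ =
          HH.map (cht Γ (w m) D.β) k (((s * sgn D.β : ℤˣ) : ℤ) • oc {0}) := by
      rintro _ rfl k
      rw [hμ (w m) (hinj m) 0, hs _ _ (h1 m) (h2 m) (h3 m) (h4 m), map_zsmul]
    exact key _ (h5 m) _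

lemma ncard_le (hF : Fam F B) (hI : ∀ k, Invt Γ (F k)) (hC : Cocpt Γ)
    (hneg : ∀ w, D.ℓ (-w) = D.ℓ w) (k : Fin n) (π : Equiv.Perm (Fin (n + 1))) {u u' : U}
    (h : ∀ w o, SFrame F w → Flg D.ℓ w π → Adj F w o → D.st o = u → D.st (flip o (w k)) = u') :
    (D.Fb u π).ncard ≤ (D.Fb u' π).ncard := by
  classical
  choose! w o h1 h2 h3 h4 h5 using fun m (hm : m ∈ D.Fb u π) => D.fib u π m hm
  refine ncard_le_ncard_of_injOn (fun m => cht Γ (update (w m) k (-w m k)) D.β 0) ?_ ?_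
    (D.finite_Fb hF hI hC u' π)
  · intro m hm
    have hf : Flg D.ℓ (update (w m) k (-w m k)) π := by
      intro l
      rw [← h2 m hm l]
      by_cases e : l = k
      · subst e; simp [hneg]
      · simp [e]
    have := D.loc _ _ π ((h1 m hm).update k) hf (adj_flip hF (h1 m hm) (h3 m hm) k) 0
    rw [D.zero, h _ _ (h1 m hm) (h2 m hm) (h3 m hm) (h4 m hm)] at this
    exact this
  · intro m hm m' hm' e
    obtain ⟨γ, hγ, e'⟩ := (D.cht_zero_eq hF hI ((h1 m hm).update k) ((h1 m' hm').update k)).1 e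
    rw [← h5 m hm, ← h5 m' hm']
    refine (D.cht_zero_eq hF hI (h1 m hm) (h1 m' hm')).2 ⟨γ, hγ, funext fun l => ?_⟩
    have := congrFun e' l
    by_cases e : l = k
    · subst e; simpa using this
    · simpa [e] using this

end Dat

lemma exists_cdeg (π : Equiv.Perm (Fin (n + 1))) {β : C(E n, E n)} (hβ : IsOpenEmbedding β)
    (h0 : β 0 = half) (h : ∀ z l, 0 < β z l ∧ β z l < 1) : ∃ c : ℤ, c ≠ 0 ∧
      ∀ {U Q : Type u} [TopologicalSpace Q] {ι : U → C(Dl (n + 1), Q)} (hi : ∀ u, Injective (ι u))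
        (u : U) (hm : MapsTo ((ι u).comp ((kap π).comp β)) {0}ᶜ {ι u (kap π half)}ᶜ),
        HH.map ((ι u).comp ((kap π).comp β)) hm (oc {0}) = c • cls hi u _ (half_pos π) := by
  have hm : MapsTo ((kap π).comp β) {0}ᶜ {kap π (β 0)}ᶜ :=
    mapsTo_pt (f := (kap π).comp β) (fun z z' e => hβ.injective (kap_inj π (h z) (h z') e)) 0
  have hd := kap_deg π β hβ h 0 hm
  revert hm
  rw [h0]
  intro hm hd
  obtain ⟨c, hc⟩ := (gen_simplex (K := {kap π half}) isClosed_singleton (by simp) (by simp)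
    (by simpa using half_pos π)).2 (HH.map _ hm (oc {0}))
  refine ⟨c, ?_, fun hi u hm' => ?_⟩
  · rintro rfl
    exact hd (by simpa using hc.symm)
  · rw [← HH.map_map _ _ (mapsTo_pt (hi u) _) hm, ← hc, map_zsmul, HH.map_mk]
    simp only [push_single, ContinuousMap.comp_id, cls]

lemma Ik_last (hn : 0 < n) (π : Equiv.Perm (Fin (n + 1))) :
    (Ik (⟨n - 1, by omega⟩ : Fin n)).map π.toEmbedding = {π (Fin.last n)}ᶜ := by
  ext i
  obtain ⟨j, rfl⟩ := π.surjective i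
  have := j.2
  simp only [Ik, Finset.mem_map_equiv, Equiv.symm_apply_apply, Finset.mem_Iic, Fin.le_def,
    Fin.val_castSucc, Finset.mem_compl, Finset.mem_singleton, π.apply_eq_iff_eq, Fin.ext_iff,
    Fin.val_last]
  omega

theorem urc (hn : 0 < n) (hF : Fam F B) {Γ : Subgroup (Isom n)} (hI : ∀ k, Invt Γ (F k))
    {B' : ℝ} (hD : Displ Γ B') (hB : 100 ≤ B') (hC : Cocpt Γ) (ho : ∀ γ ∈ Γ, osg γ = 1)
    {ℓ : V n → Finset (Fin (n + 1))} (hℓ : Lab F ℓ) (hγ : ∀ γ ∈ Γ, ∀ w ∈ sym F, ℓ (γ • w) = ℓ w)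
    (P : Set (V n) → ℤˣ)
    (hP : ∀ o w, IsOri (sym F) o → w ∈ o → IsOri (sym F) (flip o w) → P (flip o w) = -P o)
    (hs : ∀ w o π, SFrame F w → Flg ℓ w π → Adj F w o → del w * P o = Equiv.Perm.sign π)
    {w₀ : Fin n → V n} {π₀ : Equiv.Perm (Fin (n + 1))} (hw₀ : SFrame F w₀) (hπ₀ : Flg ℓ w₀ π₀)
    {X : Type u} [TopologicalSpace X] [PathConnectedSpace X] (z : Ch X (n + 1)) (hz : bd z = 0) :
    ∃ Γ' ≤ Γ, Γ'.relIndex Γ ≠ 0 ∧ ∃ (μ : Ch (Quo Γ') (n + 1)) (f : C(Quo Γ', X)) (q : ℤ),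
      IsFund n μ ∧ q ≠ 0 ∧ ∃ w : Ch X (n + 2), push f μ - q • z = bd w := by
  classical
  have hW := hF.walls
  obtain ⟨U, _, _, C, htr, z0, hz0⟩ := exists_col hn z hz
  obtain ⟨Q, _, ι, r, hr, hι, hb, hinj⟩ := exists_Q hn C.s
  obtain ⟨st, hst, Γ', hle, hidx, hst'⟩ := exists_states C hW (invt_sym hI) ℓ
    (fun w _ => hℓ.neg w) hγ (fun w hw => hℓ.ne_univ hF hw) fun a ha b hb => hℓ.nested hF ha hb
  obtain ⟨t, ht1, ht2, ht3, ht4⟩ := exists_tm hF hℓ
  have hI' : ∀ k, Invt Γ' (F k) := fun k γ h => hI k γ (hle h)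
  have hD' : Displ Γ' B' := fun γ h => hD γ (hle h)
  have hC' := hC.mono hidx
  have := t2Space_quo hD' hB
  obtain ⟨G, hG⟩ := exists_G hW ι st t (by
    intro o w x h1 h2 h3 h4
    have hw := h1.sub w h2
    obtain ⟨i, hi⟩ : ∃ i, i ∉ ℓ w := by
      by_contra h
      push Not at h
      exact hℓ.ne_univ hF hw (Finset.eq_univ_of_forall h)
    exact (hι _ _ _ _).2 ⟨rfl, Or.inr ⟨⟨i, ht2 x w hw h4 i hi⟩, fun t'' h =>
      (hst o w h1 h2 h3).2.1 t'' fun i hi => h i (ht2 x w hw h4 i hi)⟩⟩)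
  have hGγ : ∀ γ ∈ Γ', ∀ x, G (γ • x) = G x := by
    intro γ h x
    obtain ⟨o, h1, h2⟩ := exists_ori_at hW x
    rw [hG _ _ (h1.smul hW (invt_sym hI') h) (h2.smul γ), hG x o h1 h2, hst' γ h o h1,
      ht1 γ (fun k v => ⟨fun hv => by simpa using hI' k _ (inv_mem h) _ hv, hI' k γ h v⟩)
        (hγ γ (hle h))]
  obtain ⟨g, hg⟩ : ∃ g : C(Quo Γ', Q), ∀ x, g (pr Γ' x) = G x := by
    have hf : FactorsThrough G (pr Γ') := by
      intro x y h
      obtain ⟨γ, h1, rfl⟩ := pr_eq_iff.1 h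
      exact (hGγ γ h1 x).symm
    exact ⟨isQuotientMap_pr.lift G hf, fun x =>
      DFunLike.congr_fun (isQuotientMap_pr.lift_comp G hf) x⟩
  obtain ⟨β, hβ, hβ0, hβ1⟩ := exists_emb (half : E n) (U := {y | ∀ l, 0 < y l ∧ y l < 1}) (by
    refine IsOpen.mem_nhds ?_ fun l => by norm_num [half]
    rw [setOf_forall]
    exact isOpen_iInter_of_finite fun l => isOpen_Ioo.preimage (continuous_apply l))
  have hi : ∀ u, Injective (ι u) := fun u t t' h => ((hι _ _ _ _).1 h).1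
  have hi2 : ∀ u u' t t', (∀ i, 0 < t' i) → ι u t = ι u' t' → u = u' ∧ t = t' := by
    intro u u' t t' h e
    obtain ⟨rfl, e | ⟨⟨i, e⟩, -⟩⟩ := (hι _ _ _ _).1 e
    · exact ⟨e, rfl⟩
    · exact absurd e (h i).ne'
  let D : Dat F Γ' U Q :=
    { ℓ := ℓ, st := st, ι := ι, g := g, β := β, inj := hi2, inj' := hi, emb := hβ, zero := hβ0
      rng := hβ1
      fib := by
        intro u π m hm
        obtain ⟨x, rfl⟩ := pr_surjective m
        obtain ⟨o, h1, h2⟩ := exists_ori_at hW x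
        rw [hg, hG x o h1 h2] at hm
        obtain ⟨e1, e2⟩ := hi2 _ _ _ _ (half_pos π) hm
        obtain ⟨w, k1, k2, k3⟩ := ht4 x π e2
        refine ⟨w, o, k1, k2, adj_of_at hF k1 (fun k => by rw [k3]; norm_num) h1 h2, e1, ?_⟩
        rw [cht_apply, hβ0, ← eq_chi_symm (k1.on hF) (y := half) k3]
      loc := by
        intro w o π k1 k2 k3 z
        obtain ⟨o', h1, h2⟩ := exists_ori_at hW ((chi w).symm (β z))
        have hl := lor_chi_symm (k1.on hF) (β z)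
        have := adj_unique hF k1 k3 (adj_of_at hF k1 (fun k => by rw [hl]; exact hβ1 z k) h1 h2)
        subst this
        rw [cht_apply, hg, hG _ _ h1 h2, ht3 w π k1 k2 _ fun k => by
          rw [hl, abs_of_pos (hβ1 z k).1]; exact (hβ1 z k).2]
        simp only [hl] }
  obtain ⟨c, hc, hfund, hμ⟩ := fund_quo hn hD' hB hC' fun γ h => ho γ (hle h)
  obtain ⟨o₀, ho₀, ho₀'⟩ := exists_ori_at hW ((chi w₀).symm half)
  have hadj₀ : Adj F w₀ o₀ := adj_of_at hF hw₀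
    (fun k => by rw [lor_chi_symm (hw₀.on hF)]; norm_num [half]) ho₀ ho₀'
  have hc0 : ∀ o, IsOri (sym F) o → C.sg (st o) * P o = C.sg (st o₀) * P o₀ := by
    intro o h
    refine ori_induction hW ho₀ (P := fun o => C.sg (st o) * P o = C.sg (st o₀) * P o₀) rfl ?_ h
    intro o w h1 h2 _ h3 ih
    rwa [(hst o w h1 h2 h3).1, hP o w h1 h2 h3, neg_mul_neg] at ih
  set c0 := C.sg (st o₀) * P o₀
  set α : HH (∅ : Set Q) n := HH.map g (mapsTo_empty _ _) (HH.mk c hc) with hα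
  choose d hd using exists_deg hi hb α
  choose cd hcd0 hcd using fun π => exists_cdeg.{u} π hβ hβ0 hβ1
  have hkey : ∀ u π, d u * C.sg u =
      (D.Fb u π).ncard * ((Equiv.Perm.sign π * c0 * sgn β : ℤˣ) * cd π) := by
    intro u π
    have hm : MapsTo ((ι u).comp ((kap π).comp β)) {0}ᶜ {ι u (kap π half)}ᶜ := by
      rw [← hβ0]
      exact mapsTo_pt (f := (ι u).comp ((kap π).comp β)) ((hi u).comp (D.kb_inj π)) 0
    have h1 := D.deg_at hF hI' hC' (HH.mk c hc) (fun w hi z => hμ w β hβ hi z) u π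
      (Equiv.Perm.sign π * c0 * C.sg u) (by
        intro w o k1 k2 k3 k4
        rw [← hs w o π k1 k2 k3, ← hc0 o k3.1, ← show st o = u from k4]
        rcases Int.units_eq_one_or (P o) with e | e <;>
          rcases Int.units_eq_one_or (C.sg (st o)) with e' | e' <;> simp [e, e']) hm
    have h2 := hd u _ (half_pos π)
    rw [hα, HH.res_map] at h2
    have h3 := (gen_cls hi hb u _ (half_pos π)).1
      (h2.symm.trans (h1.trans (by rw [hcd π hi u hm, smul_smul])))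
    rw [h3]
    have : (C.sg u : ℤ) * C.sg u = 1 := by rw [← Units.val_mul, Int.units_mul_self]; rfl
    push_cast
    linear_combination ((D.Fb u π).ncard * (Equiv.Perm.sign π : ℤ) * c0 * sgn β * cd π) * this
  have hN : ∀ u i, (D.Fb u (Equiv.swap i (Fin.last n))).ncard ≤
      (D.Fb (C.lam i u) (Equiv.swap i (Fin.last n))).ncard := by
    intro u i
    refine D.ncard_le hF hI' hC' hℓ.neg ⟨n - 1, by omega⟩ _ fun w o k1 k2 k3 k4 => ?_
    rw [← show st o = u from k4]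
    refine (hst o _ k3.1 (k3.2.1 _) (adj_flip hF k1 k3 _).1).2.2 i ?_
    rw [show ℓ (w _) = _ from k2 _, Ik_last hn, Equiv.swap_apply_right]
  have hq : ∀ u, d u * C.sg u = d (st o₀) * C.sg (st o₀) := by
    intro u
    induction htr (st o₀) u with
    | refl => rfl
    | tail _ h ih =>
      obtain ⟨i, rfl⟩ := h
      rw [← ih, hkey _ (Equiv.swap i (Fin.last n)), hkey _ (Equiv.swap i (Fin.last n))]
      congr 2
      exact le_antisymm (by simpa only [C.lam_lam] using hN (C.lam i _) i) (hN _ i)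
  set q : ℤ := d (st o₀) * C.sg (st o₀) with hqd
  have hq0 : q ≠ 0 := by
    rw [hqd, hkey _ π₀]
    refine mul_ne_zero ?_ (mul_ne_zero (Units.ne_zero _) (hcd0 π₀))
    rw [Nat.cast_ne_zero]
    refine ncard_ne_zero_of_mem (a := cht Γ' w₀ β 0) ?_ (D.finite_Fb hF hI' hC' _ _)
    have := D.loc w₀ o₀ π₀ hw₀ hπ₀ hadj₀ 0
    rwa [D.zero] at this
  have hcyc : bd (∑ u, Finsupp.single (ι u) (C.sg u : ℤ)) = 0 := by
    rw [bd_eq]
    refine Finset.sum_eq_zero fun i _ => smul_eq_zero_of_right _ ?_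
    simp only [map_sum, bdi_single]
    refine Finset.sum_involution (fun u _ => C.lam i u) ?_ ?_ (by simp) fun u _ => C.lam_lam i u
    · intro u _
      have : (ι (C.lam i u)).comp (face i) = (ι u).comp (face i) := by
        ext s
        exact (hι _ _ _ _).2 ⟨rfl, Or.inr ⟨⟨i, face_same i s⟩, fun t'' h =>
          C.s_lam i u t'' (h i (face_same i s))⟩⟩
      rw [this, C.sg_lam, ← Finsupp.single_add]
      simp
    · intro u _ _ e
      have := C.sg_lam i u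
      rw [e] at this
      rcases Int.units_eq_one_or (C.sg u) with h | h <;> rw [h] at this <;> simp at this
  have hfin := hinj (α - q • HH.mk (∑ u, Finsupp.single (ι u) (C.sg u : ℤ)) (by simp [hcyc])) (by
    intro u
    rw [map_sub, map_zsmul, hd u _ bary_pos, HH.res_mk, sub_eq_zero]
    have h1 : d u = q * C.sg u := by
      have : (C.sg u : ℤ) * C.sg u = 1 := by rw [← Units.val_mul, Int.units_mul_self]; rfl
      rw [← hq u, mul_assoc, this, mul_one]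
    rw [h1, mul_smul]
    congr 1
    rw [cls, HH.mk_zsmul, eq_comm, HH.mk_eq_mk, ← Finset.add_sum_erase _ _ (Finset.mem_univ u)]
    refine mem_Bd_of_ChIn ?_
    simp only [Finsupp.smul_single, smul_eq_mul, mul_one, add_sub_cancel_left]
    refine Submodule.sum_mem _ fun u' hu' => single_mem_ChIn _ fun s e => ?_
    exact (Finset.mem_erase.1 hu').1 (hi2 _ _ _ _ bary_pos e).1)
  rw [sub_eq_zero, hα, HH.map_mk, HH.mk_zsmul, HH.mk_eq_mk, mem_Bd] at hfin
  obtain ⟨w1, hw1⟩ := hfin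
  rw [mem_ChIn_empty, sub_eq_zero] at hw1
  refine ⟨Γ', hle, hidx, c, r.comp g, q, hfund, hq0, push r w1 + q • z0, ?_⟩
  have h1 : ∀ u, r.comp (ι u) = C.s u := fun u => ContinuousMap.ext (hr u)
  rw [map_add, map_smul, bd_push, ← hw1, ← hz0, map_sub, map_smul, map_sum, push_push]
  simp only [push_single, h1, smul_sub]
  abel

theorem main (hn : 0 < n) : ∃ Γ : Subgroup (Isom n),
    (∀ g ∈ Γ, ∀ x : Hyp n, g • x = x → g = 1) ∧ ProperlyDiscontinuousSMul Γ (Hyp n) ∧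
      CompactSpace (Quo Γ) ∧ IsURC.{u} n (Quo Γ) := by
  obtain ⟨Γ, W, κ, B, hG, hB, he⟩ := exists_good hn (4 * (n : ℝ) + 100)
  have hF := hG.fam he hB
  set F : Fin n → Set (V n) := fun k => {v : V n | ∃ γ ∈ Γ, γ • ev k = v}
  have hI : ∀ k, Invt Γ (F k) := by
    rintro k γ hγ _ ⟨γ', hγ', rfl⟩
    exact ⟨γ * γ', mul_mem hγ hγ', mul_smul _ _ _⟩
  obtain ⟨Γ₁, l1, i1, ho, P, ε, hP, hε, hsg⟩ := exists_eps hF hI
  have hI1 : ∀ k, Invt Γ₁ (F k) := fun k γ h => hI k γ (l1 h)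
  obtain ⟨Γ₂, l2, i2, ℓ, hℓ, hγ, hfl⟩ := label hn (hG.mono l1 i1) hF hI1 ε hε
  have hG2 := (hG.mono l1 i1).mono l2 i2
  have hfr : Frame F ev := ⟨fun k => ⟨1, one_mem _, one_smul _ _⟩, on_ev.2⟩
  obtain ⟨π₀, hπ₀, -⟩ := hfl _ hfr
  have := t2Space_quo hG2.displ hF.le_B
  have := connectedSpace_quo (Γ := Γ₂)
  refine ⟨Γ₂, fun g hg x hx => hG2.displ g hg x (by rw [hx, dd_self]; linarith [hF.le_B]),
    properlyDiscontinuous hG2.displ hF.le_B, compactSpace_quo hG2.cocpt,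
    isURC_of hn fun X _ _ z hz => ?_⟩
  obtain ⟨Γ', hle, hidx, h⟩ := urc hn hF (fun k γ h => hI1 k γ (l2 h)) hG2.displ hF.le_B hG2.cocpt
    (fun γ h => ho γ (l2 h)) hℓ hγ P hP (by
      intro w o π k1 k2 k3
      obtain ⟨p, h1, h2, h3⟩ := hsg w o k1 k3
      obtain ⟨π', h4, h5⟩ := hfl p h1
      have : Flg ℓ p π := fun k => by
        rw [← k2 k]
        rcases h2 k with e | e
        · rw [e]
        · rw [e, hℓ.neg]
      rw [h3, ← h5, flg_unique this h4])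
    ⟨fun k => Or.inl (hfr.1 k), hfr.2⟩ hπ₀ z hz
  obtain ⟨p, hp, -⟩ := exists_covering hG2.displ hF.le_B hG2.cocpt hle hidx
  exact ⟨Quo Γ', inferInstance, p, connectedSpace_quo, compactSpace_quo (hG2.cocpt.mono hidx),
    t2Space_quo (hG2.mono hle hidx).displ hF.le_B, hp.isLocalHomeomorph, h⟩

end Pool.Agent.URC
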