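import Pool.Agent.P.MP_797ab1_gt.Lor

/-! Orientations of a family of walls, flips and transport. -/

open Set Pointwise

namespace Pool.Agent.URC

noncomputable section

variable {n : ℕ} {W : Set (V n)}

/-- consistent orientations (vertices of the dual cube complex) -/
structure IsOri (W o : Set (V n)) : Prop where
  sub : ∀ w ∈ o, w ∈ W
  tot : ∀ w ∈ W, w ∈ o ∨ -w ∈ o
  cons : ∀ a ∈ o, ∀ b ∈ o, ¬Dis a b
  fin : {w | w ∈ o ∧ lor (e0 : Hyp n).1 w < 0}.Finite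

def flip (o : Set (V n)) (w : V n) : Set (V n) := insert (-w) (o \ {w})

lemma mem_flip {o : Set (V n)} {w a : V n} : a ∈ flip o w ↔ a = -w ∨ (a ∈ o ∧ a ≠ w) := Iff.rfl

lemma dis_neg (a : V n) : Dis a (-a) := fun p => by simp

lemma IsOri.neg_notMem {o : Set (V n)} (h : IsOri W o) {w : V n} (hw : w ∈ o) : -w ∉ o :=
  fun h' => h.cons _ hw _ h' (dis_neg w)

lemma IsOri.neg_mem {o : Set (V n)} (h : IsOri W o) {w : V n} (hw : w ∈ W) (h' : w ∉ o) :
    -w ∈ o := (h.tot w hw).resolve_left h'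

lemma IsOri.ne_neg {o : Set (V n)} (h : IsOri W o) {a b : V n} (ha : a ∈ o) (hb : b ∈ o) :
    a ≠ -b := fun e => h.neg_notMem hb (e ▸ ha)

lemma IsOri.flip_flip {o : Set (V n)} (h : IsOri W o) {w : V n} (hw : w ∈ o) :
    flip (flip o w) (-w) = o := by
  ext a
  simp only [mem_flip, neg_neg]
  constructor
  · rintro (rfl | ⟨rfl | ⟨h1, -⟩, h2⟩)
    exacts [hw, absurd rfl h2, h1]
  · intro ha
    by_cases e : a = w
    · exact Or.inl e
    · exact Or.inr ⟨Or.inr ⟨ha, e⟩, h.ne_neg ha hw⟩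

lemma flip_comm {o : Set (V n)} {a b : V n} (h1 : a ≠ -b) :
    flip (flip o a) b = flip (flip o b) a := by
  have h2 : b ≠ -a := fun e => h1 (by rw [e, neg_neg])
  ext c
  simp only [mem_flip]
  constructor
  · rintro (rfl | ⟨rfl | ⟨h3, h4⟩, h5⟩)
    exacts [Or.inr ⟨Or.inl rfl, h1.symm⟩, Or.inl rfl, Or.inr ⟨Or.inr ⟨h3, h5⟩, h4⟩]
  · rintro (rfl | ⟨rfl | ⟨h3, h4⟩, h5⟩)
    exacts [Or.inr ⟨Or.inl rfl, h2.symm⟩, Or.inl rfl, Or.inr ⟨Or.inr ⟨h3, h5⟩, h4⟩]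

lemma not_dis_self {a : V n} (ha : lor a a = 1) : ¬Dis a a := fun h => by
  linarith [h.lor_le ha ha]

/-- criterion for a flip to be an orientation -/
lemma IsOri.flip (hW : Walls W) {o : Set (V n)} (h : IsOri W o) {w : V n} (hw : w ∈ o)
    (hc : ∀ a ∈ o, a ≠ w → ¬Dis a (-w)) : IsOri W (flip o w) where
  sub := by
    rintro a (rfl | ⟨ha, -⟩)
    exacts [hW.neg _ (h.sub _ hw), h.sub _ ha]
  tot a ha := by
    by_cases e1 : a = -w
    · exact Or.inl (Or.inl e1)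
    by_cases e2 : a = w
    · exact Or.inr (Or.inl (by rw [e2]))
    rcases h.tot a ha with h1 | h1
    · exact Or.inl (Or.inr ⟨h1, e2⟩)
    · exact Or.inr (Or.inr ⟨h1, fun e => e1 (by rw [← show -a = w from e, neg_neg])⟩)
  cons := by
    rintro a (rfl | ⟨ha, ha'⟩) b (rfl | ⟨hb, hb'⟩)
    · exact not_dis_self (hW.unit _ (hW.neg _ (h.sub _ hw)))
    · exact fun hd => hc b hb hb' hd.symm
    · exact hc a ha ha'
    · exact h.cons a ha b hb
  fin := by
    refine (h.fin.insert (-w)).subset ?_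
    rintro a ⟨rfl | ⟨ha, -⟩, h2⟩
    exacts [Or.inl rfl, Or.inr ⟨ha, h2⟩]

lemma IsOri.diamond (hW : Walls W) {o : Set (V n)} {a b : V n}
    (hb : b ∈ o) (hab : a ≠ b) (h1 : IsOri W (URC.flip o a)) (h2 : IsOri W (URC.flip o b))
    (hd : ¬Dis (-a) (-b)) : IsOri W (URC.flip (URC.flip o a) b) := by
  refine h1.flip hW (Or.inr ⟨hb, hab.symm⟩) ?_
  rintro c (rfl | ⟨hc, -⟩) hcb
  · exact hd
  · exact h2.cons c (Or.inr ⟨hc, hcb⟩) _ (Or.inl rfl)

lemma IsOri.diff_finite (hW : Walls W) {o o' : Set (V n)} (h : IsOri W o) (h' : IsOri W o') :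
    (o \ o').Finite := by
  refine ((h.fin.union (hW.fin 0)).union (h'.fin.image Neg.neg)).subset fun w ⟨h1, h2⟩ => ?_
  rcases lt_trichotomy (lor (e0 : Hyp n).1 w) 0 with h3 | h3 | h3
  · exact Or.inl (Or.inl ⟨h1, h3⟩)
  · exact Or.inl (Or.inr ⟨h.sub _ h1, by simp [h3]⟩)
  · exact Or.inr ⟨-w, ⟨h'.neg_mem (h.sub _ h1) h2, by simpa using h3⟩, neg_neg w⟩

lemma IsOri.eq_of_subset (hW : Walls W) {o o' : Set (V n)} (h : IsOri W o) (h' : IsOri W o')
    (hs : o ⊆ o') : o = o' := by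
  refine hs.antisymm fun w hw => ?_
  by_contra h1
  exact h'.neg_notMem hw (hs (h.neg_mem (h'.sub _ hw) h1))

lemma IsOri.exists_flip (hW : Walls W) {o o' : Set (V n)} (h : IsOri W o) (h' : IsOri W o')
    (hne : o ≠ o') : ∃ w ∈ o, w ∉ o' ∧ IsOri W (URC.flip o w) := by
  have hn : (o \ o').Nonempty := by
    rw [diff_nonempty]
    exact fun hs => hne (h.eq_of_subset hW h' hs)
  obtain ⟨w, ⟨h1, h2⟩, h3⟩ := exists_min_image _ (fun w => lor (e0 : Hyp n).1 w)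
    (h.diff_finite hW h') hn
  refine ⟨w, h1, h2, h.flip hW h1 fun a ha haw hd => ?_⟩
  have ha' : a ∉ o' := fun ha' => h'.cons a ha' _ (h'.neg_mem (h.sub _ h1) h2) hd
  have := hd.eq_neg (x := e0) (by simpa using h3 a ⟨ha, ha'⟩)
  exact haw (neg_injective this).symm

lemma IsOri.ncard_flip (hW : Walls W) {o o' : Set (V n)} (h : IsOri W o) (h' : IsOri W o')
    {w : V n} (h1 : w ∈ o) (h2 : w ∉ o') : (URC.flip o w \ o').ncard + 1 = (o \ o').ncard := by
  have : URC.flip o w \ o' = (o \ o') \ {w} := by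
    ext a
    simp only [mem_diff, mem_flip, mem_singleton_iff]
    constructor
    · rintro ⟨rfl | ⟨h3, h4⟩, h5⟩
      exacts [absurd (h'.neg_mem (h.sub _ h1) h2) h5, ⟨⟨h3, h5⟩, h4⟩]
    · rintro ⟨⟨h3, h4⟩, h5⟩
      exact ⟨Or.inr ⟨h3, h5⟩, h4⟩
  rw [this]
  exact ncard_diff_singleton_add_one ⟨h1, h2⟩ (h.diff_finite hW h')

/-- induction along geodesics towards `o'` -/
lemma ori_induction (hW : Walls W) {o' : Set (V n)} (h' : IsOri W o') {P : Set (V n) → Prop}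
    (h0 : P o') (hs : ∀ o w, IsOri W o → w ∈ o → w ∉ o' → IsOri W (flip o w) → P (flip o w) → P o)
    {o : Set (V n)} (h : IsOri W o) : P o := by
  induction hN : (o \ o').ncard generalizing o with
  | zero =>
    by_cases e : o = o'
    · exact e ▸ h0
    obtain ⟨w, h1, h2, -⟩ := h.exists_flip hW h' e
    have := h.ncard_flip hW h' h1 h2
    omega
  | succ N ih =>
    have e : o ≠ o' := by rintro rfl; simp at hN
    obtain ⟨w, h1, h2, h3⟩ := h.exists_flip hW h' e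
    have := h.ncard_flip hW h' h1 h2
    exact hs o w h h1 h2 h3 (ih h3 (by omega))

open Classical in
private def TT {G : Type*} [Group G] (W : Set (V n)) (τ : V n → G) (o0 : Set (V n)) :
    ℕ → Set (V n) → G
  | 0, _ => 1
  | N + 1, o => if h : ∃ w ∈ o, w ∉ o0 ∧ IsOri W (flip o w) then
      TT W τ o0 N (flip o h.choose) * τ h.choose else 1

theorem exists_transport {G : Type*} [Group G] (hW : Walls W) (τ : V n → G)
    (h2 : ∀ w ∈ W, τ w * τ w = 1) (hneg : ∀ w ∈ W, τ (-w) = τ w)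
    (hc : ∀ a ∈ W, ∀ b ∈ W, |lor a b| < 1 → τ a * τ b = τ b * τ a) {o0 : Set (V n)}
    (h0 : IsOri W o0) : ∃ T : Set (V n) → G, T o0 = 1 ∧
      ∀ o w, IsOri W o → w ∈ o → IsOri W (flip o w) → T (flip o w) = T o * τ w := by
  set T : Set (V n) → G := fun o => TT W τ o0 (o \ o0).ncard o with hT
  have key : ∀ N o, IsOri W o → (o \ o0).ncard = N → ∀ w ∈ o, w ∉ o0 → IsOri W (flip o w) →
      T o = T (flip o w) * τ w := by
    intro N
    induction N using Nat.strong_induction_on with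
    | _ N ih =>
    intro o h hN w h1 h3 h4
    have e1 := h.ncard_flip hW h0 h1 h3
    have hex : ∃ w ∈ o, w ∉ o0 ∧ IsOri W (flip o w) := ⟨w, h1, h3, h4⟩
    obtain ⟨k1, k3, k4⟩ := hex.choose_spec
    have e2 := h.ncard_flip hW h0 k1 k3
    have hTo : T o = T (flip o hex.choose) * τ hex.choose := by
      simp only [hT]
      rw [← e2, TT, dif_pos hex]
    rw [hTo]
    generalize hex.choose = w' at *
    by_cases e : w' = w
    · rw [e]
    have n1 := h0.neg_mem (h.sub _ h1) h3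
    have n2 := h0.neg_mem (h.sub _ k1) k3
    have d1 := IsOri.diamond hW k1 (Ne.symm e) h4 k4 (h0.cons _ n1 _ n2)
    have d2 := IsOri.diamond hW h1 e k4 h4 (h0.cons _ n2 _ n1)
    have a1 := ih _ (by omega) _ h4 rfl w' (Or.inr ⟨k1, e⟩) k3 d1
    have a2 := ih _ (by omega) _ k4 rfl w (Or.inr ⟨h1, Ne.symm e⟩) h3 d2
    rw [a1, a2, flip_comm (h.ne_neg k1 h1), mul_assoc, mul_assoc]
    congr 1
    refine hc _ (h.sub _ h1) _ (h.sub _ k1) (abs_lt_one_of_not_dis (hW.unit _ (h.sub _ h1))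
      (hW.unit _ (h.sub _ k1)) (h.cons _ h1 _ k1) ?_ ?_ (h0.cons _ n1 _ n2))
    · exact h4.cons _ (Or.inl rfl) _ (Or.inr ⟨k1, e⟩)
    · exact k4.cons _ (Or.inr ⟨h1, Ne.symm e⟩) _ (Or.inl rfl)
  refine ⟨T, by simp [hT, TT], fun o w h h1 h4 => ?_⟩
  by_cases h3 : w ∈ o0
  · have := key _ _ h4 rfl (-w) (Or.inl rfl) (h0.neg_notMem h3) (by rwa [h.flip_flip h1])
    rwa [h.flip_flip h1, hneg _ (h.sub _ h1)] at this
  · rw [key _ _ h rfl w h1 h3 h4, mul_assoc, h2 _ (h.sub _ h1), mul_one]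

lemma IsOri.fin' (hW : Walls W) {o : Set (V n)} (h : IsOri W o) (x : Hyp n) :
    {w | w ∈ o ∧ lor x.1 w < 0}.Finite := by
  refine (h.fin.union (hW.fin (dd e0 x))).subset fun w ⟨h1, h2⟩ => ?_
  by_cases h3 : lor (e0 : Hyp n).1 w < 0
  · exact Or.inl ⟨h1, h3⟩
  · refine Or.inr ⟨h.sub _ h1, ?_⟩
    rw [abs_of_nonneg (not_lt.1 h3)]
    have := neg_lor_le_dd e0 x (w := -w) (by simpa using hW.unit _ (h.sub _ h1))
      (by simpa using h2.le)
    simpa using this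

lemma smul_flip (γ : Isom n) (o : Set (V n)) (w : V n) : γ • flip o w = flip (γ • o) (γ • w) := by
  ext a
  simp only [mem_smul_set_iff_inv_smul_mem, mem_flip, inv_smul_eq_iff, ne_eq, smul_neg]

lemma IsOri.smul (hW : Walls W) {Γ : Subgroup (Isom n)} (hI : Invt Γ W) {γ : Isom n}
    (hγ : γ ∈ Γ) {o : Set (V n)} (h : IsOri W o) : IsOri W (γ • o) where
  sub := by
    rintro _ ⟨w, hw, rfl⟩
    exact hI γ hγ w (h.sub _ hw)
  tot w hw := by
    simp only [mem_smul_set_iff_inv_smul_mem, smul_neg]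
    exact h.tot _ (hI _ (inv_mem hγ) w hw)
  cons a ha b hb hd := by
    rw [mem_smul_set_iff_inv_smul_mem] at ha hb
    exact h.cons _ ha _ hb (hd.smul γ⁻¹)
  fin := by
    refine ((h.fin' hW (γ⁻¹ • e0)).image (γ • ·)).subset ?_
    rintro _ ⟨⟨w, hw, rfl⟩, h2⟩
    refine ⟨w, ⟨hw, ?_⟩, rfl⟩
    rwa [smul_val, lor_smul_eq, inv_inv]

lemma exists_ker {G H : Type*} [Group G] [Group H] [Finite H] (Γ : Subgroup G) (ρ : Γ →* H) :
    ∃ Γ' ≤ Γ, Γ'.relIndex Γ ≠ 0 ∧ ∀ γ ∈ Γ', ∀ h : γ ∈ Γ, ρ ⟨γ, h⟩ = 1 := by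
  refine ⟨ρ.ker.map Γ.subtype, Subgroup.map_subtype_le _, ?_, ?_⟩
  · have : (ρ.ker.map Γ.subtype).subgroupOf Γ = ρ.ker :=
      Subgroup.comap_map_eq_self_of_injective Γ.subtype_injective _
    rw [Subgroup.relIndex, this]
    exact Subgroup.FiniteIndex.index_ne_zero
  · rintro _ ⟨γ, hγ, rfl⟩ h
    exact hγ

/-- the orientation `o` is adapted to the point `x` -/
def At (x : Hyp n) (o : Set (V n)) : Prop := ∀ w ∈ o, 0 ≤ lor x.1 w

lemma exists_ori_at (hW : Walls W) (x : Hyp n) : ∃ o, IsOri W o ∧ At x o := by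
  have hne : ∀ w ∈ W, w ≠ -w := fun w hw e => by
    have h1 := hW.unit w hw
    have : lor w w = -lor w w := by conv_lhs => rw [e, lor_neg_left, ← e]
    linarith
  refine ⟨{w | w ∈ W ∧ (0 < lor x.1 w ∨ (lor x.1 w = 0 ∧ WellOrderingRel w (-w)))}, ⟨?_, ?_, ?_, ?_⟩,
    ?_⟩
  · exact fun w hw => hw.1
  · intro w hw
    rcases lt_trichotomy (lor x.1 w) 0 with h | h | h
    · exact Or.inr ⟨hW.neg w hw, Or.inl (by simpa using h)⟩
    · rcases trichotomous_of WellOrderingRel w (-w) with h' | h' | h'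
      · exact Or.inl ⟨hw, Or.inr ⟨h, h'⟩⟩
      · exact absurd h' (hne w hw)
      · exact Or.inr ⟨hW.neg w hw, Or.inr ⟨by simpa using h, by simpa using h'⟩⟩
    · exact Or.inl ⟨hw, Or.inl h⟩
  · rintro a ⟨-, ha⟩ b ⟨-, hb⟩ hd
    have h1 : 0 ≤ lor x.1 a := ha.elim le_of_lt fun h => h.1.ge
    have h2 : 0 ≤ lor x.1 b := hb.elim le_of_lt fun h => h.1.ge
    obtain rfl := hd.eq_neg (x := x) (by linarith)
    simp only [lor_neg_right, neg_neg] at hb h2
    rcases ha with ha | ha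
    · linarith
    rcases hb with hb | hb
    · linarith [ha.1]
    exact asymm_of WellOrderingRel ha.2 hb.2
  · refine (hW.fin (dd e0 x)).subset ?_
    rintro w ⟨⟨h1, h2⟩, h3⟩
    refine ⟨h1, ?_⟩
    rw [abs_of_neg h3]
    exact neg_lor_le_dd e0 x (hW.unit w h1) (h2.elim le_of_lt fun h => h.1.ge)
  · rintro w ⟨-, h2⟩
    exact h2.elim le_of_lt fun h => h.1.ge

lemma At.smul {x : Hyp n} {o : Set (V n)} (h : At x o) (γ : Isom n) : At (γ • x) (γ • o) := by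
  rintro _ ⟨w, hw, rfl⟩
  simpa only [smul_val, lor_smul_smul] using h w hw

/-- transport is invariant under a subgroup of finite index -/
theorem exists_transport' {G : Type*} [Group G] [Finite G] (hW : Walls W) {Γ : Subgroup (Isom n)}
    (hI : Invt Γ W) (τ : V n → G)
    (h2 : ∀ w ∈ W, τ w * τ w = 1) (hneg : ∀ w ∈ W, τ (-w) = τ w)
    (hc : ∀ a ∈ W, ∀ b ∈ W, |lor a b| < 1 → τ a * τ b = τ b * τ a)
    (hγ : ∀ γ ∈ Γ, ∀ w ∈ W, τ (γ • w) = τ w) : ∃ T : Set (V n) → G,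
      (∀ o w, IsOri W o → w ∈ o → IsOri W (flip o w) → T (flip o w) = T o * τ w) ∧
      ∃ Γ' ≤ Γ, Γ'.relIndex Γ ≠ 0 ∧ ∀ γ ∈ Γ', ∀ o, IsOri W o → T (γ • o) = T o := by
  obtain ⟨o0, h0, -⟩ := exists_ori_at hW e0
  obtain ⟨T, hT0, hT⟩ := exists_transport hW τ h2 hneg hc h0
  have key : ∀ γ ∈ Γ, ∀ o, IsOri W o → T (γ • o) = T (γ • o0) * T o := by
    intro γ hγ' o h
    refine ori_induction hW h0 (P := fun o => T (γ • o) = T (γ • o0) * T o) (by simp [hT0]) ?_ h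
    intro o w h h1 _ h3 ih
    rw [smul_flip, hT _ _ (h.smul hW hI hγ') (smul_mem_smul_set h1)
      (smul_flip γ o w ▸ h3.smul hW hI hγ'), hT _ _ h h1 h3, hγ γ hγ' w (h.sub _ h1),
      ← mul_assoc] at ih
    exact mul_right_cancel ih
  obtain ⟨Γ', h1, h3, h4⟩ := exists_ker Γ
    ({ toFun := fun γ => T (γ.1 • o0)
       map_one' := by simpa using hT0
       map_mul' := fun a b => by
        rw [Subgroup.coe_mul, mul_smul, key a a.2 _ (h0.smul hW hI b.2)] } : Γ →* G)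
  refine ⟨T, hT, Γ', h1, h3, fun γ hγ' o h => ?_⟩
  have : T (γ • o0) = 1 := h4 γ hγ' (h1 hγ')
  rw [key γ (h1 hγ') o h, this, one_mul]

/-- there are finitely many orientations with a coarse centre in a given ball -/
lemma finite_ori (hW : Walls W) (R L : ℝ) (hL : 0 ≤ L) :
    {o | IsOri W o ∧ ∃ x, dd e0 x ≤ R ∧ ∀ w ∈ o, -L ≤ lor x.1 w}.Finite := by
  have key : ∀ o, IsOri W o → ∀ x : Hyp n, dd e0 x ≤ R → (∀ w ∈ o, -L ≤ lor x.1 w) → ∀ w ∈ o,
      -(R * (1 + 2 * L)) ≤ lor (e0 : Hyp n).1 w := by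
    intro o h x h1 h2 w hw
    have hu := hW.unit w (h.sub w hw)
    have h5 := dd_pos e0 x
    by_cases h3 : 0 ≤ lor x.1 w
    · have := neg_lor_le_dd e0 x hu h3
      nlinarith
    · have h4 := abs_lor_transfer e0 x hu
      rw [abs_of_neg (not_le.1 h3)] at h4
      have h6 := h2 w hw
      have : dd e0 x * (1 + 2 * -lor x.1 w) ≤ R * (1 + 2 * L) := by
        gcongr <;> linarith
      linarith [neg_abs_le (lor (e0 : Hyp n).1 w)]
  refine Finite.of_finite_image (f := fun o => o ∩ {w | w ∈ W ∧ |lor (e0 : Hyp n).1 w| ≤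
    R * (1 + 2 * L)}) ((hW.fin (R * (1 + 2 * L))).finite_subsets.subset ?_) ?_
  · rintro _ ⟨o, -, rfl⟩
    exact inter_subset_right
  · rintro o ⟨h, x, h1, h2⟩ o' ⟨h', x', h1', h2'⟩ e
    refine h.eq_of_subset hW h' fun w hw => ?_
    by_contra hn
    have a1 := key o h x h1 h2 w hw
    have a2 := key o' h' x' h1' h2' _ (h'.neg_mem (h.sub w hw) hn)
    simp only [lor_neg_right] at a2
    have : w ∈ o' ∩ {w | w ∈ W ∧ |lor (e0 : Hyp n).1 w| ≤ R * (1 + 2 * L)} := by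
      beta_reduce at e
      rw [← e]
      exact ⟨hw, h.sub w hw, abs_le.2 ⟨a1, by linarith⟩⟩
    exact hn this.1

end

end Pool.Agent.URC
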