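import Mathlib

/-!
Definitions used in the statement: singular chains with integer coefficients, fundamental
cycles, URC spaces, the hyperboloid model of hyperbolic space and its orientation-preserving
isometries.
-/

open Set

namespace Pool.Agent.URC

noncomputable section

/-- The standard simplex with `k` vertices (of dimension `k - 1`). -/
abbrev Dl (k : ℕ) : Type := stdSimplex ℝ (Fin k)

/-- Singular simplices with `k` vertices. -/
abbrev Sx (X : Type*) [TopologicalSpace X] (k : ℕ) := C(Dl k, X)

/-- Integral singular chains on simplices with `k` vertices: `Ch X (n + 1)` is the group of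
singular `n`-chains of `X`. -/
abbrev Ch (X : Type*) [TopologicalSpace X] (k : ℕ) := Sx X k →₀ ℤ

/-- The face map omitting the vertex `i`. -/
def face {k : ℕ} (i : Fin (k + 1)) : C(Dl k, Dl (k + 1)) :=
  ⟨stdSimplex.map i.succAbove, stdSimplex.continuous_map _⟩

variable {X Y : Type*} [TopologicalSpace X] [TopologicalSpace Y]

/-- The singular boundary: the alternating sum of the faces. -/
def boundary {k : ℕ} (c : Ch X (k + 1)) : Ch X k :=
  c.sum fun σ m => ∑ i : Fin (k + 1), Finsupp.single (σ.comp (face i)) ((-1) ^ (i : ℕ) * m)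

/-- The chain map induced by a continuous map. -/
def induced {k : ℕ} (f : C(X, Y)) (c : Ch X k) : Ch Y k :=
  Finsupp.mapDomain (fun σ => f.comp σ) c

/-- All simplices of the chain `c` lie in `A`. -/
def LiesIn (A : Set X) {k : ℕ} (c : Ch X k) : Prop := ∀ σ ∈ c.support, range σ ⊆ A

/-- `c` is a relative boundary of the pair `(X, A)`: a boundary plus a chain in `A`. -/
def IsRelBdry (A : Set X) {k : ℕ} (c : Ch X k) : Prop :=
  ∃ d : Ch X (k + 1), LiesIn A (c - boundary d)

/-- `μ` is a fundamental cycle in dimension `n`: a cycle whose class in the local homology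
`H_n(M, M - {x})` generates that group and has infinite order, for every point `x`. -/
def IsFundCycle {M : Type*} [TopologicalSpace M] (n : ℕ) (μ : Ch M (n + 1)) : Prop :=
  boundary μ = 0 ∧ ∀ x : M,
    (∀ c : Ch M (n + 1), LiesIn {x}ᶜ (boundary c) → ∃ m : ℤ, IsRelBdry {x}ᶜ (c - m • μ)) ∧
    (∀ m : ℤ, IsRelBdry {x}ᶜ (m • μ) → m = 0)

/-- Universal realisation of cycles in dimension `n`: for every singular `n`-cycle `z` of every
nonempty space `X` there are a finite-sheeted covering `N` of `M`, connected if `X` is
path-connected, a fundamental cycle `μ` of `N`, a map `f : N → X` and an integer `q ≠ 0` with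
`f_* μ` homologous to `q z`. -/
def IsURCSpace.{u} (n : ℕ) (M : Type) [TopologicalSpace M] : Prop :=
  ∀ (X : Type u) [TopologicalSpace X] [Nonempty X] (z : Ch X (n + 1)), boundary z = 0 →
    ∃ (N : Type) (_ : TopologicalSpace N) (p : N → M), IsCoveringMap p ∧ Function.Surjective p ∧
      (∀ y, (p ⁻¹' {y}).Finite) ∧ (PathConnectedSpace X → ConnectedSpace N) ∧
      ∃ (μ : Ch N (n + 1)) (f : C(N, X)) (q : ℤ), IsFundCycle n μ ∧ q ≠ 0 ∧
        ∃ w : Ch X (n + 2), induced f μ - q • z = boundary w

/-- Minkowski space of dimension `n + 1`. -/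
abbrev V (n : ℕ) : Type := Fin (n + 1) → ℝ

/-- The Lorentz form of signature `(n, 1)`. -/
def lor {n : ℕ} (x y : V n) : ℝ := ∑ i : Fin n, x i.succ * y i.succ - x 0 * y 0

/-- The upper sheet of the hyperboloid. -/
def IsH {n : ℕ} (x : V n) : Prop := lor x x = -1 ∧ 0 < x 0

/-- Hyperbolic `n`-space (hyperboloid model). -/
abbrev Hyp (n : ℕ) : Type := {x : V n // IsH x}

/-- `g` is an orientation-preserving isometry of hyperbolic space: the restriction of a matrix
of determinant one preserving the Lorentz form, that is, of an element of `SO⁺(n, 1)`. -/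
def IsIsom {n : ℕ} (g : Equiv.Perm (Hyp n)) : Prop :=
  ∃ A : Matrix (Fin (n + 1)) (Fin (n + 1)) ℝ, A.det = 1 ∧
    (∀ x y, lor (A.mulVec x) (A.mulVec y) = lor x y) ∧ ∀ x : Hyp n, (g x).1 = A.mulVec x.1

end

end Pool.Agent.URC
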