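import Pool.Agent.P.MP_797ab1_gt.MV

/-! Auxiliary file for TASK C: chains in a point, and the suspension isomorphism
`H_{k+1}(ℝ × Y, ℝ × Y - 0 × A) = H_k(Y, Y - A)`. -/

open Set Topology Function

namespace Pool.Agent.URC

noncomputable section

variable {X Y : Type*} [TopologicalSpace X] [TopologicalSpace Y] {k : ℕ}

lemma HH.map_id' {A : Set X} (h : MapsTo (ContinuousMap.id X) A A) (α : HH A k) :
    HH.map (ContinuousMap.id X) h α = α := HH.res_self h α

/-- a homeomorphism of pairs induces a bijection -/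
lemma map_bij_of_inv (f : C(X, Y)) (g : C(Y, X)) {A : Set X} {B : Set Y} (hf : MapsTo f A B)
    (hg : MapsTo g B A) (h1 : ∀ x, g (f x) = x) (h2 : ∀ y, f (g y) = y) :
    Bijective (HH.map f hf : HH A k → HH B k) := by
  have e1 : g.comp f = ContinuousMap.id X := by ext x; exact h1 x
  have e2 : f.comp g = ContinuousMap.id Y := by ext y; exact h2 y
  refine bijective_iff_has_inverse.2 ⟨HH.map g hg, fun α => ?_, fun β => ?_⟩
  · rw [HH.map_map, HH.map_congr e1 _ (mapsTo_id _), HH.map_id']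
  · rw [HH.map_map, HH.map_congr e2 _ (mapsTo_id _), HH.map_id']

/-! ### chains in a point -/

lemma ch_subsingleton [Subsingleton X] (σ : C(Dl k, X)) (c : Ch X k) :
    c = Finsupp.single σ (c σ) := by
  ext τ
  have : τ = σ := by ext t; exact Subsingleton.elim _ _
  subst this
  simp

lemma bd_subsingleton [Subsingleton X] (σ : C(Dl (k + 1), X)) (τ : C(Dl k, X)) (m : ℤ) :
    bd (Finsupp.single σ m) = Finsupp.single τ ((if Even (k + 1) then 0 else 1) * m) := by
  rw [bd_single]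
  have : ∀ i : Fin (k + 1), σ.comp (face i) = τ := fun i => by
    ext t; exact Subsingleton.elim _ _
  simp only [this]
  rw [← Finset.sum_smul, Fin.sum_univ_eq_sum_range (fun i => (-1 : ℤ) ^ i), neg_one_geom_sum,
    Finsupp.smul_single, smul_eq_mul]

lemma vanish_subsingleton [Subsingleton X] (x : X) (α : HH ({x}ᶜ : Set X) (k + 1)) : α = 0 := by
  obtain ⟨c, hc, rfl⟩ := HH.exists_mk α
  have he : ({x}ᶜ : Set X) = ∅ := by
    ext y; simp [Subsingleton.elim y x]
  have hc0 : bd c = 0 := by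
    rw [he] at hc; exact mem_ChIn_empty.1 hc
  rw [HH.mk_eq_zero]
  let σ : ∀ j, C(Dl j, X) := fun j => ContinuousMap.const _ x
  by_cases hk : Even (k + 2)
  · have h3 : ¬ Even (k + 2 + 1) := by simpa [Nat.even_add_one] using hk
    have : c = bd (Finsupp.single (σ (k + 3)) (c (σ (k + 2)))) := by
      rw [bd_subsingleton _ (σ (k + 2)), if_neg h3, one_mul]
      exact ch_subsingleton _ c
    rw [this]
    exact bd_mem_Bd _ _
  · rw [ch_subsingleton (σ (k + 2)) c, bd_subsingleton _ (σ (k + 1)), if_neg hk, one_mul,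
      Finsupp.single_eq_zero] at hc0
    rw [ch_subsingleton (σ (k + 2)) c, hc0, Finsupp.single_zero]
    exact Submodule.zero_mem _

lemma gen_subsingleton [Subsingleton X] (x : X) (σ : C(Dl 1, X))
    (h : bd (Finsupp.single σ (1 : ℤ)) ∈ ChIn ({x}ᶜ : Set X) 0) :
    Gen (HH.mk (Finsupp.single σ 1) h) := by
  have he : ({x}ᶜ : Set X) = ∅ := by
    ext y; simp [Subsingleton.elim y x]
  have key : ∀ c : Ch X 1, c ∈ Bd ({x}ᶜ : Set X) 1 → c = 0 := by
    intro c hc
    obtain ⟨d, hd⟩ := mem_Bd.1 hc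
    rw [he, mem_ChIn_empty] at hd
    rw [ch_subsingleton (ContinuousMap.const _ x) d, bd_subsingleton _ σ,
      if_pos (by decide), zero_mul, Finsupp.single_zero, sub_zero] at hd
    exact hd
  constructor
  · intro a b hab
    simp only [HH.mk_zsmul, HH.mk_eq_mk] at hab
    have := key _ hab
    rw [← sub_smul, Finsupp.smul_single, smul_eq_mul, mul_one, Finsupp.single_eq_zero] at this
    exact sub_eq_zero.1 this
  · intro α
    obtain ⟨c, hc, rfl⟩ := HH.exists_mk α
    refine ⟨c σ, ?_⟩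
    simp only [HH.mk_zsmul, HH.mk_eq_mk]
    rw [Finsupp.smul_single, smul_eq_mul, mul_one, ← ch_subsingleton σ c, sub_self]
    exact Submodule.zero_mem _

/-! ### suspension -/

/-- the complement of the upper half-cylinder over `A` -/
def Up (A : Set Y) : Set (ℝ × Y) := {p | p.2 ∈ A → p.1 < 0}

/-- the complement of the lower half-cylinder over `A` -/
def Dn (A : Set Y) : Set (ℝ × Y) := {p | p.2 ∈ A → 0 < p.1}

lemma isOpen_Up {A : Set Y} (hA : IsClosed A) : IsOpen (Up A) := by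
  have : Up A = (Prod.snd ⁻¹' A)ᶜ ∪ {p | p.1 < 0} := by
    ext p; simp only [Up, mem_ofPred_eq, mem_union, mem_compl_iff, mem_preimage]; tauto
  rw [this]
  exact (hA.preimage continuous_snd).isOpen_compl.union (isOpen_lt continuous_fst continuous_const)

lemma isOpen_Dn {A : Set Y} (hA : IsClosed A) : IsOpen (Dn A) := by
  have : Dn A = (Prod.snd ⁻¹' A)ᶜ ∪ {p | 0 < p.1} := by
    ext p; simp only [Dn, mem_ofPred_eq, mem_union, mem_compl_iff, mem_preimage]; tauto
  rw [this]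
  exact (hA.preimage continuous_snd).isOpen_compl.union (isOpen_lt continuous_const continuous_fst)

omit [TopologicalSpace Y] in
lemma mem_Up_inter_Dn {A : Set Y} {p : ℝ × Y} : p ∈ Up A ∩ Dn A ↔ p.2 ∉ A := by
  simp only [Up, Dn, mem_inter_iff, mem_ofPred_eq]
  constructor
  · rintro ⟨h1, h2⟩ h
    exact lt_asymm (h1 h) (h2 h)
  · intro h
    exact ⟨fun h' => absurd h' h, fun h' => absurd h' h⟩

omit [TopologicalSpace Y] in
lemma mem_Up_union_Dn {A : Set Y} {p : ℝ × Y} : p ∈ Up A ∪ Dn A ↔ (p.2 ∈ A → p.1 ≠ 0) := by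
  simp only [Up, Dn, mem_union, mem_ofPred_eq]
  constructor
  · rintro (h | h) h'
    · exact (h h').ne
    · exact (h h').ne'
  · intro h
    by_cases h' : p.2 ∈ A
    · rcases lt_or_gt_of_ne (h h') with h1 | h1
      · exact Or.inl fun _ => h1
      · exact Or.inr fun _ => h1
    · exact Or.inl fun h1 => absurd h1 h'

lemma vanish_Up (A : Set Y) (α : HH (Up A) k) : α = 0 := by
  let H : C((ℝ × Y) × unitInterval, ℝ × Y) :=
    ⟨fun q => (q.1.1 - (q.2 : ℝ) * (|q.1.1| + 1), q.1.2), by fun_prop⟩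
  let g : C(ℝ × Y, ℝ × Y) := ⟨fun p => (p.1 - (|p.1| + 1), p.2), by fun_prop⟩
  have hg : ∀ p, g p ∈ Up A := fun p _ => by
    change p.1 - (|p.1| + 1) < 0
    linarith [le_abs_self p.1]
  rw [← HH.map_id' (mapsTo_id _) α, HH.map_homotopy (ContinuousMap.id _) g H
    (fun p => by simp [H]) (fun p => by simp [H, g]) ?_ _ (fun p _ => hg p), HH.map_eq_zero _ _ hg]
  intro p hp t h
  have h1 := hp h
  change p.1 - (t : ℝ) * (|p.1| + 1) < 0
  have := mul_nonneg t.2.1 (by positivity : 0 ≤ |p.1| + 1)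
  linarith

lemma vanish_Dn (A : Set Y) (α : HH (Dn A) k) : α = 0 := by
  let H : C((ℝ × Y) × unitInterval, ℝ × Y) :=
    ⟨fun q => (q.1.1 + (q.2 : ℝ) * (|q.1.1| + 1), q.1.2), by fun_prop⟩
  let g : C(ℝ × Y, ℝ × Y) := ⟨fun p => (p.1 + (|p.1| + 1), p.2), by fun_prop⟩
  have hg : ∀ p, g p ∈ Dn A := fun p _ => by
    change 0 < p.1 + (|p.1| + 1)
    linarith [neg_abs_le p.1]
  rw [← HH.map_id' (mapsTo_id _) α, HH.map_homotopy (ContinuousMap.id _) g H
    (fun p => by simp [H]) (fun p => by simp [H, g]) ?_ _ (fun p _ => hg p), HH.map_eq_zero _ _ hg]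
  intro p hp t h
  have h1 := hp h
  change 0 < p.1 + (t : ℝ) * (|p.1| + 1)
  have := mul_nonneg t.2.1 (by positivity : 0 ≤ |p.1| + 1)
  linarith

lemma mapsTo_snd (A : Set Y) :
    MapsTo (ContinuousMap.snd : C(ℝ × Y, Y)) (Up A ∩ Dn A) Aᶜ :=
  fun _ hp => mem_Up_inter_Dn.1 hp

lemma snd_bij (A : Set Y) :
    Bijective (HH.map ContinuousMap.snd (mapsTo_snd A) : HH (Up A ∩ Dn A) k → HH Aᶜ k) := by
  let g : C(Y, ℝ × Y) := ⟨fun y => (0, y), by fun_prop⟩
  have hg : MapsTo g Aᶜ (Up A ∩ Dn A) := fun y hy => mem_Up_inter_Dn.2 hy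
  let H : C((ℝ × Y) × unitInterval, ℝ × Y) :=
    ⟨fun q => ((q.2 : ℝ) * q.1.1, q.1.2), by fun_prop⟩
  refine bijective_iff_has_inverse.2 ⟨HH.map g hg, fun α => ?_, fun β => ?_⟩
  · rw [HH.map_map, HH.map_homotopy (g.comp ContinuousMap.snd) (ContinuousMap.id _) H
      (fun p => by simp [H, g]) (fun p => by simp [H]) ?_ _ (mapsTo_id _), HH.map_id']
    intro p hp t
    have := mem_Up_inter_Dn.1 hp
    exact mem_Up_inter_Dn.2 this
  · rw [HH.map_map, HH.map_congr (g := ContinuousMap.id Y) (by ext y; rfl) _ (mapsTo_id _),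
      HH.map_id']

lemma bd_split_mem {S T : Set X} {c : Ch X (k + 2)} {a b : Ch X (k + 1)}
    (ha : a ∈ ChIn S (k + 1)) (hb : b ∈ ChIn T (k + 1)) (h : bd c = a + b) :
    bd a ∈ ChIn (S ∩ T) k := by
  refine mem_ChIn_inter.2 ⟨bd_mem_ChIn ha, ?_⟩
  have : bd a = -bd b := by
    have h2 := bd_bd c
    rw [h, map_add] at h2
    exact eq_neg_of_add_eq_zero_left h2
  rw [this]
  exact Submodule.neg_mem _ (bd_mem_ChIn hb)

lemma split_mem {S T : Set X} {c : Ch X (k + 2)} {a b : Ch X (k + 1)}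
    (ha : a ∈ ChIn S (k + 1)) (hb : b ∈ ChIn T (k + 1)) (h : bd c = a + b) :
    bd c ∈ ChIn (S ∪ T) (k + 1) := by
  rw [h]
  exact Submodule.add_mem _ (ChIn_mono subset_union_left _ ha) (ChIn_mono subset_union_right _ hb)

/-- vanishing passes to the suspension -/
lemma susp_vanish {A : Set Y} (hA : IsClosed A) (h0 : ∀ β : HH Aᶜ k, β = 0)
    (α : HH (Up A ∪ Dn A) (k + 1)) : α = 0 := by
  obtain ⟨c, hc, rfl⟩ := HH.exists_mk α
  obtain ⟨c', a, ha, b, hb, h1, h2⟩ := delta_exists (isOpen_Up hA) (isOpen_Dn hA) hc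
  have h3 : HH.mk a (bd_split_mem ha hb h2) = 0 :=
    (snd_bij A).1 (by rw [h0 (HH.map _ _ _), map_zero])
  have h4 := delta_inj (vanish_Up A) (vanish_Dn A) ha hb h2 (HH.mk_eq_zero.1 h3)
  rw [HH.mk_eq_zero]
  have : c = (c - c') + c' := by abel
  rw [this]
  exact Submodule.add_mem _ (mem_Bd_of_ChIn h1) h4

/-- generators pass to the suspension -/
lemma susp_gen {A : Set Y} (hA : IsClosed A) {c : Ch (ℝ × Y) (k + 2)} {a b : Ch (ℝ × Y) (k + 1)}
    (ha : a ∈ ChIn (Up A) (k + 1)) (hb : b ∈ ChIn (Dn A) (k + 1)) (h : bd c = a + b)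
    (h' : bd (push ContinuousMap.snd a) ∈ ChIn Aᶜ k)
    (hg : Gen (HH.mk (push ContinuousMap.snd a) h')) :
    Gen (HH.mk c (split_mem ha hb h)) := by
  have hga : Gen (HH.mk a (bd_split_mem ha hb h)) :=
    Gen.of_map (HH.map ContinuousMap.snd (mapsTo_snd A)) (snd_bij A) hg
  constructor
  · intro m m' hm
    simp only [HH.mk_zsmul, HH.mk_eq_mk] at hm
    have h1 : bd (m • c - m' • c) = (m • a - m' • a) + (m • b - m' • b) := by
      rw [map_sub, map_smul, map_smul, h, smul_add, smul_add]; abel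
    have h2 := delta_wd (isOpen_Up hA) (isOpen_Dn hA)
      (Submodule.sub_mem _ (Submodule.smul_mem _ m ha) (Submodule.smul_mem _ m' ha))
      (Submodule.sub_mem _ (Submodule.smul_mem _ m hb) (Submodule.smul_mem _ m' hb)) h1 hm
    refine hga.1 ?_
    simp only [HH.mk_zsmul, HH.mk_eq_mk]
    exact h2
  · intro α
    obtain ⟨c2, hc2, rfl⟩ := HH.exists_mk α
    obtain ⟨c', a', ha', b', hb', h1, h2⟩ := delta_exists (isOpen_Up hA) (isOpen_Dn hA) hc2
    obtain ⟨m, hm⟩ := hga.2 (HH.mk a' (bd_split_mem ha' hb' h2))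
    simp only [HH.mk_zsmul, HH.mk_eq_mk] at hm
    refine ⟨m, ?_⟩
    simp only [HH.mk_zsmul, HH.mk_eq_mk]
    have h3 : bd (m • c - c') = (m • a - a') + (m • b - b') := by
      rw [map_sub, map_smul, h, h2, smul_add]; abel
    have h4 := delta_inj (vanish_Up A) (vanish_Dn A)
      (Submodule.sub_mem _ (Submodule.smul_mem _ m ha) ha')
      (Submodule.sub_mem _ (Submodule.smul_mem _ m hb) hb') h3 hm
    have : m • c - c2 = (m • c - c') - (c2 - c') := by abel
    rw [this]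
    exact Submodule.sub_mem _ h4 (mem_Bd_of_ChIn h1)

/-- the reflection of the first coordinate -/
def flipR : C(ℝ × Y, ℝ × Y) := ⟨fun p => (-p.1, p.2), by fun_prop⟩

lemma flipR_Up (A : Set Y) : MapsTo (flipR : C(ℝ × Y, ℝ × Y)) (Up A) (Dn A) := fun p hp h => by
  have := hp h
  change 0 < -p.1
  linarith

lemma flipR_Dn (A : Set Y) : MapsTo (flipR : C(ℝ × Y, ℝ × Y)) (Dn A) (Up A) := fun p hp h => by
  have := hp h
  change -p.1 < 0
  linarith

lemma flipR_union (A : Set Y) :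
    MapsTo (flipR : C(ℝ × Y, ℝ × Y)) (Up A ∪ Dn A) (Up A ∪ Dn A) := by
  rintro p (hp | hp)
  · exact Or.inr (flipR_Up A hp)
  · exact Or.inl (flipR_Dn A hp)

/-- the reflection acts by `-1` on the suspension -/
lemma susp_flip {A : Set Y} (hA : IsClosed A) (α : HH (Up A ∪ Dn A) (k + 1)) :
    HH.map flipR (flipR_union A) α = -α := by
  obtain ⟨c2, hc2, rfl⟩ := HH.exists_mk α
  obtain ⟨c, a, ha, b, hb, h1, h2⟩ := delta_exists (isOpen_Up hA) (isOpen_Dn hA) hc2
  have e : HH.mk c2 hc2 = HH.mk c (split_mem ha hb h2) := HH.mk_eq_mk.2 (mem_Bd_of_ChIn h1)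
  rw [e, HH.map_mk, HH.mk_neg, HH.mk_eq_mk, sub_neg_eq_add]
  have ha2 : a + push flipR b ∈ ChIn (Up A) (k + 1) :=
    Submodule.add_mem _ ha (push_mem_ChIn _ (flipR_Dn A) hb)
  have hb2 : b + push flipR a ∈ ChIn (Dn A) (k + 1) :=
    Submodule.add_mem _ hb (push_mem_ChIn _ (flipR_Up A) ha)
  have h3 : bd (push flipR c + c) = (a + push flipR b) + (b + push flipR a) := by
    rw [map_add, bd_push, h2, map_add]; abel
  refine delta_inj (vanish_Up A) (vanish_Dn A) ha2 hb2 h3 ?_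
  have h4 : HH.mk _ (bd_split_mem ha2 hb2 h3) = 0 := by
    refine (snd_bij A).1 ?_
    rw [map_zero, HH.map_mk, HH.mk_eq_zero, map_add, push_push]
    have : (ContinuousMap.snd : C(ℝ × Y, Y)).comp flipR = ContinuousMap.snd := by ext p; rfl
    rw [this, ← map_add, ← h2, ← bd_push]
    exact bd_mem_Bd _ _
  exact HH.mk_eq_zero.1 h4

end

end Pool.Agent.URC
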